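import Pool.Agent.LibUB33.LocOrd

/-!
# Moebius transformations: helper lemmas
-/

open Filter Topology UpperHalfPlane
open scoped MatrixGroups

namespace Pool.Agent.LibUB33

theorem denom_ne (g : SL(2, ℝ)) (z : ℍ) : ((g 1 0 : ℝ) : ℂ) * z + ((g 1 1 : ℝ) : ℂ) ≠ 0 := by
  have h := denom_ne_zero (Matrix.SpecialLinearGroup.mapGL ℝ g) z
  simpa [denom] using h

theorem smul_hasStrictDerivAt (g : SL(2, ℝ)) (z : ℍ) :
    HasStrictDerivAt (fun w : ℂ => ((g • ofComplex w : ℍ) : ℂ))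
      (1 / (((g 1 0 : ℝ) : ℂ) * z + ((g 1 1 : ℝ) : ℂ)) ^ 2) z := by
  have h := UpperHalfPlane.hasStrictDerivAt_smul (g := Matrix.SpecialLinearGroup.mapGL ℝ g)
    (by simp) z
  refine (h.congr_deriv ?_)
  simp [denom]

theorem smul_differentiableAt (g : SL(2, ℝ)) {w : ℂ} (hw : 0 < w.im) :
    DifferentiableAt ℂ (fun w : ℂ => ((g • ofComplex w : ℍ) : ℂ)) w :=
  (smul_hasStrictDerivAt g ⟨w, hw⟩).hasDerivAt.differentiableAt

theorem smul_deriv_ne (g : SL(2, ℝ)) (z : ℍ) :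
    deriv (fun w : ℂ => ((g • ofComplex w : ℍ) : ℂ)) z ≠ 0 := by
  rw [(smul_hasStrictDerivAt g z).hasDerivAt.deriv]
  exact one_div_ne_zero (pow_ne_zero 2 (denom_ne g z))

theorem eventually_im_pos (z : ℍ) : ∀ᶠ w in 𝓝 (z : ℂ), 0 < w.im :=
  (isOpen_lt continuous_const Complex.continuous_im).mem_nhds z.im_pos

/-- Local orders along a Moebius transformation. -/
theorem LocOrd.smul {Φ : ℍ → ℂ} (g : SL(2, ℝ)) {z : ℍ} {m : ℤ}
    (h : LocOrd (fun w : ℂ => Φ (ofComplex w)) ((g • z : ℍ) : ℂ) m) :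
    LocOrd (fun w : ℂ => Φ (g • ofComplex w)) z m := by
  have h1 : LocOrd (fun w : ℂ => Φ (ofComplex ((g • ofComplex w : ℍ) : ℂ))) z m := by
    refine LocOrd.comp (f := fun w : ℂ => Φ (ofComplex w))
      (φ := fun w : ℂ => ((g • ofComplex w : ℍ) : ℂ)) ?_ ?_ (smul_deriv_ne g z)
    · simpa using h
    · filter_upwards [eventually_im_pos z] with w hw
      exact smul_differentiableAt g hw
  simpa using h1

end Pool.Agent.LibUB33
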