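import Pool.Agent.LibUB33.BridgeA
import Pool.Agent.LibUB33.Moebius
import Pool.Agent.LibRk3.Dims

/-!
# The Hodge locus and the atypical locus
-/

open Filter Topology UpperHalfPlane
open scoped MatrixGroups
open Pool.Agent.LibRk3 (IsCM IsRat dims_generic dims_cm dims_split dims_cm_split)

namespace Pool.Agent.LibUB33

variable {X : Curve}

/-- The points where the variation splits over `ℝ` are isolated. -/
theorem Variation.isolated (V : Variation X) (hnc : ∃ z w i, V.v z i ≠ V.v w i) (z : ℍ) :
    ∀ᶠ w in 𝓝[≠] z, ¬ ∀ i, (V.v w i).im = 0 := by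
  obtain ⟨m, hm, -⟩ := V.gg_order hnc z
  have h1 := hm.eventually
  have h2 : Tendsto (fun w : ℍ => (w : ℂ)) (𝓝[≠] z) (𝓝[≠] (z : ℂ)) := by
    refine tendsto_nhdsWithin_of_tendsto_nhds_of_eventually_within _ ?_ ?_
    · exact (continuous_coe.tendsto z).mono_left nhdsWithin_le_nhds
    · filter_upwards [self_mem_nhdsWithin] with w hw
      intro h2
      exact hw (UpperHalfPlane.ext h2)
  filter_upwards [h2.eventually h1] with w hw hi
  apply hw.2
  simp only [ofComplex_apply]
  exact (gg_eq_zero_iff (V.τ w).im_pos).2 ⟨hi 0, hi 1⟩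

private theorem countable_algebraic_int :
    {t : ℂ | IsAlgebraic ℤ t}.Countable := Algebraic.countable ℤ ℂ

private theorem isAlgebraic_of_isCM {τ : ℍ} (h : IsCM τ) : IsAlgebraic ℤ (τ : ℂ) := by
  obtain ⟨a, b, c, ha, h⟩ := h
  refine ⟨Polynomial.C a * Polynomial.X ^ 2 + Polynomial.C b * Polynomial.X + Polynomial.C c,
    ?_, ?_⟩
  · intro h0
    apply ha
    have := congrArg (fun p => Polynomial.coeff p 2) h0
    simpa only [Polynomial.coeff_add, Polynomial.coeff_C_mul, Polynomial.coeff_X_pow,
      Polynomial.coeff_X, Polynomial.coeff_C, Polynomial.coeff_zero, if_true, mul_one,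
      OfNat.one_ne_ofNat, OfNat.ofNat_ne_zero, if_false, mul_zero, add_zero] using this
  · simpa using h

private theorem exists_avoid (V : Variation X) (U : Set ℍ) (hU : IsOpen U) (hne : U.Nonempty)
    (C : Set ℂ) (hC : C.Countable) : ∃ z ∈ U, (V.τ z : ℂ) ∉ C := by
  set T : ℂ → ℂ := fun w : ℂ => (V.τ (ofComplex w) : ℂ) with hTdef
  have hS : IsOpen {z : ℂ | 0 < z.im} := isOpen_lt continuous_const Complex.continuous_im
  have hTd : DifferentiableOn ℂ T {z : ℂ | 0 < z.im} := by
    intro z hz
    exact (V.τ_hol ⟨z, hz⟩).differentiableWithinAt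
  have hTa : AnalyticOnNhd ℂ T {z : ℂ | 0 < z.im} := hTd.analyticOnNhd hS
  have hconv : Convex ℝ {z : ℂ | 0 < z.im} := by
    have := (convex_Ioi (0 : ℝ)).linear_preimage Complex.imLm
    exact this
  have hconn : IsPreconnected {z : ℂ | 0 < z.im} := hconv.isPreconnected
  rcases hTa.is_constant_or_isOpen hconn with ⟨w, hw⟩ | hop
  · exfalso
    obtain ⟨z1, z2, h12⟩ := V.τ_nonconst
    apply h12
    have h1 := hw (z1 : ℂ) z1.im_pos
    have h2 := hw (z2 : ℂ) z2.im_pos
    rw [hTdef] at h1 h2
    simp only [ofComplex_apply] at h1 h2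
    exact UpperHalfPlane.ext (h1.trans h2.symm)
  · have hopen : IsOpen (T '' ((fun z : ℍ => (z : ℂ)) '' U)) := by
      apply hop
      · rintro _ ⟨z, -, rfl⟩
        exact z.im_pos
      · exact UpperHalfPlane.isOpenEmbedding_coe.isOpenMap U hU
    have hne' : (T '' ((fun z : ℍ => (z : ℂ)) '' U)).Nonempty := (hne.image _).image _
    have hd : Dense Cᶜ := hC.dense_compl ℝ
    obtain ⟨y, ⟨_, ⟨z, hz, rfl⟩, hy⟩, hyC⟩ := hd.inter_open_nonempty _ hopen hne'
    refine ⟨z, hz, ?_⟩
    have : T (z : ℂ) = (V.τ z : ℂ) := by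
      rw [hTdef]
      simp only [ofComplex_apply]
    rw [← this]
    simp only at hy
    rw [hy]
    exact hyC

theorem Variation.exists_not_cm (V : Variation X) : ∃ z : ℍ, ¬ IsCM (V.τ z) := by
  obtain ⟨z0, -, -⟩ := V.τ_nonconst
  obtain ⟨z, -, hz⟩ := exists_avoid V Set.univ isOpen_univ ⟨z0, trivial⟩ _ countable_algebraic_int
  exact ⟨z, fun h => hz (isAlgebraic_of_isCM h)⟩

theorem Variation.exists_generic (V : Variation X) (h : ¬ V.Split) :
    ∃ z : ℍ, ¬ IsCM (V.τ z) ∧ ¬ IsRat (V.v z) := by
  by_cases hnc : ∃ z w i, V.v z i ≠ V.v w i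
  · obtain ⟨z0, -, -⟩ := V.τ_nonconst
    have hiso := V.isolated hnc z0
    rw [eventually_nhdsWithin_iff, eventually_nhds_iff] at hiso
    obtain ⟨t, ht, hto, hz0⟩ := hiso
    obtain ⟨z, hz, hzC⟩ := exists_avoid V t hto ⟨z0, hz0⟩
      ({t : ℂ | IsAlgebraic ℤ t} ∪ {(V.τ z0 : ℂ)})
      (countable_algebraic_int.union (Set.countable_singleton _))
    refine ⟨z, fun hcm => hzC (Or.inl (isAlgebraic_of_isCM hcm)), ?_⟩
    rintro ⟨r, hr⟩
    have hne : z ≠ z0 := by
      rintro rfl
      exact hzC (Or.inr rfl)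
    apply ht z hz hne
    intro i
    rw [hr i]
    exact Complex.ratCast_im _
  · push Not at hnc
    obtain ⟨z, hz⟩ := V.exists_not_cm
    refine ⟨z, hz, ?_⟩
    rintro ⟨r, hr⟩
    apply h
    refine ⟨r, fun w i => ?_⟩
    rw [hnc w z i]
    exact hr i

private theorem mtDim_le (V : Variation X) (z : ℍ) : V.mtDim z ≤ 6 := by
  unfold Variation.mtDim
  by_cases h1 : IsCM (V.τ z) <;> by_cases h2 : IsRat (V.v z)
  · rw [(dims_cm_split h1 h2).1]; norm_num
  · rw [(dims_cm h1 h2).1]; norm_num
  · rw [(dims_split h1 h2).1]; norm_num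
  · rw [(dims_generic h1 h2).1]

private theorem domDim_le (V : Variation X) (z : ℍ) : V.domDim z ≤ 3 := by
  unfold Variation.domDim
  by_cases h1 : IsCM (V.τ z) <;> by_cases h2 : IsRat (V.v z)
  · rw [(dims_cm_split h1 h2).2]; norm_num
  · rw [(dims_cm h1 h2).2]; norm_num
  · rw [(dims_split h1 h2).2]; norm_num
  · rw [(dims_generic h1 h2).2]

private theorem bdd_mt (V : Variation X) : BddAbove (Set.range V.mtDim) :=
  ⟨6, by rintro _ ⟨z, rfl⟩; exact mtDim_le V z⟩

private theorem bdd_dom (V : Variation X) : BddAbove (Set.range V.domDim) :=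
  ⟨3, by rintro _ ⟨z, rfl⟩; exact domDim_le V z⟩

private theorem generic_of_not_split (V : Variation X) (h : ¬ V.Split) :
    V.genericMtDim = 6 ∧ V.genericDomDim = 3 := by
  obtain ⟨z, h1, h2⟩ := V.exists_generic h
  have hd := dims_generic h1 h2
  constructor
  · apply le_antisymm
    · exact ciSup_le' fun z => mtDim_le V z
    · have := le_ciSup (bdd_mt V) z
      have e : V.mtDim z = 6 := hd.1
      rw [e] at this
      exact this
  · apply le_antisymm
    · exact ciSup_le' fun z => domDim_le V z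
    · have := le_ciSup (bdd_dom V) z
      have e : V.domDim z = 3 := hd.2
      rw [e] at this
      exact this

private theorem isRat_of_split (V : Variation X) (h : V.Split) (z : ℍ) : IsRat (V.v z) := by
  obtain ⟨r, hr⟩ := h
  exact ⟨r, hr z⟩

private theorem generic_of_split (V : Variation X) (h : V.Split) :
    V.genericMtDim = 4 ∧ V.genericDomDim = 1 := by
  obtain ⟨z, h1⟩ := V.exists_not_cm
  have hd := dims_split h1 (isRat_of_split V h z)
  constructor
  · apply le_antisymm
    · refine ciSup_le' fun w => ?_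
      by_cases hw : IsCM (V.τ w)
      · have := (dims_cm_split hw (isRat_of_split V h w)).1
        change V.mtDim w = 2 at this
        omega
      · have := (dims_split hw (isRat_of_split V h w)).1
        change V.mtDim w = 4 at this
        omega
    · have := le_ciSup (bdd_mt V) z
      have e : V.mtDim z = 4 := hd.1
      rw [e] at this
      exact this
  · apply le_antisymm
    · refine ciSup_le' fun w => ?_
      by_cases hw : IsCM (V.τ w)
      · have := (dims_cm_split hw (isRat_of_split V h w)).2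
        change V.domDim w = 0 at this
        omega
      · have := (dims_split hw (isRat_of_split V h w)).2
        change V.domDim w = 1 at this
        omega
    · have := le_ciSup (bdd_dom V) z
      have e : V.domDim z = 1 := hd.2
      rw [e] at this
      exact this

theorem Variation.mem_hodgeLocus (V : Variation X) (z : ℍ) :
    z ∈ V.hodgeLocus ↔ IsCM (V.τ z) ∨ (IsRat (V.v z) ∧ ¬ V.Split) := by
  change V.mtDim z < V.genericMtDim ↔ _
  by_cases hs : V.Split
  · rw [(generic_of_split V hs).1]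
    have hr := isRat_of_split V hs z
    by_cases h1 : IsCM (V.τ z)
    · have e : V.mtDim z = 2 := (dims_cm_split h1 hr).1
      rw [e]
      simp [h1]
    · have e : V.mtDim z = 4 := (dims_split h1 hr).1
      rw [e]
      simp [h1, hs]
  · rw [(generic_of_not_split V hs).1]
    by_cases h1 : IsCM (V.τ z) <;> by_cases h2 : IsRat (V.v z)
    · have e : V.mtDim z = 2 := (dims_cm_split h1 h2).1
      rw [e]; simp [h1]
    · have e : V.mtDim z = 4 := (dims_cm h1 h2).1
      rw [e]; simp [h1]
    · have e : V.mtDim z = 4 := (dims_split h1 h2).1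
      rw [e]; simp [h2, hs]
    · have e : V.mtDim z = 6 := (dims_generic h1 h2).1
      rw [e]; simp [h1, h2]

theorem Variation.mem_atypicalLocus (V : Variation X) (z : ℍ) :
    z ∈ V.atypicalLocus ↔ IsRat (V.v z) ∧ ¬ V.Split := by
  change z ∈ V.hodgeLocus ∧ V.genericDomDim - V.domDim z ≠ 1 ↔ _
  rw [V.mem_hodgeLocus]
  by_cases hs : V.Split
  · rw [(generic_of_split V hs).2]
    have hr := isRat_of_split V hs z
    by_cases h1 : IsCM (V.τ z)
    · have e : V.domDim z = 0 := (dims_cm_split h1 hr).2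
      rw [e]
      simp [hs]
    · simp [h1, hs]
  · rw [(generic_of_not_split V hs).2]
    by_cases h1 : IsCM (V.τ z) <;> by_cases h2 : IsRat (V.v z)
    · have e : V.domDim z = 0 := (dims_cm_split h1 h2).2
      rw [e]; simp [h1, h2, hs]
    · have e : V.domDim z = 2 := (dims_cm h1 h2).2
      rw [e]; simp [h2]
    · have e : V.domDim z = 1 := (dims_split h1 h2).2
      rw [e]; simp [h2, hs]
    · simp [h1, h2]

end Pool.Agent.LibUB33
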