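import Mathlib
import Pool.Agent.LibRk3.Defs

/-!
# Variations of rank three with weights 0 and -3 over finite étale covers of a punctured plane

All definitions used by the statement, except those on a single mixed Hodge structure (Mumford-Tate
Lie algebra, dimension of the Mumford-Tate domain), which are in `LibRk3.Defs`.
-/

open UpperHalfPlane
open scoped MatrixGroups ComplexConjugate
open Pool.Agent.LibRk3 (mtLie domainDim IsCM IsRat)

namespace Pool.Agent.LibUB33

/-- The function `exp(2πiz)`. -/
noncomputable def ee (z : ℂ) : ℂ := Complex.exp (2 * Real.pi * Complex.I * z)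

/-- The modular invariant `j = E₄³ / Δ`. -/
noncomputable def jInv (z : ℍ) : ℂ := ModularForm.E₄ z ^ 3 / ModularForm.discriminant z

/-- A smooth complex curve `X`, presented as a finite étale cover of the plane without a finite set
`B`. Here `lam` is the universal covering of `ℂ ∖ B` by the upper half plane, `G` its group of deck
transformations, and `X` is the quotient of the upper half plane by the subgroup `P` of finite
index. Every smooth irreducible curve becomes of this form after finitely many points are
removed. -/
structure Curve where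
  /-- The finite set of punctures of the plane. -/
  B : Finset ℂ
  /-- The universal covering of the punctured plane. -/
  lam : ℍ → ℂ
  /-- The group of deck transformations of the universal covering of the punctured plane. -/
  G : Subgroup SL(2, ℝ)
  /-- The group of deck transformations of the universal covering of the curve. -/
  P : Subgroup SL(2, ℝ)
  P_le : P ≤ G
  index_ne : P.relIndex G ≠ 0
  lam_hol : ∀ z : ℍ, DifferentiableAt ℂ (fun w : ℂ => lam (ofComplex w)) z
  lam_deriv : ∀ z : ℍ, deriv (fun w : ℂ => lam (ofComplex w)) z ≠ 0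
  lam_range : Set.range lam = {w | w ∉ B}
  lam_cov : IsCoveringMapOn lam {w | w ∉ B}
  lam_fib : ∀ z w : ℍ, lam z = lam w ↔ ∃ g ∈ G, g • z = w
  free : ∀ g ∈ G, ∀ z : ℍ, g • z = z → g = 1

namespace Curve

variable (X : Curve)

/-- The points of the curve. -/
abbrev Pts : Type := MulAction.orbitRel.Quotient X.P ℍ

/-- The degree of the curve over the punctured plane. -/
noncomputable def degree : ℕ := X.P.relIndex X.G

/-- The negative of the Euler characteristic of the curve. -/
noncomputable def negEuler : ℕ := X.degree * (X.B.card - 1)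

/-- `X.IsEnd s Y`: the function `s`, on the half plane `Im ζ > Y`, is a lift to the upper half plane
of the map `ζ ↦ b + exp(2πiζ)` to a punctured neighbourhood of a puncture `b`, or of the map
`ζ ↦ exp(-2πiζ)` to a punctured neighbourhood of infinity. -/
def IsEnd (s : ℂ → ℍ) (Y : ℝ) : Prop :=
  ContinuousOn s {ζ | Y < ζ.im} ∧
    ((∃ b ∈ X.B, ∀ ζ : ℂ, Y < ζ.im → X.lam (s ζ) = b + ee ζ) ∨
      ∀ ζ : ℂ, Y < ζ.im → X.lam (s ζ) = ee (-ζ))

end Curve

/-- An admissible variation of mixed Hodge structure of rank three on `X`, an extension of `ℚ(0)` by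
the weight `-3` variation `H¹(E)(2)` of a family of elliptic curves `E` over `X` with nonconstant
period `τ`. In a flat rational basis `e₀, e₁, e₂` of the pull back to the upper half plane, with
`W₋₃ = ⟨e₁, e₂⟩`, the Hodge filtration is `F⁰ = ⟨e₀ + v⟩`, `F⁻¹ = ⟨e₀ + v, τ e₁ + e₂⟩`; an
element `δ` of the fundamental group acts by `e₀ ↦ e₀ + c δ` and by `ρ δ` on `e₁, e₂`. -/
structure Variation (X : Curve) where
  /-- The monodromy on the part of weight `-3`. -/
  ρ : X.P →* SL(2, ℤ)
  /-- The monodromy cocycle. -/
  c : X.P → Fin 2 → ℚ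
  /-- The period of the elliptic curve. -/
  τ : ℍ → ℍ
  /-- The period of the extension. -/
  v : ℍ → Fin 2 → ℂ
  τ_hol : ∀ z : ℍ, DifferentiableAt ℂ (fun w : ℂ => (τ (ofComplex w) : ℂ)) z
  τ_nonconst : ∃ z w : ℍ, τ z ≠ τ w
  τ_equiv : ∀ (δ : X.P) (z : ℍ), τ ((δ : SL(2, ℝ)) • z) = ρ δ • τ z
  v_hol : ∀ (i : Fin 2) (z : ℍ), DifferentiableAt ℂ (fun w : ℂ => v (ofComplex w) i) z
  v_equiv : ∀ (δ : X.P) (z : ℍ) (i : Fin 2),
    v ((δ : SL(2, ℝ)) • z) i = ∑ j, (ρ δ i j : ℂ) * v z j + c δ i
  /-- Griffiths transversality: the derivative of `v` is a multiple of `(τ, 1)`. -/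
  transversal : ∀ z : ℍ, deriv (fun w : ℂ => v (ofComplex w) 0) z =
    τ z * deriv (fun w : ℂ => v (ofComplex w) 1) z
  /-- Admissibility: near each puncture the extension period grows at most like a power of the
  logarithm of the coordinate, on every sector. -/
  growth : ∀ (s : ℂ → ℍ) (Y : ℝ), X.IsEnd s Y → ∀ M : ℝ, ∃ (C : ℝ) (N : ℕ), ∀ (ζ : ℂ) (i : Fin 2),
    |ζ.re| ≤ M → Y + 1 ≤ ζ.im → ‖v (s ζ) i‖ ≤ C * (1 + |ζ.im|) ^ N

namespace Variation

variable {X : Curve} (V : Variation X)

/-- The dimension of the Mumford-Tate group of the fibre at `z`. -/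
noncomputable def mtDim (z : ℍ) : ℕ := Module.finrank ℚ (mtLie (V.τ z) (V.v z))

/-- The dimension of the generic Mumford-Tate group. -/
noncomputable def genericMtDim : ℕ := ⨆ z : ℍ, V.mtDim z

/-- The dimension of the Mumford-Tate domain of the fibre at `z`. -/
noncomputable def domDim (z : ℍ) : ℕ := domainDim (V.τ z) (V.v z)

/-- The dimension of the generic Mumford-Tate domain. -/
noncomputable def genericDomDim : ℕ := ⨆ z : ℍ, V.domDim z

/-- The Hodge locus (as a subset of the upper half plane invariant under `P`). -/
def hodgeLocus : Set ℍ := {z | V.mtDim z < V.genericMtDim}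

/-- The atypical locus: the special points for which the codimension of the Mumford-Tate domain in
the generic one is not `1`, the codimension of the point in the image of the period map. -/
def atypicalLocus : Set ℍ := {z | z ∈ V.hodgeLocus ∧ V.genericDomDim - V.domDim z ≠ 1}

/-- The variation splits over `ℚ`. -/
def Split : Prop := ∃ r : Fin 2 → ℚ, ∀ (z : ℍ) (i : Fin 2), V.v z i = r i

/-- The atypical points of the curve. -/
def atypicalPoints : Set X.Pts := (fun z : ℍ => (Quotient.mk'' z : X.Pts)) '' V.atypicalLocus

/-- The points of the curve where the elliptic curve has modular invariant `w`. -/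
def fibre (w : ℂ) : Set X.Pts :=
  (fun z : ℍ => (Quotient.mk'' z : X.Pts)) '' {z | jInv (V.τ z) = w}

end Variation

end Pool.Agent.LibUB33
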