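import Mathlib

/-!
# Quasi-unipotent elements of `SL(2, ℤ)`
-/

open scoped MatrixGroups

namespace Pool.Agent.LibUB33

private theorem unip_ch (M : Matrix (Fin 2) (Fin 2) ℤ) (hd : M.det = 1) :
    M * M = (M 0 0 + M 1 1) • M - 1 := by
  rw [Matrix.det_fin_two] at hd
  have h1 : M * M - (M 0 0 + M 1 1) • M + 1 = 0 := by
    rw [Matrix.eta_fin_two M, Matrix.mul_fin_two, Matrix.one_fin_two]
    ext i j
    fin_cases i <;> fin_cases j
    · simp
      linear_combination -hd
    · simp
      ring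
    · simp
      ring
    · simp
      linear_combination -hd
  have h2 : M * M = (M * M - (M 0 0 + M 1 1) • M + 1) + ((M 0 0 + M 1 1) • M - 1) := by abel
  rw [h2, h1, zero_add]

private theorem unip_mul (M : SL(2, ℤ)) (t : ℤ) (h : M 0 0 + M 1 1 = t) :
    (M : Matrix (Fin 2) (Fin 2) ℤ) * M = t • (M : Matrix (Fin 2) (Fin 2) ℤ) - 1 := by
  have := unip_ch (M : Matrix (Fin 2) (Fin 2) ℤ) M.det_coe
  rw [this]
  congr 2

private theorem unip_pow_one (M : SL(2, ℤ)) (h : M 0 0 + M 1 1 = 0 ∨ M 0 0 + M 1 1 = 1 ∨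
    M 0 0 + M 1 1 = -1) : M ^ 12 = 1 := by
  apply Matrix.SpecialLinearGroup.ext
  intro i j
  have key : ((M : Matrix (Fin 2) (Fin 2) ℤ)) ^ 12 = 1 := by
    set N : Matrix (Fin 2) (Fin 2) ℤ := (M : Matrix (Fin 2) (Fin 2) ℤ) with hN
    rcases h with h | h | h
    · have h2 : N * N = -1 := by
        have := unip_mul M 0 h
        rw [← hN] at this
        rw [this]; simp
      have : N ^ 12 = (N * N) ^ 6 := by noncomm_ring
      rw [this, h2]
      norm_num
    · have h2 : N * N = N - 1 := by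
        have := unip_mul M 1 h
        rw [← hN] at this
        rw [this]; simp
      have h3 : N ^ 3 = -1 := by
        have : N ^ 3 = (N * N) * N := by noncomm_ring
        rw [this, h2, Matrix.sub_mul, h2]
        simp
      have : N ^ 12 = (N ^ 3) ^ 4 := by rw [← pow_mul]
      rw [this, h3]
      norm_num
    · have h2 : N * N = -N - 1 := by
        have := unip_mul M (-1) h
        rw [← hN] at this
        rw [this]; simp
      have h3 : N ^ 3 = 1 := by
        have : N ^ 3 = (N * N) * N := by noncomm_ring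
        rw [this, h2, Matrix.sub_mul, Matrix.neg_mul, h2]
        simp
      have : N ^ 12 = (N ^ 3) ^ 4 := by rw [← pow_mul]
      rw [this, h3]
      norm_num
  rw [Matrix.SpecialLinearGroup.coe_pow, key]
  rfl

/-- A fixed vector up to sign in the parabolic case. -/
private theorem unip_fixed (M : SL(2, ℤ)) (ε : ℤ) (hε : ε * ε = 1) (h : M 0 0 + M 1 1 = 2 * ε) :
    ∃ x y : ℤ, IsCoprime x y ∧ M 0 0 * x + M 0 1 * y = ε * x ∧ M 1 0 * x + M 1 1 * y = ε * y := by
  have hd : M 0 0 * M 1 1 - M 0 1 * M 1 0 = 1 := by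
    have := M.det_coe
    rwa [Matrix.det_fin_two] at this
  set p := M 0 0 - ε with hp
  set q := M 0 1 with hq
  set r := M 1 0 with hr
  have h11 : M 1 1 = ε - p := by rw [hp]; linarith
  have h00 : M 0 0 = ε + p := by rw [hp]; ring
  have hpq : p * p + q * r = 0 := by
    rw [h00, h11] at hd
    linear_combination hε - hd
  rw [h00, h11]
  -- find a nonzero vector in the kernel and divide by the gcd
  have hker : ∃ u v : ℤ, (u ≠ 0 ∨ v ≠ 0) ∧ p * u + q * v = 0 ∧ r * u - p * v = 0 := by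
    by_cases hq0 : q = 0
    · have hp0 : p = 0 := by
        rw [hq0, zero_mul, add_zero] at hpq
        exact mul_self_eq_zero.mp hpq
      exact ⟨0, 1, Or.inr one_ne_zero, by rw [hq0]; ring, by rw [hp0]; ring⟩
    · exact ⟨q, -p, Or.inl hq0, by ring, by linear_combination hpq⟩
  obtain ⟨u, v, huv, h1, h2⟩ := hker
  have hg : 0 < Int.gcd u v := Int.gcd_pos_iff.mpr huv
  obtain ⟨x, hx⟩ := Int.gcd_dvd_left u v
  obtain ⟨y, hy⟩ := Int.gcd_dvd_right u v
  have hg0 : ((Int.gcd u v : ℕ) : ℤ) ≠ 0 := by exact_mod_cast hg.ne'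
  have hcop : IsCoprime x y := by
    refine ⟨Int.gcdA u v, Int.gcdB u v, ?_⟩
    have h3 := Int.gcd_eq_gcd_ab u v
    apply mul_left_cancel₀ hg0
    linear_combination (-Int.gcdA u v) * hx + (-Int.gcdB u v) * hy - h3
  refine ⟨x, y, hcop, ?_, ?_⟩
  · apply mul_left_cancel₀ hg0
    linear_combination h1 + (-p) * hx + (-q) * hy
  · apply mul_left_cancel₀ hg0
    linear_combination h2 + (-r) * hx + p * hy

/-- The twelfth power of an element of `SL(2, ℤ)` that is not hyperbolic is conjugate to an upper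
triangular unipotent matrix. -/
theorem exists_conj (M : SL(2, ℤ)) (h : (M 0 0 + M 1 1) ^ 2 ≤ 4) :
    ∃ (A : SL(2, ℤ)) (m : ℤ), (A * M ^ 12 * A⁻¹ : SL(2, ℤ)) = ModularGroup.T ^ m := by
  have hb : -2 ≤ M 0 0 + M 1 1 ∧ M 0 0 + M 1 1 ≤ 2 := by
    constructor <;> nlinarith
  by_cases hs : M 0 0 + M 1 1 = 0 ∨ M 0 0 + M 1 1 = 1 ∨ M 0 0 + M 1 1 = -1
  · refine ⟨1, 0, ?_⟩
    rw [unip_pow_one M hs]
    simp
  · have hε : ∃ ε : ℤ, ε * ε = 1 ∧ M 0 0 + M 1 1 = 2 * ε := by
      push Not at hs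
      have : M 0 0 + M 1 1 = 2 ∨ M 0 0 + M 1 1 = -2 := by omega
      rcases this with h1 | h1
      · exact ⟨1, by norm_num, by rw [h1]; norm_num⟩
      · exact ⟨-1, by norm_num, by rw [h1]; norm_num⟩
    obtain ⟨ε, hε2, htr⟩ := hε
    obtain ⟨x, y, hcop, e1, e2⟩ := unip_fixed M ε hε2 htr
    obtain ⟨a, b, hab⟩ := hcop
    -- a x + b y = 1; B = (x, -b; y, a), A = B⁻¹
    set B : SL(2, ℤ) := ⟨!![x, -b; y, a], by rw [Matrix.det_fin_two_of]; linear_combination hab⟩
      with hB
    have hBinv : (B⁻¹ : SL(2, ℤ)) = ⟨!![a, b; -y, x], by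
        rw [Matrix.det_fin_two_of]; linear_combination hab⟩ := by
      apply Matrix.SpecialLinearGroup.ext
      intro i j
      rw [Matrix.SpecialLinearGroup.coe_inv]
      fin_cases i <;> fin_cases j <;> simp [hB, Matrix.adjugate_fin_two]
    set C : SL(2, ℤ) := B⁻¹ * M * B with hC
    have hCcoe : (C : Matrix (Fin 2) (Fin 2) ℤ) =
        !![a, b; -y, x] * !![M 0 0, M 0 1; M 1 0, M 1 1] * !![x, -b; y, a] := by
      rw [hC, Matrix.SpecialLinearGroup.coe_mul, Matrix.SpecialLinearGroup.coe_mul, hBinv,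
        ← Matrix.eta_fin_two (M : Matrix (Fin 2) (Fin 2) ℤ)]
    rw [Matrix.mul_fin_two, Matrix.mul_fin_two] at hCcoe
    have hC00 : C 0 0 = ε := by
      rw [hCcoe]
      simp
      linear_combination a * e1 + b * e2 + ε * hab
    have hC10 : C 1 0 = 0 := by
      rw [hCcoe]
      simp
      linear_combination (-y) * e1 + x * e2
    have hCdet : C 0 0 * C 1 1 - C 0 1 * C 1 0 = 1 := by
      have := C.det_coe
      rwa [Matrix.det_fin_two] at this
    have hC11 : C 1 1 = ε := by
      rw [hC00, hC10] at hCdet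
      linear_combination ε * hCdet - C 1 1 * hε2
    have hCm : (C : Matrix (Fin 2) (Fin 2) ℤ) = !![ε, C 0 1; 0, ε] := by
      ext i j
      fin_cases i <;> fin_cases j
      · exact hC00
      · rfl
      · exact hC10
      · exact hC11
    have hpow : ∀ n : ℕ, (C : Matrix (Fin 2) (Fin 2) ℤ) ^ (2 * n) =
        !![1, 2 * n * ε * C 0 1; 0, 1] := by
      intro n
      induction n with
      | zero => ext i j; fin_cases i <;> fin_cases j <;> simp
      | succ n ih =>
        rw [show 2 * (n + 1) = 2 * n + 2 by ring, pow_add, ih, pow_two, hCm]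
        ext i j
        fin_cases i <;> fin_cases j
        · simp [Matrix.mul_apply, Fin.sum_univ_two, hε2]
        · simp [Matrix.mul_apply, Fin.sum_univ_two]
          linear_combination (2 * n * ε * C 0 1) * hε2
        · simp [Matrix.mul_apply, Fin.sum_univ_two]
        · simp [Matrix.mul_apply, Fin.sum_univ_two, hε2]
    refine ⟨B⁻¹, 12 * ε * C 0 1, ?_⟩
    have hconj : B⁻¹ * M ^ 12 * (B⁻¹)⁻¹ = C ^ 12 := by
      rw [inv_inv, hC]
      have := conj_pow (i := 12) (a := B⁻¹) (b := M)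
      rw [inv_inv] at this
      exact this.symm
    rw [hconj]
    apply Matrix.SpecialLinearGroup.ext
    intro i j
    rw [Matrix.SpecialLinearGroup.coe_pow, ModularGroup.coe_T_zpow]
    have h6 := hpow 6
    norm_num at h6
    rw [h6]

end Pool.Agent.LibUB33
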