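import Pool.Agent.LibUB33.Periodic
import Pool.Agent.LibUB33.Unip

/-!
# The period of the elliptic curve at a puncture, without the extension
-/

open Filter Topology
open scoped MatrixGroups

namespace Pool.Agent.LibUB33

private theorem pure_denom {x y : ℤ} (hxy : x ≠ 0 ∨ y ≠ 0) {t : ℂ} (ht : 0 < t.im) :
    (x : ℂ) * t + y ≠ 0 := by
  intro h
  have him := congrArg Complex.im h
  have hre := congrArg Complex.re h
  simp at him hre
  rcases him with h1 | h1
  · rw [h1] at hre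
    simp at hre
    rcases hxy with h2 | h2
    · exact h2 h1
    · exact h2 hre
  · exact ht.ne' h1

private theorem pure_iter {h : ℕ} {Y : ℝ} {T : ℂ → ℂ} {a b c d : ℤ}
    (perT : ∀ z : ℂ, Y < z.im → T (z + h) * (c * T z + d) = a * T z + b)
    (M : SL(2, ℤ)) (h00 : M 0 0 = a) (h01 : M 0 1 = b)
    (h10 : M 1 0 = c) (h11 : M 1 1 = d) (n : ℕ) : ∀ z : ℂ, Y < z.im →
      T (z + n * h) * (((M ^ n : SL(2, ℤ)) 1 0 : ℤ) * T z + ((M ^ n : SL(2, ℤ)) 1 1 : ℤ)) =
        ((M ^ n : SL(2, ℤ)) 0 0 : ℤ) * T z + ((M ^ n : SL(2, ℤ)) 0 1 : ℤ) := by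
  induction n with
  | zero => exact fun z hz => by simp
  | succ n ih =>
    intro z hz
    have hz' : Y < (z + n * h).im := by simpa using hz
    have e1 := ih z hz
    have f1 := perT _ hz'
    have hadd : z + ((n + 1 : ℕ) : ℂ) * h = z + n * h + h := by push_cast; ring
    rw [hadd]
    have hM : ∀ i j, (M ^ (n + 1) : SL(2, ℤ)) i j =
        M i 0 * (M ^ n : SL(2, ℤ)) 0 j + M i 1 * (M ^ n : SL(2, ℤ)) 1 j := by
      intro i j
      rw [pow_succ']
      change ((M * M ^ n : SL(2, ℤ)) : Matrix (Fin 2) (Fin 2) ℤ) i j = _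
      rw [Matrix.SpecialLinearGroup.coe_mul, Matrix.mul_apply, Fin.sum_univ_two]
    rw [hM 0 0, hM 0 1, hM 1 0, hM 1 1, h00, h01, h10, h11]
    generalize (M ^ n : SL(2, ℤ)) 0 0 = an at *
    generalize (M ^ n : SL(2, ℤ)) 0 1 = bn at *
    generalize (M ^ n : SL(2, ℤ)) 1 0 = cn at *
    generalize (M ^ n : SL(2, ℤ)) 1 1 = dn at *
    push_cast
    linear_combination ((cn : ℂ) * T z + dn) * f1 - (T (z + n * h + h) * c - a) * e1

/-- Modular forms of weight twelve that are not zero at the limit of the period do not vanish near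
the puncture. -/
theorem pure_limit {h : ℕ} (hh : 0 < h) {Y : ℝ} {T : ℂ → ℂ}
    (hT : ∀ z : ℂ, Y < z.im → DifferentiableAt ℂ T z) (hpos : ∀ z : ℂ, Y < z.im → 0 < (T z).im)
    (a b c d : ℤ) (hdet : a * d - b * c = 1)
    (perT : ∀ z : ℂ, Y < z.im → T (z + h) * (c * T z + d) = a * T z + b) :
    ∃ t₀ : ℂ, 0 < t₀.im ∧ ∀ f : ℂ → ℂ, (∀ t : ℂ, 0 < t.im → ContinuousAt f t) →
      (∀ a b c d : ℤ, a * d - b * c = 1 → ∀ t : ℂ, 0 < t.im →
        f ((a * t + b) / (c * t + d)) = (c * t + d) ^ 12 * f t) →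
      Tendsto f (comap Complex.im atTop) (𝓝 1) → f t₀ ≠ 0 →
      ∃ Y' : ℝ, ∀ z : ℂ, Y' < z.im → f (T z) ≠ 0 := by
  set M : SL(2, ℤ) := ⟨!![a, b; c, d], by rw [Matrix.det_fin_two_of]; exact hdet⟩ with hMdef
  have h00 : M 0 0 = a := rfl
  have h01 : M 0 1 = b := rfl
  have h10 : M 1 0 = c := rfl
  have h11 : M 1 1 = d := rfl
  have htr := trace_sq_le hh hT hpos a b c d hdet perT
  obtain ⟨A, m, hA⟩ := exists_conj M (by rw [h00, h11]; exact htr)
  have hit := pure_iter perT M h00 h01 h10 h11 12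
  have hAM : A * M ^ 12 = ModularGroup.T ^ m * A := by
    rw [← hA]; group
  have hent : ∀ i j, A i 0 * (M ^ 12 : SL(2, ℤ)) 0 j + A i 1 * (M ^ 12 : SL(2, ℤ)) 1 j =
      (ModularGroup.T ^ m : SL(2, ℤ)) i 0 * A 0 j + (ModularGroup.T ^ m : SL(2, ℤ)) i 1 * A 1 j := by
    intro i j
    have := congrArg (fun X : SL(2, ℤ) => (X : Matrix (Fin 2) (Fin 2) ℤ) i j) hAM
    simp only [Matrix.SpecialLinearGroup.coe_mul, Matrix.mul_apply, Fin.sum_univ_two] at this
    exact this
  have t00 : (ModularGroup.T ^ m : SL(2, ℤ)) 0 0 = 1 := by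
    change ((ModularGroup.T ^ m : SL(2, ℤ)) : Matrix (Fin 2) (Fin 2) ℤ) 0 0 = 1
    rw [ModularGroup.coe_T_zpow]; rfl
  have t01 : (ModularGroup.T ^ m : SL(2, ℤ)) 0 1 = m := by
    change ((ModularGroup.T ^ m : SL(2, ℤ)) : Matrix (Fin 2) (Fin 2) ℤ) 0 1 = m
    rw [ModularGroup.coe_T_zpow]; rfl
  have t10 : (ModularGroup.T ^ m : SL(2, ℤ)) 1 0 = 0 := by
    change ((ModularGroup.T ^ m : SL(2, ℤ)) : Matrix (Fin 2) (Fin 2) ℤ) 1 0 = 0
    rw [ModularGroup.coe_T_zpow]; rfl
  have t11 : (ModularGroup.T ^ m : SL(2, ℤ)) 1 1 = 1 := by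
    change ((ModularGroup.T ^ m : SL(2, ℤ)) : Matrix (Fin 2) (Fin 2) ℤ) 1 1 = 1
    rw [ModularGroup.coe_T_zpow]; rfl
  have g00 := hent 0 0
  have g01 := hent 0 1
  have g10 := hent 1 0
  have g11 := hent 1 1
  rw [t00, t01] at g00 g01
  rw [t10, t11] at g10 g11
  have hdetA : A 0 0 * A 1 1 - A 0 1 * A 1 0 = 1 := by
    have := A.2
    rw [Matrix.det_fin_two] at this
    exact this
  have hdetM : (M ^ 12 : SL(2, ℤ)) 0 0 * (M ^ 12 : SL(2, ℤ)) 1 1 -
      (M ^ 12 : SL(2, ℤ)) 0 1 * (M ^ 12 : SL(2, ℤ)) 1 0 = 1 := by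
    have := (M ^ 12).2
    rw [Matrix.det_fin_two] at this
    exact this
  generalize (M ^ 12 : SL(2, ℤ)) 0 0 = p at *
  generalize (M ^ 12 : SL(2, ℤ)) 0 1 = q at *
  generalize (M ^ 12 : SL(2, ℤ)) 1 0 = r at *
  generalize (M ^ 12 : SL(2, ℤ)) 1 1 = s at *
  generalize A 0 0 = a' at *
  generalize A 0 1 = b' at *
  generalize A 1 0 = c' at *
  generalize A 1 1 = d' at *
  have hcd : c' ≠ 0 ∨ d' ≠ 0 := by
    by_contra hcon
    push Not at hcon
    rw [hcon.1, hcon.2] at hdetA; simp at hdetA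
  have hrs : r ≠ 0 ∨ s ≠ 0 := by
    by_contra hcon
    push Not at hcon
    rw [hcon.1, hcon.2] at hdetM; simp at hdetM
  have hden : ∀ z : ℂ, Y < z.im → (c' : ℂ) * T z + d' ≠ 0 := fun z hz =>
    pure_denom hcd (hpos z hz)
  have hrden : ∀ z : ℂ, Y < z.im → (r : ℂ) * T z + s ≠ 0 := fun z hz =>
    pure_denom hrs (hpos z hz)
  have hdetAC : (a' : ℂ) * d' - b' * c' = 1 := by exact_mod_cast hdetA
  have G00 : (a' : ℂ) * p + b' * r = 1 * a' + m * c' := by exact_mod_cast g00
  have G01 : (a' : ℂ) * q + b' * s = 1 * b' + m * d' := by exact_mod_cast g01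
  have G10 : (c' : ℂ) * p + d' * r = 0 * a' + 1 * c' := by exact_mod_cast g10
  have G11 : (c' : ℂ) * q + d' * s = 0 * b' + 1 * d' := by exact_mod_cast g11
  have hT' : ∀ z : ℂ, Y < z.im →
      DifferentiableAt ℂ (fun z => ((a' : ℂ) * T z + b') / (c' * T z + d')) z := by
    intro z hz
    have := hT z hz
    exact ((this.const_mul _).add_const _).div ((this.const_mul _).add_const _) (hden z hz)
  have him' : ∀ z : ℂ, Y < z.im → 0 < (((a' : ℂ) * T z + b') / (c' * T z + d')).im := by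
    intro z hz
    have h1 := hpos z hz
    have h2 : 0 < Complex.normSq ((c' : ℂ) * T z + d') := Complex.normSq_pos.2 (hden z hz)
    have h3 : (((a' : ℂ) * T z + b') / (c' * T z + d')).im =
        (T z).im / Complex.normSq ((c' : ℂ) * T z + d') := by
      rw [Complex.div_im]
      have hdR : (a' : ℝ) * d' - b' * c' = 1 := by exact_mod_cast hdetA
      simp only [Complex.add_im, Complex.mul_im, Complex.intCast_re, Complex.intCast_im,
        Complex.add_re, Complex.mul_re]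
      field_simp
      linear_combination ((T z).im) * hdR
    rw [h3]; positivity
  have hcast : ((12 * h : ℕ) : ℂ) = ((12 : ℕ) : ℂ) * h := by push_cast; ring
  have hperT : ∀ z : ℂ, Y < z.im →
      (fun z => ((a' : ℂ) * T z + b') / (c' * T z + d')) (z + ((12 * h : ℕ) : ℂ)) =
        (fun z => ((a' : ℂ) * T z + b') / (c' * T z + d')) z + m := by
    intro z hz
    simp only []
    have hz' : Y < (z + ((12 * h : ℕ) : ℂ)).im := by
      have : (z + ((12 * h : ℕ) : ℂ)).im = z.im := by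
        rw [Complex.add_im, Complex.natCast_im, add_zero]
      rw [this]; exact hz
    have e1 := hit z hz
    rw [← hcast] at e1
    have h1 := hden z hz
    have h2 := hden _ hz'
    have h3 := hrden z hz
    generalize T (z + ((12 * h : ℕ) : ℂ)) = x at *
    generalize T z = t at *
    have k1 : ((c' : ℂ) * x + d') * (r * t + s) = c' * t + d' := by
      linear_combination (c' : ℂ) * e1 + t * G10 + G11
    have k2 : ((a' : ℂ) * x + b') * (r * t + s) = (a' * t + b') + m * (c' * t + d') := by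
      linear_combination (a' : ℂ) * e1 + t * G00 + G01
    rw [div_add' _ _ _ h1, div_eq_div_iff h2 h1]
    apply mul_right_cancel₀ h3
    linear_combination (c' * t + d') * k2 - (a' * t + b' + m * (c' * t + d')) * k1
  have h12 : 0 < 12 * h := by omega
  obtain ⟨hm, F, hF, hF0, Y', hY'⟩ := period_at_cusp h12 hT' him' m hperT
  have hq := tendsto_ee h12
  have hFt : Tendsto (fun z : ℂ => F (ee (z / ((12 * h : ℕ) : ℂ)))) (comap Complex.im atTop)
      (𝓝 (F 0)) := hF.continuousAt.tendsto.comp (hq.mono_right nhdsWithin_le_nhds)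
  have hlarge : ∀ y : ℝ, ∀ᶠ z in comap Complex.im atTop, y < z.im := fun y =>
    tendsto_comap.eventually (eventually_gt_atTop y)
  have hex : ∀ {p : ℂ → Prop}, (∀ᶠ z in comap Complex.im atTop, p z) →
      ∃ Y : ℝ, ∀ z : ℂ, Y < z.im → p z := by
    intro p hp
    rw [eventually_comap, eventually_atTop] at hp
    obtain ⟨Y, hY⟩ := hp
    exact ⟨Y, fun z hz => hY z.im hz.le z rfl⟩
  have hfin : ∀ f : ℂ → ℂ, (∀ a b c d : ℤ, a * d - b * c = 1 → ∀ t : ℂ, 0 < t.im →
        f ((a * t + b) / (c * t + d)) = (c * t + d) ^ 12 * f t) →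
      (∀ᶠ z in comap Complex.im atTop, f (((a' : ℂ) * T z + b') / (c' * T z + d')) ≠ 0) →
      ∃ Y' : ℝ, ∀ z : ℂ, Y' < z.im → f (T z) ≠ 0 := by
    intro f hf h1
    refine hex ?_
    filter_upwards [h1, hlarge Y] with z h2 h3 h4
    apply h2
    rw [hf a' b' c' d' (by linarith) (T z) (hpos z h3), h4, mul_zero]
  rcases hm.eq_or_lt with hm0 | hm0
  · refine ⟨F 0, hF0 hm0.symm, fun f hc hf _ hne => hfin f hf ?_⟩
    have h1 : Tendsto (fun z => ((a' : ℂ) * T z + b') / (c' * T z + d')) (comap Complex.im atTop)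
        (𝓝 (F 0)) := by
      refine hFt.congr' ?_
      filter_upwards [hlarge Y'] with z hz
      rw [hY' z hz, ← hm0]; simp
    have h2 := (hc (F 0) (hF0 hm0.symm)).tendsto.comp h1
    exact h2.eventually_ne hne
  · refine ⟨Complex.I, by simp, fun f hc hf hi _ => hfin f hf ?_⟩
    have h1 : Tendsto (fun z => (((a' : ℂ) * T z + b') / (c' * T z + d')).im)
        (comap Complex.im atTop) atTop := by
      have h4 : Tendsto (fun z : ℂ => (m : ℝ) / ((12 * h : ℕ) : ℝ) * z.im)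
          (comap Complex.im atTop) atTop := by
        have : (0 : ℝ) < (m : ℝ) / ((12 * h : ℕ) : ℝ) := by
          have h5 : (0 : ℝ) < m := by exact_mod_cast hm0
          have h6 : (0 : ℝ) < ((12 * h : ℕ) : ℝ) := by exact_mod_cast h12
          positivity
        exact tendsto_comap.const_mul_atTop this
      have h5 := (Complex.continuous_im.tendsto _).comp hFt
      refine (h4.atTop_add h5).congr' ?_
      filter_upwards [hlarge Y'] with z hz
      rw [hY' z hz, Complex.add_im]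
      congr 1
      rw [show ((m : ℤ) : ℂ) * (z / ((12 * h : ℕ) : ℂ)) =
        (((m : ℝ) / ((12 * h : ℕ) : ℝ) : ℝ) : ℂ) * z by push_cast; ring, Complex.im_ofReal_mul]
    have h2 : Tendsto (fun z => f (((a' : ℂ) * T z + b') / (c' * T z + d')))
        (comap Complex.im atTop) (𝓝 1) := hi.comp (tendsto_comap_iff.2 h1)
    exact h2.eventually_ne one_ne_zero

end Pool.Agent.LibUB33
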