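import Pool.Agent.LibUB33.Modular
import Pool.Agent.LibUB33.Pure

/-!
# The fibres of the modular invariant are finite
-/

open Filter Topology UpperHalfPlane
open scoped MatrixGroups

namespace Pool.Agent.LibUB33

variable {X : Curve}

/-- The modular invariant at a puncture. -/
theorem Variation.fibre_end (V : Variation X) {s : ℂ → ℍ} {Y : ℝ} (hE : X.IsEnd s Y) :
    ∃ t₀ : ℍ, ∀ w : ℂ, jInv t₀ ≠ w → ∃ Y' : ℝ, ∀ ζ : ℂ, Y' < ζ.im → jInv (V.τ (s ζ)) ≠ w := by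
  obtain ⟨k, hk, p, hp, hper⟩ := X.exists_period hE
  have hdet : (V.ρ ⟨p, hp⟩ 0 0) * V.ρ ⟨p, hp⟩ 1 1 - V.ρ ⟨p, hp⟩ 0 1 * V.ρ ⟨p, hp⟩ 1 0 = 1 := by
    have := (V.ρ ⟨p, hp⟩).2
    rwa [Matrix.det_fin_two] at this
  obtain ⟨ψ, hψ, hψd⟩ : ∃ ψ : ℂ → ℂ, (∀ ζ : ℂ, Y < ζ.im → X.lam (s ζ) = ψ ζ) ∧
      (∀ ζ : ℂ, Y < ζ.im → DifferentiableAt ℂ ψ ζ) := by
    rcases hE.2 with ⟨b, -, hb⟩ | hi
    · exact ⟨fun ζ => b + ee ζ, hb, fun ζ _ => ((hasDerivAt_ee ζ).const_add b).differentiableAt⟩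
    · exact ⟨fun ζ => ee (-ζ), hi, fun ζ _ =>
        ((hasDerivAt_ee (-ζ)).comp ζ (hasDerivAt_neg ζ)).differentiableAt⟩
  have hT : ∀ ζ : ℂ, Y < ζ.im → DifferentiableAt ℂ (fun ζ => (V.τ (s ζ) : ℂ)) ζ := by
    intro ζ hζ
    have h1 := (X.lift_differentiable hE.1 hψ hψd hζ).1
    have h2 : DifferentiableAt ℂ (fun w : ℂ => (V.τ (ofComplex w) : ℂ)) (s ζ : ℂ) := V.τ_hol (s ζ)
    have h3 := h2.comp ζ h1
    simpa [Function.comp_def] using h3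
  have perT : ∀ ζ : ℂ, Y < ζ.im → (V.τ (s (ζ + k)) : ℂ) *
      ((V.ρ ⟨p, hp⟩ 1 0 : ℤ) * (V.τ (s ζ) : ℂ) + (V.ρ ⟨p, hp⟩ 1 1 : ℤ)) =
      (V.ρ ⟨p, hp⟩ 0 0 : ℤ) * (V.τ (s ζ) : ℂ) + (V.ρ ⟨p, hp⟩ 0 1 : ℤ) := by
    intro ζ hζ
    have hd : ((V.ρ ⟨p, hp⟩ 1 0 : ℤ) : ℂ) * (V.τ (s ζ) : ℂ) + (V.ρ ⟨p, hp⟩ 1 1 : ℤ) ≠ 0 := by
      have := denom_ne_zero (Matrix.SpecialLinearGroup.mapGL ℝ (V.ρ ⟨p, hp⟩)) (V.τ (s ζ))
      simpa [denom] using this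
    have h4 : V.τ (s (ζ + k)) = V.ρ ⟨p, hp⟩ • V.τ (s ζ) := by
      rw [hper ζ hζ]
      exact V.τ_equiv ⟨p, hp⟩ (s ζ)
    rw [h4, coe_specialLinearGroup_apply]
    simp only [eq_intCast, Complex.ofReal_intCast]
    exact div_mul_cancel₀ _ hd
  obtain ⟨t₀, ht₀, H⟩ := pure_limit hk hT (fun ζ _ => (V.τ (s ζ)).im_pos) _ _ _ _ hdet perT
  refine ⟨⟨t₀, ht₀⟩, fun w hw => ?_⟩
  obtain ⟨Y', hY'⟩ := H (jForm w) (fun t ht => (jForm_differentiableAt w ht).continuousAt)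
    (fun a b c d hdet t ht => jForm_smul w a b c d hdet ht) (jForm_tendsto w) (by
      have := jForm_eq_zero_iff w ⟨t₀, ht₀⟩
      intro h0
      exact hw (this.1 h0))
  exact ⟨Y', fun ζ hζ h => hY' ζ hζ ((jForm_eq_zero_iff w (V.τ (s ζ))).2 h)⟩

/-- The fibres of the modular invariant over all points outside a countable set are finite. -/
theorem Variation.fibre_finite (V : Variation X) :
    ∃ C : Set ℂ, C.Countable ∧ ∀ w ∉ C, (V.fibre w).Finite := by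
  classical
  obtain ⟨E⟩ := X.nonempty_ends
  have hlam : ∀ g ∈ X.G, ∀ z : ℍ, X.lam (g • z) = X.lam z := fun g hg z =>
    ((X.lam_fib z (g • z)).2 ⟨g, hg, rfl⟩).symm
  have hEb : ∀ b ∈ X.B, ∀ x ∈ E.R, X.IsEnd (fun ζ => x • E.s b ζ) E.Y := fun b hb x hx =>
    ⟨(E.s_cont b hb).const_smul x, Or.inl ⟨b, hb, fun ζ hζ => by
      rw [hlam x (E.R_mem x hx), E.s_lam b hb ζ hζ]⟩⟩
  have hEi : ∀ x ∈ E.R, X.IsEnd (fun ζ => x • E.s' ζ) E.Y := fun x hx =>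
    ⟨E.s'_cont.const_smul x, Or.inr fun ζ hζ => by
      rw [hlam x (E.R_mem x hx), E.s'_lam ζ hζ]⟩
  choose! t ht using fun b (hb : b ∈ X.B) x (hx : x ∈ E.R) => V.fibre_end (hEb b hb x hx)
  choose! t' ht' using fun x (hx : x ∈ E.R) => V.fibre_end (hEi x hx)
  set C : Set ℂ := {w : ℂ | ∃ z : ℍ, jInv (V.τ z) = w ∧
      deriv (fun t : ℂ => jInv (V.τ (ofComplex t))) z = 0} ∪
    (((X.B ×ˢ E.R).image fun q => jInv (t q.1 q.2) : Finset ℂ) : Set ℂ) ∪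
    ((E.R.image fun x => jInv (t' x) : Finset ℂ) : Set ℂ) with hC
  refine ⟨C, (V.countable_critical.union (Finset.countable_toSet _)).union
    (Finset.countable_toSet _), fun w hw => ?_⟩
  simp only [hC, Set.mem_union, not_or, Set.mem_ofPred_eq, not_exists, not_and, Finset.mem_coe,
    Finset.mem_image, Finset.mem_product, Prod.forall] at hw
  obtain ⟨⟨hw1, hw2⟩, hw3⟩ := hw
  set m : ℍ → ℤ := fun z => if jInv (V.τ z) = w then 1 else 0 with hm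
  have hfin : {u : ℂ | ∃ z : ℍ, X.lam z = u ∧ m z ≠ 0}.Finite := by
    refine X.finite_orders E (fun z => jForm w (V.τ z)) m ?_ ?_ ?_ ?_
    · intro g hg z
      simp only [hm, V.jInv_smul w ⟨g, hg⟩ z]
    · intro z
      exact V.jForm_order w z fun h => hw1 z h
    · intro b hb x hx
      obtain ⟨Y', hY'⟩ := ht b hb x hx w fun h => hw2 b x ⟨hb, hx⟩ h
      exact ⟨Y', fun ζ hζ => if_neg (hY' ζ hζ)⟩
    · intro x hx
      obtain ⟨Y', hY'⟩ := ht' x hx w fun h => hw3 x hx h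
      exact ⟨Y', fun ζ hζ => if_neg (hY' ζ hζ)⟩
  have hex : ∀ u : ℂ, (∃ z : ℍ, X.lam z = u) → ∃ z : ℍ, X.lam z = u := fun _ h => h
  choose! sec hsec using hex
  refine ((hfin.prod (Finset.finite_toSet E.R)).image
    fun q : ℂ × SL(2, ℝ) => (Quotient.mk'' (q.2 • sec q.1) : X.Pts)).subset ?_
  rintro q ⟨z, hz, rfl⟩
  have h1 : X.lam (sec (X.lam z)) = X.lam z := hsec _ ⟨z, rfl⟩
  obtain ⟨g, hg, hgz⟩ := (X.lam_fib _ _).1 h1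
  obtain ⟨x, ⟨hx, p, hp, hgp⟩, -⟩ := E.R_unique g hg
  refine ⟨(X.lam z, x), ⟨⟨z, rfl, ?_⟩, hx⟩, ?_⟩
  · simp only [hm]
    rw [if_pos (show jInv (V.τ z) = w from hz)]
    exact one_ne_zero
  · simp only []
    apply Quotient.sound
    show MulAction.orbitRel X.P ℍ _ _
    rw [MulAction.orbitRel_apply]
    refine ⟨⟨p⁻¹, X.P.inv_mem hp⟩, ?_⟩
    show p⁻¹ • z = x • sec (X.lam z)
    rw [inv_smul_eq_iff, ← mul_smul, ← hgp]
    exact hgz.symm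

end Pool.Agent.LibUB33
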