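import Pool.Agent.LibUB33.LocOrd

/-!
# The section `gg` and its transformation law
-/

open Filter Topology
open scoped ComplexConjugate

namespace Pool.Agent.LibUB33

/-- The coordinate of the imaginary part of the extension period in the Hodge decomposition. -/
noncomputable def gg (t v₀ v₁ : ℂ) : ℂ := (v₀.im - conj t * v₁.im) / t.im

theorem gg_eq_zero_iff {t v₀ v₁ : ℂ} (ht : 0 < t.im) : gg t v₀ v₁ = 0 ↔ v₀.im = 0 ∧ v₁.im = 0 := by
  have ht' : (t.im : ℂ) ≠ 0 := by exact_mod_cast ht.ne'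
  unfold gg
  rw [div_eq_zero_iff, or_iff_left ht']
  constructor
  · intro h
    have h1 := congrArg Complex.im h
    simp at h1
    have h2 : v₁.im = 0 := h1.resolve_left ht.ne'
    rw [h2] at h
    simp at h
    exact ⟨h, h2⟩
  · rintro ⟨h1, h2⟩
    rw [h1, h2]
    simp

/-- The transformation law. -/
theorem gg_smul {a b c d r₀ r₁ : ℝ} (hdet : a * d - b * c = 1) {t v₀ v₁ : ℂ} (ht : 0 < t.im) :
    gg ((a * t + b) / (c * t + d)) (a * v₀ + b * v₁ + r₀) (c * v₀ + d * v₁ + r₁) =
      (c * t + d) * gg t v₀ v₁ := by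
  have hden : (c : ℂ) * t + d ≠ 0 := by
    intro h
    have h1 := congrArg Complex.im h
    have h2 := congrArg Complex.re h
    simp at h1 h2
    rcases h1 with h1 | h1
    · rw [h1] at h2 hdet
      simp at h2
      rw [h2] at hdet
      norm_num at hdet
    · exact ht.ne' h1
  have hden' : (c : ℂ) * conj t + d ≠ 0 := by
    intro h
    apply hden
    have := congrArg conj h
    simpa using this
  have hdetC : (a : ℂ) * d - b * c = 1 := by exact_mod_cast hdet
  have ht' : (t.im : ℂ) ≠ 0 := by exact_mod_cast ht.ne'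
  have hsc : ∀ w : ℂ, ((w.im : ℝ) : ℂ) = (w - conj w) / (2 * Complex.I) := by
    intro w
    rw [Complex.sub_conj, eq_div_iff (by simp)]
    push_cast
    ring
  have him : ((((a * t + b) / (c * t + d) : ℂ).im : ℝ) : ℂ) =
      t.im / ((c * t + d) * (c * conj t + d)) := by
    rw [hsc, hsc t, map_div₀, map_add, map_mul, map_add, map_mul, Complex.conj_ofReal,
      Complex.conj_ofReal, Complex.conj_ofReal, Complex.conj_ofReal, div_sub_div _ _ hden hden',
      div_div, div_div, div_eq_div_iff (by simp [hden, hden']) (by simp [hden, hden'])]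
    linear_combination (t - conj t) * (2 * Complex.I) * ((c * t + d) * (c * conj t + d)) * hdetC
  have hi0 : ((((a : ℂ) * v₀ + b * v₁ + r₀).im : ℝ) : ℂ) = a * v₀.im + b * v₁.im := by
    simp
  have hi1 : ((((c : ℂ) * v₀ + d * v₁ + r₁).im : ℝ) : ℂ) = c * v₀.im + d * v₁.im := by
    simp
  unfold gg
  rw [hi0, hi1, him, map_div₀, map_add, map_mul, map_add, map_mul, Complex.conj_ofReal,
      Complex.conj_ofReal, Complex.conj_ofReal, Complex.conj_ofReal]
  have h1 : ((a : ℂ) * v₀.im + b * v₁.im) - (a * conj t + b) / (c * conj t + d) *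
      (c * v₀.im + d * v₁.im) = (v₀.im - conj t * v₁.im) / (c * conj t + d) := by
    rw [eq_div_iff hden', sub_mul, mul_assoc, mul_comm ((c : ℂ) * v₀.im + d * v₁.im),
      ← mul_assoc, div_mul_cancel₀ _ hden']
    linear_combination (v₀.im - conj t * v₁.im) * hdetC
  rw [h1, div_div_div_eq, div_eq_iff (by simp [hden', ht'])]
  have h2 : ((c : ℂ) * t + d) * ((v₀.im - conj t * v₁.im) / t.im) * ((c * conj t + d) * t.im) =
      ((c : ℂ) * t + d) * (c * conj t + d) * ((v₀.im - conj t * v₁.im) / t.im * t.im) := by ring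
  rw [h2, div_mul_cancel₀ _ ht']
  ring

/-- The algebraic identity behind the local computation. -/
private theorem gg_identity {t v₀ v₁ a₀ a₁ : ℂ} (ht : 0 < t.im) (h0 : a₀.im = 0) (h1 : a₁.im = 0) :
    gg t v₀ v₁ = (v₁ - a₁) - ((t * (v₁ - a₁) - (v₀ - a₀)).im : ℝ) / (t.im : ℂ) := by
  have ht' : (t.im : ℂ) ≠ 0 := by exact_mod_cast ht.ne'
  unfold gg
  rw [eq_sub_iff_add_eq, ← add_div, div_eq_iff ht']
  apply Complex.ext
  · simp [h0, h1]
    ring
  · simp [h0, h1]
    ring

/-- Near a point of the curve, all zeros of `gg` are positively oriented. -/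
theorem interior_order {T V0 V1 : ℂ → ℂ} {z₀ : ℂ}
    (hT : ∀ᶠ z in 𝓝 z₀, DifferentiableAt ℂ T z) (hpos : ∀ᶠ z in 𝓝 z₀, 0 < (T z).im)
    (hV0 : ∀ᶠ z in 𝓝 z₀, DifferentiableAt ℂ V0 z) (hV1 : ∀ᶠ z in 𝓝 z₀, DifferentiableAt ℂ V1 z)
    (htr : ∀ᶠ z in 𝓝 z₀, deriv V0 z = T z * deriv V1 z)
    (hnc : ¬ ∀ᶠ z in 𝓝 z₀, deriv V1 z = 0) :
    ∃ m : ℕ, LocOrd (fun z => gg (T z) (V0 z) (V1 z)) z₀ m ∧
      (0 < m ↔ (V0 z₀).im = 0 ∧ (V1 z₀).im = 0) := by
  have hcont : ∀ᶠ z in 𝓝 z₀, ContinuousAt (fun z => gg (T z) (V0 z) (V1 z)) z := by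
    filter_upwards [hT, hpos, hV0, hV1] with z h1 h2 h3 h4
    unfold gg
    refine ContinuousAt.div (ContinuousAt.sub ?_ (ContinuousAt.mul ?_ ?_)) ?_ ?_
    · exact Complex.continuous_ofReal.continuousAt.comp
        (Complex.continuous_im.continuousAt.comp h3.continuousAt)
    · exact Complex.continuous_conj.continuousAt.comp h1.continuousAt
    · exact Complex.continuous_ofReal.continuousAt.comp
        (Complex.continuous_im.continuousAt.comp h4.continuousAt)
    · exact Complex.continuous_ofReal.continuousAt.comp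
        (Complex.continuous_im.continuousAt.comp h1.continuousAt)
    · exact_mod_cast h2.ne'
  have hpos0 := hpos.self_of_nhds
  by_cases hz : (V0 z₀).im = 0 ∧ (V1 z₀).im = 0
  swap
  · refine ⟨0, ?_, by simp [hz]⟩
    have h0 : gg (T z₀) (V0 z₀) (V1 z₀) ≠ 0 := fun h => hz ((gg_eq_zero_iff hpos0).mp h)
    exact_mod_cast LocOrd.of_continuousAt hcont h0
  -- order of vanishing of `V1 - V1 z₀`
  have hw : AnalyticAt ℂ (fun z => V1 z - V1 z₀) z₀ := by
    rw [Complex.analyticAt_iff_eventually_differentiableAt]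
    filter_upwards [hV1] with z hz
    exact hz.sub_const _
  have hwnc : ¬ ∀ᶠ z in 𝓝 z₀, V1 z - V1 z₀ = 0 := by
    intro h
    apply hnc
    filter_upwards [h.eventually_nhds] with z hz
    have h1 : V1 =ᶠ[𝓝 z] fun _ => V1 z₀ := by
      filter_upwards [hz] with y hy
      exact sub_eq_zero.mp hy
    rw [h1.deriv_eq]
    simp
  obtain ⟨m, g, hg, hg0, hgm⟩ := hw.exists_eventuallyEq_pow_smul_nonzero_iff.mpr hwnc
  have hm0 : m ≠ 0 := by
    intro h0
    have := hgm.self_of_nhds
    rw [h0] at this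
    simp at this
    exact hg0 this.symm
  refine ⟨m, ?_, by simp [hz, Nat.pos_of_ne_zero hm0]⟩
  -- a good ball
  have hgc : ∀ᶠ z in 𝓝 z₀, ContinuousAt g z := by
    filter_upwards [hg.eventually_analyticAt] with z hz
    exact hz.continuousAt
  have hTd : AnalyticAt ℂ T z₀ := by
    rw [Complex.analyticAt_iff_eventually_differentiableAt]
    exact hT
  have hTdc : ContinuousAt (deriv T) z₀ := hTd.deriv.continuousAt
  have hTb : ∀ᶠ z in 𝓝 z₀, ‖deriv T z‖ < ‖deriv T z₀‖ + 1 :=
    hTdc.norm.eventually_lt continuousAt_const (by linarith)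
  have hgb : ∀ᶠ z in 𝓝 z₀, ‖g z‖ < ‖g z₀‖ + 1 :=
    hg.continuousAt.norm.eventually_lt continuousAt_const (by linarith)
  have hTim : ∀ᶠ z in 𝓝 z₀, (T z₀).im / 2 < (T z).im := by
    have h1 : ContinuousAt (fun z => (T z).im) z₀ :=
      Complex.continuous_im.continuousAt.comp hTd.continuousAt
    exact continuousAt_const.eventually_lt h1 (by linarith)
  obtain ⟨ε, hε, hball⟩ := Metric.eventually_nhds_iff_ball.mp
    (hT.and (hpos.and (hV0.and (hV1.and (htr.and (hgm.and (hTb.and (hgb.and hTim))))))))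
  set C : ℝ := (‖deriv T z₀‖ + 1) * (‖g z₀‖ + 1) with hC
  have hC0 : 0 ≤ C := by positivity
  set W : ℂ → ℂ := fun z => T z * (V1 z - V1 z₀) - (V0 z - V0 z₀) with hW
  have hWd : ∀ z ∈ Metric.ball z₀ ε, HasDerivAt W (deriv T z * (V1 z - V1 z₀)) z := by
    intro z hz
    obtain ⟨h1, _, h3, h4, h5, _⟩ := hball z hz
    have e1 := (h1.hasDerivAt.mul (h4.hasDerivAt.sub_const (V1 z₀))).sub
      (h3.hasDerivAt.sub_const (V0 z₀))
    rw [h5] at e1
    have e2 : deriv T z * (V1 z - V1 z₀) =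
        deriv T z * (V1 z - V1 z₀) + T z * deriv V1 z - T z * deriv V1 z := by ring
    rw [e2]
    exact e1
  have hWb : ∀ z ∈ Metric.ball z₀ ε, ‖W z‖ ≤ C * ‖z - z₀‖ ^ (m + 1) := by
    intro z hz
    have hsub : Metric.closedBall z₀ ‖z - z₀‖ ⊆ Metric.ball z₀ ε := by
      apply Metric.closedBall_subset_ball
      rwa [Metric.mem_ball, dist_eq_norm] at hz
    have h1 : ‖W z - W z₀‖ ≤ C * ‖z - z₀‖ ^ m * ‖z - z₀‖ := by
      refine (convex_closedBall z₀ ‖z - z₀‖).norm_image_sub_le_of_norm_hasDerivWithin_le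
        (f := W) (f' := fun y => deriv T y * (V1 y - V1 z₀)) (fun y hy =>
          (hWd y (hsub hy)).hasDerivWithinAt) (fun y hy => ?_)
        (Metric.mem_closedBall_self (norm_nonneg _)) (by
          rw [Metric.mem_closedBall, dist_eq_norm])
      obtain ⟨_, _, _, _, _, h6, h7, h8, _⟩ := hball y (hsub hy)
      rw [h6, norm_mul, norm_smul, norm_pow, hC]
      have h9 : ‖y - z₀‖ ≤ ‖z - z₀‖ := by
        rwa [Metric.mem_closedBall, dist_eq_norm] at hy
      have h10 : ‖y - z₀‖ ^ m ≤ ‖z - z₀‖ ^ m := by gcongr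
      calc ‖deriv T y‖ * (‖y - z₀‖ ^ m * ‖g y‖) ≤
          (‖deriv T z₀‖ + 1) * (‖z - z₀‖ ^ m * (‖g z₀‖ + 1)) := by gcongr
        _ = _ := by ring
    have h2 : W z₀ = 0 := by simp [hW]
    rw [h2, sub_zero] at h1
    calc ‖W z‖ ≤ _ := h1
      _ = _ := by ring
  have hid : ∀ z ∈ Metric.ball z₀ ε, gg (T z) (V0 z) (V1 z) =
      (z - z₀) ^ m * g z - ((W z).im : ℝ) / ((T z).im : ℂ) := by
    intro z hz1
    obtain ⟨_, h2, _, _, _, h6, _⟩ := hball z hz1
    rw [gg_identity h2 hz.1 hz.2, h6, smul_eq_mul, ← smul_eq_mul (a := (z - z₀) ^ m), ← h6]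
  set K : ℂ → ℂ := fun z => if z = z₀ then g z₀ else gg (T z) (V0 z) (V1 z) / (z - z₀) ^ m with hK
  have hKne : ∀ z, z ≠ z₀ → K z = gg (T z) (V0 z) (V1 z) / (z - z₀) ^ m := fun z hz => by
    rw [hK]; simp only [if_neg hz]
  have hK0 : K z₀ = g z₀ := by rw [hK]; simp
  refine ⟨K, ?_, by rw [hK0]; exact hg0, ?_⟩
  · -- continuity
    have hKc0 : ContinuousAt K z₀ := by
      have hg' : Tendsto g (𝓝[≠] z₀) (𝓝 (g z₀)) :=
        hg.continuousAt.tendsto.mono_left nhdsWithin_le_nhds
      rw [continuousAt_iff_punctured_nhds, hK0]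
      have hdiff : Tendsto (fun z => K z - g z) (𝓝[≠] z₀) (𝓝 0) := by
        apply squeeze_zero_norm' (a := fun z => C / ((T z₀).im / 2) * ‖z - z₀‖)
        · rw [eventually_nhdsWithin_iff, Metric.eventually_nhds_iff_ball]
          refine ⟨ε, hε, fun z hz1 hne => ?_⟩
          have hne' : z - z₀ ≠ 0 := sub_ne_zero.mpr hne
          have hpne : (z - z₀) ^ m ≠ 0 := pow_ne_zero _ hne'
          obtain ⟨_, h2, _, _, _, _, _, _, h9⟩ := hball z hz1
          have h2' : ((T z).im : ℂ) ≠ 0 := by exact_mod_cast h2.ne'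
          have e1 : K z - g z = -(((W z).im : ℝ) / ((T z).im : ℂ) / (z - z₀) ^ m) := by
            rw [hKne z hne, hid z hz1, sub_div, mul_div_cancel_left₀ _ hpne]
            ring
          rw [e1, norm_neg, norm_div, norm_div, Complex.norm_real, Complex.norm_real, norm_pow,
            Real.norm_eq_abs, Real.norm_eq_abs, abs_of_pos h2]
          have h10 : |(W z).im| ≤ C * ‖z - z₀‖ ^ (m + 1) :=
            (Complex.abs_im_le_norm _).trans (hWb z hz1)
          have h11 : 0 < ‖z - z₀‖ := norm_pos_iff.mpr hne'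
          have h12 : 0 < (T z₀).im / 2 := by linarith
          calc |(W z).im| / (T z).im / ‖z - z₀‖ ^ m
              ≤ C * ‖z - z₀‖ ^ (m + 1) / ((T z₀).im / 2) / ‖z - z₀‖ ^ m := by gcongr
            _ = C / ((T z₀).im / 2) * ‖z - z₀‖ := by
                rw [pow_succ]
                field_simp
        · have h1 : Tendsto (fun z : ℂ => C / ((T z₀).im / 2) * ‖z - z₀‖) (𝓝 z₀)
              (𝓝 (C / ((T z₀).im / 2) * ‖z₀ - z₀‖)) := by
            apply Continuous.tendsto
            fun_prop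
          rw [sub_self, norm_zero, mul_zero] at h1
          exact h1.mono_left nhdsWithin_le_nhds
      have := hdiff.add hg'
      rw [zero_add] at this
      refine this.congr fun z => by ring
    filter_upwards [hcont] with z hz1
    by_cases hne : z = z₀
    · rw [hne]; exact hKc0
    · have h1 : ContinuousAt (fun z => gg (T z) (V0 z) (V1 z) / (z - z₀) ^ m) z := by
        refine hz1.div (by fun_prop) (pow_ne_zero _ (sub_ne_zero.mpr hne))
      refine h1.congr ?_
      filter_upwards [isOpen_ne.mem_nhds hne] with y hy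
      exact (hKne y hy).symm
  · filter_upwards [self_mem_nhdsWithin] with z hne
    rw [hKne z hne, zpow_natCast, mul_div_cancel₀]
    exact pow_ne_zero _ (sub_ne_zero.mpr hne)

end Pool.Agent.LibUB33
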