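import Pool.Agent.LibUB33.EndsC

open Filter Topology UpperHalfPlane
open scoped MatrixGroups

namespace Pool.Agent.LibUB33

private theorem two_pi_I_ne' : (2 * Real.pi * Complex.I : ℂ) ≠ 0 := by
  simp [Real.pi_ne_zero]

private theorem exists_ee' {w : ℂ} (hw : w ≠ 0) :
    ∃ ζ : ℂ, ee ζ = w ∧ ζ.im = - Real.log ‖w‖ / (2 * Real.pi) := by
  refine ⟨Complex.log w / (2 * Real.pi * Complex.I), ?_, ?_⟩
  · rw [ee, mul_div_cancel₀ _ two_pi_I_ne', Complex.exp_log hw]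
  · have h1 : Complex.log w / (2 * Real.pi * Complex.I) =
        -Complex.I * (((1 / (2 * Real.pi) : ℝ) : ℂ) * Complex.log w) := by
      have hpi : (Real.pi : ℂ) ≠ 0 := by exact_mod_cast Real.pi_ne_zero
      push_cast
      field_simp
      rw [Complex.I_sq]
      ring
    rw [h1]
    simp only [Complex.mul_im, Complex.neg_re, Complex.I_re, Complex.neg_im, Complex.I_im,
      Complex.re_ofReal_mul, Complex.log_re]
    ring

private theorem eventually_ee (b : ℂ) (Y : ℝ) :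
    ∀ᶠ w in 𝓝[≠] b, ∃ ζ : ℂ, Y < ζ.im ∧ w = b + ee ζ := by
  have h1 : ∀ᶠ w in 𝓝 b, ‖w - b‖ < Real.exp (-(2 * Real.pi * Y)) := by
    have hc : ContinuousAt (fun w : ℂ => ‖w - b‖) b := by fun_prop
    exact hc.eventually_lt (continuousAt_const (y := Real.exp (-(2 * Real.pi * Y))))
      (by simpa using Real.exp_pos _)
  filter_upwards [h1.filter_mono nhdsWithin_le_nhds, self_mem_nhdsWithin] with w hw hwb
  have hne : w - b ≠ 0 := sub_ne_zero.2 hwb
  obtain ⟨ζ, h2, h3⟩ := exists_ee' hne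
  refine ⟨ζ, ?_, ?_⟩
  · rw [h3, lt_div_iff₀ (by positivity)]
    have := (Real.log_lt_log (norm_pos_iff.2 hne) hw)
    rw [Real.log_exp] at this
    linarith
  · rw [h2, add_sub_cancel]

private theorem eventually_ee_infty (Y : ℝ) :
    ∀ᶠ w in cocompact ℂ, ∃ ζ : ℂ, Y < ζ.im ∧ w = ee (-ζ) := by
  have h1 : ∀ᶠ w : ℂ in cocompact ℂ, Real.exp (2 * Real.pi * Y) < ‖w‖ :=
    (tendsto_norm_cocompact_atTop).eventually_gt_atTop _
  filter_upwards [h1] with w hw
  have hne : w ≠ 0 := by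
    rw [← norm_pos_iff]
    exact (Real.exp_pos _).trans hw
  obtain ⟨ζ, h2, h3⟩ := exists_ee' hne
  refine ⟨-ζ, ?_, ?_⟩
  · rw [Complex.neg_im, h3, neg_div, neg_neg, lt_div_iff₀ (by positivity)]
    have := (Real.log_lt_log (Real.exp_pos _) hw)
    rw [Real.log_exp] at this
    linarith
  · rw [neg_neg, h2]

private theorem hasDerivAt_ee (z : ℂ) : HasDerivAt ee (2 * Real.pi * Complex.I * ee z) z := by
  have h := ((hasDerivAt_id z).const_mul (2 * Real.pi * Complex.I)).cexp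
  simp only [id_eq, mul_one] at h
  have h2 : (2 * Real.pi * Complex.I * ee z : ℂ) =
      Complex.exp (2 * Real.pi * Complex.I * z) * (2 * Real.pi * Complex.I) := by
    rw [ee]; ring
  rw [h2]
  exact h

private theorem ee_ne (z : ℂ) : ee z ≠ 0 := Complex.exp_ne_zero _

/-- A function with a winding number at a puncture has order zero near the puncture. -/
theorem Curve.order_zero (X : Curve) {Φ : ℍ → ℂ} {m : ℍ → ℤ}
    (hloc : ∀ z : ℍ, LocOrd (fun w : ℂ => Φ (ofComplex w)) z (m z)) {s : ℂ → ℍ} {Y : ℝ}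
    (hs : X.IsEnd s Y) {h : ℕ} {n : ℤ} (hw : HasWind h (fun ζ => Φ (s ζ)) n) :
    ∃ Y' : ℝ, ∀ ζ : ℂ, Y' < ζ.im → m (s ζ) = 0 := by
  obtain ⟨Y₁, L, hL, hH, -⟩ := hw
  refine ⟨max Y Y₁, fun ζ hζ => ?_⟩
  obtain ⟨hζ1, hζ2⟩ := max_lt_iff.1 hζ
  have hopen : ∀ Y : ℝ, IsOpen {z : ℂ | Y < z.im} := fun Y =>
    isOpen_lt continuous_const Complex.continuous_im
  -- the lift is a local biholomorphism
  obtain ⟨ψ, hψ, hψd, hψ0⟩ : ∃ ψ : ℂ → ℂ, (∀ ζ : ℂ, Y < ζ.im → X.lam (s ζ) = ψ ζ) ∧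
      (∀ ζ : ℂ, Y < ζ.im → DifferentiableAt ℂ ψ ζ) ∧ ∀ ζ : ℂ, deriv ψ ζ ≠ 0 := by
    rcases hs.2 with ⟨b, -, hb⟩ | hi
    · refine ⟨fun ζ => b + ee ζ, hb, fun ζ _ => ?_, fun ζ => ?_⟩
      · exact ((hasDerivAt_ee ζ).const_add b).differentiableAt
      · rw [((hasDerivAt_ee ζ).const_add b).deriv]
        exact mul_ne_zero two_pi_I_ne' (ee_ne _)
    · have hd : ∀ ζ : ℂ, HasDerivAt (fun ζ => ee (-ζ))
          (2 * Real.pi * Complex.I * ee (-ζ) * (-1)) ζ := fun ζ =>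
        (hasDerivAt_ee (-ζ)).comp ζ (hasDerivAt_neg ζ)
      refine ⟨fun ζ => ee (-ζ), hi, fun ζ _ => (hd ζ).differentiableAt, fun ζ => ?_⟩
      rw [(hd ζ).deriv]
      exact mul_ne_zero (mul_ne_zero two_pi_I_ne' (ee_ne _)) (by norm_num)
  have hdiff : ∀ᶠ z in 𝓝 ζ, DifferentiableAt ℂ (fun z => (s z : ℂ)) z := by
    filter_upwards [(hopen Y).mem_nhds hζ1] with z hz
    exact (X.lift_differentiable hs.1 hψ hψd hz).1
  have hder : deriv (fun z => (s z : ℂ)) ζ ≠ 0 := by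
    intro h0
    have h1 := (X.lift_differentiable hs.1 hψ hψd hζ1).2
    rw [h0, mul_zero] at h1
    exact hψ0 ζ h1.symm
  have h2 : LocOrd (fun w => Φ (ofComplex (s w : ℂ))) ζ (m (s ζ)) :=
    LocOrd.comp (f := fun w : ℂ => Φ (ofComplex w)) (hloc (s ζ)) hdiff hder
  have h3 : LocOrd (fun w => Φ (s w)) ζ (m (s ζ)) := by
    refine h2.congr (Eventually.of_forall fun w => ?_)
    simp only [ofComplex_apply]
  refine h3.unique (LocOrd.of_continuousAt ?_ ?_)
  · filter_upwards [(hopen Y₁).mem_nhds hζ2] with z hz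
    have hc : ContinuousAt (fun w => Complex.exp (L w)) z :=
      (hL.continuousAt ((hopen Y₁).mem_nhds hz)).cexp
    refine hc.congr ?_
    filter_upwards [(hopen Y₁).mem_nhds hz] with w hw
    exact (hH w hw).symm
  · have := hH ζ hζ2
    simp only at this
    rw [this]
    exact Complex.exp_ne_zero _

private theorem finite_bad_aux (p : ℂ → Prop) (hloc : ∀ w, ∀ᶠ z in 𝓝[≠] w, p z)
    (hinf : ∀ᶠ w in cocompact ℂ, p w) : {w | ¬ p w}.Finite := by
  obtain ⟨K, hK, hKp⟩ := mem_cocompact.1 hinf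
  have h1 : ∀ w ∈ K, {z : ℂ | z ≠ w → p z} ∈ 𝓝 w := by
    intro w _
    exact eventually_nhdsWithin_iff.1 (hloc w)
  obtain ⟨t, -, htK⟩ := hK.elim_nhds_subcover (fun w => {z : ℂ | z ≠ w → p z}) h1
  refine t.finite_toSet.subset ?_
  intro w hw
  have hw' : ¬ p w := hw
  have hwK : w ∈ K := by
    by_contra h
    exact hw' (hKp h)
  have h2 := htK hwK
  simp only [Set.mem_iUnion] at h2
  obtain ⟨x, hx, h3⟩ := h2
  have h4 : w ≠ x → p w := h3
  by_cases h5 : w = x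
  · rw [h5]
    exact hx
  · exact absurd (h4 h5) hw'

/-- Near a point of the upper half plane the order is zero. -/
private theorem eventually_zero {Φ : ℍ → ℂ} {m : ℍ → ℤ}
    (hloc : ∀ z : ℍ, LocOrd (fun w : ℂ => Φ (ofComplex w)) z (m z)) (u : ℍ) :
    ∀ᶠ z in 𝓝[≠] (u : ℂ), 0 < z.im → m (ofComplex z) = 0 := by
  have h1 := (hloc u).eventually
  have h2 := eventually_eventually_nhdsWithin.2 h1
  filter_upwards [h1, h2, self_mem_nhdsWithin] with z hz hz2 hzu hpos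
  have hzu' : z ∈ ({(u : ℂ)}ᶜ : Set ℂ) := hzu
  rw [isOpen_compl_singleton.nhdsWithin_eq hzu'] at hz2
  have h3 := hloc (ofComplex z)
  have h4 : ((ofComplex z : ℍ) : ℂ) = z := by
    rw [ofComplex_apply_of_im_pos hpos]
  rw [h4] at h3
  exact h3.unique (LocOrd.of_continuousAt (hz2.mono fun _ h => h.1) hz.2)

/-- Nonzero orders occur over finitely many points of the punctured plane. -/
theorem Curve.finite_orders (X : Curve) (E : X.Ends) (Φ : ℍ → ℂ) (m : ℍ → ℤ)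
    (hinv : ∀ g ∈ X.P, ∀ z : ℍ, m (g • z) = m z)
    (hloc : ∀ z : ℍ, LocOrd (fun w : ℂ => Φ (ofComplex w)) z (m z))
    (hb : ∀ b ∈ X.B, ∀ x ∈ E.R, ∃ Y' : ℝ, ∀ ζ : ℂ, Y' < ζ.im → m (x • E.s b ζ) = 0)
    (hi : ∀ x ∈ E.R, ∃ Y' : ℝ, ∀ ζ : ℂ, Y' < ζ.im → m (x • E.s' ζ) = 0) :
    {w : ℂ | ∃ z : ℍ, X.lam z = w ∧ m z ≠ 0}.Finite := by
  classical
  -- all points over `lam u`
  have hrep : ∀ u z : ℍ, X.lam u = X.lam z → ∃ x ∈ E.R, m z = m (x • u) := by
    intro u z h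
    obtain ⟨g, hg, hgz⟩ := (X.lam_fib u z).1 h
    obtain ⟨x, ⟨hx, p, hp, hgp⟩, -⟩ := E.R_unique g hg
    refine ⟨x, hx, ?_⟩
    rw [← hgz, hgp, mul_smul]
    exact hinv p hp _
  -- a common bound
  have hbd : ∀ q : SL(2, ℝ) → ℂ → Prop, (∀ x ∈ E.R, ∃ Y' : ℝ, ∀ ζ : ℂ, Y' < ζ.im → q x ζ) →
      ∃ Y' : ℝ, E.Y < Y' ∧ ∀ x ∈ E.R, ∀ ζ : ℂ, Y' < ζ.im → q x ζ := by
    intro q hq
    choose! Z hZ using hq
    obtain ⟨W, hW⟩ := (E.R.image Z).bddAbove
    refine ⟨max W (E.Y + 1), lt_of_lt_of_le (lt_add_one _) (le_max_right _ _), ?_⟩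
    intro x hx ζ hζ
    refine hZ x hx ζ (lt_of_le_of_lt ?_ hζ)
    exact (hW (Finset.mem_coe.2 (Finset.mem_image_of_mem _ hx))).trans (le_max_left _ _)
  have hfin := finite_bad_aux (fun w => ∀ z : ℍ, X.lam z = w → m z = 0) ?_ ?_
  · refine hfin.subset ?_
    rintro w ⟨z, hz, hm⟩ h
    exact hm (h z hz)
  · intro w
    by_cases hw : w ∈ X.B
    · obtain ⟨Y', hY, hY'⟩ := hbd (fun x ζ => m (x • E.s w ζ) = 0) (hb w hw)
      filter_upwards [eventually_ee w Y'] with w' hw' z hz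
      obtain ⟨ζ, hζ, hζw⟩ := hw'
      have h1 : X.lam (E.s w ζ) = X.lam z := by
        rw [E.s_lam w hw ζ (hY.trans hζ), hz, hζw]
      obtain ⟨x, hx, hxm⟩ := hrep _ _ h1
      rw [hxm]
      exact hY' x hx ζ hζ
    · have hr : w ∈ Set.range X.lam := by rw [X.lam_range]; exact hw
      obtain ⟨z₀, rfl⟩ := hr
      obtain ⟨φ, hφ0, hφ, -⟩ := X.exists_local_section z₀
      have hφc : ContinuousAt φ (X.lam z₀) := hφ.self_of_nhds.1.continuousAt
      have hφ0' : 0 < (φ (X.lam z₀)).im := by rw [hφ0]; exact z₀.im_pos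
      have hofc : ContinuousAt (fun w' => ofComplex (φ w')) (X.lam z₀) :=
        ContinuousAt.comp (g := fun z : ℂ => ofComplex z)
          ((mdifferentiableAt_ofComplex hφ0').continuousAt) hφc
      have hof0 : ofComplex (φ (X.lam z₀)) = z₀ := by rw [hφ0, ofComplex_apply]
      have hT : ∀ x : SL(2, ℝ), x ∈ E.R → Tendsto (fun w' => ((x • ofComplex (φ w') : ℍ) : ℂ))
          (𝓝[≠] (X.lam z₀)) (𝓝[≠] ((x • z₀ : ℍ) : ℂ)) := by
        intro x _
        apply tendsto_nhdsWithin_of_tendsto_nhds_of_eventually_within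
        · have h1 : ContinuousAt (fun w' => ((x • ofComplex (φ w') : ℍ) : ℂ)) (X.lam z₀) :=
            UpperHalfPlane.continuous_coe.continuousAt.comp
              ((continuous_const_smul x).continuousAt.comp hofc)
          have h2 := h1.tendsto
          simp only [hof0] at h2
          exact h2.mono_left nhdsWithin_le_nhds
        · filter_upwards [hφ.filter_mono nhdsWithin_le_nhds, self_mem_nhdsWithin] with w' h1 h2
          intro h3
          apply h2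
          have h4 : x • ofComplex (φ w') = x • z₀ := UpperHalfPlane.ext h3
          have h5 : ofComplex (φ w') = z₀ := MulAction.injective x h4
          show w' = X.lam z₀
          rw [← h1.2.2, h5]
      have hall : ∀ᶠ w' in 𝓝[≠] (X.lam z₀), ∀ x ∈ E.R, m (x • ofComplex (φ w')) = 0 := by
        rw [Filter.eventually_all_finset]
        intro x hx
        have h1 := (hT x hx).eventually (eventually_zero hloc (x • z₀))
        filter_upwards [h1] with w' h2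
        have h3 := h2 (UpperHalfPlane.im_pos _)
        rwa [ofComplex_apply] at h3
      filter_upwards [hall, hφ.filter_mono nhdsWithin_le_nhds] with w' h1 h2 z hz
      have h3 : X.lam (ofComplex (φ w')) = X.lam z := by rw [h2.2.2, hz]
      obtain ⟨x, hx, hxm⟩ := hrep _ _ h3
      rw [hxm]
      exact h1 x hx
  · obtain ⟨Y', hY, hY'⟩ := hbd (fun x ζ => m (x • E.s' ζ) = 0) hi
    filter_upwards [eventually_ee_infty Y'] with w' hw' z hz
    obtain ⟨ζ, hζ, hζw⟩ := hw'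
    have h1 : X.lam (E.s' ζ) = X.lam z := by
      rw [E.s'_lam ζ (hY.trans hζ), hz, hζw]
    obtain ⟨x, hx, hxm⟩ := hrep _ _ h1
    rw [hxm]
    exact hY' x hx ζ hζ

end Pool.Agent.LibUB33
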