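import Pool.Agent.LibUB33.EndsC

open Filter Topology UpperHalfPlane
open scoped MatrixGroups

namespace Pool.Agent.LibUB33

private theorem lam_smul (X : Curve) {g : SL(2, ℝ)} (hg : g ∈ X.G) (z : ℍ) :
    X.lam (g • z) = X.lam z := ((X.lam_fib z (g • z)).2 ⟨g, hg, rfl⟩).symm

private theorem mk_eq_iff (X : Curve) (z w : ℍ) :
    (Quotient.mk'' z : X.Pts) = Quotient.mk'' w ↔ ∃ p ∈ X.P, p • w = z := by
  constructor
  · intro h
    have h1 : MulAction.orbitRel X.P ℍ z w := Quotient.exact h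
    rw [MulAction.orbitRel_apply] at h1
    obtain ⟨p, hp⟩ := h1
    exact ⟨p.1, p.2, hp⟩
  · rintro ⟨p, hp, h⟩
    apply Quotient.sound
    show MulAction.orbitRel X.P ℍ z w
    rw [MulAction.orbitRel_apply]
    exact ⟨⟨p, hp⟩, h⟩

private noncomputable def proj (X : Curve) : X.Pts → ℂ :=
  Quotient.lift X.lam (by
    intro a b h
    have h1 : MulAction.orbitRel X.P ℍ a b := h
    rw [MulAction.orbitRel_apply] at h1
    obtain ⟨p, hp⟩ := h1
    have hp' : (p : SL(2, ℝ)) • b = a := hp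
    rw [← hp']
    exact lam_smul X (X.P_le p.2) b)

private theorem proj_mk (X : Curve) (z : ℍ) : proj X (Quotient.mk'' z) = X.lam z := rfl

private theorem reps_inj (X : Curve) (E : X.Ends) (z : ℍ) :
    Set.InjOn (fun x : SL(2, ℝ) => (Quotient.mk'' (x • z) : X.Pts)) E.R := by
  intro x hx y hy h
  obtain ⟨p, hp, hpz⟩ := (mk_eq_iff X _ _).1 h
  have h1 : (x⁻¹ * (p * y)) • z = z := by
    rw [mul_smul, mul_smul, hpz, inv_smul_smul]
  have h2 := X.free _ (X.G.mul_mem (X.G.inv_mem (E.R_mem x hx))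
    (X.G.mul_mem (X.P_le hp) (E.R_mem y hy))) z h1
  have h3 : x = p * y := by
    have := congrArg (x * ·) h2
    simpa using this.symm
  exact (E.R_unique x (E.R_mem x hx)).unique ⟨hx, 1, X.P.one_mem, by simp⟩ ⟨hy, p, hp, h3⟩

private theorem exists_rep (X : Curve) (E : X.Ends) (z : ℍ) (u : X.Pts)
    (hu : proj X u = X.lam z) : ∃ x ∈ E.R, u = Quotient.mk'' (x • z) := by
  induction u using Quotient.inductionOn' with
  | h u =>
    rw [proj_mk] at hu
    obtain ⟨g, hg, hgz⟩ := (X.lam_fib z u).1 hu.symm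
    obtain ⟨x, ⟨hx, p, hp, hgp⟩, -⟩ := E.R_unique g hg
    refine ⟨x, hx, (mk_eq_iff X _ _).2 ⟨p, hp, ?_⟩⟩
    rw [← hgz, hgp, mul_smul]

/-- The orders of a function on the curve, over a point of the punctured plane. -/
theorem Curve.sum_orders (X : Curve) (E : X.Ends) (M : X.Pts → ℤ) (m : ℂ → ℤ)
    (hm : ∀ z : ℍ, m (X.lam z) = ∑ x ∈ E.R, M (Quotient.mk'' (x • z)))
    (hB : ∀ b ∈ X.B, m b = 0)
    (hfin : {w : ℂ | ∃ z : ℍ, X.lam z = w ∧ M (Quotient.mk'' z) ≠ 0}.Finite) :
    (Function.support M).Finite ∧ ∑ᶠ x, M x = ∑ᶠ w, m w := by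
  classical
  have hfib : ∀ z : ℍ, {u : X.Pts | proj X u = X.lam z} ⊆
      (E.R.image (fun x : SL(2, ℝ) => (Quotient.mk'' (x • z) : X.Pts)) : Set X.Pts) := by
    intro z u hu
    obtain ⟨x, hx, rfl⟩ := exists_rep X E z u hu
    simp only [Finset.coe_image, Set.mem_image, Finset.mem_coe]
    exact ⟨x, hx, rfl⟩
  have hsupp : (Function.support M).Finite := by
    refine (hfin.biUnion (t := fun w => {u : X.Pts | proj X u = w}) ?_).subset ?_
    · rintro w ⟨z, rfl, -⟩
      exact (Finset.finite_toSet _).subset (hfib z)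
    · intro u hu
      induction u using Quotient.inductionOn' with
      | h u =>
        simp only [Set.mem_iUnion, Set.mem_setOf_eq]
        exact ⟨X.lam u, ⟨u, rfl, hu⟩, proj_mk X u⟩
  refine ⟨hsupp, ?_⟩
  have hsm : Function.support m ⊆ hfin.toFinset := by
    intro w hw
    have hw' : m w ≠ 0 := hw
    have hwB : w ∉ X.B := fun h => hw' (hB w h)
    have hr : w ∈ Set.range X.lam := by rw [X.lam_range]; exact hwB
    obtain ⟨z, rfl⟩ := hr
    rw [hm] at hw'
    obtain ⟨x, hx, hx0⟩ := Finset.exists_ne_zero_of_sum_ne_zero hw'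
    simp only [Set.Finite.coe_toFinset, Set.mem_setOf_eq]
    exact ⟨x • z, lam_smul X (E.R_mem x hx) z, hx0⟩
  rw [finsum_eq_sum_of_support_subset m hsm,
    finsum_eq_sum_of_support_subset M (s := hsupp.toFinset) (by simp)]
  have hmaps : ∀ u ∈ hsupp.toFinset, proj X u ∈ hfin.toFinset := by
    intro u hu
    induction u using Quotient.inductionOn' with
    | h u =>
      simp only [Set.Finite.mem_toFinset, Function.mem_support] at hu
      simp only [Set.Finite.mem_toFinset, Set.mem_setOf_eq]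
      exact ⟨u, (proj_mk X u).symm, hu⟩
  rw [← Finset.sum_fiberwise_of_maps_to hmaps]
  refine Finset.sum_congr rfl fun w hw => ?_
  simp only [Set.Finite.mem_toFinset, Set.mem_setOf_eq] at hw
  obtain ⟨z, rfl, -⟩ := hw
  rw [hm]
  have h1 : ∑ x ∈ E.R, M (Quotient.mk'' (x • z)) =
      ∑ u ∈ E.R.image (fun x : SL(2, ℝ) => (Quotient.mk'' (x • z) : X.Pts)), M u := by
    rw [Finset.sum_image]
    intro x hx y hy h
    exact reps_inj X E z hx hy h
  rw [h1]
  apply Finset.sum_subset
  · intro u hu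
    simp only [Finset.mem_filter] at hu
    have := hfib z hu.2
    exact_mod_cast this
  · intro u hu hu'
    simp only [Finset.mem_filter, Set.Finite.mem_toFinset, Function.mem_support, not_and] at hu'
    by_contra h0
    apply hu' h0
    simp only [Finset.mem_image] at hu
    obtain ⟨x, hx, rfl⟩ := hu
    rw [proj_mk]
    exact lam_smul X (E.R_mem x hx) z

end Pool.Agent.LibUB33
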