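import Pool.Agent.LibUB33.PlaneOrd
import Pool.Agent.LibUB33.CountA
import Pool.Agent.LibUB33.CountB
import Pool.Agent.LibUB33.Moebius

/-!
# Counting zeros on the curve
-/

open Filter Topology UpperHalfPlane
open scoped MatrixGroups

namespace Pool.Agent.LibUB33

theorem Curve.orders_inv (X : Curve) {Φ : ℍ → ℂ} {m : ℍ → ℤ}
    (hinv : ∀ g ∈ X.P, ∀ z : ℍ, Φ (g • z) = Φ z)
    (hloc : ∀ z : ℍ, LocOrd (fun w : ℂ => Φ (ofComplex w)) z (m z)) :
    ∀ g ∈ X.P, ∀ z : ℍ, m (g • z) = m z := by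
  intro g hg z
  have h1 := LocOrd.smul (Φ := Φ) g (hloc (g • z))
  have h2 : LocOrd (fun w : ℂ => Φ (ofComplex w)) z (m (g • z)) :=
    h1.congr (Eventually.of_forall fun w => hinv g hg _)
  exact h2.unique (hloc z)

/-- A common period for finitely many functions. -/
theorem exists_common_period {ι : Type*} (s : Finset ι) {f : ι → ℂ → ℂ} (k : ℤ)
    (hf : ∀ i ∈ s, ∃ (h : ℕ) (n : ℤ), 0 < h ∧ HasWind h (f i) n ∧ h * k ≤ n) :
    ∃ (h : ℕ) (n : ι → ℤ), 0 < h ∧ ∀ i ∈ s, HasWind h (f i) (n i) ∧ h * k ≤ n i := by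
  classical
  induction s using Finset.induction_on with
  | empty => exact ⟨1, fun _ => 0, one_pos, by simp⟩
  | @insert a t ha ih =>
    obtain ⟨h, n, hh, hn⟩ := ih fun i hi => hf i (Finset.mem_insert_of_mem hi)
    obtain ⟨h', n', hh', hw, hk⟩ := hf a (Finset.mem_insert_self _ _)
    refine ⟨h' * h, fun i => if i = a then h * n' else h' * n i, Nat.mul_pos hh' hh, ?_⟩
    intro i hi
    by_cases hia : i = a
    · subst hia
      refine ⟨?_, ?_⟩
      · have := hw.mul_period h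
        rw [mul_comm h' h]
        simpa using this
      · simp only [if_true]
        push_cast
        have := mul_le_mul_of_nonneg_left hk (Int.natCast_nonneg h)
        calc ((h' : ℤ) * h) * k = h * (h' * k) := by ring
          _ ≤ _ := this
    · obtain ⟨h1, h2⟩ := hn i (Finset.mem_of_mem_insert_of_ne hi hia)
      refine ⟨?_, ?_⟩
      · have := h1.mul_period h'
        simpa [hia] using this
      · simp only [if_neg hia]
        push_cast
        have := mul_le_mul_of_nonneg_left h2 (Int.natCast_nonneg h')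
        calc ((h' : ℤ) * h) * k = h' * (h * k) := by ring
          _ ≤ _ := this

/-- The winding number of the norm. -/
theorem exists_wind_norm {ι : Type*} (s : Finset ι) {f : ι → ℂ → ℂ} (k : ℤ)
    (hf : ∀ i ∈ s, ∃ (h : ℕ) (n : ℤ), 0 < h ∧ HasWind h (f i) n ∧ h * k ≤ n) (Y : ℝ)
    (hper : ∀ z : ℂ, Y < z.im → ∏ i ∈ s, f i (z + 1) = ∏ i ∈ s, f i z) :
    ∃ n : ℤ, HasWind 1 (fun z => ∏ i ∈ s, f i z) n ∧ s.card * k ≤ n := by
  obtain ⟨h, n, hh, hn⟩ := exists_common_period s k hf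
  have h1 : HasWind (h * 1) (fun z => ∏ i ∈ s, f i z) (∑ i ∈ s, n i) := by
    rw [mul_one]
    exact HasWind.prod s fun i hi => (hn i hi).1
  obtain ⟨N, hN, hN'⟩ := h1.of_period hh Y (by simpa using hper)
  refine ⟨N, hN, ?_⟩
  have h2 : (s.card : ℤ) * (h * k) ≤ ∑ i ∈ s, n i := by
    rw [← nsmul_eq_mul]
    exact Finset.card_nsmul_le_sum s n _ fun i hi => (hn i hi).2
  rw [← hN'] at h2
  have h3 : (h : ℤ) * (s.card * k) ≤ h * N := by
    calc (h : ℤ) * (s.card * k) = s.card * (h * k) := by ring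
      _ ≤ _ := h2
  exact le_of_mul_le_mul_left h3 (by exact_mod_cast hh)

/-- The count: for a function on the curve with local orders `m`, whose winding numbers at the
punctures are bounded below. -/
theorem Curve.count (X : Curve) (E : X.Ends) (Φ : ℍ → ℂ) (m : ℍ → ℤ)
    (hinv : ∀ g ∈ X.P, ∀ z : ℍ, Φ (g • z) = Φ z)
    (hloc : ∀ z : ℍ, LocOrd (fun w : ℂ => Φ (ofComplex w)) z (m z))
    (k : ℂ → ℤ) (k' : ℤ)
    (hb : ∀ b ∈ X.B, ∀ x ∈ E.R, ∃ (h : ℕ) (n : ℤ), 0 < h ∧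
      HasWind h (fun ζ => Φ (x • E.s b ζ)) n ∧ h * k b ≤ n)
    (hi : ∀ x ∈ E.R, ∃ (h : ℕ) (n : ℤ), 0 < h ∧
      HasWind h (fun ζ => Φ (x • E.s' ζ)) n ∧ h * k' ≤ n) :
    ∃ M : X.Pts → ℤ, (∀ z : ℍ, M (Quotient.mk'' z) = m z) ∧ (Function.support M).Finite ∧
      ∑ᶠ x, M x ≤ - (X.degree * (∑ b ∈ X.B, k b + k')) := by
  classical
  have hm := X.orders_inv hinv hloc
  have hendb : ∀ b ∈ X.B, X.IsEnd (E.s b) E.Y := fun b hb' =>
    ⟨E.s_cont b hb', Or.inl ⟨b, hb', E.s_lam b hb'⟩⟩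
  have hendi : X.IsEnd E.s' E.Y := ⟨E.s'_cont, Or.inr E.s'_lam⟩
  -- the function on points
  let M : X.Pts → ℤ := fun q => Quotient.liftOn' q m (by
    rintro z w ⟨g, rfl⟩
    exact hm g.1 g.2 w)
  have hM : ∀ z : ℍ, M (Quotient.mk'' z) = m z := fun z => rfl
  refine ⟨M, hM, ?_⟩
  -- lam on the orbit
  have hlam : ∀ g ∈ X.G, ∀ z : ℍ, X.lam (g • z) = X.lam z := fun g hg z =>
    ((X.lam_fib z (g • z)).2 ⟨g, hg, rfl⟩).symm
  obtain ⟨H, hH, hHloc⟩ := X.exists_norm E.R E.R_mem E.R_unique Φ m hinv hloc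
  -- orders on the plane
  have hex : ∀ w : ℂ, w ∉ X.B → ∃ z : ℍ, X.lam z = w := by
    intro w hw
    have : w ∈ Set.range X.lam := by rw [X.lam_range]; exact hw
    exact this
  have hnotB : ∀ z : ℍ, X.lam z ∉ X.B := by
    intro z
    have : X.lam z ∈ Set.range X.lam := ⟨z, rfl⟩
    rw [X.lam_range] at this
    exact this
  choose! sec hsec using hex
  let m' : ℂ → ℤ := fun w => if w ∈ X.B then 0 else ∑ x ∈ E.R, m (x • sec w)
  have hm'loc : ∀ w, w ∉ X.B → LocOrd H w (m' w) := by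
    intro w hw
    have := hHloc (sec w)
    rw [hsec w hw] at this
    simpa [m', hw] using this
  have hm'B : ∀ b ∈ X.B, m' b = 0 := fun b hb' => by simp [m', hb']
  have hm'z : ∀ z : ℍ, m' (X.lam z) = ∑ x ∈ E.R, M (Quotient.mk'' (x • z)) := by
    intro z
    have h1 := hm'loc (X.lam z) (hnotB z)
    have h2 := hHloc z
    exact h1.unique h2
  -- winding numbers
  have hwb : ∀ b ∈ X.B, ∃ n : ℤ, HasWind 1 (fun z => H (b + ee z)) n ∧
      (X.degree : ℤ) * k b ≤ n := by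
    intro b hb'
    have hper : ∀ z : ℂ, E.Y < z.im →
        ∏ x ∈ E.R, Φ (x • E.s b (z + 1)) = ∏ x ∈ E.R, Φ (x • E.s b z) := by
      intro z hz
      have hz1 : E.Y < (z + 1).im := by simpa using hz
      rw [← hH, ← hH, E.s_lam b hb' z hz, E.s_lam b hb' _ hz1]
      congr 2
      unfold ee
      rw [mul_add, mul_one, Complex.exp_add, Complex.exp_two_pi_mul_I, mul_one]
    obtain ⟨n, hn, hn'⟩ := exists_wind_norm E.R (k b) (hb b hb') E.Y hper
    refine ⟨n, hn.congr E.Y ?_, by rw [← E.R_card]; exact hn'⟩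
    intro z hz
    rw [← hH, E.s_lam b hb' z hz]
  have hwi : ∃ n : ℤ, HasWind 1 (fun z => H (ee (-z))) n ∧ (X.degree : ℤ) * k' ≤ n := by
    have hper : ∀ z : ℂ, E.Y < z.im →
        ∏ x ∈ E.R, Φ (x • E.s' (z + 1)) = ∏ x ∈ E.R, Φ (x • E.s' z) := by
      intro z hz
      have hz1 : E.Y < (z + 1).im := by simpa using hz
      rw [← hH, ← hH, E.s'_lam z hz, E.s'_lam _ hz1]
      congr 1
      unfold ee
      rw [show 2 * (Real.pi : ℂ) * Complex.I * -(z + 1) =
        2 * (Real.pi : ℂ) * Complex.I * -z - 2 * Real.pi * Complex.I by ring, Complex.exp_sub,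
        Complex.exp_two_pi_mul_I, div_one]
    obtain ⟨n, hn, hn'⟩ := exists_wind_norm E.R k' hi E.Y hper
    refine ⟨n, hn.congr E.Y ?_, by rw [← E.R_card]; exact hn'⟩
    intro z hz
    rw [← hH, E.s'_lam z hz]
  choose! n hn hn' using hwb
  obtain ⟨N, hN, hN'⟩ := hwi
  obtain ⟨-, htot⟩ := plane_orders X.B H m' hm'B hm'loc n N hn hN
  -- finiteness
  have hfin : {w : ℂ | ∃ z : ℍ, X.lam z = w ∧ m z ≠ 0}.Finite := by
    refine X.finite_orders E Φ m hm hloc ?_ ?_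
    · intro b hb' x hx
      obtain ⟨h, n, hh, hw, -⟩ := hb b hb' x hx
      have hend : X.IsEnd (fun ζ => x • E.s b ζ) E.Y := by
        refine ⟨(E.s_cont b hb').const_smul x, Or.inl ⟨b, hb', fun ζ hζ => ?_⟩⟩
        rw [hlam x (E.R_mem x hx), E.s_lam b hb' ζ hζ]
      exact X.order_zero hloc hend hw
    · intro x hx
      obtain ⟨h, n, hh, hw, -⟩ := hi x hx
      have hend : X.IsEnd (fun ζ => x • E.s' ζ) E.Y := by
        refine ⟨E.s'_cont.const_smul x, Or.inr fun ζ hζ => ?_⟩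
        rw [hlam x (E.R_mem x hx), E.s'_lam ζ hζ]
      exact X.order_zero hloc hend hw
  obtain ⟨hfinM, hsum⟩ := X.sum_orders E M m' hm'z hm'B hfin
  refine ⟨hfinM, ?_⟩
  rw [hsum]
  have h1 : ∑ b ∈ X.B, (X.degree : ℤ) * k b ≤ ∑ b ∈ X.B, n b := Finset.sum_le_sum hn'
  rw [← Finset.mul_sum] at h1
  have h2 : (X.degree : ℤ) * (∑ b ∈ X.B, k b + k') =
      (X.degree : ℤ) * ∑ b ∈ X.B, k b + X.degree * k' := by ring
  rw [h2]
  linarith

end Pool.Agent.LibUB33
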