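import Pool.Agent.LibUB33.CuspDefs

open Filter Topology

namespace Pool.Agent.LibUB33

private theorem cp_basis {P : ℂ → Prop} :
    (∀ᶠ z in comap Complex.im atTop, P z) ↔ ∃ Y : ℝ, ∀ z : ℂ, Y < z.im → P z := by
  rw [(atTop_basis_Ioi.comap Complex.im).eventually_iff]
  constructor
  · rintro ⟨Y, -, h⟩
    exact ⟨Y, fun z hz => h (show z ∈ Complex.im ⁻¹' Set.Ioi Y from hz)⟩
  · rintro ⟨Y, h⟩
    exact ⟨Y, trivial, fun z hz => h z hz⟩

/-- A property of `q = exp(2πiz/h)` for large imaginary part is a property of small `q ≠ 0`. -/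
private theorem cp_eventually {h : ℕ} (hh : 0 < h) {P : ℂ → Prop} {Y : ℝ}
    (H : ∀ z : ℂ, Y < z.im → P (ee (z / h))) : ∀ᶠ q in 𝓝[≠] (0 : ℂ), P q := by
  have hh' : (0 : ℝ) < h := by exact_mod_cast hh
  have hhC : (h : ℂ) ≠ 0 := by exact_mod_cast hh.ne'
  have hpi := Real.pi_pos
  rw [eventually_nhdsWithin_iff, Metric.eventually_nhds_iff_ball]
  refine ⟨Real.exp (-(2 * Real.pi * Y / h)), Real.exp_pos _, fun q hq hq0 => ?_⟩
  rw [Metric.mem_ball, dist_zero_right] at hq
  have hq0' : q ≠ 0 := hq0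
  have hlog : Real.log ‖q‖ < -(2 * Real.pi * Y / h) := by
    rw [← Real.log_exp (-(2 * Real.pi * Y / h))]
    exact Real.log_lt_log (norm_pos_iff.mpr hq0') hq
  have h2pi : (2 * Real.pi * Complex.I : ℂ) ≠ 0 := Complex.two_pi_I_ne_zero
  set z : ℂ := h * (Complex.log q / (2 * Real.pi * Complex.I)) with hz
  have hzh : z / h = Complex.log q / (2 * Real.pi * Complex.I) := by
    rw [hz, mul_div_cancel_left₀ _ hhC]
  have hee : ee (z / h) = q := by
    unfold ee
    rw [hzh, mul_div_cancel₀ _ h2pi, Complex.exp_log hq0']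
  have him : z.im = -(h * Real.log ‖q‖ / (2 * Real.pi)) := by
    have h1 : Complex.log q / (2 * Real.pi * Complex.I) =
        -(Complex.log q * Complex.I) / ((2 * Real.pi : ℝ) : ℂ) := by
      push_cast
      have h2p : (2 * Real.pi : ℂ) ≠ 0 := by
        have : (2 * Real.pi : ℝ) ≠ 0 := by positivity
        exact_mod_cast this
      rw [div_eq_div_iff h2pi h2p]
      linear_combination (Complex.log q * (2 * Real.pi)) * Complex.I_sq
    have h2 : z.im = h * (Complex.log q / (2 * Real.pi * Complex.I)).im := by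
      rw [hz, Complex.mul_im]
      simp
    rw [h2, h1, Complex.div_ofReal_im, Complex.neg_im, Complex.mul_I_im, Complex.log_re]
    ring
  have hY : Y < z.im := by
    rw [him, ← neg_lt_neg_iff, neg_neg]
    rw [div_lt_iff₀ (by positivity)]
    have : h * Real.log ‖q‖ < h * -(2 * Real.pi * Y / h) := by gcongr
    have e : (h : ℝ) * -(2 * Real.pi * Y / h) = -Y * (2 * Real.pi) := by field_simp
    linarith
  have := H z hY
  rwa [hee] at this

private theorem cp_ee_deriv (h : ℕ) (z : ℂ) :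
    HasDerivAt (fun z : ℂ => ee (z / h)) (2 * Real.pi * Complex.I / h * ee (z / h)) z := by
  unfold ee
  have h1 : HasDerivAt (fun z : ℂ => 2 * Real.pi * Complex.I * (z / h))
      (2 * Real.pi * Complex.I * (1 / h)) z :=
    ((hasDerivAt_id z).div_const (h : ℂ)).const_mul _
  have h2 := h1.cexp
  have e : 2 * Real.pi * Complex.I / h * Complex.exp (2 * Real.pi * Complex.I * (z / h)) =
      Complex.exp (2 * Real.pi * Complex.I * (z / h)) * (2 * Real.pi * Complex.I * (1 / h)) := by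
    ring
  rw [e]
  exact h2

private theorem cp_comp {h : ℕ} {E : ℂ → ℂ} {z : ℂ} (hE : DifferentiableAt ℂ E (ee (z / h))) :
    HasDerivAt (fun z : ℂ => E (ee (z / h)))
      (deriv E (ee (z / h)) * (2 * Real.pi * Complex.I / h * ee (z / h))) z :=
  hE.hasDerivAt.comp z (cp_ee_deriv h z)

/-- A holomorphic function with `f (z + h) = f z + r` of moderate growth. -/
private theorem cp_expand {h : ℕ} (hh : 0 < h) {Y : ℝ} {f : ℂ → ℂ} {r : ℂ}
    (hf : ∀ z : ℂ, Y < z.im → DifferentiableAt ℂ f z)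
    (hper : ∀ z : ℂ, Y < z.im → f (z + h) = f z + r) (C : ℝ) (N : ℕ)
    (hg : ∀ z : ℂ, |z.re| ≤ h → Y < z.im → ‖f z‖ ≤ C * (1 + |z.im|) ^ N) :
    ∃ E : ℂ → ℂ, AnalyticAt ℂ E 0 ∧ ∀ᶠ z in comap Complex.im atTop,
      f z = r * (z / h) + E (ee (z / h)) := by
  have hh' : (0 : ℝ) < h := by exact_mod_cast hh
  have hh1 : (1 : ℝ) ≤ h := by exact_mod_cast hh
  have hhC : (h : ℂ) ≠ 0 := by exact_mod_cast hh.ne'
  obtain ⟨E, hE, Y', hY'⟩ := exists_of_growth hh (f := fun z => f z - r * (z / h)) (Y := Y)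
    (fun z hz => (hf z hz).sub (by fun_prop))
    (fun z hz => by
      rw [hper z hz]
      field_simp
      ring)
    (|C| + ‖r‖) (N + 1) (fun z hre hz => by
      have h1 := hg z hre hz
      have h0 : 1 ≤ 1 + |z.im| := by linarith [abs_nonneg z.im]
      have h2 : ‖r * (z / h)‖ ≤ ‖r‖ * (1 + |z.im|) := by
        rw [norm_mul, norm_div, Complex.norm_natCast]
        apply mul_le_mul_of_nonneg_left _ (norm_nonneg r)
        rw [div_le_iff₀ hh']
        have h3 := Complex.norm_le_abs_re_add_abs_im z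
        nlinarith [abs_nonneg z.im]
      have h4 : (1 + |z.im|) ^ N ≤ (1 + |z.im|) ^ (N + 1) := pow_le_pow_right₀ h0 (Nat.le_succ N)
      have h5 : (1 + |z.im|) ≤ (1 + |z.im|) ^ (N + 1) := by
        calc (1 + |z.im|) = (1 + |z.im|) ^ 1 := (pow_one _).symm
          _ ≤ _ := pow_le_pow_right₀ h0 (by omega)
      calc ‖f z - r * (z / h)‖ ≤ ‖f z‖ + ‖r * (z / h)‖ := norm_sub_le _ _
        _ ≤ C * (1 + |z.im|) ^ N + ‖r‖ * (1 + |z.im|) := add_le_add h1 h2
        _ ≤ |C| * (1 + |z.im|) ^ (N + 1) + ‖r‖ * (1 + |z.im|) ^ (N + 1) := by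
            apply add_le_add
            · calc C * (1 + |z.im|) ^ N ≤ |C| * (1 + |z.im|) ^ N := by
                    gcongr; exact le_abs_self C
                _ ≤ _ := by gcongr
            · gcongr
        _ = _ := by ring)
  refine ⟨E, hE, cp_basis.mpr ⟨Y', fun z hz => ?_⟩⟩
  have := hY' z hz
  linear_combination this

private theorem cp_deriv {h : ℕ} {f E : ℂ → ℂ} {r : ℂ} (hh : 0 < h) (hE : AnalyticAt ℂ E 0)
    (hf : ∀ᶠ z in comap Complex.im atTop, f z = r * (z / h) + E (ee (z / h))) :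
    ∀ᶠ z in comap Complex.im atTop,
      deriv f z = r / h + 2 * Real.pi * Complex.I / h * ee (z / h) * deriv E (ee (z / h)) := by
  obtain ⟨Y, hY⟩ := cp_basis.mp hf
  have h1 : ∀ᶠ z in comap Complex.im atTop, DifferentiableAt ℂ E (ee (z / h)) := by
    have := (tendsto_ee hh).mono_right nhdsWithin_le_nhds
    exact this.eventually (hE.eventually_analyticAt.mono fun q hq => hq.differentiableAt)
  obtain ⟨Y₁, hY₁⟩ := cp_basis.mp h1
  refine cp_basis.mpr ⟨max Y Y₁, fun z hz => ?_⟩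
  have hz1 : Y < z.im := (le_max_left _ _).trans_lt hz
  have hz2 : Y₁ < z.im := (le_max_right _ _).trans_lt hz
  have hopen : {w : ℂ | Y < w.im} ∈ 𝓝 z := (isOpen_lt continuous_const Complex.continuous_im).mem_nhds hz1
  have e1 : f =ᶠ[𝓝 z] fun z => r * (z / h) + E (ee (z / h)) := by
    filter_upwards [hopen] with w hw
    exact hY w hw
  rw [e1.deriv_eq]
  have h2 : HasDerivAt (fun z : ℂ => r * (z / h)) (r * (1 / h)) z :=
    ((hasDerivAt_id z).div_const (h : ℂ)).const_mul _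
  have h3 : HasDerivAt (fun z : ℂ => E (ee (z / h)))
      (deriv E (ee (z / h)) * (2 * Real.pi * Complex.I / h * ee (z / h))) z :=
    (hY₁ z hz2).hasDerivAt.comp z (cp_ee_deriv h z)
  have h4 : HasDerivAt (fun z : ℂ => r * (z / h) + E (ee (z / h)))
      (r * (1 / h) + deriv E (ee (z / h)) * (2 * Real.pi * Complex.I / h * ee (z / h))) z :=
    h2.add h3
  rw [h4.deriv]
  ring

/-- The formula for `gg` near the puncture. -/
private theorem cp_gg {t e d b : ℂ} {α : ℝ} (ht : 0 < t.im) (hb : b.im = 0) :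
    gg t ((α / 2) * t ^ 2 + t * e + d) (α * t + b + e) =
      Complex.I * α * t.im + e + (d.im : ℝ) / (t.im : ℂ) := by
  have ht' : (t.im : ℂ) ≠ 0 := by exact_mod_cast ht.ne'
  have h1 : Complex.I * α * t.im + e + (d.im : ℝ) / (t.im : ℂ) =
      (Complex.I * α * t.im ^ 2 + e * t.im + (d.im : ℝ)) / (t.im : ℂ) := by
    field_simp
  rw [h1]
  unfold gg
  congr 1
  have h2 : ((α / 2 : ℂ) * t ^ 2 + t * e + d).im =
      α * t.re * t.im + t.re * e.im + t.im * e.re + d.im := by
    have : (α / 2 : ℂ) = ((α / 2 : ℝ) : ℂ) := by push_cast; rfl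
    rw [this, sq]
    simp only [Complex.add_im, Complex.mul_im, Complex.mul_re, Complex.ofReal_re,
      Complex.ofReal_im]
    ring
  have h3 : ((α : ℂ) * t + b + e).im = α * t.im + e.im := by
    simp [hb]
  rw [h2, h3]
  apply Complex.ext
  · simp [sq]
    ring
  · simp [sq]
    ring

/-- Potentially multiplicative reduction. -/
theorem UData.case_pos {h m : ℕ} {Y : ℝ} {T V0 V1 : ℂ → ℂ} {r₀ r₁ : ℝ} (hm : 0 < m)
    (D : UData h m Y T V0 V1 r₀ r₁) :
    ∃ k : ℕ, HasWind h (fun z => gg (T z) (V0 z) (V1 z)) k := by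
  have hh := D.hh
  have hhR : (0 : ℝ) < h := by exact_mod_cast hh
  have hh1 : (1 : ℝ) ≤ h := by exact_mod_cast hh
  have hhC : (h : ℂ) ≠ 0 := by exact_mod_cast hh.ne'
  have hmR : (0 : ℝ) < m := by exact_mod_cast hm
  have hmC : (m : ℂ) ≠ 0 := by exact_mod_cast hm.ne'
  have h2pi : (2 * Real.pi * Complex.I : ℂ) ≠ 0 := Complex.two_pi_I_ne_zero
  set l : Filter ℂ := comap Complex.im atTop with hl
  obtain ⟨C, N, hgr⟩ := D.growth
  obtain ⟨-, F, hF, -, Y₁, hTF⟩ := period_at_cusp hh D.hT D.hpos m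
    (fun z hz => by simpa using D.perT z hz)
  have hTF' : ∀ᶠ z in l, T z = m * (z / h) + F (ee (z / h)) :=
    cp_basis.mpr ⟨Y₁, fun z hz => by simpa using hTF z hz⟩
  obtain ⟨E, hE, hV1⟩ := cp_expand hh (r := (r₁ : ℂ)) D.hV1 D.perV1 C N
    (fun z h1 h2 => (hgr z h1 h2).2)
  set α : ℝ := r₁ / m with hα
  have hαm : (r₁ : ℂ) = α * m := by
    rw [hα]; push_cast; field_simp
  set b : ℂ := E 0 - α * F 0 with hb
  set E2 : ℂ → ℂ := fun q => E q - α * F q - b with hE2
  have hE2a : AnalyticAt ℂ E2 0 := (hE.sub (analyticAt_const.mul hF)).sub analyticAt_const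
  have hE20 : E2 0 = 0 := by simp [hE2, hb]
  have hq : Tendsto (fun z : ℂ => ee (z / h)) l (𝓝 0) :=
    (tendsto_ee hh).mono_right nhdsWithin_le_nhds
  have hV1' : ∀ᶠ z in l, V1 z = α * T z + b + E2 (ee (z / h)) := by
    filter_upwards [hV1, hTF'] with z h1 h2
    rw [h1, h2, hαm]
    simp only [hE2]
    ring
  have hFd : ∀ᶠ q in 𝓝 (0 : ℂ), DifferentiableAt ℂ F q :=
    hF.eventually_analyticAt.mono fun q hq => hq.differentiableAt
  have hE2d : ∀ᶠ q in 𝓝 (0 : ℂ), DifferentiableAt ℂ E2 q :=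
    hE2a.eventually_analyticAt.mono fun q hq => hq.differentiableAt
  have hEd : ∀ᶠ q in 𝓝 (0 : ℂ), DifferentiableAt ℂ E q :=
    hE.eventually_analyticAt.mono fun q hq => hq.differentiableAt
  -- the auxiliary function
  set Dz : ℂ → ℂ := fun z => V0 z - (α / 2) * T z ^ 2 - T z * E2 (ee (z / h)) with hDz
  set c : ℂ := m * b + r₀ - α * m ^ 2 / 2 with hc
  have hFb : ∀ᶠ z in l, ‖F (ee (z / h))‖ < ‖F 0‖ + 1 :=
    hq.eventually (hF.continuousAt.norm.eventually_lt continuousAt_const (by linarith))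
  have hE2b : ∀ᶠ z in l, ‖E2 (ee (z / h))‖ < 1 :=
    hq.eventually (hE2a.continuousAt.norm.eventually_lt continuousAt_const (by rw [hE20]; simp))
  obtain ⟨Y₂, hY₂⟩ := cp_basis.mp (hTF'.and (hV1'.and (hFb.and (hE2b.and
    (hq.eventually hE2d)))))
  set Y₃ := max Y Y₂ with hY₃
  have hee_per : ∀ z : ℂ, ee ((z + h) / h) = ee (z / h) := by
    intro z
    unfold ee
    rw [add_div, div_self hhC, mul_add, mul_one, Complex.exp_add, Complex.exp_two_pi_mul_I, mul_one]
  have hDzd : ∀ z : ℂ, Y₃ < z.im → DifferentiableAt ℂ Dz z := by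
    intro z hz
    have hz1 : Y < z.im := (le_max_left _ _).trans_lt hz
    have hz2 : Y₂ < z.im := (le_max_right _ _).trans_lt hz
    obtain ⟨-, -, -, -, h5⟩ := hY₂ z hz2
    have h6 : DifferentiableAt ℂ (fun z : ℂ => E2 (ee (z / h))) z :=
      (cp_comp h5).differentiableAt
    exact ((D.hV0 z hz1).sub (((D.hT z hz1).pow 2).const_mul _)).sub ((D.hT z hz1).mul h6)
  have hDzp : ∀ z : ℂ, Y₃ < z.im → Dz (z + h) = Dz z + c := by
    intro z hz
    have hz1 : Y < z.im := (le_max_left _ _).trans_lt hz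
    have hz2 : Y₂ < z.im := (le_max_right _ _).trans_lt hz
    obtain ⟨-, h2, -, -, -⟩ := hY₂ z hz2
    simp only [hDz]
    rw [D.perV0 z hz1, D.perT z hz1, hee_per, h2, hc]
    ring
  set CT : ℝ := m + (‖F 0‖ + 1) with hCT
  have hCT0 : 0 ≤ CT := by positivity
  obtain ⟨D1, hD1, hDz1⟩ := cp_expand hh (r := c) (Y := Y₃) hDzd hDzp
    (|C| + |α| / 2 * CT ^ 2 + CT) (N + 2) (fun z hre hz => by
      have hz1 : Y < z.im := (le_max_left _ _).trans_lt hz
      have hz2 : Y₂ < z.im := (le_max_right _ _).trans_lt hz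
      obtain ⟨h1, -, h3, h4, -⟩ := hY₂ z hz2
      have h0 : 1 ≤ 1 + |z.im| := by linarith [abs_nonneg z.im]
      have hT1 : ‖T z‖ ≤ CT * (1 + |z.im|) := by
        rw [h1]
        have e1 : ‖(m : ℂ) * (z / h)‖ ≤ m * (1 + |z.im|) := by
          rw [norm_mul, norm_div, Complex.norm_natCast, Complex.norm_natCast]
          apply mul_le_mul_of_nonneg_left _ hmR.le
          rw [div_le_iff₀ hhR]
          have h3 := Complex.norm_le_abs_re_add_abs_im z
          nlinarith [abs_nonneg z.im]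
        have e2 : ‖F (ee (z / h))‖ ≤ (‖F 0‖ + 1) * (1 + |z.im|) :=
          h3.le.trans (le_mul_of_one_le_right (by positivity) h0)
        calc ‖(m : ℂ) * (z / h) + F (ee (z / h))‖ ≤ _ := norm_add_le _ _
          _ ≤ m * (1 + |z.im|) + (‖F 0‖ + 1) * (1 + |z.im|) := add_le_add e1 e2
          _ = _ := by rw [hCT]; ring
      have hp2 : (1 + |z.im|) ^ 2 ≤ (1 + |z.im|) ^ (N + 2) := pow_le_pow_right₀ h0 (by omega)
      have hp1 : (1 + |z.im|) ≤ (1 + |z.im|) ^ (N + 2) := by
        calc (1 + |z.im|) = (1 + |z.im|) ^ 1 := (pow_one _).symm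
          _ ≤ _ := pow_le_pow_right₀ h0 (by omega)
      have hpN : (1 + |z.im|) ^ N ≤ (1 + |z.im|) ^ (N + 2) := pow_le_pow_right₀ h0 (by omega)
      have e0 : ‖V0 z‖ ≤ |C| * (1 + |z.im|) ^ (N + 2) := by
        refine (hgr z hre hz1).1.trans ?_
        calc C * (1 + |z.im|) ^ N ≤ |C| * (1 + |z.im|) ^ N := by gcongr; exact le_abs_self C
          _ ≤ _ := by gcongr
      have e1 : ‖(α / 2 : ℂ) * T z ^ 2‖ ≤ |α| / 2 * CT ^ 2 * (1 + |z.im|) ^ (N + 2) := by
        rw [norm_mul, norm_div, norm_pow, Complex.norm_real, Real.norm_eq_abs]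
        have : ‖(2 : ℂ)‖ = 2 := by simp
        rw [this]
        calc |α| / 2 * ‖T z‖ ^ 2 ≤ |α| / 2 * (CT * (1 + |z.im|)) ^ 2 := by gcongr
          _ = |α| / 2 * CT ^ 2 * (1 + |z.im|) ^ 2 := by ring
          _ ≤ _ := by gcongr
      have e2 : ‖T z * E2 (ee (z / h))‖ ≤ CT * (1 + |z.im|) ^ (N + 2) := by
        rw [norm_mul]
        calc ‖T z‖ * ‖E2 (ee (z / h))‖ ≤ CT * (1 + |z.im|) * 1 := by gcongr
          _ ≤ _ := by rw [mul_one]; gcongr
      calc ‖Dz z‖ ≤ ‖V0 z‖ + ‖(α / 2 : ℂ) * T z ^ 2‖ + ‖T z * E2 (ee (z / h))‖ := by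
            simp only [hDz]
            exact (norm_sub_le _ _).trans (add_le_add_left (norm_sub_le _ _) _)
        _ ≤ |C| * (1 + |z.im|) ^ (N + 2) + |α| / 2 * CT ^ 2 * (1 + |z.im|) ^ (N + 2) +
            CT * (1 + |z.im|) ^ (N + 2) := add_le_add (add_le_add e0 e1) e2
        _ = _ := by ring)
  -- derivatives
  have hdT := cp_deriv (r := (m : ℂ)) hh hF hTF'
  have hdV1 := cp_deriv hh hE hV1
  have hdD := cp_deriv hh hD1 hDz1
  have htr : ∀ᶠ z in l, deriv V0 z = T z * deriv V1 z := cp_basis.mpr ⟨Y, D.htr⟩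
  have hTd : ∀ᶠ z in l, DifferentiableAt ℂ T z := cp_basis.mpr ⟨Y, D.hT⟩
  have hV0d : ∀ᶠ z in l, DifferentiableAt ℂ V0 z := cp_basis.mpr ⟨Y, D.hV0⟩
  have hdD' : ∀ᶠ z in l, deriv Dz z = -(deriv T z * E2 (ee (z / h))) := by
    filter_upwards [hdT, hdV1, htr, hTd, hV0d, hq.eventually hE2d, hq.eventually hFd,
      hq.eventually hEd] with z h1 h2 h3 h4 h5 h6 h7 h8
    have e1 : HasDerivAt Dz (deriv V0 z - (α / 2) * (2 * T z ^ (2 - 1) * deriv T z) -
        (deriv T z * E2 (ee (z / h)) + T z * (deriv E2 (ee (z / h)) *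
          (2 * Real.pi * Complex.I / h * ee (z / h))))) z :=
      (h5.hasDerivAt.sub ((h4.hasDerivAt.pow 2).const_mul _)).sub
        (h4.hasDerivAt.mul (cp_comp h6))
    have e2 : deriv E2 (ee (z / h)) = deriv E (ee (z / h)) - α * deriv F (ee (z / h)) := by
      have e3 : HasDerivAt E2 (deriv E (ee (z / h)) - α * deriv F (ee (z / h))) (ee (z / h)) :=
        (h8.hasDerivAt.sub (h7.hasDerivAt.const_mul _)).sub_const _
      exact e3.deriv
    rw [e1.deriv, e2, h3, h2, h1, hαm]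
    field_simp
    ring
  obtain ⟨Y₄, hY₄⟩ := cp_basis.mp (hdD.and (hdD'.and hdT))
  have hrel : ∀ᶠ q in 𝓝[≠] (0 : ℂ), c / h + 2 * Real.pi * Complex.I / h * q * deriv D1 q =
      -((m / h + 2 * Real.pi * Complex.I / h * q * deriv F q) * E2 q) := by
    refine cp_eventually hh (Y := Y₄) fun z hz => ?_
    obtain ⟨h1, h2, h3⟩ := hY₄ z hz
    rw [← h1, h2, h3]
  have hcF : ContinuousAt F 0 := hF.continuousAt
  have hcF' : ContinuousAt (deriv F) 0 := hF.deriv.continuousAt
  have hcD' : ContinuousAt (deriv D1) 0 := hD1.deriv.continuousAt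
  have hcE2 : ContinuousAt E2 0 := hE2a.continuousAt
  have hc0 : c = 0 := by
    have l1 : Tendsto (fun q : ℂ => c / h + 2 * Real.pi * Complex.I / h * q * deriv D1 q) (𝓝[≠] 0)
        (𝓝 (c / h + 2 * Real.pi * Complex.I / h * 0 * deriv D1 0)) := by
      refine Tendsto.mono_left ?_ nhdsWithin_le_nhds
      exact tendsto_const_nhds.add ((tendsto_const_nhds.mul tendsto_id).mul hcD')
    have l2 : Tendsto (fun q : ℂ => -((m / h + 2 * Real.pi * Complex.I / h * q * deriv F q) * E2 q))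
        (𝓝[≠] 0) (𝓝 (-(((m : ℂ) / h + 2 * Real.pi * Complex.I / h * 0 * deriv F 0) * E2 0))) := by
      refine Tendsto.mono_left ?_ nhdsWithin_le_nhds
      exact ((tendsto_const_nhds.add ((tendsto_const_nhds.mul tendsto_id).mul hcF')).mul hcE2).neg
    have h1 := tendsto_nhds_unique (l1.congr' hrel) l2
    rw [hE20] at h1
    simp at h1
    exact h1.resolve_right hh.ne'
  have hbim : b.im = 0 := by
    have h1 : (m : ℂ) * b = ((α * m ^ 2 / 2 - r₀ : ℝ) : ℂ) := by
      push_cast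
      linear_combination hc0 - hc
    have h2 := congrArg Complex.im h1
    rw [Complex.ofReal_im, Complex.mul_im] at h2
    simp at h2
    exact h2.resolve_left hm.ne'
  have hDz2 : ∀ᶠ z in l, V0 z = (α / 2) * T z ^ 2 + T z * E2 (ee (z / h)) + D1 (ee (z / h)) := by
    filter_upwards [hDz1] with z h1
    rw [hc0] at h1
    simp only [hDz] at h1
    linear_combination h1
  have hposl : ∀ᶠ z in l, 0 < (T z).im := cp_basis.mpr ⟨Y, D.hpos⟩
  have hgg : ∀ᶠ z in l, gg (T z) (V0 z) (V1 z) = Complex.I * α * (T z).im + E2 (ee (z / h)) +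
      ((D1 (ee (z / h))).im : ℝ) / ((T z).im : ℂ) := by
    filter_upwards [hDz2, hV1', hposl] with z h1 h2 h3
    rw [h1, h2, cp_gg h3 hbim]
  -- limits
  have him : Tendsto Complex.im l atTop := tendsto_comap
  have hTim : ∀ᶠ z in l, (T z).im = (m / h) * z.im + (F (ee (z / h))).im := by
    filter_upwards [hTF'] with z h1
    rw [h1, Complex.add_im, Complex.mul_im, Complex.natCast_re, Complex.natCast_im, zero_mul,
      add_zero, Complex.div_natCast_im]
    ring
  have hFim : Tendsto (fun z => (F (ee (z / h))).im) l (𝓝 (F 0).im) :=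
    (Complex.continuous_im.tendsto _).comp (hcF.tendsto.comp hq)
  have hYt : Tendsto (fun z => (T z).im) l atTop := by
    refine Tendsto.congr' (hTim.mono fun z hz => hz.symm) ?_
    exact (him.const_mul_atTop (by positivity)).atTop_add hFim
  have hYi : Tendsto (fun z => (((T z).im : ℝ) : ℂ)⁻¹) l (𝓝 0) := by
    have h1 : Tendsto (fun z => ((T z).im)⁻¹) l (𝓝 0) := tendsto_inv_atTop_zero.comp hYt
    have h2 := (Complex.continuous_ofReal.tendsto 0).comp h1
    rw [Complex.ofReal_zero] at h2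
    refine h2.congr fun z => ?_
    simp
  have hE2t : Tendsto (fun z => E2 (ee (z / h))) l (𝓝 0) := by
    have := hcE2.tendsto.comp hq
    rwa [hE20] at this
  have hDt : Tendsto (fun z => (((D1 (ee (z / h))).im : ℝ) : ℂ)) l (𝓝 (((D1 0).im : ℝ) : ℂ)) :=
    (Complex.continuous_ofReal.tendsto _).comp ((Complex.continuous_im.tendsto _).comp
      (hD1.continuousAt.tendsto.comp hq))
  -- continuity and periodicity of gg
  have hTc : ContinuousOn T {z | Y < z.im} := fun z hz => (D.hT z hz).continuousAt.continuousWithinAt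
  have hV0c : ContinuousOn V0 {z | Y < z.im} := fun z hz => (D.hV0 z hz).continuousAt.continuousWithinAt
  have hV1c : ContinuousOn V1 {z | Y < z.im} := fun z hz => (D.hV1 z hz).continuousAt.continuousWithinAt
  have hTic : ContinuousOn (fun z => (T z).im) {z | Y < z.im} :=
    Complex.continuous_im.comp_continuousOn hTc
  have hgc : ContinuousOn (fun z => gg (T z) (V0 z) (V1 z)) {z | Y < z.im} := by
    unfold gg
    refine ContinuousOn.div (ContinuousOn.sub ?_ (ContinuousOn.mul ?_ ?_)) ?_ ?_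
    · exact Complex.continuous_ofReal.comp_continuousOn (Complex.continuous_im.comp_continuousOn hV0c)
    · exact Complex.continuous_conj.comp_continuousOn hTc
    · exact Complex.continuous_ofReal.comp_continuousOn (Complex.continuous_im.comp_continuousOn hV1c)
    · exact Complex.continuous_ofReal.comp_continuousOn hTic
    · intro z hz
      exact_mod_cast (D.hpos z hz).ne'
  have hTip : ∀ z : ℂ, Y < z.im → (T (z + h)).im = (T z).im := by
    intro z hz
    rw [D.perT z hz]; simp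
  have hgp : ∀ z : ℂ, Y < z.im → gg (T (z + h)) (V0 (z + h)) (V1 (z + h)) =
      gg (T z) (V0 z) (V1 z) := by
    intro z hz
    have h1 := gg_smul (a := 1) (b := m) (c := 0) (d := 1) (r₀ := r₀) (r₁ := r₁) (by norm_num)
      (v₀ := V0 z) (v₁ := V1 z) (D.hpos z hz)
    rw [D.perT z hz, D.perV0 z hz, D.perV1 z hz]
    simpa using h1
  by_cases hα0 : α = 0
  swap
  · -- first case
    refine ⟨0, ?_⟩
    have ha : Complex.I * (α : ℂ) ≠ 0 := mul_ne_zero Complex.I_ne_zero (by exact_mod_cast hα0)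
    refine HasWind.of_tendsto ha (r := fun z => (T z).im) Y hgc hgp hTic hTip D.hpos ?_
    have h1 : Tendsto (fun z => Complex.I * (α : ℂ) + E2 (ee (z / h)) * (((T z).im : ℝ) : ℂ)⁻¹ +
        (((D1 (ee (z / h))).im : ℝ) : ℂ) * (((T z).im : ℝ) : ℂ)⁻¹ * (((T z).im : ℝ) : ℂ)⁻¹) l
        (𝓝 (Complex.I * (α : ℂ) + 0 * 0 + (((D1 0).im : ℝ) : ℂ) * 0 * 0)) :=
      (tendsto_const_nhds.add (hE2t.mul hYi)).add ((hDt.mul hYi).mul hYi)
    rw [mul_zero, mul_zero, add_zero, add_zero] at h1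
    refine h1.congr' ?_
    filter_upwards [hgg, hposl] with z h2 h3
    have h4 : (((T z).im : ℝ) : ℂ) ≠ 0 := by exact_mod_cast h3.ne'
    rw [h2]
    field_simp
  by_cases hD10 : (D1 0).im = 0
  swap
  · -- second case
    refine ⟨0, ?_⟩
    have ha : (((D1 0).im : ℝ) : ℂ) ≠ 0 := by exact_mod_cast hD10
    refine HasWind.of_tendsto ha (r := fun z => ((T z).im)⁻¹) Y hgc hgp
      (hTic.inv₀ fun z hz => (D.hpos z hz).ne') (fun z hz => by rw [hTip z hz])
      (fun z hz => inv_pos.mpr (D.hpos z hz)) ?_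
    -- `Im T * E2 → 0`
    have hbig : ∃ K : ℝ, ∀ᶠ q in 𝓝 (0 : ℂ), ‖E2 q‖ ≤ K * ‖q‖ := by
      have h1 := hE2a.differentiableAt.isBigO_sub
      obtain ⟨K, hK⟩ := h1.bound
      refine ⟨K, hK.mono fun q hq => ?_⟩
      rw [hE20, sub_zero, sub_zero] at hq
      exact hq
    obtain ⟨K, hK⟩ := hbig
    have hnq : ∀ z : ℂ, ‖ee (z / h)‖ = Real.exp (-(2 * Real.pi / h * z.im)) := by
      intro z
      unfold ee
      rw [Complex.norm_exp]
      congr 1
      have : (2 * Real.pi * Complex.I * (z / h) : ℂ) = ((2 * Real.pi / h : ℝ) : ℂ) * (Complex.I * z) := by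
        push_cast; ring
      rw [this, Complex.re_ofReal_mul]
      simp
    have hx : Tendsto (fun z : ℂ => 2 * Real.pi / h * z.im) l atTop :=
      him.const_mul_atTop (by positivity)
    have he0 : Tendsto (fun z : ℂ => Real.exp (-(2 * Real.pi / h * z.im))) l (𝓝 0) :=
      Real.tendsto_exp_neg_atTop_nhds_zero.comp hx
    have he1 : Tendsto (fun z : ℂ => (2 * Real.pi / h * z.im) *
        Real.exp (-(2 * Real.pi / h * z.im))) l (𝓝 0) := by
      have := (Real.tendsto_pow_mul_exp_neg_atTop_nhds_zero 1).comp hx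
      simpa [Function.comp_def] using this
    have hYq : Tendsto (fun z : ℂ => (T z).im * ‖ee (z / h)‖) l (𝓝 0) := by
      have h1 : Tendsto (fun z : ℂ => (m / (2 * Real.pi)) * ((2 * Real.pi / h * z.im) *
          Real.exp (-(2 * Real.pi / h * z.im))) + (F (ee (z / h))).im *
          Real.exp (-(2 * Real.pi / h * z.im))) l (𝓝 ((m / (2 * Real.pi)) * 0 + (F 0).im * 0)) :=
        (he1.const_mul _).add (hFim.mul he0)
      rw [mul_zero, mul_zero, add_zero] at h1
      refine h1.congr' ?_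
      filter_upwards [hTim] with z h2
      rw [h2, hnq]
      have := Real.pi_pos
      field_simp
    have hYE : Tendsto (fun z => (((T z).im : ℝ) : ℂ) * E2 (ee (z / h))) l (𝓝 0) := by
      apply squeeze_zero_norm' (a := fun z => K * ((T z).im * ‖ee (z / h)‖))
      · filter_upwards [hq.eventually hK, hposl] with z h1 h2
        rw [norm_mul, Complex.norm_real, Real.norm_eq_abs, abs_of_pos h2]
        calc (T z).im * ‖E2 (ee (z / h))‖ ≤ (T z).im * (K * ‖ee (z / h)‖) := by gcongr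
          _ = _ := by ring
      · have := hYq.const_mul K
        rwa [mul_zero] at this
    have h1 : Tendsto (fun z => (((T z).im : ℝ) : ℂ) * E2 (ee (z / h)) +
        (((D1 (ee (z / h))).im : ℝ) : ℂ)) l (𝓝 (0 + (((D1 0).im : ℝ) : ℂ))) := hYE.add hDt
    rw [zero_add] at h1
    refine h1.congr' ?_
    filter_upwards [hgg, hposl] with z h2 h3
    have h4 : (((T z).im : ℝ) : ℂ) ≠ 0 := by exact_mod_cast h3.ne'
    rw [h2, hα0]
    push_cast
    field_simp
    ring
  -- third case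
  have hE2nc : ¬ ∀ᶠ q in 𝓝 (0 : ℂ), E2 q = 0 := by
    intro hz
    have h1 : ∀ᶠ q in 𝓝 (0 : ℂ), deriv E q = 0 := by
      filter_upwards [hz.eventually_nhds] with q hq1
      have e1 : E =ᶠ[𝓝 q] fun _ => b := by
        filter_upwards [hq1] with w hw
        simp only [hE2, hα0] at hw
        push_cast at hw
        linear_combination hw
      rw [e1.deriv_eq]
      simp
    obtain ⟨Y₅, hY₅⟩ := cp_basis.mp ((hq.eventually h1).and hdV1)
    obtain ⟨z, hz1, hz2⟩ := D.ncV Y₅
    obtain ⟨h3, h4⟩ := hY₅ z hz1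
    apply hz2
    rw [h4, h3, hαm, hα0]
    simp
  obtain ⟨k, g2, hg2, hg20, hE2g⟩ := hE2a.exists_eventuallyEq_pow_smul_nonzero_iff.mpr hE2nc
  have hk0 : k ≠ 0 := by
    intro h0
    have := hE2g.self_of_nhds
    rw [h0, hE20] at this
    simp at this
    exact hg20 this.symm
  obtain ⟨k', rfl⟩ := Nat.exists_eq_succ_of_ne_zero hk0
  refine ⟨k' + 1, ?_⟩
  -- bound for D1
  have hD1' : ∀ᶠ q in 𝓝 (0 : ℂ), deriv D1 q =
      -((m / (2 * Real.pi * Complex.I) + q * deriv F q) * (q ^ k' * g2 q)) := by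
    have hne : ∀ᶠ q in 𝓝[≠] (0 : ℂ), deriv D1 q =
        -((m / (2 * Real.pi * Complex.I) + q * deriv F q) * (q ^ k' * g2 q)) := by
      filter_upwards [hrel, self_mem_nhdsWithin, hE2g.filter_mono nhdsWithin_le_nhds] with q h1 h2 h3
      have hq0 : q ≠ 0 := h2
      rw [hc0, zero_div, zero_add, h3, sub_zero, smul_eq_mul, pow_succ] at h1
      have h4 : (2 * Real.pi * Complex.I / h * q) * deriv D1 q = (2 * Real.pi * Complex.I / h * q) *
          (-((m / (2 * Real.pi * Complex.I) + q * deriv F q) * (q ^ k' * g2 q))) := by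
        rw [h1]
        have hpi : (Real.pi : ℂ) ≠ 0 := by exact_mod_cast Real.pi_ne_zero
        field_simp
      exact mul_left_cancel₀ (mul_ne_zero (div_ne_zero h2pi hhC) hq0) h4
    have h0 : deriv D1 0 = -((m / (2 * Real.pi * Complex.I) + 0 * deriv F 0) * (0 ^ k' * g2 0)) := by
      have l1 : Tendsto (deriv D1) (𝓝[≠] 0) (𝓝 (deriv D1 0)) :=
        hcD'.tendsto.mono_left nhdsWithin_le_nhds
      have l2 : Tendsto (fun q : ℂ => -((m / (2 * Real.pi * Complex.I) + q * deriv F q) *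
          (q ^ k' * g2 q))) (𝓝[≠] 0)
          (𝓝 (-((m / (2 * Real.pi * Complex.I) + 0 * deriv F 0) * (0 ^ k' * g2 0)))) := by
        refine Tendsto.mono_left ?_ nhdsWithin_le_nhds
        exact ((tendsto_const_nhds.add (tendsto_id.mul hcF')).mul
          ((tendsto_id.pow k').mul hg2.continuousAt)).neg
      exact tendsto_nhds_unique (l1.congr' hne) l2
    rw [eventually_nhdsWithin_iff] at hne
    filter_upwards [hne] with q hq1
    by_cases hq0 : q = 0
    · rw [hq0]; exact h0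
    · exact hq1 hq0
  have hD1d : ∀ᶠ q in 𝓝 (0 : ℂ), DifferentiableAt ℂ D1 q :=
    hD1.eventually_analyticAt.mono fun q hq => hq.differentiableAt
  set G : ℂ → ℂ := fun q => (m / (2 * Real.pi * Complex.I) + q * deriv F q) * g2 q with hG
  have hGc : ContinuousAt G 0 :=
    (continuousAt_const.add (continuousAt_id.mul hcF')).mul hg2.continuousAt
  have hGb : ∀ᶠ q in 𝓝 (0 : ℂ), ‖G q‖ < ‖G 0‖ + 1 :=
    hGc.norm.eventually_lt continuousAt_const (by linarith)
  obtain ⟨ε, hε, hball⟩ := Metric.eventually_nhds_iff_ball.mp (hD1'.and (hD1d.and hGb))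
  have hDb : ∀ q ∈ Metric.ball (0 : ℂ) ε, ‖D1 q - D1 0‖ ≤ (‖G 0‖ + 1) * ‖q‖ ^ (k' + 1) := by
    intro q hq1
    have hsub : Metric.closedBall (0 : ℂ) ‖q‖ ⊆ Metric.ball 0 ε := by
      apply Metric.closedBall_subset_ball
      rwa [Metric.mem_ball, dist_zero_right] at hq1
    have h1 : ‖D1 q - D1 0‖ ≤ ((‖G 0‖ + 1) * ‖q‖ ^ k') * ‖q - 0‖ := by
      refine (convex_closedBall (0 : ℂ) ‖q‖).norm_image_sub_le_of_norm_hasDerivWithin_le
        (f := D1) (f' := fun y => deriv D1 y) (fun y hy =>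
          (hball y (hsub hy)).2.1.hasDerivAt.hasDerivWithinAt) (fun y hy => ?_)
        (Metric.mem_closedBall_self (norm_nonneg _)) (by
          rw [Metric.mem_closedBall, dist_zero_right])
      obtain ⟨h6, -, h8⟩ := hball y (hsub hy)
      have h9 : ‖y‖ ≤ ‖q‖ := by
        rwa [Metric.mem_closedBall, dist_zero_right] at hy
      have h10 : deriv D1 y = -(G y * y ^ k') := by
        rw [h6]; simp only [hG]; ring
      rw [h10, norm_neg, norm_mul, norm_pow]
      gcongr
    rw [sub_zero] at h1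
    calc ‖D1 q - D1 0‖ ≤ _ := h1
      _ = _ := by ring
  have hDbl : ∀ᶠ z in l, ‖D1 (ee (z / h)) - D1 0‖ ≤ (‖G 0‖ + 1) * ‖ee (z / h)‖ ^ (k' + 1) :=
    hq.eventually (Metric.eventually_nhds_iff_ball.mpr ⟨ε, hε, hDb⟩)
  have hene : ∀ z : ℂ, ee z ≠ 0 := fun z => Complex.exp_ne_zero _
  -- the quotient by q ^ k
  have hquot : HasWind h (fun z => gg (T z) (V0 z) (V1 z) / ee (z / h) ^ (k' + 1)) 0 := by
    have hec : ContinuousOn (fun z : ℂ => ee (z / h)) {z | Y < z.im} :=
      fun z _ => (cp_ee_deriv h z).continuousAt.continuousWithinAt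
    refine HasWind.of_tendsto hg20 (r := fun _ => 1) Y
      (hgc.div (hec.pow _) fun z _ => pow_ne_zero _ (hene _))
      (fun z hz => by rw [hgp z hz, hee_per]) continuousOn_const (fun _ _ => rfl)
      (fun _ _ => one_pos) ?_
    have hsmall : Tendsto (fun z => (((D1 (ee (z / h))).im : ℝ) : ℂ) / (((T z).im : ℝ) : ℂ) /
        ee (z / h) ^ (k' + 1)) l (𝓝 0) := by
      apply squeeze_zero_norm' (a := fun z => (‖G 0‖ + 1) * ((T z).im)⁻¹)
      · filter_upwards [hDbl, hposl] with z h1 h2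
        have h3 : |(D1 (ee (z / h))).im| ≤ (‖G 0‖ + 1) * ‖ee (z / h)‖ ^ (k' + 1) := by
          have h4 : (D1 (ee (z / h))).im = (D1 (ee (z / h)) - D1 0).im := by
            rw [Complex.sub_im, hD10, sub_zero]
          rw [h4]
          exact (Complex.abs_im_le_norm _).trans h1
        have h5 : 0 < ‖ee (z / h)‖ := norm_pos_iff.mpr (hene _)
        rw [norm_div, norm_div, Complex.norm_real, Complex.norm_real, Real.norm_eq_abs,
          Real.norm_eq_abs, abs_of_pos h2, norm_pow]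
        calc |(D1 (ee (z / h))).im| / (T z).im / ‖ee (z / h)‖ ^ (k' + 1)
            ≤ (‖G 0‖ + 1) * ‖ee (z / h)‖ ^ (k' + 1) / (T z).im / ‖ee (z / h)‖ ^ (k' + 1) := by
              gcongr
          _ = _ := by field_simp
      · have h1 : Tendsto (fun z => ((T z).im)⁻¹) l (𝓝 0) := tendsto_inv_atTop_zero.comp hYt
        have := h1.const_mul (‖G 0‖ + 1)
        rwa [mul_zero] at this
    have h1 : Tendsto (fun z => g2 (ee (z / h)) + (((D1 (ee (z / h))).im : ℝ) : ℂ) /
        (((T z).im : ℝ) : ℂ) / ee (z / h) ^ (k' + 1)) l (𝓝 (g2 0 + 0)) :=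
      (hg2.continuousAt.tendsto.comp hq).add hsmall
    rw [add_zero] at h1
    refine h1.congr' ?_
    filter_upwards [hgg, hq.eventually hE2g] with z h2 h3
    rw [h2, h3, hα0, sub_zero, smul_eq_mul]
    have h4 : ee (z / h) ^ (k' + 1) ≠ 0 := pow_ne_zero _ (hene _)
    push_cast
    rw [mul_zero, zero_mul, zero_add, add_div, mul_div_cancel_left₀ _ h4, div_one]
  have hprod := (hasWind_ee_div hh ((k' + 1 : ℕ) : ℤ)).mul hquot
  rw [add_zero] at hprod
  refine hprod.congr 0 fun z _ => ?_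
  have h1 : ee ((((k' + 1 : ℕ) : ℤ) : ℂ) * (z / h)) = ee (z / h) ^ (k' + 1) := by
    unfold ee
    rw [← Complex.exp_nat_mul]
    congr 1
    push_cast
    ring
  rw [h1, mul_div_cancel₀]
  exact pow_ne_zero _ (hene _)

end Pool.Agent.LibUB33
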