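import Pool.Agent.LibUB33.CuspDefs

open Filter Topology

namespace Pool.Agent.LibUB33

private theorem hasDerivAt_ee_div {h : ℕ} (z : ℂ) :
    HasDerivAt (fun z : ℂ => ee (z / h)) (2 * Real.pi * Complex.I / h * ee (z / h)) z := by
  unfold ee
  have h1 : HasDerivAt (fun z : ℂ => 2 * (Real.pi : ℂ) * Complex.I * (z / h))
      (2 * (Real.pi : ℂ) * Complex.I * (1 / h)) z :=
    ((hasDerivAt_id z).div_const (h : ℂ)).const_mul _
  refine h1.cexp.congr_deriv ?_
  ring

private theorem exists_half_plane {p : ℂ → Prop} (hp : ∀ᶠ z in comap Complex.im atTop, p z) :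
    ∃ Y : ℝ, ∀ z : ℂ, Y < z.im → p z := by
  rw [eventually_comap, eventually_atTop] at hp
  obtain ⟨Y, hY⟩ := hp
  exact ⟨Y, fun z hz => hY z.im hz.le z rfl⟩

/-- The derivative of the period. -/
theorem UData.deriv_period {h m : ℕ} {Y : ℝ} {T V0 V1 : ℂ → ℂ} {r₀ r₁ : ℝ}
    (D : UData h m Y T V0 V1 r₀ r₁) : ∃ k : ℕ, HasWind h (deriv T) k := by
  have hh := D.hh
  have hh' : (h : ℂ) ≠ 0 := by exact_mod_cast hh.ne'
  obtain ⟨-, F, hF, -, Y', hY'⟩ := period_at_cusp D.hh D.hT D.hpos (m : ℤ) (by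
    intro z hz; rw [D.perT z hz]; simp)
  have hq := tendsto_ee hh
  have hFd : ∀ᶠ z in comap Complex.im atTop, DifferentiableAt ℂ F (ee (z / h)) :=
    (hq.mono_right nhdsWithin_le_nhds).eventually
      (hF.eventually_analyticAt.mono fun z hz => hz.differentiableAt)
  obtain ⟨Y1, hY1⟩ := exists_half_plane hFd
  set Y2 := max Y' Y1 with hY2
  have hder : ∀ z : ℂ, Y2 < z.im → deriv T z =
      m / h + deriv F (ee (z / h)) * (2 * Real.pi * Complex.I / h * ee (z / h)) := by
    intro z hz
    have h1 : T =ᶠ[𝓝 z] fun z => ((m : ℤ) : ℂ) * (z / h) + F (ee (z / h)) := by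
      have hop : IsOpen {w : ℂ | Y' < w.im} := isOpen_lt continuous_const Complex.continuous_im
      filter_upwards [hop.mem_nhds (lt_of_le_of_lt (le_max_left _ _) hz)] with w hw
      exact hY' w hw
    rw [h1.deriv_eq]
    have h2 : HasDerivAt (fun z : ℂ => ((m : ℤ) : ℂ) * (z / h)) (((m : ℤ) : ℂ) * (1 / h)) z :=
      ((hasDerivAt_id z).div_const (h : ℂ)).const_mul _
    have h3 : HasDerivAt (fun z : ℂ => F (ee (z / h)))
        (deriv F (ee (z / h)) * (2 * Real.pi * Complex.I / h * ee (z / h))) z := by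
      have h4 := (hY1 z (lt_of_le_of_lt (le_max_right _ _) hz)).hasDerivAt
      exact h4.comp z (hasDerivAt_ee_div z)
    have h5 : HasDerivAt (fun z : ℂ => ((m : ℤ) : ℂ) * (z / h) + F (ee (z / h))) _ z := h2.add h3
    rw [h5.deriv]
    push_cast
    ring
  -- the function of q
  set G : ℂ → ℂ := fun q => deriv F q * (2 * Real.pi * Complex.I / h * q) with hG
  have hGa : AnalyticAt ℂ G 0 := by
    have := hF.deriv
    fun_prop
  rcases Nat.eq_zero_or_pos m with hm | hm
  · subst hm
    have hn0 : ¬ ∀ᶠ q in 𝓝 (0 : ℂ), G q = 0 := by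
      intro h0
      have h1 : ∀ᶠ z in comap Complex.im atTop, G (ee (z / h)) = 0 :=
        (hq.mono_right nhdsWithin_le_nhds).eventually h0
      obtain ⟨Y3, hY3⟩ := exists_half_plane h1
      obtain ⟨z, hz, hz'⟩ := D.ncT (max Y2 Y3)
      apply hz'
      rw [hder z (lt_of_le_of_lt (le_max_left _ _) hz)]
      have := hY3 z (lt_of_le_of_lt (le_max_right _ _) hz)
      simp only [hG] at this
      rw [this]
      simp
    obtain ⟨n, hn, -⟩ := LocOrd.of_analyticAt hGa hn0
    refine ⟨n, (hn.hasWind_div hh).congr Y2 fun z hz => ?_⟩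
    rw [hder z hz]
    simp [hG]
  · refine ⟨0, ?_⟩
    have hm' : (m : ℂ) ≠ 0 := by exact_mod_cast hm.ne'
    refine HasWind.of_tendsto (a := (m : ℂ) / h) (div_ne_zero hm' hh') (r := fun _ => 1) Y ?_ ?_
      continuousOn_const (fun _ _ => rfl) (fun _ _ => one_pos) ?_
    · have hop : IsOpen {w : ℂ | Y < w.im} := isOpen_lt continuous_const Complex.continuous_im
      have h1 : DifferentiableOn ℂ T {w : ℂ | Y < w.im} := fun w hw =>
        (D.hT w hw).differentiableWithinAt
      exact (h1.analyticOnNhd hop).deriv.continuousOn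
    · intro z hz
      have hop : IsOpen {w : ℂ | Y < w.im} := isOpen_lt continuous_const Complex.continuous_im
      have h1 : (fun w : ℂ => T (w + h)) =ᶠ[𝓝 z] fun w => T w + m := by
        filter_upwards [hop.mem_nhds hz] with w hw
        exact D.perT w hw
      have h2 := h1.deriv_eq
      rw [deriv_comp_add_const, deriv_add_const] at h2
      exact h2
    · have h1 : Tendsto (fun z : ℂ => (m : ℂ) / h + G (ee (z / h))) (comap Complex.im atTop)
          (𝓝 (m / h + G 0)) :=
        (hGa.continuousAt.tendsto.comp (hq.mono_right nhdsWithin_le_nhds)).const_add _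
      have h2 : G 0 = 0 := by simp [hG]
      rw [h2, add_zero] at h1
      refine h1.congr' ?_
      have h3 : ∀ᶠ z in comap Complex.im atTop, Y2 < z.im :=
        tendsto_comap.eventually (eventually_gt_atTop Y2)
      filter_upwards [h3] with z hz
      rw [hder z hz]
      simp [hG]

/-- The limit of the period. -/
theorem UData.limit_period {h m : ℕ} {Y : ℝ} {T V0 V1 : ℂ → ℂ} {r₀ r₁ : ℝ}
    (D : UData h m Y T V0 V1 r₀ r₁) :
    (m = 0 ∧ ∃ t : ℂ, 0 < t.im ∧ Tendsto T (comap Complex.im atTop) (𝓝 t)) ∨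
      Tendsto (fun z => (T z).im) (comap Complex.im atTop) atTop := by
  have hh := D.hh
  obtain ⟨-, F, hF, hF0, Y', hY'⟩ := period_at_cusp D.hh D.hT D.hpos (m : ℤ) (by
    intro z hz; rw [D.perT z hz]; simp)
  have hq := tendsto_ee hh
  have h1 : Tendsto (fun z : ℂ => F (ee (z / h))) (comap Complex.im atTop) (𝓝 (F 0)) :=
    hF.continuousAt.tendsto.comp (hq.mono_right nhdsWithin_le_nhds)
  have h3 : ∀ᶠ z in comap Complex.im atTop, Y' < z.im :=
    tendsto_comap.eventually (eventually_gt_atTop Y')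
  rcases Nat.eq_zero_or_pos m with hm | hm
  · subst hm
    refine Or.inl ⟨rfl, F 0, hF0 (by simp), h1.congr' ?_⟩
    filter_upwards [h3] with z hz
    rw [hY' z hz]; simp
  · right
    have h4 : Tendsto (fun z : ℂ => (m : ℝ) / h * z.im) (comap Complex.im atTop) atTop := by
      have : (0 : ℝ) < (m : ℝ) / h := by positivity
      exact tendsto_comap.const_mul_atTop this
    have h5 : Tendsto (fun z : ℂ => (F (ee (z / h))).im) (comap Complex.im atTop) (𝓝 (F 0).im) :=
      (Complex.continuous_im.tendsto _).comp h1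
    refine (h4.atTop_add h5).congr' ?_
    filter_upwards [h3] with z hz
    rw [hY' z hz, Complex.add_im]
    congr 1
    rw [show (((m : ℤ) : ℂ)) * (z / h) = (((m : ℝ) / h : ℝ) : ℂ) * z by push_cast; ring,
      Complex.im_ofReal_mul]

end Pool.Agent.LibUB33
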