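import Pool.Agent.LibUB33.CuspDefs
import Pool.Agent.LibUB33.Unip

open Filter Topology
open scoped MatrixGroups

namespace Pool.Agent.LibUB33

private theorem reduce_denom {x y : ℤ} (hxy : x ≠ 0 ∨ y ≠ 0) {t : ℂ} (ht : 0 < t.im) :
    (x : ℂ) * t + y ≠ 0 := by
  intro h
  have him := congrArg Complex.im h
  have hre := congrArg Complex.re h
  simp at him hre
  rcases him with h1 | h1
  · rw [h1] at hre
    simp at hre
    rcases hxy with h2 | h2
    · exact h2 h1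
    · exact h2 hre
  · exact ht.ne' h1

private theorem reduce_iter {h : ℕ} {Y : ℝ} {T V0 V1 : ℂ → ℂ} {a b c d : ℤ} {r₀ r₁ : ℝ}
    (D : CData h Y T V0 V1 a b c d r₀ r₁) (M : SL(2, ℤ)) (h00 : M 0 0 = a) (h01 : M 0 1 = b)
    (h10 : M 1 0 = c) (h11 : M 1 1 = d) (n : ℕ) :
    ∃ s₀ s₁ : ℝ, ∀ z : ℂ, Y < z.im →
      T (z + n * h) * (((M ^ n : SL(2, ℤ)) 1 0 : ℤ) * T z + ((M ^ n : SL(2, ℤ)) 1 1 : ℤ)) =
        ((M ^ n : SL(2, ℤ)) 0 0 : ℤ) * T z + ((M ^ n : SL(2, ℤ)) 0 1 : ℤ) ∧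
      V0 (z + n * h) = ((M ^ n : SL(2, ℤ)) 0 0 : ℤ) * V0 z + ((M ^ n : SL(2, ℤ)) 0 1 : ℤ) * V1 z +
        s₀ ∧
      V1 (z + n * h) = ((M ^ n : SL(2, ℤ)) 1 0 : ℤ) * V0 z + ((M ^ n : SL(2, ℤ)) 1 1 : ℤ) * V1 z +
        s₁ := by
  induction n with
  | zero => exact ⟨0, 0, fun z hz => by simp⟩
  | succ n ih =>
    obtain ⟨s₀, s₁, ih⟩ := ih
    refine ⟨a * s₀ + b * s₁ + r₀, c * s₀ + d * s₁ + r₁, fun z hz => ?_⟩
    have hz' : Y < (z + n * h).im := by simpa using hz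
    obtain ⟨e1, e2, e3⟩ := ih z hz
    have f1 := D.perT _ hz'
    have f2 := D.perV0 _ hz'
    have f3 := D.perV1 _ hz'
    have hadd : z + ((n + 1 : ℕ) : ℂ) * h = z + n * h + h := by push_cast; ring
    rw [hadd]
    have hM : ∀ i j, (M ^ (n + 1) : SL(2, ℤ)) i j =
        M i 0 * (M ^ n : SL(2, ℤ)) 0 j + M i 1 * (M ^ n : SL(2, ℤ)) 1 j := by
      intro i j
      rw [pow_succ']
      change ((M * M ^ n : SL(2, ℤ)) : Matrix (Fin 2) (Fin 2) ℤ) i j = _
      rw [Matrix.SpecialLinearGroup.coe_mul, Matrix.mul_apply, Fin.sum_univ_two]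
    rw [hM 0 0, hM 0 1, hM 1 0, hM 1 1, h00, h01, h10, h11]
    generalize (M ^ n : SL(2, ℤ)) 0 0 = an at *
    generalize (M ^ n : SL(2, ℤ)) 0 1 = bn at *
    generalize (M ^ n : SL(2, ℤ)) 1 0 = cn at *
    generalize (M ^ n : SL(2, ℤ)) 1 1 = dn at *
    push_cast
    refine ⟨?_, ?_, ?_⟩
    · linear_combination ((cn : ℂ) * T z + dn) * f1 - (T (z + n * h + h) * c - a) * e1
    · rw [f2, e2, e3]; ring
    · rw [f3, e2, e3]; ring

/-- Reduction to unipotent monodromy. -/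
theorem CData.reduce {h : ℕ} {Y : ℝ} {T V0 V1 : ℂ → ℂ} {a b c d : ℤ} {r₀ r₁ : ℝ}
    (D : CData h Y T V0 V1 a b c d r₀ r₁) :
    ∃ (a' b' c' d' : ℤ) (m : ℕ) (s₀ s₁ : ℝ), a' * d' - b' * c' = 1 ∧
      UData (12 * h) m Y (fun z => (a' * T z + b') / (c' * T z + d'))
        (fun z => a' * V0 z + b' * V1 z) (fun z => c' * V0 z + d' * V1 z) s₀ s₁ := by
  set M : SL(2, ℤ) := ⟨!![a, b; c, d], by rw [Matrix.det_fin_two_of]; exact D.det⟩ with hMdef
  have h00 : M 0 0 = a := rfl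
  have h01 : M 0 1 = b := rfl
  have h10 : M 1 0 = c := rfl
  have h11 : M 1 1 = d := rfl
  have htr := trace_sq_le D.hh D.hT D.hpos a b c d D.det D.perT
  obtain ⟨A, m, hA⟩ := exists_conj M (by rw [h00, h11]; exact htr)
  obtain ⟨s₀, s₁, hit⟩ := reduce_iter D M h00 h01 h10 h11 12
  have hAM : A * M ^ 12 = ModularGroup.T ^ m * A := by
    rw [← hA]; group
  have hent : ∀ i j, A i 0 * (M ^ 12 : SL(2, ℤ)) 0 j + A i 1 * (M ^ 12 : SL(2, ℤ)) 1 j =
      (ModularGroup.T ^ m : SL(2, ℤ)) i 0 * A 0 j + (ModularGroup.T ^ m : SL(2, ℤ)) i 1 * A 1 j := by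
    intro i j
    have := congrArg (fun X : SL(2, ℤ) => (X : Matrix (Fin 2) (Fin 2) ℤ) i j) hAM
    simp only [Matrix.SpecialLinearGroup.coe_mul, Matrix.mul_apply, Fin.sum_univ_two] at this
    exact this
  have t00 : (ModularGroup.T ^ m : SL(2, ℤ)) 0 0 = 1 := by
    change ((ModularGroup.T ^ m : SL(2, ℤ)) : Matrix (Fin 2) (Fin 2) ℤ) 0 0 = 1
    rw [ModularGroup.coe_T_zpow]; rfl
  have t01 : (ModularGroup.T ^ m : SL(2, ℤ)) 0 1 = m := by
    change ((ModularGroup.T ^ m : SL(2, ℤ)) : Matrix (Fin 2) (Fin 2) ℤ) 0 1 = m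
    rw [ModularGroup.coe_T_zpow]; rfl
  have t10 : (ModularGroup.T ^ m : SL(2, ℤ)) 1 0 = 0 := by
    change ((ModularGroup.T ^ m : SL(2, ℤ)) : Matrix (Fin 2) (Fin 2) ℤ) 1 0 = 0
    rw [ModularGroup.coe_T_zpow]; rfl
  have t11 : (ModularGroup.T ^ m : SL(2, ℤ)) 1 1 = 1 := by
    change ((ModularGroup.T ^ m : SL(2, ℤ)) : Matrix (Fin 2) (Fin 2) ℤ) 1 1 = 1
    rw [ModularGroup.coe_T_zpow]; rfl
  have g00 := hent 0 0
  have g01 := hent 0 1
  have g10 := hent 1 0
  have g11 := hent 1 1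
  rw [t00, t01] at g00 g01
  rw [t10, t11] at g10 g11
  have hdetA : A 0 0 * A 1 1 - A 0 1 * A 1 0 = 1 := by
    have := A.2
    rw [Matrix.det_fin_two] at this
    exact this
  have hdetM : (M ^ 12 : SL(2, ℤ)) 0 0 * (M ^ 12 : SL(2, ℤ)) 1 1 -
      (M ^ 12 : SL(2, ℤ)) 0 1 * (M ^ 12 : SL(2, ℤ)) 1 0 = 1 := by
    have := (M ^ 12).2
    rw [Matrix.det_fin_two] at this
    exact this
  generalize (M ^ 12 : SL(2, ℤ)) 0 0 = p at *
  generalize (M ^ 12 : SL(2, ℤ)) 0 1 = q at *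
  generalize (M ^ 12 : SL(2, ℤ)) 1 0 = r at *
  generalize (M ^ 12 : SL(2, ℤ)) 1 1 = s at *
  generalize A 0 0 = a' at *
  generalize A 0 1 = b' at *
  generalize A 1 0 = c' at *
  generalize A 1 1 = d' at *
  have hcd : c' ≠ 0 ∨ d' ≠ 0 := by
    by_contra hcon
    push Not at hcon
    rw [hcon.1, hcon.2] at hdetA; simp at hdetA
  have hrs : r ≠ 0 ∨ s ≠ 0 := by
    by_contra hcon
    push Not at hcon
    rw [hcon.1, hcon.2] at hdetM; simp at hdetM
  have hden : ∀ z : ℂ, Y < z.im → (c' : ℂ) * T z + d' ≠ 0 := fun z hz =>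
    reduce_denom hcd (D.hpos z hz)
  have hrden : ∀ z : ℂ, Y < z.im → (r : ℂ) * T z + s ≠ 0 := fun z hz =>
    reduce_denom hrs (D.hpos z hz)
  have hdetAC : (a' : ℂ) * d' - b' * c' = 1 := by exact_mod_cast hdetA
  have G00 : (a' : ℂ) * p + b' * r = 1 * a' + m * c' := by exact_mod_cast g00
  have G01 : (a' : ℂ) * q + b' * s = 1 * b' + m * d' := by exact_mod_cast g01
  have G10 : (c' : ℂ) * p + d' * r = 0 * a' + 1 * c' := by exact_mod_cast g10
  have G11 : (c' : ℂ) * q + d' * s = 0 * b' + 1 * d' := by exact_mod_cast g11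
  have hT' : ∀ z : ℂ, Y < z.im →
      DifferentiableAt ℂ (fun z => ((a' : ℂ) * T z + b') / (c' * T z + d')) z := by
    intro z hz
    have := D.hT z hz
    exact ((this.const_mul _).add_const _).div ((this.const_mul _).add_const _) (hden z hz)
  have him' : ∀ z : ℂ, Y < z.im → 0 < (((a' : ℂ) * T z + b') / (c' * T z + d')).im := by
    intro z hz
    have h1 := D.hpos z hz
    have h2 : 0 < Complex.normSq ((c' : ℂ) * T z + d') := Complex.normSq_pos.2 (hden z hz)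
    have h3 : (((a' : ℂ) * T z + b') / (c' * T z + d')).im =
        (T z).im / Complex.normSq ((c' : ℂ) * T z + d') := by
      rw [Complex.div_im]
      have hdR : (a' : ℝ) * d' - b' * c' = 1 := by exact_mod_cast hdetA
      simp only [Complex.add_im, Complex.mul_im, Complex.intCast_re, Complex.intCast_im,
        Complex.add_re, Complex.mul_re]
      field_simp
      linear_combination ((T z).im) * hdR
    rw [h3]; positivity
  have hcast : ((12 * h : ℕ) : ℂ) = ((12 : ℕ) : ℂ) * h := by push_cast; ring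
  have hperT : ∀ z : ℂ, Y < z.im →
      (fun z => ((a' : ℂ) * T z + b') / (c' * T z + d')) (z + ((12 * h : ℕ) : ℂ)) =
        (fun z => ((a' : ℂ) * T z + b') / (c' * T z + d')) z + m := by
    intro z hz
    simp only []
    have hz' : Y < (z + ((12 * h : ℕ) : ℂ)).im := by
      have : (z + ((12 * h : ℕ) : ℂ)).im = z.im := by
        rw [Complex.add_im, Complex.natCast_im, add_zero]
      rw [this]; exact hz
    have e1 := (hit z hz).1
    rw [← hcast] at e1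
    have h1 := hden z hz
    have h2 := hden _ hz'
    have h3 := hrden z hz
    generalize T (z + ((12 * h : ℕ) : ℂ)) = x at *
    generalize T z = t at *
    have k1 : ((c' : ℂ) * x + d') * (r * t + s) = c' * t + d' := by
      linear_combination (c' : ℂ) * e1 + t * G10 + G11
    have k2 : ((a' : ℂ) * x + b') * (r * t + s) = (a' * t + b') + m * (c' * t + d') := by
      linear_combination (a' : ℂ) * e1 + t * G00 + G01
    rw [div_add' _ _ _ h1, div_eq_div_iff h2 h1]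
    apply mul_right_cancel₀ h3
    linear_combination (c' * t + d') * k2 - (a' * t + b' + m * (c' * t + d')) * k1
  have hm : 0 ≤ m := by
    refine (period_at_cusp (h := 12 * h) (by have := D.hh; omega) hT' him' m ?_).1
    intro z hz
    exact hperT z hz
  obtain ⟨mn, hmn⟩ := Int.eq_ofNat_of_zero_le hm
  refine ⟨a', b', c', d', mn, a' * s₀ + b' * s₁, c' * s₀ + d' * s₁, hdetA, ?_⟩
  have hmC : (m : ℂ) = mn := by rw [hmn]; simp
  refine ⟨by have := D.hh; omega, hT', him', ?_, ?_, ?_, ?_, ?_, ?_, ?_, ?_, ?_⟩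
  · intro z hz
    exact ((D.hV0 z hz).const_mul _).add ((D.hV1 z hz).const_mul _)
  · intro z hz
    exact ((D.hV0 z hz).const_mul _).add ((D.hV1 z hz).const_mul _)
  · intro z hz
    have d0 := (D.hV0 z hz).hasDerivAt
    have d1 := (D.hV1 z hz).hasDerivAt
    have e0 := ((d0.const_mul (a' : ℂ)).add (d1.const_mul (b' : ℂ))).deriv
    have e1 := ((d0.const_mul (c' : ℂ)).add (d1.const_mul (d' : ℂ))).deriv
    have e0' : deriv (fun z => (a' : ℂ) * V0 z + b' * V1 z) z = a' * deriv V0 z + b' * deriv V1 z :=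
      e0
    have e1' : deriv (fun z => (c' : ℂ) * V0 z + d' * V1 z) z = c' * deriv V0 z + d' * deriv V1 z :=
      e1
    rw [e0', e1', D.htr z hz]
    have := hden z hz
    rw [div_mul_eq_mul_div, eq_div_iff this]
    ring
  · intro z hz
    rw [← hmC]
    exact hperT z hz
  · intro z hz
    obtain ⟨-, e2, e3⟩ := hit z hz
    rw [← hcast] at e2 e3
    rw [e2, e3, ← hmC]
    push_cast
    linear_combination (V0 z) * G00 + (V1 z) * G01
  · intro z hz
    obtain ⟨-, e2, e3⟩ := hit z hz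
    rw [← hcast] at e2 e3
    rw [e2, e3]
    push_cast
    linear_combination (V0 z) * G10 + (V1 z) * G11
  · obtain ⟨C, N, hCN⟩ := D.growth (12 * h : ℕ)
    refine ⟨(|(a' : ℝ)| + |(b' : ℝ)| + |(c' : ℝ)| + |(d' : ℝ)|) * C, N, fun z hz hzY => ?_⟩
    obtain ⟨b0, b1⟩ := hCN z hz hzY
    have hna : ‖(a' : ℂ)‖ = |(a' : ℝ)| := by
      rw [Complex.norm_intCast]
    have hnb : ‖(b' : ℂ)‖ = |(b' : ℝ)| := by
      rw [Complex.norm_intCast]
    have hnc : ‖(c' : ℂ)‖ = |(c' : ℝ)| := by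
      rw [Complex.norm_intCast]
    have hnd : ‖(d' : ℂ)‖ = |(d' : ℝ)| := by
      rw [Complex.norm_intCast]
    set Q := C * (1 + |z.im|) ^ N with hQ
    have hQ0 : 0 ≤ Q := (norm_nonneg _).trans b0
    constructor
    · calc ‖(a' : ℂ) * V0 z + b' * V1 z‖ ≤ ‖(a' : ℂ) * V0 z‖ + ‖(b' : ℂ) * V1 z‖ := norm_add_le _ _
        _ = |(a' : ℝ)| * ‖V0 z‖ + |(b' : ℝ)| * ‖V1 z‖ := by rw [norm_mul, norm_mul, hna, hnb]
        _ ≤ |(a' : ℝ)| * Q + |(b' : ℝ)| * Q := by gcongr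
        _ ≤ (|(a' : ℝ)| + |(b' : ℝ)| + |(c' : ℝ)| + |(d' : ℝ)|) * C * (1 + |z.im|) ^ N := by
          rw [mul_assoc, ← hQ]
          have h1 := mul_nonneg (abs_nonneg (c' : ℝ)) hQ0
          have h2 := mul_nonneg (abs_nonneg (d' : ℝ)) hQ0
          nlinarith
    · calc ‖(c' : ℂ) * V0 z + d' * V1 z‖ ≤ ‖(c' : ℂ) * V0 z‖ + ‖(d' : ℂ) * V1 z‖ := norm_add_le _ _
        _ = |(c' : ℝ)| * ‖V0 z‖ + |(d' : ℝ)| * ‖V1 z‖ := by rw [norm_mul, norm_mul, hnc, hnd]
        _ ≤ |(c' : ℝ)| * Q + |(d' : ℝ)| * Q := by gcongr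
        _ ≤ (|(a' : ℝ)| + |(b' : ℝ)| + |(c' : ℝ)| + |(d' : ℝ)|) * C * (1 + |z.im|) ^ N := by
          rw [mul_assoc, ← hQ]
          have h1 := mul_nonneg (abs_nonneg (a' : ℝ)) hQ0
          have h2 := mul_nonneg (abs_nonneg (b' : ℝ)) hQ0
          nlinarith
  · intro Y'
    obtain ⟨z, hz, hne⟩ := D.ncV (max Y Y')
    have hzY : Y < z.im := (le_max_left _ _).trans_lt hz
    refine ⟨z, (le_max_right _ _).trans_lt hz, ?_⟩
    have d0 := (D.hV0 z hzY).hasDerivAt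
    have d1 := (D.hV1 z hzY).hasDerivAt
    have e1 := ((d0.const_mul (c' : ℂ)).add (d1.const_mul (d' : ℂ))).deriv
    have e1' : deriv (fun z => (c' : ℂ) * V0 z + d' * V1 z) z = c' * deriv V0 z + d' * deriv V1 z :=
      e1
    rw [e1', D.htr z hzY]
    have : (c' : ℂ) * (T z * deriv V1 z) + d' * deriv V1 z = (c' * T z + d') * deriv V1 z := by ring
    rw [this]
    exact mul_ne_zero (hden z hzY) hne
  · intro Y'
    obtain ⟨z, hz, hne⟩ := D.ncT (max Y Y')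
    have hzY : Y < z.im := (le_max_left _ _).trans_lt hz
    refine ⟨z, (le_max_right _ _).trans_lt hz, ?_⟩
    have dT := (D.hT z hzY).hasDerivAt
    have e := (((dT.const_mul (a' : ℂ)).add_const (b' : ℂ)).div
      ((dT.const_mul (c' : ℂ)).add_const (d' : ℂ)) (hden z hzY)).deriv
    have e' : deriv (fun z => ((a' : ℂ) * T z + b') / (c' * T z + d')) z =
        (a' * deriv T z * (c' * T z + d') - (a' * T z + b') * (c' * deriv T z)) /
          (c' * T z + d') ^ 2 := e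
    rw [e']
    have : (a' : ℂ) * deriv T z * (c' * T z + d') - (a' * T z + b') * (c' * deriv T z) =
        deriv T z := by linear_combination (deriv T z) * hdetAC
    rw [this]
    exact div_ne_zero hne (pow_ne_zero _ (hden z hzY))

end Pool.Agent.LibUB33
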