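import Pool.Agent.LibUB33.CuspZero
import Pool.Agent.LibUB33.CuspPos
import Pool.Agent.LibUB33.CuspT
import Pool.Agent.LibUB33.Reduce

/-!
# Winding numbers at a puncture
-/

open Filter Topology

namespace Pool.Agent.LibUB33

private theorem cm_denom {a b c d : ℤ} (hdet : a * d - b * c = 1) {t : ℂ} (ht : 0 < t.im) :
    (c : ℂ) * t + d ≠ 0 := by
  intro h
  have him := congrArg Complex.im h
  have hre := congrArg Complex.re h
  simp at him hre
  rcases him with h1 | h1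
  · rw [h1] at hre
    simp at hre
    rw [h1, hre] at hdet
    simp at hdet
  · exact ht.ne' h1

private theorem cm_deriv {a b c d : ℤ} (hdet : a * d - b * c = 1) {T : ℂ → ℂ} {z : ℂ}
    (hT : DifferentiableAt ℂ T z) (ht : 0 < (T z).im) :
    deriv (fun z => ((a : ℂ) * T z + b) / (c * T z + d)) z = deriv T z / (c * T z + d) ^ 2 := by
  have dT := hT.hasDerivAt
  have hne := cm_denom hdet ht
  have e := (((dT.const_mul (a : ℂ)).add_const (b : ℂ)).div
    ((dT.const_mul (c : ℂ)).add_const (d : ℂ)) hne).deriv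
  have e' : deriv (fun z => ((a : ℂ) * T z + b) / (c * T z + d)) z =
      (a * deriv T z * (c * T z + d) - (a * T z + b) * (c * deriv T z)) /
        (c * T z + d) ^ 2 := e
  have hdetC : (a : ℂ) * d - b * c = 1 := by exact_mod_cast hdet
  rw [e']
  congr 1
  linear_combination (deriv T z) * hdetC

private theorem cm_gg {a b c d : ℤ} (hdet : a * d - b * c = 1) {t v₀ v₁ : ℂ} (ht : 0 < t.im)
    (r₀ r₁ : ℝ) :
    gg ((a * t + b) / (c * t + d)) (a * v₀ + b * v₁ + r₀) (c * v₀ + d * v₁ + r₁) =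
      (c * t + d) * gg t v₀ v₁ := by
  have h := gg_smul (a := (a : ℝ)) (b := b) (c := c) (d := d) (r₀ := r₀) (r₁ := r₁)
    (by exact_mod_cast hdet) (t := t) (v₀ := v₀) (v₁ := v₁) ht
  push_cast at h
  exact h

private theorem cm_gg0 {a b c d : ℤ} (hdet : a * d - b * c = 1) {t v₀ v₁ : ℂ} (ht : 0 < t.im) :
    gg ((a * t + b) / (c * t + d)) (a * v₀ + b * v₁) (c * v₀ + d * v₁) =
      (c * t + d) * gg t v₀ v₁ := by
  have h := cm_gg hdet (t := t) (v₀ := v₀) (v₁ := v₁) ht 0 0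
  simpa using h

variable {h : ℕ} {Y : ℝ} {T V0 V1 : ℂ → ℂ} {a b c d : ℤ} {r₀ r₁ : ℝ}

private theorem cm_perT (D : CData h Y T V0 V1 a b c d r₀ r₁) {z : ℂ} (hz : Y < z.im) :
    T (z + h) = (a * T z + b) / (c * T z + d) := by
  rw [eq_div_iff (cm_denom D.det (D.hpos z hz))]
  exact D.perT z hz

private theorem cm_derivT (D : CData h Y T V0 V1 a b c d r₀ r₁) {z : ℂ} (hz : Y < z.im) :
    deriv T (z + h) = deriv T z / (c * T z + d) ^ 2 := by
  rw [← deriv_comp_add_const, ← cm_deriv D.det (D.hT z hz) (D.hpos z hz)]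
  apply Filter.EventuallyEq.deriv_eq
  have hopen : IsOpen {z : ℂ | Y < z.im} := isOpen_lt continuous_const Complex.continuous_im
  filter_upwards [hopen.mem_nhds hz] with w hw
  exact cm_perT D hw

private theorem cm_perg (D : CData h Y T V0 V1 a b c d r₀ r₁) {z : ℂ} (hz : Y < z.im) :
    gg (T (z + h)) (V0 (z + h)) (V1 (z + h)) = (c * T z + d) * gg (T z) (V0 z) (V1 z) := by
  rw [cm_perT D hz, D.perV0 z hz, D.perV1 z hz, cm_gg D.det (D.hpos z hz)]

private theorem cm_ggwind {h m : ℕ} (D : UData h m Y T V0 V1 r₀ r₁) :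
    ∃ k : ℕ, HasWind h (fun z => gg (T z) (V0 z) (V1 z)) k := by
  rcases Nat.eq_zero_or_pos m with hm | hm
  · subst hm; exact D.case_zero
  · exact D.case_pos hm

/-- The winding number used for the bound by the Euler characteristic. -/
theorem CData.wind_euler {h : ℕ} {Y : ℝ} {T V0 V1 : ℂ → ℂ} {a b c d : ℤ} {r₀ r₁ : ℝ}
    (D : CData h Y T V0 V1 a b c d r₀ r₁) :
    ∃ n : ℕ, HasWind h (fun z => gg (T z) (V0 z) (V1 z) ^ 2 * deriv T z) n := by
  obtain ⟨a', b', c', d', m, s₀, s₁, hdet, U⟩ := D.reduce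
  obtain ⟨k₁, hk₁⟩ := cm_ggwind U
  obtain ⟨k₂, hk₂⟩ := U.deriv_period
  have h1 := (hk₁.pow 2).mul hk₂
  have h2 : HasWind (12 * h) (fun z => gg (T z) (V0 z) (V1 z) ^ 2 * deriv T z)
      (((2 : ℕ) : ℤ) * k₁ + k₂) := by
    refine h1.congr Y fun z hz => ?_
    rw [cm_gg0 hdet (D.hpos z hz), cm_deriv hdet (D.hT z hz) (D.hpos z hz)]
    have hne := cm_denom hdet (D.hpos z hz)
    rw [mul_pow, mul_div_assoc', div_eq_iff (pow_ne_zero _ hne)]
    ring
  have hper : ∀ z : ℂ, Y < z.im →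
      (fun z => gg (T z) (V0 z) (V1 z) ^ 2 * deriv T z) (z + h) =
        (fun z => gg (T z) (V0 z) (V1 z) ^ 2 * deriv T z) z := by
    intro z hz
    simp only []
    rw [cm_perg D hz, cm_derivT D hz]
    have hne := cm_denom D.det (D.hpos z hz)
    rw [mul_pow, mul_div_assoc', div_eq_iff (pow_ne_zero _ hne)]
    ring
  obtain ⟨n, hn, hn2⟩ := h2.of_period (by norm_num) Y hper
  have hn0 : 0 ≤ n := by push_cast at hn2; omega
  obtain ⟨n', rfl⟩ := Int.eq_ofNat_of_zero_le hn0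
  exact ⟨n', hn⟩

/-- The winding number used for the bound by the degree of the modular invariant. -/
theorem CData.wind_modular {h : ℕ} {Y : ℝ} {T V0 V1 : ℂ → ℂ} {a b c d : ℤ} {r₀ r₁ : ℝ}
    (D : CData h Y T V0 V1 a b c d r₀ r₁) :
    ∃ t₀ : ℂ, 0 < t₀.im ∧ ∀ f : ℂ → ℂ, (∀ t : ℂ, 0 < t.im → ContinuousAt f t) →
      (∀ a b c d : ℤ, a * d - b * c = 1 → ∀ t : ℂ, 0 < t.im →
        f ((a * t + b) / (c * t + d)) = (c * t + d) ^ 12 * f t) →
      Tendsto f (comap Complex.im atTop) (𝓝 1) → f t₀ ≠ 0 →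
      ∃ n : ℕ, HasWind h (fun z => gg (T z) (V0 z) (V1 z) ^ 12 / f (T z)) n := by
  obtain ⟨a', b', c', d', m, s₀, s₁, hdet, U⟩ := D.reduce
  obtain ⟨k, hk⟩ := cm_ggwind U
  -- the general step
  have hstep : ∀ f : ℂ → ℂ, (∀ t : ℂ, 0 < t.im → ContinuousAt f t) →
      (∀ a b c d : ℤ, a * d - b * c = 1 → ∀ t : ℂ, 0 < t.im →
        f ((a * t + b) / (c * t + d)) = (c * t + d) ^ 12 * f t) →
      (∃ w : ℂ, w ≠ 0 ∧ Tendsto (fun z => f ((a' * T z + b') / (c' * T z + d')))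
        (comap Complex.im atTop) (𝓝 w)) →
      ∃ n : ℕ, HasWind h (fun z => gg (T z) (V0 z) (V1 z) ^ 12 / f (T z)) n := by
    intro f hfc hfm ⟨w, hw, hlim⟩
    have hf0 : HasWind (12 * h) (fun z => f ((a' * T z + b') / (c' * T z + d'))) 0 := by
      refine HasWind.of_tendsto hw (r := fun _ => 1) Y ?_ ?_ continuousOn_const (fun _ _ => rfl)
        (fun _ _ => one_pos) ?_
      · intro z hz
        apply ContinuousAt.continuousWithinAt
        exact ContinuousAt.comp (f := fun z => ((a' : ℂ) * T z + b') / (c' * T z + d'))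
          (hfc _ (U.hpos z hz)) (U.hT z hz).continuousAt
      · intro z hz
        have h1 := U.perT z hz
        rw [h1]
        have h2 := hfm 1 m 0 1 (by norm_num) _ (U.hpos z hz)
        simpa using h2
      · simpa using hlim
    have h1 := (hk.pow 12).mul hf0.inv
    have h2 : HasWind (12 * h) (fun z => gg (T z) (V0 z) (V1 z) ^ 12 / f (T z))
        (((12 : ℕ) : ℤ) * k + -0) := by
      refine h1.congr Y fun z hz => ?_
      rw [cm_gg0 hdet (D.hpos z hz), hfm a' b' c' d' hdet _ (D.hpos z hz)]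
      have hne := pow_ne_zero 12 (cm_denom hdet (D.hpos z hz))
      rw [mul_pow, ← div_eq_mul_inv, mul_div_mul_left _ _ hne]
    have hper : ∀ z : ℂ, Y < z.im →
        (fun z => gg (T z) (V0 z) (V1 z) ^ 12 / f (T z)) (z + h) =
          (fun z => gg (T z) (V0 z) (V1 z) ^ 12 / f (T z)) z := by
      intro z hz
      simp only []
      rw [cm_perg D hz, cm_perT D hz, hfm a b c d D.det _ (D.hpos z hz)]
      have hne := pow_ne_zero 12 (cm_denom D.det (D.hpos z hz))
      rw [mul_pow, mul_div_mul_left _ _ hne]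
    obtain ⟨n, hn, hn2⟩ := h2.of_period (by norm_num) Y hper
    have hn0 : 0 ≤ n := by push_cast at hn2; omega
    obtain ⟨n', rfl⟩ := Int.eq_ofNat_of_zero_le hn0
    exact ⟨n', hn⟩
  rcases U.limit_period with ⟨-, t, ht, hlim⟩ | hlim
  · refine ⟨t, ht, fun f hfc hfm _ hf0 => hstep f hfc hfm ⟨f t, hf0, ?_⟩⟩
    exact (hfc t ht).tendsto.comp hlim
  · refine ⟨Complex.I, by simp, fun f hfc hfm hf1 _ => hstep f hfc hfm ⟨1, one_ne_zero, ?_⟩⟩
    refine hf1.comp (tendsto_comap_iff.2 ?_)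
    exact hlim

end Pool.Agent.LibUB33
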