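import Pool.Agent.LibUB33.EndsC
import Pool.Agent.LibUB33.Basic

/-!
# From a variation to periods at the punctures
-/

open Filter Topology UpperHalfPlane
open scoped MatrixGroups

namespace Pool.Agent.LibUB33

variable {X : Curve}

namespace BridgeA94

theorem isOpen_uhp : IsOpen {w : ℂ | 0 < w.im} := isOpen_lt continuous_const Complex.continuous_im

theorem preconn_uhp : IsPreconnected {w : ℂ | 0 < w.im} :=
  (convex_halfSpace_im_gt 0).isPreconnected

/-- a holomorphic function on the upper half plane with derivative zero near a point is constant -/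
theorem const_of_deriv {F : ℂ → ℂ} (hF : ∀ w : ℂ, 0 < w.im → DifferentiableAt ℂ F w) {z : ℂ}
    (hz : 0 < z.im) (h0 : ∀ᶠ w in 𝓝 z, deriv F w = 0) :
    (∀ w : ℂ, 0 < w.im → deriv F w = 0) ∧
      ∀ w w' : ℂ, 0 < w.im → 0 < w'.im → F w = F w' := by
  have hFd : DifferentiableOn ℂ F {w : ℂ | 0 < w.im} :=
    fun w hw => (hF w hw).differentiableWithinAt
  have hd : AnalyticOnNhd ℂ (deriv F) {w : ℂ | 0 < w.im} :=
    (hFd.analyticOnNhd isOpen_uhp).deriv
  have h1 : Set.EqOn (deriv F) 0 {w : ℂ | 0 < w.im} :=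
    hd.eqOn_zero_of_preconnected_of_eventuallyEq_zero preconn_uhp hz h0
  exact ⟨fun w hw => h1 hw,
    fun w w' hw hw' => isOpen_uhp.is_const_of_deriv_eq_zero preconn_uhp hFd h1 hw hw'⟩

theorem diff_v (V : Variation X) (i : Fin 2) (w : ℂ) (hw : 0 < w.im) :
    DifferentiableAt ℂ (fun w : ℂ => V.v (ofComplex w) i) w :=
  V.v_hol i ⟨w, hw⟩

theorem diff_τ (V : Variation X) (w : ℂ) (hw : 0 < w.im) :
    DifferentiableAt ℂ (fun w : ℂ => (V.τ (ofComplex w) : ℂ)) w :=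
  V.τ_hol ⟨w, hw⟩

end BridgeA94

open BridgeA94

/-- Translates of ends. -/
theorem Curve.IsEnd.smul {s : ℂ → ℍ} {Y : ℝ} (h : X.IsEnd s Y) {x : SL(2, ℝ)} (hx : x ∈ X.G) :
    X.IsEnd (fun ζ => x • s ζ) Y := by
  have hl : ∀ z : ℍ, X.lam (x • z) = X.lam z := by
    intro z
    exact ((X.lam_fib z (x • z)).mpr ⟨x, hx, rfl⟩).symm
  refine ⟨(continuous_const_smul x).comp_continuousOn h.1, ?_⟩
  rcases h.2 with ⟨b, hb, h2⟩ | h2
  · exact Or.inl ⟨b, hb, fun ζ hζ => (hl _).trans (h2 ζ hζ)⟩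
  · exact Or.inr fun ζ hζ => (hl _).trans (h2 ζ hζ)

/-- The derivative of the second extension period does not vanish identically. -/
theorem Variation.exists_deriv_ne (V : Variation X) (hnc : ∃ z w i, V.v z i ≠ V.v w i) (z : ℍ) :
    (¬ ∀ᶠ w in 𝓝 (z : ℂ), deriv (fun w : ℂ => V.v (ofComplex w) 1) w = 0) ∧
      ¬ ∀ᶠ w in 𝓝 (z : ℂ), deriv (fun w : ℂ => (V.τ (ofComplex w) : ℂ)) w = 0 := by
  constructor
  · intro hcon
    obtain ⟨h1, h2⟩ := const_of_deriv (diff_v V 1) z.im_pos hcon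
    have h3 : ∀ᶠ w in 𝓝 (z : ℂ), deriv (fun w : ℂ => V.v (ofComplex w) 0) w = 0 := by
      filter_upwards [isOpen_uhp.mem_nhds z.im_pos] with w hw
      have h4 := V.transversal ⟨w, hw⟩
      have h5 := h1 w hw
      change deriv (fun w : ℂ => V.v (ofComplex w) 0) w = _ at h4
      rw [h4]
      change _ * deriv (fun w : ℂ => V.v (ofComplex w) 1) w = 0
      rw [h5, mul_zero]
    obtain ⟨-, h4⟩ := const_of_deriv (diff_v V 0) z.im_pos h3
    obtain ⟨z', w', i, hne⟩ := hnc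
    apply hne
    have key : ∀ i, V.v z' i = V.v w' i := by
      rw [Fin.forall_fin_two]
      constructor
      · have := h4 z' w' z'.im_pos w'.im_pos
        simpa only [ofComplex_apply] using this
      · have := h2 z' w' z'.im_pos w'.im_pos
        simpa only [ofComplex_apply] using this
    exact key i
  · intro hcon
    obtain ⟨-, h2⟩ := const_of_deriv (diff_τ V) z.im_pos hcon
    obtain ⟨z', w', hne⟩ := V.τ_nonconst
    apply hne
    have := h2 z' w' z'.im_pos w'.im_pos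
    simp only [ofComplex_apply] at this
    exact UpperHalfPlane.ext this

/-- The local orders of the section. -/
theorem Variation.gg_order (V : Variation X) (hnc : ∃ z w i, V.v z i ≠ V.v w i) (z : ℍ) :
    ∃ m : ℕ, LocOrd (fun w : ℂ => gg (V.τ (ofComplex w)) (V.v (ofComplex w) 0)
      (V.v (ofComplex w) 1)) z m ∧ (0 < m ↔ ∀ i, (V.v z i).im = 0) := by
  have hnh : {w : ℂ | 0 < w.im} ∈ 𝓝 (z : ℂ) := isOpen_uhp.mem_nhds z.im_pos
  obtain ⟨m, hm1, hm2⟩ := interior_order (T := fun w : ℂ => (V.τ (ofComplex w) : ℂ))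
    (V0 := fun w : ℂ => V.v (ofComplex w) 0) (V1 := fun w : ℂ => V.v (ofComplex w) 1)
    (z₀ := (z : ℂ))
    (by filter_upwards [hnh] with w hw using diff_τ V w hw)
    (by filter_upwards [hnh] with w hw using (V.τ (ofComplex w)).im_pos)
    (by filter_upwards [hnh] with w hw using diff_v V 0 w hw)
    (by filter_upwards [hnh] with w hw using diff_v V 1 w hw)
    (by
      filter_upwards [hnh] with w hw
      have h4 := V.transversal ⟨w, hw⟩
      have h5 : ofComplex w = ⟨w, hw⟩ := ofComplex_apply_of_im_pos hw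
      rw [h5]
      exact h4)
    (V.exists_deriv_ne hnc z).1
  refine ⟨m, hm1, ?_⟩
  rw [hm2, Fin.forall_fin_two]
  simp only [ofComplex_apply]

/-- The transformation law of the section. -/
theorem Variation.gg_smul (V : Variation X) (p : X.P) (z : ℍ) :
    gg (V.τ ((p : SL(2, ℝ)) • z)) (V.v ((p : SL(2, ℝ)) • z) 0) (V.v ((p : SL(2, ℝ)) • z) 1) =
      (V.ρ p 1 0 * V.τ z + V.ρ p 1 1) * gg (V.τ z) (V.v z 0) (V.v z 1) := by
  have hdet : (V.ρ p 0 0 : ℝ) * V.ρ p 1 1 - V.ρ p 0 1 * V.ρ p 1 0 = 1 := by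
    have h1 := (V.ρ p).det_coe
    rw [Matrix.det_fin_two] at h1
    exact_mod_cast h1
  have h2 := LibUB33.gg_smul (r₀ := (V.c p 0 : ℝ)) (r₁ := (V.c p 1 : ℝ)) hdet
    (V.τ z).im_pos (v₀ := V.v z 0) (v₁ := V.v z 1)
  have h3 : (V.τ ((p : SL(2, ℝ)) • z) : ℂ) =
      (((V.ρ p 0 0 : ℤ) : ℝ) * (V.τ z : ℂ) + ((V.ρ p 0 1 : ℤ) : ℝ)) /
        (((V.ρ p 1 0 : ℤ) : ℝ) * (V.τ z : ℂ) + ((V.ρ p 1 1 : ℤ) : ℝ)) := by
    rw [V.τ_equiv, coe_specialLinearGroup_apply]
    simp
  have h4 := V.v_equiv p z 0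
  have h5 := V.v_equiv p z 1
  rw [Fin.sum_univ_two] at h4 h5
  rw [h3, h4, h5]
  have h6 := h2
  push_cast at h6 ⊢
  exact h6

end Pool.Agent.LibUB33
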