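import Pool.Agent.LibUB33.Basic
import Pool.Agent.LibUB33.Periodic

/-!
# The local structure of the variation at a puncture with unipotent monodromy
-/

open Filter Topology

namespace Pool.Agent.LibUB33

/-- Periods at a puncture with unipotent monodromy. -/
structure UData (h m : ℕ) (Y : ℝ) (T V0 V1 : ℂ → ℂ) (r₀ r₁ : ℝ) : Prop where
  hh : 0 < h
  hT : ∀ z : ℂ, Y < z.im → DifferentiableAt ℂ T z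
  hpos : ∀ z : ℂ, Y < z.im → 0 < (T z).im
  hV0 : ∀ z : ℂ, Y < z.im → DifferentiableAt ℂ V0 z
  hV1 : ∀ z : ℂ, Y < z.im → DifferentiableAt ℂ V1 z
  htr : ∀ z : ℂ, Y < z.im → deriv V0 z = T z * deriv V1 z
  perT : ∀ z : ℂ, Y < z.im → T (z + h) = T z + m
  perV0 : ∀ z : ℂ, Y < z.im → V0 (z + h) = V0 z + m * V1 z + r₀
  perV1 : ∀ z : ℂ, Y < z.im → V1 (z + h) = V1 z + r₁
  growth : ∃ (C : ℝ) (N : ℕ), ∀ z : ℂ, |z.re| ≤ h → Y < z.im →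
    ‖V0 z‖ ≤ C * (1 + |z.im|) ^ N ∧ ‖V1 z‖ ≤ C * (1 + |z.im|) ^ N
  ncV : ∀ Y' : ℝ, ∃ z : ℂ, Y' < z.im ∧ deriv V1 z ≠ 0
  ncT : ∀ Y' : ℝ, ∃ z : ℂ, Y' < z.im ∧ deriv T z ≠ 0

/-- Periods at a puncture, in general. -/
structure CData (h : ℕ) (Y : ℝ) (T V0 V1 : ℂ → ℂ) (a b c d : ℤ) (r₀ r₁ : ℝ) : Prop where
  hh : 0 < h
  det : a * d - b * c = 1
  hT : ∀ z : ℂ, Y < z.im → DifferentiableAt ℂ T z
  hpos : ∀ z : ℂ, Y < z.im → 0 < (T z).im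
  hV0 : ∀ z : ℂ, Y < z.im → DifferentiableAt ℂ V0 z
  hV1 : ∀ z : ℂ, Y < z.im → DifferentiableAt ℂ V1 z
  htr : ∀ z : ℂ, Y < z.im → deriv V0 z = T z * deriv V1 z
  perT : ∀ z : ℂ, Y < z.im → T (z + h) * (c * T z + d) = a * T z + b
  perV0 : ∀ z : ℂ, Y < z.im → V0 (z + h) = a * V0 z + b * V1 z + r₀
  perV1 : ∀ z : ℂ, Y < z.im → V1 (z + h) = c * V0 z + d * V1 z + r₁
  growth : ∀ M : ℝ, ∃ (C : ℝ) (N : ℕ), ∀ z : ℂ, |z.re| ≤ M → Y < z.im →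
    ‖V0 z‖ ≤ C * (1 + |z.im|) ^ N ∧ ‖V1 z‖ ≤ C * (1 + |z.im|) ^ N
  ncV : ∀ Y' : ℝ, ∃ z : ℂ, Y' < z.im ∧ deriv V1 z ≠ 0
  ncT : ∀ Y' : ℝ, ∃ z : ℂ, Y' < z.im ∧ deriv T z ≠ 0

end Pool.Agent.LibUB33
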