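import Pool.Agent.LibUB33.BridgeA
import Pool.Agent.LibUB33.CuspDefs

open Filter Topology UpperHalfPlane
open scoped MatrixGroups

namespace Pool.Agent.LibUB33

variable {X : Curve}

namespace BridgeB94

theorem ee_hasDerivAt (ζ : ℂ) : HasDerivAt ee (2 * Real.pi * Complex.I * ee ζ) ζ := by
  have h1 : HasDerivAt (fun ζ : ℂ => 2 * (Real.pi : ℂ) * Complex.I * ζ)
      (2 * (Real.pi : ℂ) * Complex.I) ζ := by
    simpa using (hasDerivAt_id ζ).const_mul (2 * (Real.pi : ℂ) * Complex.I)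
  exact h1.cexp.congr_deriv (mul_comm _ _)

/-- an end is a holomorphic map with nonzero derivative -/
theorem end_deriv {s : ℂ → ℍ} {Y : ℝ} (hE : X.IsEnd s Y) {ζ : ℂ} (hζ : Y < ζ.im) :
    ∃ s' : ℂ, s' ≠ 0 ∧ HasDerivAt (fun z => (s z : ℂ)) s' ζ := by
  have hpc : (2 : ℂ) * Real.pi * Complex.I ≠ 0 := Complex.two_pi_I_ne_zero
  have hee : ∀ z : ℂ, ee z ≠ 0 := fun z => Complex.exp_ne_zero _
  have key : ∀ ψ : ℂ → ℂ, (∀ ζ : ℂ, Y < ζ.im → X.lam (s ζ) = ψ ζ) →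
      (∀ ζ : ℂ, ∃ d : ℂ, d ≠ 0 ∧ HasDerivAt ψ d ζ) →
      ∃ s' : ℂ, s' ≠ 0 ∧ HasDerivAt (fun z => (s z : ℂ)) s' ζ := by
    intro ψ hψ hd
    obtain ⟨h1, h2⟩ := X.lift_differentiable hE.1 hψ
      (fun ζ _ => (hd ζ).choose_spec.2.differentiableAt) hζ
    refine ⟨_, ?_, h1.hasDerivAt⟩
    intro h0
    rw [h0, mul_zero] at h2
    obtain ⟨d, hd0, hd1⟩ := hd ζ
    rw [hd1.deriv] at h2
    exact hd0 h2.symm
  rcases hE.2 with ⟨b, hb, h2⟩ | h2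
  · refine key _ h2 fun ζ => ⟨_, mul_ne_zero hpc (hee ζ), ?_⟩
    exact (ee_hasDerivAt ζ).const_add b
  · refine key _ h2 fun ζ => ⟨-(2 * Real.pi * Complex.I * ee (-ζ)),
      neg_ne_zero.mpr (mul_ne_zero hpc (hee _)), ?_⟩
    have h3 := (ee_hasDerivAt (-ζ)).comp ζ (hasDerivAt_neg ζ)
    rw [mul_neg, mul_one] at h3
    exact h3

/-- chain rule along an end -/
theorem comp_deriv {s : ℂ → ℍ} {Y : ℝ} (hE : X.IsEnd s Y) (F : ℍ → ℂ)
    (hF : ∀ z : ℍ, DifferentiableAt ℂ (fun w : ℂ => F (ofComplex w)) z) {ζ : ℂ} (hζ : Y < ζ.im) :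
    HasDerivAt (fun ζ => F (s ζ))
      (deriv (fun w : ℂ => F (ofComplex w)) (s ζ) * deriv (fun z => (s z : ℂ)) ζ) ζ := by
  obtain ⟨s', hs0, hs⟩ := end_deriv hE hζ
  have h1 := (hF (s ζ)).hasDerivAt
  have h2 := HasDerivAt.comp ζ (h₂ := fun w : ℂ => F (ofComplex w)) (h := fun z => (s z : ℂ)) h1 hs
  rw [hs.deriv]
  have h3 : (fun w : ℂ => F (ofComplex w)) ∘ (fun z => (s z : ℂ)) = fun ζ => F (s ζ) := by
    funext w
    simp only [Function.comp_apply, ofComplex_apply]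
  rwa [h3] at h2

/-- derivatives which are not identically zero -/
theorem exists_ne {s : ℂ → ℍ} {Y : ℝ} (hE : X.IsEnd s Y) (F : ℍ → ℂ)
    (hF : ∀ z : ℍ, DifferentiableAt ℂ (fun w : ℂ => F (ofComplex w)) z)
    (hne : ∀ z : ℍ, ¬ ∀ᶠ w in 𝓝 (z : ℂ), deriv (fun w : ℂ => F (ofComplex w)) w = 0) (Y' : ℝ) :
    ∃ z : ℂ, Y' < z.im ∧ deriv (fun ζ => F (s ζ)) z ≠ 0 := by
  set Y1 := max Y Y' with hY1
  set z0 : ℂ := ((Y1 + 1 : ℝ) : ℂ) * Complex.I with hz0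
  have him : Y1 < z0.im := by simp [hz0]
  have hzY : Y < z0.im := lt_of_le_of_lt (le_max_left _ _) him
  obtain ⟨s', hs0, hs⟩ := end_deriv hE hzY
  have hFd : DifferentiableOn ℂ (fun w : ℂ => F (ofComplex w)) {w : ℂ | 0 < w.im} :=
    fun w hw => (hF ⟨w, hw⟩).differentiableWithinAt
  have hd : AnalyticAt ℂ (deriv (fun w : ℂ => F (ofComplex w))) (s z0) :=
    (hFd.analyticOnNhd BridgeA94.isOpen_uhp).deriv _ (s z0).im_pos
  rcases hd.eventually_eq_zero_or_eventually_ne_zero with h1 | h1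
  · exact absurd h1 (hne (s z0))
  · have h2 : ∀ᶠ z in 𝓝[≠] z0, deriv (fun w : ℂ => F (ofComplex w)) (s z) ≠ 0 :=
      (hs.tendsto_nhdsNE hs0).eventually h1
    have h3' : ∀ᶠ z in 𝓝 z0, Y1 < z.im :=
      (isOpen_lt continuous_const Complex.continuous_im).mem_nhds him
    have h3 : ∀ᶠ z in 𝓝[≠] z0, Y1 < z.im := h3'.filter_mono nhdsWithin_le_nhds
    obtain ⟨z, hz1, hz2⟩ := (h2.and h3).exists
    refine ⟨z, lt_of_le_of_lt (le_max_right _ _) hz2, ?_⟩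
    have hzY1 : Y < z.im := lt_of_le_of_lt (le_max_left _ _) hz2
    rw [(comp_deriv hE F hF hzY1).deriv]
    obtain ⟨s1, hs1, hs2⟩ := end_deriv hE hzY1
    rw [hs2.deriv]
    exact mul_ne_zero hz1 hs1

end BridgeB94

open BridgeB94

/-- The periods at a puncture. -/
theorem Variation.cdata (V : Variation X) (hnc : ∃ z w i, V.v z i ≠ V.v w i) {s : ℂ → ℍ} {Y : ℝ}
    (hE : X.IsEnd s Y) {h : ℕ} (hh : 0 < h) {p : SL(2, ℝ)} (hp : p ∈ X.P)
    (hper : ∀ ζ : ℂ, Y < ζ.im → s (ζ + h) = p • s ζ) :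
    ∃ (a b c d : ℤ) (r₀ r₁ : ℝ), CData h (Y + 1) (fun ζ => (V.τ (s ζ) : ℂ))
      (fun ζ => V.v (s ζ) 0) (fun ζ => V.v (s ζ) 1) a b c d r₀ r₁ := by
  set g := V.ρ ⟨p, hp⟩ with hg
  have hY : ∀ z : ℂ, Y + 1 < z.im → Y < z.im := fun z hz => by linarith
  have hv : ∀ (i : Fin 2) (ζ : ℂ), Y < ζ.im →
      V.v (s (ζ + h)) i = (g i 0 : ℂ) * V.v (s ζ) 0 + (g i 1 : ℂ) * V.v (s ζ) 1 +
        ((V.c ⟨p, hp⟩ i : ℝ) : ℂ) := by
    intro i ζ hζ
    rw [hper ζ hζ]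
    have h1 := V.v_equiv ⟨p, hp⟩ (s ζ) i
    rw [Fin.sum_univ_two] at h1
    simp only at h1
    rw [h1]
    push_cast
    rfl
  refine ⟨g 0 0, g 0 1, g 1 0, g 1 1, (V.c ⟨p, hp⟩ 0 : ℝ), (V.c ⟨p, hp⟩ 1 : ℝ), ?_⟩
  refine ⟨hh, ?_, ?_, ?_, ?_, ?_, ?_, ?_, ?_, ?_, ?_, ?_, ?_⟩
  · have h1 := g.det_coe
    rwa [Matrix.det_fin_two] at h1
  · exact fun z hz => (comp_deriv hE (fun z => (V.τ z : ℂ)) V.τ_hol (hY z hz)).differentiableAt
  · exact fun z _ => (V.τ (s z)).im_pos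
  · exact fun z hz => (comp_deriv hE (fun z => V.v z 0) (V.v_hol 0) (hY z hz)).differentiableAt
  · exact fun z hz => (comp_deriv hE (fun z => V.v z 1) (V.v_hol 1) (hY z hz)).differentiableAt
  · intro z hz
    rw [(comp_deriv hE (fun z => V.v z 0) (V.v_hol 0) (hY z hz)).deriv,
      (comp_deriv hE (fun z => V.v z 1) (V.v_hol 1) (hY z hz)).deriv, V.transversal (s z)]
    ring
  · intro z hz
    have h1 : (V.τ (s (z + h)) : ℂ) = ((g 0 0 : ℂ) * V.τ (s z) + g 0 1) /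
        ((g 1 0 : ℂ) * V.τ (s z) + g 1 1) := by
      rw [hper z (hY z hz)]
      have h2 := V.τ_equiv ⟨p, hp⟩ (s z)
      simp only at h2
      rw [h2, coe_specialLinearGroup_apply]
      simp [hg]
    have h3 : ((g 1 0 : ℂ) * V.τ (s z) + g 1 1) ≠ 0 := by
      intro h0
      have h4 : ((g 1 0 : ℝ) : ℂ) * V.τ (s z) + ((g 1 1 : ℝ) : ℂ) = 0 := by
        push_cast
        exact h0
      have him : (g 1 0 : ℝ) * (V.τ (s z)).im = 0 := by
        have h5 := congrArg Complex.im h4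
        simpa using h5
      have hc : (g 1 0 : ℝ) = 0 :=
        (mul_eq_zero.mp him).resolve_right (V.τ (s z)).im_pos.ne'
      have hd : (g 1 1 : ℝ) = 0 := by
        have h5 := congrArg Complex.re h4
        rw [hc] at h5
        simpa using h5
      have hdet := g.det_coe
      rw [Matrix.det_fin_two] at hdet
      have hc' : g 1 0 = 0 := by exact_mod_cast hc
      have hd' : g 1 1 = 0 := by exact_mod_cast hd
      change g 0 0 * g 1 1 - g 0 1 * g 1 0 = 1 at hdet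
      rw [hc', hd'] at hdet
      simp at hdet
    change (V.τ (s (z + h)) : ℂ) * ((g 1 0 : ℂ) * V.τ (s z) + g 1 1) = _
    rw [h1]
    exact div_mul_cancel₀ _ h3
  · intro z hz
    exact hv 0 z (hY z hz)
  · intro z hz
    exact hv 1 z (hY z hz)
  · intro M
    obtain ⟨C, N, hCN⟩ := V.growth s Y hE M
    exact ⟨C, N, fun z hz hz1 => ⟨hCN z 0 hz hz1.le, hCN z 1 hz hz1.le⟩⟩
  · exact exists_ne hE (fun z => V.v z 1) (V.v_hol 1) fun z => (V.exists_deriv_ne hnc z).1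
  · exact exists_ne hE (fun z => (V.τ z : ℂ)) V.τ_hol fun z => (V.exists_deriv_ne hnc z).2

end Pool.Agent.LibUB33
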