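import Pool.Agent.LibUB33.CuspDefs

open Filter Topology

namespace Pool.Agent.LibUB33

private theorem cz_basis {P : ℂ → Prop} :
    (∀ᶠ z in comap Complex.im atTop, P z) ↔ ∃ Y : ℝ, ∀ z : ℂ, Y < z.im → P z := by
  rw [(atTop_basis_Ioi.comap Complex.im).eventually_iff]
  constructor
  · rintro ⟨Y, -, h⟩
    exact ⟨Y, fun z hz => h (show z ∈ Complex.im ⁻¹' Set.Ioi Y from hz)⟩
  · rintro ⟨Y, h⟩
    exact ⟨Y, trivial, fun z hz => h z hz⟩

/-- A property of `q = exp(2πiz/h)` for large imaginary part is a property of small `q ≠ 0`. -/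
private theorem cz_eventually {h : ℕ} (hh : 0 < h) {P : ℂ → Prop} {Y : ℝ}
    (H : ∀ z : ℂ, Y < z.im → P (ee (z / h))) : ∀ᶠ q in 𝓝[≠] (0 : ℂ), P q := by
  have hh' : (0 : ℝ) < h := by exact_mod_cast hh
  have hhC : (h : ℂ) ≠ 0 := by exact_mod_cast hh.ne'
  have hpi := Real.pi_pos
  rw [eventually_nhdsWithin_iff, Metric.eventually_nhds_iff_ball]
  refine ⟨Real.exp (-(2 * Real.pi * Y / h)), Real.exp_pos _, fun q hq hq0 => ?_⟩
  rw [Metric.mem_ball, dist_zero_right] at hq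
  have hq0' : q ≠ 0 := hq0
  have hlog : Real.log ‖q‖ < -(2 * Real.pi * Y / h) := by
    rw [← Real.log_exp (-(2 * Real.pi * Y / h))]
    exact Real.log_lt_log (norm_pos_iff.mpr hq0') hq
  have h2pi : (2 * Real.pi * Complex.I : ℂ) ≠ 0 := Complex.two_pi_I_ne_zero
  set z : ℂ := h * (Complex.log q / (2 * Real.pi * Complex.I)) with hz
  have hzh : z / h = Complex.log q / (2 * Real.pi * Complex.I) := by
    rw [hz, mul_div_cancel_left₀ _ hhC]
  have hee : ee (z / h) = q := by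
    unfold ee
    rw [hzh, mul_div_cancel₀ _ h2pi, Complex.exp_log hq0']
  have him : z.im = -(h * Real.log ‖q‖ / (2 * Real.pi)) := by
    have h1 : Complex.log q / (2 * Real.pi * Complex.I) =
        -(Complex.log q * Complex.I) / ((2 * Real.pi : ℝ) : ℂ) := by
      push_cast
      have h2p : (2 * Real.pi : ℂ) ≠ 0 := by
        have : (2 * Real.pi : ℝ) ≠ 0 := by positivity
        exact_mod_cast this
      rw [div_eq_div_iff h2pi h2p]
      linear_combination (Complex.log q * (2 * Real.pi)) * Complex.I_sq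
    have h2 : z.im = h * (Complex.log q / (2 * Real.pi * Complex.I)).im := by
      rw [hz, Complex.mul_im]
      simp
    rw [h2, h1, Complex.div_ofReal_im, Complex.neg_im, Complex.mul_I_im, Complex.log_re]
    ring
  have hY : Y < z.im := by
    rw [him, ← neg_lt_neg_iff, neg_neg]
    rw [div_lt_iff₀ (by positivity)]
    have : h * Real.log ‖q‖ < h * -(2 * Real.pi * Y / h) := by gcongr
    have e : (h : ℝ) * -(2 * Real.pi * Y / h) = -Y * (2 * Real.pi) := by field_simp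
    linarith
  have := H z hY
  rwa [hee] at this

private theorem cz_ee_deriv (h : ℕ) (z : ℂ) :
    HasDerivAt (fun z : ℂ => ee (z / h)) (2 * Real.pi * Complex.I / h * ee (z / h)) z := by
  unfold ee
  have h1 : HasDerivAt (fun z : ℂ => 2 * Real.pi * Complex.I * (z / h))
      (2 * Real.pi * Complex.I * (1 / h)) z :=
    ((hasDerivAt_id z).div_const (h : ℂ)).const_mul _
  have h2 := h1.cexp
  have e : 2 * Real.pi * Complex.I / h * Complex.exp (2 * Real.pi * Complex.I * (z / h)) =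
      Complex.exp (2 * Real.pi * Complex.I * (z / h)) * (2 * Real.pi * Complex.I * (1 / h)) := by
    ring
  rw [e]
  exact h2

/-- A holomorphic function with `f (z + h) = f z + r` of moderate growth. -/
private theorem cz_expand {h : ℕ} (hh : 0 < h) {Y : ℝ} {f : ℂ → ℂ} {r : ℝ}
    (hf : ∀ z : ℂ, Y < z.im → DifferentiableAt ℂ f z)
    (hper : ∀ z : ℂ, Y < z.im → f (z + h) = f z + r) (C : ℝ) (N : ℕ)
    (hg : ∀ z : ℂ, |z.re| ≤ h → Y < z.im → ‖f z‖ ≤ C * (1 + |z.im|) ^ N) :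
    ∃ E : ℂ → ℂ, AnalyticAt ℂ E 0 ∧ ∀ᶠ z in comap Complex.im atTop,
      f z = r * (z / h) + E (ee (z / h)) := by
  have hh' : (0 : ℝ) < h := by exact_mod_cast hh
  have hh1 : (1 : ℝ) ≤ h := by exact_mod_cast hh
  have hhC : (h : ℂ) ≠ 0 := by exact_mod_cast hh.ne'
  obtain ⟨E, hE, Y', hY'⟩ := exists_of_growth hh (f := fun z => f z - r * (z / h)) (Y := Y)
    (fun z hz => (hf z hz).sub (by fun_prop))
    (fun z hz => by
      rw [hper z hz]
      field_simp
      ring)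
    (|C| + |r|) (N + 1) (fun z hre hz => by
      have h1 := hg z hre hz
      have h0 : 1 ≤ 1 + |z.im| := by linarith [abs_nonneg z.im]
      have h2 : ‖(r : ℂ) * (z / h)‖ ≤ |r| * (1 + |z.im|) := by
        rw [norm_mul, norm_div, Complex.norm_real, Real.norm_eq_abs, Complex.norm_natCast]
        apply mul_le_mul_of_nonneg_left _ (abs_nonneg r)
        rw [div_le_iff₀ hh']
        have h3 := Complex.norm_le_abs_re_add_abs_im z
        nlinarith [abs_nonneg z.im]
      have h4 : (1 + |z.im|) ^ N ≤ (1 + |z.im|) ^ (N + 1) := pow_le_pow_right₀ h0 (Nat.le_succ N)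
      have h5 : (1 + |z.im|) ≤ (1 + |z.im|) ^ (N + 1) := by
        calc (1 + |z.im|) = (1 + |z.im|) ^ 1 := (pow_one _).symm
          _ ≤ _ := pow_le_pow_right₀ h0 (by omega)
      calc ‖f z - r * (z / h)‖ ≤ ‖f z‖ + ‖(r : ℂ) * (z / h)‖ := norm_sub_le _ _
        _ ≤ C * (1 + |z.im|) ^ N + |r| * (1 + |z.im|) := add_le_add h1 h2
        _ ≤ |C| * (1 + |z.im|) ^ (N + 1) + |r| * (1 + |z.im|) ^ (N + 1) := by
            apply add_le_add
            · calc C * (1 + |z.im|) ^ N ≤ |C| * (1 + |z.im|) ^ N := by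
                    gcongr; exact le_abs_self C
                _ ≤ _ := by gcongr
            · gcongr
        _ = _ := by ring)
  refine ⟨E, hE, cz_basis.mpr ⟨Y', fun z hz => ?_⟩⟩
  have := hY' z hz
  linear_combination this

private theorem cz_deriv {h : ℕ} {f E : ℂ → ℂ} {r : ℝ} (hh : 0 < h) (hE : AnalyticAt ℂ E 0)
    (hf : ∀ᶠ z in comap Complex.im atTop, f z = r * (z / h) + E (ee (z / h))) :
    ∀ᶠ z in comap Complex.im atTop,
      deriv f z = r / h + 2 * Real.pi * Complex.I / h * ee (z / h) * deriv E (ee (z / h)) := by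
  obtain ⟨Y, hY⟩ := cz_basis.mp hf
  have h1 : ∀ᶠ z in comap Complex.im atTop, DifferentiableAt ℂ E (ee (z / h)) := by
    have := (tendsto_ee hh).mono_right nhdsWithin_le_nhds
    exact this.eventually (hE.eventually_analyticAt.mono fun q hq => hq.differentiableAt)
  obtain ⟨Y₁, hY₁⟩ := cz_basis.mp h1
  refine cz_basis.mpr ⟨max Y Y₁, fun z hz => ?_⟩
  have hz1 : Y < z.im := (le_max_left _ _).trans_lt hz
  have hz2 : Y₁ < z.im := (le_max_right _ _).trans_lt hz
  have hopen : {w : ℂ | Y < w.im} ∈ 𝓝 z := (isOpen_lt continuous_const Complex.continuous_im).mem_nhds hz1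
  have e1 : f =ᶠ[𝓝 z] fun z => r * (z / h) + E (ee (z / h)) := by
    filter_upwards [hopen] with w hw
    exact hY w hw
  rw [e1.deriv_eq]
  have h2 : HasDerivAt (fun z : ℂ => (r : ℂ) * (z / h)) (r * (1 / h)) z :=
    ((hasDerivAt_id z).div_const (h : ℂ)).const_mul _
  have h3 : HasDerivAt (fun z : ℂ => E (ee (z / h)))
      (deriv E (ee (z / h)) * (2 * Real.pi * Complex.I / h * ee (z / h))) z :=
    (hY₁ z hz2).hasDerivAt.comp z (cz_ee_deriv h z)
  have h4 : HasDerivAt (fun z : ℂ => (r : ℂ) * (z / h) + E (ee (z / h)))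
      (r * (1 / h) + deriv E (ee (z / h)) * (2 * Real.pi * Complex.I / h * ee (z / h))) z :=
    h2.add h3
  rw [h4.deriv]
  ring

/-- Potentially good reduction. -/
theorem UData.case_zero {h : ℕ} {Y : ℝ} {T V0 V1 : ℂ → ℂ} {r₀ r₁ : ℝ}
    (D : UData h 0 Y T V0 V1 r₀ r₁) :
    ∃ k : ℕ, HasWind h (fun z => gg (T z) (V0 z) (V1 z)) k := by
  have hh := D.hh
  have hhC : (h : ℂ) ≠ 0 := by exact_mod_cast hh.ne'
  obtain ⟨C, N, hgr⟩ := D.growth
  obtain ⟨-, F, hF, hF0, Y₁, hTF⟩ := period_at_cusp hh D.hT D.hpos 0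
    (fun z hz => by simpa using D.perT z hz)
  have hF0 := hF0 rfl
  have hTF' : ∀ᶠ z in comap Complex.im atTop, T z = F (ee (z / h)) :=
    cz_basis.mpr ⟨Y₁, fun z hz => by simpa using hTF z hz⟩
  obtain ⟨E1, hE1, hV1⟩ := cz_expand hh (r := r₁) D.hV1 D.perV1 C N
    (fun z h1 h2 => (hgr z h1 h2).2)
  obtain ⟨E0, hE0, hV0⟩ := cz_expand hh (r := r₀) D.hV0 (fun z hz => by simpa using D.perV0 z hz) C N
    (fun z h1 h2 => (hgr z h1 h2).1)
  have hd1 := cz_deriv hh hE1 hV1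
  have hd0 := cz_deriv hh hE0 hV0
  have htr : ∀ᶠ z in comap Complex.im atTop, deriv V0 z = T z * deriv V1 z :=
    cz_basis.mpr ⟨Y, D.htr⟩
  -- the relation between E0, E1, F
  obtain ⟨Y₂, hrel⟩ := cz_basis.mp (hTF'.and (hd1.and (hd0.and htr)))
  have h2pi : (2 * Real.pi * Complex.I : ℂ) ≠ 0 := Complex.two_pi_I_ne_zero
  have hq : ∀ᶠ q in 𝓝[≠] (0 : ℂ), (r₀ : ℂ) + 2 * Real.pi * Complex.I * q * deriv E0 q =
      F q * (r₁ + 2 * Real.pi * Complex.I * q * deriv E1 q) := by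
    refine cz_eventually hh (Y := Y₂) fun z hz => ?_
    obtain ⟨h1, h2, h3, h4⟩ := hrel z hz
    rw [h3, h2, h1] at h4
    field_simp at h4
    linear_combination h4
  have hcF : ContinuousAt F 0 := hF.continuousAt
  have hcE0 : ContinuousAt (deriv E0) 0 := hE0.deriv.continuousAt
  have hcE1 : ContinuousAt (deriv E1) 0 := hE1.deriv.continuousAt
  have hlim : (r₀ : ℂ) = F 0 * r₁ := by
    have l1 : Tendsto (fun q : ℂ => (r₀ : ℂ) + 2 * Real.pi * Complex.I * q * deriv E0 q) (𝓝[≠] 0)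
        (𝓝 ((r₀ : ℂ) + 2 * Real.pi * Complex.I * 0 * deriv E0 0)) := by
      refine Tendsto.mono_left ?_ nhdsWithin_le_nhds
      exact tendsto_const_nhds.add ((tendsto_const_nhds.mul tendsto_id).mul hcE0)
    have l2 : Tendsto (fun q : ℂ => F q * (r₁ + 2 * Real.pi * Complex.I * q * deriv E1 q)) (𝓝[≠] 0)
        (𝓝 (F 0 * ((r₁ : ℂ) + 2 * Real.pi * Complex.I * 0 * deriv E1 0))) := by
      refine Tendsto.mono_left ?_ nhdsWithin_le_nhds
      exact hcF.tendsto.mul (tendsto_const_nhds.add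
        ((tendsto_const_nhds.mul tendsto_id).mul hcE1))
    have := tendsto_nhds_unique (l1.congr' hq) l2
    simpa using this
  have hr1 : r₁ = 0 := by
    have := congrArg Complex.im hlim
    simp at this
    exact this.resolve_left hF0.ne'
  have hr0 : r₀ = 0 := by
    rw [hr1] at hlim
    simpa using hlim
  have hrel2 : ∀ᶠ q in 𝓝 (0 : ℂ), deriv E0 q = F q * deriv E1 q := by
    have hne : ∀ᶠ q in 𝓝[≠] (0 : ℂ), deriv E0 q = F q * deriv E1 q := by
      filter_upwards [hq, self_mem_nhdsWithin] with q hq1 hq0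
      have hq0' : q ≠ 0 := hq0
      rw [hr0, hr1] at hq1
      have h3 : (2 * Real.pi * Complex.I * q) * deriv E0 q =
          (2 * Real.pi * Complex.I * q) * (F q * deriv E1 q) := by
        push_cast at hq1
        linear_combination hq1
      exact mul_left_cancel₀ (mul_ne_zero h2pi hq0') h3
    have h0 : deriv E0 0 = F 0 * deriv E1 0 := by
      have l1 : Tendsto (deriv E0) (𝓝[≠] 0) (𝓝 (deriv E0 0)) :=
        hcE0.tendsto.mono_left nhdsWithin_le_nhds
      have l2 : Tendsto (fun q => F q * deriv E1 q) (𝓝[≠] 0) (𝓝 (F 0 * deriv E1 0)) :=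
        (hcF.tendsto.mul hcE1.tendsto).mono_left nhdsWithin_le_nhds
      exact tendsto_nhds_unique (l1.congr' hne) l2
    rw [eventually_nhdsWithin_iff] at hne
    filter_upwards [hne] with q hq1
    by_cases hq0 : q = 0
    · rw [hq0]; exact h0
    · exact hq1 hq0
  have hFd : ∀ᶠ q in 𝓝 (0 : ℂ), DifferentiableAt ℂ F q :=
    hF.eventually_analyticAt.mono fun q hq => hq.differentiableAt
  have hE0d : ∀ᶠ q in 𝓝 (0 : ℂ), DifferentiableAt ℂ E0 q :=
    hE0.eventually_analyticAt.mono fun q hq => hq.differentiableAt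
  have hE1d : ∀ᶠ q in 𝓝 (0 : ℂ), DifferentiableAt ℂ E1 q :=
    hE1.eventually_analyticAt.mono fun q hq => hq.differentiableAt
  have hFp : ∀ᶠ q in 𝓝 (0 : ℂ), 0 < (F q).im := by
    have h1 : ContinuousAt (fun q => (F q).im) 0 := Complex.continuous_im.continuousAt.comp hcF
    exact continuousAt_const.eventually_lt h1 hF0
  have hnc : ¬ ∀ᶠ q in 𝓝 (0 : ℂ), deriv E1 q = 0 := by
    intro hz
    have h1 : ∀ᶠ z in comap Complex.im atTop, deriv E1 (ee (z / h)) = 0 :=
      ((tendsto_ee hh).mono_right nhdsWithin_le_nhds).eventually hz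
    obtain ⟨Y₃, hY₃⟩ := cz_basis.mp (h1.and hd1)
    obtain ⟨z, hz1, hz2⟩ := D.ncV Y₃
    obtain ⟨h3, h4⟩ := hY₃ z hz1
    apply hz2
    rw [h4, h3, hr1]
    simp
  obtain ⟨k, hk, -⟩ := interior_order hFd hFp hE0d hE1d hrel2 hnc
  refine ⟨k, ?_⟩
  obtain ⟨Y₄, hY₄⟩ := cz_basis.mp (hTF'.and (hV0.and hV1))
  refine (hk.hasWind_div hh).congr Y₄ fun z hz => ?_
  obtain ⟨h1, h2, h3⟩ := hY₄ z hz
  rw [h1, h2, h3, hr0, hr1]
  simp

end Pool.Agent.LibUB33
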