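import Pool.Agent.LibUB33.LocOrd

/-!
# The ends of the upper half plane over the punctures
-/

open Filter Topology UpperHalfPlane
open scoped MatrixGroups

namespace Pool.Agent.LibUB33

variable (X : Curve)

/-- the covering as a function on the complex plane -/
noncomputable def endsB_f (w : ℂ) : ℂ := X.lam (ofComplex w)

theorem endsB_f_coe (z : ℍ) : endsB_f X (z : ℂ) = X.lam z := by
  unfold endsB_f
  rw [ofComplex_apply]

theorem endsB_diff {w : ℂ} (hw : 0 < w.im) : DifferentiableAt ℂ (endsB_f X) w :=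
  X.lam_hol ⟨w, hw⟩

theorem endsB_deriv_ne {w : ℂ} (hw : 0 < w.im) : deriv (endsB_f X) w ≠ 0 :=
  X.lam_deriv ⟨w, hw⟩

theorem endsB_isOpen : IsOpen {w : ℂ | 0 < w.im} :=
  isOpen_lt continuous_const Complex.continuous_im

theorem endsB_strict {w : ℂ} (hw : 0 < w.im) :
    HasStrictDerivAt (endsB_f X) (deriv (endsB_f X) w) w := by
  have h1 : DifferentiableOn ℂ (endsB_f X) {w : ℂ | 0 < w.im} :=
    fun y hy => (endsB_diff X hy).differentiableWithinAt
  exact (h1.analyticAt (endsB_isOpen.mem_nhds hw)).hasStrictDerivAt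

/-- the local inverse of the covering -/
theorem endsB_local {w : ℂ} (hw : 0 < w.im) : ∃ e : OpenPartialHomeomorph ℂ ℂ,
    w ∈ e.source ∧ (∀ z, e z = endsB_f X z) ∧ ∀ z ∈ e.source, 0 < z.im := by
  have h1 := endsB_strict X hw
  set e0 := HasStrictFDerivAt.toOpenPartialHomeomorph (endsB_f X)
    (h1.hasStrictFDerivAt_equiv (endsB_deriv_ne X hw)) with he0
  refine ⟨e0.restrOpen {w : ℂ | 0 < w.im} endsB_isOpen, ?_, ?_, ?_⟩
  · rw [OpenPartialHomeomorph.restrOpen_source]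
    exact ⟨HasStrictFDerivAt.mem_toOpenPartialHomeomorph_source _, hw⟩
  · intro z
    rfl
  · intro z hz
    rw [OpenPartialHomeomorph.restrOpen_source] at hz
    exact hz.2

theorem endsB_symm_hasDerivAt {e : OpenPartialHomeomorph ℂ ℂ}
    (he : ∀ z, e z = endsB_f X z) (hpos : ∀ z ∈ e.source, 0 < z.im) {a : ℂ} (ha : a ∈ e.target) :
    HasDerivAt e.symm (deriv (endsB_f X) (e.symm a))⁻¹ a := by
  have h1 : 0 < (e.symm a).im := hpos _ (e.map_target ha)
  apply e.hasDerivAt_symm ha (endsB_deriv_ne X h1)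
  have h2 : (e : ℂ → ℂ) = endsB_f X := funext he
  rw [h2]
  exact (endsB_diff X h1).hasDerivAt

theorem endsB_locInj : IsLocallyInjective X.lam := by
  intro z
  obtain ⟨e, h1, h2, h3⟩ := endsB_local X z.im_pos
  refine ⟨(fun y : ℍ => (y : ℂ)) ⁻¹' e.source, e.open_source.preimage continuous_coe, h1, ?_⟩
  intro a ha b hb hab
  have h4 : e (a : ℂ) = e (b : ℂ) := by
    rw [h2, h2, endsB_f_coe, endsB_f_coe]
    exact hab
  exact UpperHalfPlane.ext (e.injOn ha hb h4)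

theorem endsB_preconn (Y : ℝ) : IsPreconnected {ζ : ℂ | Y < ζ.im} :=
  (convex_halfSpace_im_gt Y).isPreconnected

/-- Two lifts with the same image differ by a deck transformation. -/
theorem Curve.eq_smul_of_lam_eq {Y : ℝ} {s s' : ℂ → ℍ} (hs : ContinuousOn s {ζ | Y < ζ.im})
    (hs' : ContinuousOn s' {ζ | Y < ζ.im}) (h : ∀ ζ : ℂ, Y < ζ.im → X.lam (s ζ) = X.lam (s' ζ)) :
    ∃ g ∈ X.G, ∀ ζ : ℂ, Y < ζ.im → s' ζ = g • s ζ := by
  have h0 : Y < (Complex.I * ((Y + 1 : ℝ) : ℂ)).im := by simp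
  obtain ⟨g, hg, hgs⟩ := (X.lam_fib _ _).1 (h _ h0)
  refine ⟨g, hg, fun ζ hζ => ?_⟩
  have hcont : ContinuousOn (fun z => g • s z) {ζ : ℂ | Y < ζ.im} :=
    (continuous_const_smul g).comp_continuousOn hs
  have heq : Set.EqOn (X.lam ∘ s') (X.lam ∘ fun z => g • s z) {ζ : ℂ | Y < ζ.im} := by
    intro z hz
    show X.lam (s' z) = X.lam (g • s z)
    rw [← h z hz]
    exact (X.lam_fib _ _).2 ⟨g, hg, rfl⟩
  exact IsSeparatedMap.eqOn_of_comp_eqOn (T2Space.isSeparatedMap X.lam) (endsB_locInj X)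
    (endsB_preconn Y) hs' hcont heq h0 hgs.symm hζ

/-- Lifts of differentiable maps are differentiable. -/
theorem Curve.lift_differentiable {Y : ℝ} {s : ℂ → ℍ} {ψ : ℂ → ℂ}
    (hs : ContinuousOn s {ζ | Y < ζ.im}) (h : ∀ ζ : ℂ, Y < ζ.im → X.lam (s ζ) = ψ ζ)
    (hψ : ∀ ζ : ℂ, Y < ζ.im → DifferentiableAt ℂ ψ ζ) {ζ : ℂ} (hζ : Y < ζ.im) :
    DifferentiableAt ℂ (fun z => (s z : ℂ)) ζ ∧
      deriv (fun w : ℂ => X.lam (ofComplex w)) (s ζ) * deriv (fun z => (s z : ℂ)) ζ =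
        deriv ψ ζ := by
  obtain ⟨e, h1, h2, h3⟩ := endsB_local X (s ζ).im_pos
  have hopen : IsOpen {ζ : ℂ | Y < ζ.im} := isOpen_lt continuous_const Complex.continuous_im
  have hsc : ContinuousAt (fun z => (s z : ℂ)) ζ :=
    continuous_coe.continuousAt.comp (hs.continuousAt (hopen.mem_nhds hζ))
  have hev : (fun z => (s z : ℂ)) =ᶠ[𝓝 ζ] fun z => e.symm (ψ z) := by
    filter_upwards [hopen.mem_nhds hζ, hsc.eventually_mem (e.open_source.mem_nhds h1)] with z hz hz'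
    have h4 : e (s z : ℂ) = ψ z := by rw [h2, endsB_f_coe, h z hz]
    rw [← h4, e.left_inv hz']
  have hmem : ψ ζ ∈ e.target := by
    have h4 : e (s ζ : ℂ) = ψ ζ := by rw [h2, endsB_f_coe, h ζ hζ]
    rw [← h4]
    exact e.map_source h1
  have hsymm : e.symm (ψ ζ) = (s ζ : ℂ) := by
    have h4 : e (s ζ : ℂ) = ψ ζ := by rw [h2, endsB_f_coe, h ζ hζ]
    rw [← h4, e.left_inv h1]
  have hd := endsB_symm_hasDerivAt X h2 h3 hmem
  rw [hsymm] at hd
  have hd2 : HasDerivAt (fun z => e.symm (ψ z)) ((deriv (endsB_f X) (s ζ : ℂ))⁻¹ * deriv ψ ζ) ζ :=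
    HasDerivAt.comp ζ hd (hψ ζ hζ).hasDerivAt
  have hd3 := hd2.congr_of_eventuallyEq hev
  refine ⟨hd3.differentiableAt, ?_⟩
  rw [hd3.deriv]
  show deriv (endsB_f X) (s ζ : ℂ) * _ = _
  rw [← mul_assoc, mul_inv_cancel₀ (endsB_deriv_ne X (s ζ).im_pos), one_mul]

/-- Local sections of the covering. -/
theorem Curve.exists_local_section (z₀ : ℍ) : ∃ φ : ℂ → ℂ, φ (X.lam z₀) = z₀ ∧
    (∀ᶠ w in 𝓝 (X.lam z₀), DifferentiableAt ℂ φ w ∧ 0 < (φ w).im ∧
      X.lam (ofComplex (φ w)) = w) ∧ deriv φ (X.lam z₀) ≠ 0 := by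
  obtain ⟨e, h1, h2, h3⟩ := endsB_local X z₀.im_pos
  have h4 : e (z₀ : ℂ) = X.lam z₀ := by rw [h2, endsB_f_coe]
  have hmem : X.lam z₀ ∈ e.target := by
    rw [← h4]
    exact e.map_source h1
  refine ⟨e.symm, ?_, ?_, ?_⟩
  · rw [← h4, e.left_inv h1]
  · filter_upwards [e.open_target.mem_nhds hmem] with w hw
    refine ⟨(endsB_symm_hasDerivAt X h2 h3 hw).differentiableAt, h3 _ (e.map_target hw), ?_⟩
    have h5 := e.right_inv hw
    rw [h2] at h5
    exact h5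
  · rw [(endsB_symm_hasDerivAt X h2 h3 hmem).deriv]
    exact inv_ne_zero (endsB_deriv_ne X (h3 _ (e.map_target hmem)))

end Pool.Agent.LibUB33
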