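import Pool.Agent.LibUB33.LocOrd

/-!
# The ends of the upper half plane over the punctures
-/

open Filter Topology UpperHalfPlane
open scoped MatrixGroups

namespace Pool.Agent.LibUB33

variable (X : Curve)

private theorem lift_exists {Y : ℝ} {ψ : ℂ → ℂ} (hψ : Continuous ψ)
    (hB : ∀ ζ : ℂ, Y < ζ.im → ψ ζ ∉ X.B) : ∃ s : ℂ → ℍ,
    ContinuousOn s {ζ | Y < ζ.im} ∧ ∀ ζ : ℂ, Y < ζ.im → X.lam (s ζ) = ψ ζ := by
  classical
  set U : Set ℂ := {ζ | Y < ζ.im} with hU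
  have hUo : IsOpen U := isOpen_lt continuous_const Complex.continuous_im
  have hUc : Convex ℝ U := convex_halfSpace_im_gt Y
  have hUne : U.Nonempty := ⟨⟨0, Y + 1⟩, by simp [hU]⟩
  have := hUc.contractibleSpace hUne
  have := hUo.locallyPathConnectedSpace
  obtain ⟨x₀, hx₀⟩ := hUne
  have hx₀' : ψ x₀ ∈ Set.range X.lam := by
    rw [X.lam_range]; exact hB x₀ hx₀
  obtain ⟨e₀, he₀⟩ := hx₀'
  obtain ⟨F, ⟨-, hF⟩, -⟩ := X.lam_cov.existsUnique_continuousMap_lifts
    (A := U) ⟨fun x => ψ x, by fun_prop⟩ (a₀ := ⟨x₀, hx₀⟩) (e₀ := e₀) he₀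
    (fun a => hB a a.2)
  refine ⟨fun ζ => if hζ : ζ ∈ U then F ⟨ζ, hζ⟩ else e₀, ?_, ?_⟩
  · rw [continuousOn_iff_continuous_domRestrict]
    have : U.domRestrict (fun ζ => if hζ : ζ ∈ U then F ⟨ζ, hζ⟩ else e₀) = F := by
      funext x
      simp only [Set.domRestrict_apply]
      rw [dif_pos x.2]
    rw [this]
    exact F.continuous
  · intro ζ hζ
    have hζ' : ζ ∈ U := hζ
    simp only []
    rw [dif_pos hζ']
    exact congrFun hF ⟨ζ, hζ'⟩

private theorem continuous_ee : Continuous ee := by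
  unfold ee; fun_prop

private theorem norm_ee (z : ℂ) : ‖ee z‖ = Real.exp (-(2 * Real.pi * z.im)) := by
  rw [ee, Complex.norm_exp]
  congr 1
  simp [Complex.mul_re, Complex.mul_im]

/-- Existence of a lift near a finite puncture. -/
theorem Curve.exists_end {b : ℂ} (hb : b ∈ X.B) : ∃ (s : ℂ → ℍ) (Y : ℝ),
    ContinuousOn s {ζ | Y < ζ.im} ∧ ∀ ζ : ℂ, Y < ζ.im → X.lam (s ζ) = b + ee ζ := by
  have hex : ∀ᶠ y : ℝ in atTop, ∀ b' ∈ X.B, ∀ ζ : ℂ, ζ.im = y → b + ee ζ ≠ b' := by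
    rw [Filter.eventually_all_finset]
    intro b' _
    by_cases hbb : b' = b
    · refine Filter.Eventually.of_forall fun y ζ _ h => ?_
      rw [hbb] at h
      have : ee ζ = 0 := by linear_combination h
      exact Complex.exp_ne_zero _ this
    · have hpos : 0 < ‖b' - b‖ := norm_pos_iff.2 (sub_ne_zero.2 hbb)
      have hlim : Tendsto (fun y : ℝ => Real.exp (-(2 * Real.pi * y))) atTop (𝓝 0) := by
        apply Real.tendsto_exp_atBot.comp
        apply tendsto_neg_atTop_atBot.comp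
        exact tendsto_id.const_mul_atTop (by positivity)
      filter_upwards [hlim.eventually (gt_mem_nhds hpos)] with y hy ζ hζ h
      have h1 : ee ζ = b' - b := by rw [← h]; ring
      have h2 := norm_ee ζ
      rw [h1, hζ] at h2
      exact absurd hy (by rw [h2]; exact lt_irrefl _)
  obtain ⟨Y, hY⟩ := Filter.eventually_atTop.1 hex
  obtain ⟨s, hs, hs'⟩ := lift_exists X (Y := Y) (ψ := fun ζ => b + ee ζ)
    (continuous_const.add continuous_ee) (fun ζ hζ hmem => hY ζ.im hζ.le _ hmem ζ rfl rfl)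
  exact ⟨s, Y, hs, hs'⟩

/-- Existence of a lift near infinity. -/
theorem Curve.exists_end_infty : ∃ (s : ℂ → ℍ) (Y : ℝ),
    ContinuousOn s {ζ | Y < ζ.im} ∧ ∀ ζ : ℂ, Y < ζ.im → X.lam (s ζ) = ee (-ζ) := by
  have hex : ∀ᶠ y : ℝ in atTop, ∀ b' ∈ X.B, ∀ ζ : ℂ, ζ.im = y → ee (-ζ) ≠ b' := by
    rw [Filter.eventually_all_finset]
    intro b' _
    have hlim : Tendsto (fun y : ℝ => Real.exp (2 * Real.pi * y)) atTop atTop := by
      apply Real.tendsto_exp_atTop.comp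
      exact tendsto_id.const_mul_atTop (by positivity)
    filter_upwards [hlim.eventually (eventually_gt_atTop ‖b'‖)] with y hy ζ hζ h
    have h2 := norm_ee (-ζ)
    rw [h, Complex.neg_im, hζ] at h2
    rw [h2] at hy
    apply lt_irrefl _ (hy.trans_eq _)
    congr 1; ring
  obtain ⟨Y, hY⟩ := Filter.eventually_atTop.1 hex
  obtain ⟨s, hs, hs'⟩ := lift_exists X (Y := Y) (ψ := fun ζ => ee (-ζ))
    (continuous_ee.comp continuous_neg) (fun ζ hζ hmem => hY ζ.im hζ.le _ hmem ζ rfl rfl)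
  exact ⟨s, Y, hs, hs'⟩

end Pool.Agent.LibUB33
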