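import Pool.Agent.LibUB33.Ends

/-!
# Representatives of cosets and the norm
-/

open Filter Topology UpperHalfPlane
open scoped MatrixGroups

namespace Pool.Agent.LibUB33

variable (X : Curve)

private theorem norm_prod_smul (R : Finset SL(2, ℝ)) (hR : ∀ x ∈ R, x ∈ X.G)
    (hR' : ∀ g ∈ X.G, ∃! x : SL(2, ℝ), x ∈ R ∧ ∃ p ∈ X.P, g = p * x) (Φ : ℍ → ℂ)
    (hinv : ∀ g ∈ X.P, ∀ z : ℍ, Φ (g • z) = Φ z) {g : SL(2, ℝ)} (hg : g ∈ X.G) (z : ℍ) :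
    ∏ x ∈ R, Φ (x • g • z) = ∏ x ∈ R, Φ (x • z) := by
  classical
  have hex : ∀ x ∈ R, ∃ x' ∈ R, ∃ p ∈ X.P, x * g = p * x' := by
    intro x hx
    obtain ⟨x', ⟨h1, p, hp, h2⟩, -⟩ := hR' (x * g) (X.G.mul_mem (hR x hx) hg)
    exact ⟨x', h1, p, hp, h2⟩
  choose! σ hσR hσ using hex
  refine Finset.prod_bij (fun x _ => σ x) (fun x hx => hσR x hx) ?_ ?_ ?_
  · intro x hx y hy hxy
    obtain ⟨p, hp, h1⟩ := hσ x hx
    obtain ⟨q, hq, h2⟩ := hσ y hy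
    have h3 : x = p * q⁻¹ * y := by
      have e1 : x = p * σ x * g⁻¹ := by rw [← h1]; group
      have e2 : y = q * σ y * g⁻¹ := by rw [← h2]; group
      have hxy' : σ x = σ y := hxy
      calc x = p * σ y * g⁻¹ := by rw [← hxy']; exact e1
        _ = p * q⁻¹ * (q * σ y * g⁻¹) := by group
        _ = p * q⁻¹ * y := by rw [← e2]
    obtain ⟨w, -, hw⟩ := hR' x (hR x hx)
    have h4 := hw x ⟨hx, 1, X.P.one_mem, by simp⟩
    have h5 := hw y ⟨hy, p * q⁻¹, X.P.mul_mem hp (X.P.inv_mem hq), h3⟩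
    rw [h4, h5]
  · intro y hy
    obtain ⟨x, ⟨hx, p, hp, h1⟩, -⟩ := hR' (y * g⁻¹) (X.G.mul_mem (hR y hy) (X.G.inv_mem hg))
    refine ⟨x, hx, ?_⟩
    obtain ⟨q, hq, h2⟩ := hσ x hx
    have h3 : x * g = p⁻¹ * y := by
      have e1 : x = p⁻¹ * (y * g⁻¹) := by rw [h1]; group
      rw [e1]; group
    obtain ⟨w, -, hw⟩ := hR' (x * g) (X.G.mul_mem (hR x hx) hg)
    have h4 := hw y ⟨hy, p⁻¹, X.P.inv_mem hp, h3⟩
    have h5 := hw (σ x) ⟨hσR x hx, q, hq, h2⟩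
    rw [h4, h5]
  · intro x hx
    obtain ⟨p, hp, h1⟩ := hσ x hx
    rw [← mul_smul, h1, mul_smul, hinv p hp]

private theorem denom_ne (x : SL(2, ℝ)) {t : ℂ} (ht : 0 < t.im) :
    ((x 1 0 : ℝ) : ℂ) * t + (x 1 1 : ℝ) ≠ 0 := by
  intro h
  have hdet : x 0 0 * x 1 1 - x 0 1 * x 1 0 = 1 := by
    have := x.2
    rw [Matrix.det_fin_two] at this
    exact this
  have him := congrArg Complex.im h
  have hre := congrArg Complex.re h
  simp at him hre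
  rcases him with h1 | h1
  · rw [h1] at hre
    simp at hre
    rw [h1, hre] at hdet
    simp at hdet
  · exact ht.ne' h1

/-- The norm of a function on the curve to the punctured plane. -/
theorem Curve.exists_norm (R : Finset SL(2, ℝ)) (hR : ∀ x ∈ R, x ∈ X.G)
    (hR' : ∀ g ∈ X.G, ∃! x : SL(2, ℝ), x ∈ R ∧ ∃ p ∈ X.P, g = p * x) (Φ : ℍ → ℂ) (m : ℍ → ℤ)
    (hinv : ∀ g ∈ X.P, ∀ z : ℍ, Φ (g • z) = Φ z)
    (hloc : ∀ z : ℍ, LocOrd (fun w : ℂ => Φ (ofComplex w)) z (m z)) :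
    ∃ H : ℂ → ℂ, (∀ z : ℍ, H (X.lam z) = ∏ x ∈ R, Φ (x • z)) ∧
      ∀ z : ℍ, LocOrd H (X.lam z) (∑ x ∈ R, m (x • z)) := by
  classical
  set H : ℂ → ℂ := fun w => if h : ∃ z : ℍ, X.lam z = w then ∏ x ∈ R, Φ (x • h.choose) else 0
    with hH
  have hHval : ∀ z : ℍ, H (X.lam z) = ∏ x ∈ R, Φ (x • z) := by
    intro z
    have h : ∃ z' : ℍ, X.lam z' = X.lam z := ⟨z, rfl⟩
    simp only [hH]
    rw [dif_pos h]
    obtain ⟨g, hg, hgz⟩ := (X.lam_fib z h.choose).1 h.choose_spec.symm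
    rw [← hgz, norm_prod_smul X R hR hR' Φ hinv hg]
  refine ⟨H, hHval, fun z => ?_⟩
  obtain ⟨φ, hφ0, hφ, hφ'⟩ := X.exists_local_section z
  -- the product near the point
  have hprod : LocOrd (fun w => ∏ x ∈ R, Φ (ofComplex
      ((((x 0 0 : ℝ) : ℂ) * φ w + (x 0 1 : ℝ)) / (((x 1 0 : ℝ) : ℂ) * φ w + (x 1 1 : ℝ)))))
      (X.lam z) (∑ x ∈ R, m (x • z)) := by
    apply LocOrd.prod
    intro x _
    have hz0 : (((x 0 0 : ℝ) : ℂ) * φ (X.lam z) + (x 0 1 : ℝ)) /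
        (((x 1 0 : ℝ) : ℂ) * φ (X.lam z) + (x 1 1 : ℝ)) = ((x • z : ℍ) : ℂ) := by
      rw [hφ0, coe_specialLinearGroup_apply]
      rfl
    have hl := hloc (x • z)
    rw [← hz0] at hl
    refine LocOrd.comp (φ := fun w => (((x 0 0 : ℝ) : ℂ) * φ w + (x 0 1 : ℝ)) /
        (((x 1 0 : ℝ) : ℂ) * φ w + (x 1 1 : ℝ))) (w₀ := X.lam z) hl ?_ ?_
    · filter_upwards [hφ] with w hw
      exact ((hw.1.const_mul _).add_const _).div ((hw.1.const_mul _).add_const _)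
        (denom_ne x hw.2.1)
    · have hw := hφ.self_of_nhds
      have dφ := hw.1.hasDerivAt
      have hdet : x 0 0 * x 1 1 - x 0 1 * x 1 0 = 1 := by
        have := x.2
        rw [Matrix.det_fin_two] at this
        exact this
      have hdetC : ((x 0 0 : ℝ) : ℂ) * (x 1 1 : ℝ) - ((x 0 1 : ℝ) : ℂ) * (x 1 0 : ℝ) = 1 := by
        exact_mod_cast hdet
      have hne := denom_ne x hw.2.1
      have e := (((dφ.const_mul ((x 0 0 : ℝ) : ℂ)).add_const ((x 0 1 : ℝ) : ℂ)).div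
        ((dφ.const_mul ((x 1 0 : ℝ) : ℂ)).add_const ((x 1 1 : ℝ) : ℂ)) hne).deriv
      have e' : deriv (fun w => (((x 0 0 : ℝ) : ℂ) * φ w + (x 0 1 : ℝ)) /
          (((x 1 0 : ℝ) : ℂ) * φ w + (x 1 1 : ℝ))) (X.lam z) = _ := e
      rw [e']
      apply div_ne_zero _ (pow_ne_zero _ hne)
      have : ((x 0 0 : ℝ) : ℂ) * deriv φ (X.lam z) *
          (((x 1 0 : ℝ) : ℂ) * φ (X.lam z) + (x 1 1 : ℝ)) -
          (((x 0 0 : ℝ) : ℂ) * φ (X.lam z) + (x 0 1 : ℝ)) *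
            (((x 1 0 : ℝ) : ℂ) * deriv φ (X.lam z)) = deriv φ (X.lam z) := by
        linear_combination (deriv φ (X.lam z)) * hdetC
      rw [this]
      exact hφ'
  apply hprod.congr
  apply Filter.Eventually.filter_mono nhdsWithin_le_nhds
  filter_upwards [hφ] with w hw
  obtain ⟨-, him, hlam⟩ := hw
  rw [← hlam, hHval]
  apply Finset.prod_congr rfl
  intro x _
  rw [hlam]
  congr 1
  have h1 : (ofComplex (φ w) : ℂ) = φ w := by
    rw [ofComplex_apply_of_im_pos him]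
  have h2 : (((x 0 0 : ℝ) : ℂ) * φ w + (x 0 1 : ℝ)) / (((x 1 0 : ℝ) : ℂ) * φ w + (x 1 1 : ℝ)) =
      ((x • ofComplex (φ w) : ℍ) : ℂ) := by
    rw [coe_specialLinearGroup_apply, h1]
    rfl
  rw [h2, ofComplex_apply]

end Pool.Agent.LibUB33
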