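
import Pool.Agent.LibUB33.Reps

/-!
# Counting zeros on the curve
-/

open Filter Topology UpperHalfPlane
open scoped MatrixGroups

namespace Pool.Agent.LibUB33

/-- A choice of a lift of a punctured neighbourhood of each puncture, and of representatives of the
cosets. -/
structure Curve.Ends (X : Curve) where
  /-- The lifts near the finite punctures. -/
  s : ℂ → ℂ → ℍ
  /-- The lift near infinity. -/
  s' : ℂ → ℍ
  Y : ℝ
  s_cont : ∀ b ∈ X.B, ContinuousOn (s b) {ζ | Y < ζ.im}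
  s_lam : ∀ b ∈ X.B, ∀ ζ : ℂ, Y < ζ.im → X.lam (s b ζ) = b + ee ζ
  s'_cont : ContinuousOn s' {ζ | Y < ζ.im}
  s'_lam : ∀ ζ : ℂ, Y < ζ.im → X.lam (s' ζ) = ee (-ζ)
  R : Finset SL(2, ℝ)
  R_mem : ∀ x ∈ R, x ∈ X.G
  R_card : R.card = X.degree
  R_unique : ∀ g ∈ X.G, ∃! x : SL(2, ℝ), x ∈ R ∧ ∃ p ∈ X.P, g = p * x

theorem Curve.nonempty_ends (X : Curve) : Nonempty X.Ends := by
  choose! s Y hs hs' using fun (b : ℂ) (hb : b ∈ X.B) => X.exists_end hb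
  obtain ⟨s', Y', h1, h2⟩ := X.exists_end_infty
  obtain ⟨R, hR1, hR2, hR3⟩ := X.exists_reps
  obtain ⟨Z, hZ⟩ : ∃ Z : ℝ, ∀ b ∈ X.B, Y b ≤ Z := by
    obtain ⟨Z, hZ⟩ := (X.B.image Y).bddAbove
    exact ⟨Z, fun b hb => hZ (Finset.mem_coe.2 (Finset.mem_image_of_mem _ hb))⟩
  refine ⟨⟨s, s', max Z Y', ?_, ?_, ?_, ?_, R, hR1, hR2, hR3⟩⟩
  · intro b hb
    exact (hs b hb).mono fun ζ hζ => lt_of_le_of_lt ((hZ b hb).trans (le_max_left _ _)) hζ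
  · intro b hb ζ hζ
    exact hs' b hb ζ (lt_of_le_of_lt ((hZ b hb).trans (le_max_left _ _)) hζ)
  · exact h1.mono fun ζ (hζ : max Z Y' < ζ.im) => lt_of_le_of_lt (le_max_right Z Y') hζ
  · intro ζ hζ
    exact h2 ζ (lt_of_le_of_lt (le_max_right _ _) hζ)

end Pool.Agent.LibUB33
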