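import Pool.Agent.LibUB33.Bridge
import Pool.Agent.LibUB33.Moebius

/-!
# The bound by the Euler characteristic
-/

open Filter Topology UpperHalfPlane
open scoped MatrixGroups

namespace Pool.Agent.LibUB33

variable {X : Curve}

/-- The derivative of the period. -/
noncomputable def Variation.dτ (V : Variation X) (z : ℍ) : ℂ :=
  deriv (fun w : ℂ => (V.τ (ofComplex w) : ℂ)) z

/-- The derivative of the covering. -/
noncomputable def Curve.dlam (X : Curve) (z : ℍ) : ℂ :=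
  deriv (fun w : ℂ => X.lam (ofComplex w)) z

/-- The section in the Hodge bundle. -/
noncomputable def Variation.sec (V : Variation X) (z : ℍ) : ℂ := gg (V.τ z) (V.v z 0) (V.v z 1)

theorem differentiableAt_of_coe {f : ℂ → ℂ}
    (hf : ∀ z : ℍ, DifferentiableAt ℂ f z) {w : ℂ} (hw : 0 < w.im) : DifferentiableAt ℂ f w :=
  hf ⟨w, hw⟩

/-- The covering along a deck transformation. -/
theorem Curve.dlam_smul (X : Curve) {g : SL(2, ℝ)} (hg : g ∈ X.G) (z : ℍ) :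
    X.dlam (g • z) * deriv (fun w : ℂ => ((g • ofComplex w : ℍ) : ℂ)) z = X.dlam z := by
  have h1 : HasDerivAt (fun w : ℂ => ((g • ofComplex w : ℍ) : ℂ))
      (deriv (fun w : ℂ => ((g • ofComplex w : ℍ) : ℂ)) z) z :=
    (smul_differentiableAt g z.im_pos).hasDerivAt
  have h2 : HasDerivAt (fun w : ℂ => X.lam (ofComplex w)) (X.dlam (g • z))
      ((g • ofComplex (z : ℂ) : ℍ) : ℂ) := by
    have := (X.lam_hol (g • z)).hasDerivAt
    simpa [Curve.dlam] using this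
  have h3 := h2.comp (z : ℂ) h1
  have h4 : (fun w : ℂ => X.lam (ofComplex w)) ∘ (fun w : ℂ => ((g • ofComplex w : ℍ) : ℂ)) =
      fun w : ℂ => X.lam (ofComplex w) := by
    funext w
    simp only [Function.comp_apply, ofComplex_apply]
    exact ((X.lam_fib _ _).2 ⟨g, hg, rfl⟩).symm
  rw [h4] at h3
  exact h3.deriv.symm

/-- The derivative of the period along a deck transformation. -/
theorem Variation.dτ_smul (V : Variation X) (g : X.P) (z : ℍ) :
    V.dτ ((g : SL(2, ℝ)) • z) * deriv (fun w : ℂ => (((g : SL(2, ℝ)) • ofComplex w : ℍ) : ℂ)) z =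
      V.dτ z / (V.ρ g 1 0 * V.τ z + V.ρ g 1 1) ^ 2 := by
  have h1 : HasDerivAt (fun w : ℂ => (((g : SL(2, ℝ)) • ofComplex w : ℍ) : ℂ))
      (deriv (fun w : ℂ => (((g : SL(2, ℝ)) • ofComplex w : ℍ) : ℂ)) z) z :=
    (smul_differentiableAt (g : SL(2, ℝ)) z.im_pos).hasDerivAt
  have h2 : HasDerivAt (fun w : ℂ => (V.τ (ofComplex w) : ℂ)) (V.dτ ((g : SL(2, ℝ)) • z))
      (((g : SL(2, ℝ)) • ofComplex (z : ℂ) : ℍ) : ℂ) := by
    have := (V.τ_hol ((g : SL(2, ℝ)) • z)).hasDerivAt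
    simpa [Variation.dτ] using this
  have h3 := h2.comp (z : ℂ) h1
  have h4 : (fun w : ℂ => (V.τ (ofComplex w) : ℂ)) ∘
      (fun w : ℂ => (((g : SL(2, ℝ)) • ofComplex w : ℍ) : ℂ)) =
      fun w : ℂ => (V.ρ g 0 0 * (V.τ (ofComplex w) : ℂ) + V.ρ g 0 1) /
        (V.ρ g 1 0 * (V.τ (ofComplex w) : ℂ) + V.ρ g 1 1) := by
    funext w
    simp only [Function.comp_apply, ofComplex_apply]
    rw [V.τ_equiv g, coe_specialLinearGroup_apply]
    simp
  rw [h4] at h3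
  have hd : (V.ρ g 1 0 : ℂ) * (V.τ z : ℂ) + V.ρ g 1 1 ≠ 0 := by
    have := denom_ne_zero (Matrix.SpecialLinearGroup.mapGL ℝ (V.ρ g)) (V.τ z)
    simpa [denom] using this
  have hτ : HasDerivAt (fun w : ℂ => (V.τ (ofComplex w) : ℂ)) (V.dτ z) z :=
    (V.τ_hol z).hasDerivAt
  have h5 : HasDerivAt (fun w : ℂ => (V.ρ g 0 0 * (V.τ (ofComplex w) : ℂ) + V.ρ g 0 1) /
        (V.ρ g 1 0 * (V.τ (ofComplex w) : ℂ) + V.ρ g 1 1))
      (V.dτ z / (V.ρ g 1 0 * V.τ z + V.ρ g 1 1) ^ 2) z := by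
    have hn := (hτ.const_mul (V.ρ g 0 0 : ℂ)).add_const (V.ρ g 0 1 : ℂ)
    have hdn := (hτ.const_mul (V.ρ g 1 0 : ℂ)).add_const (V.ρ g 1 1 : ℂ)
    have hd' : (V.ρ g 1 0 : ℂ) * (V.τ (ofComplex (z : ℂ)) : ℂ) + V.ρ g 1 1 ≠ 0 := by
      simpa using hd
    refine (hn.div hdn hd').congr_deriv ?_
    have hdet : (V.ρ g 0 0 : ℂ) * V.ρ g 1 1 - V.ρ g 0 1 * V.ρ g 1 0 = 1 := by
      have := (V.ρ g).2
      rw [Matrix.det_fin_two] at this
      exact_mod_cast this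
    simp only [ofComplex_apply]
    field_simp
    linear_combination (V.dτ z) * hdet
  exact h3.unique h5

/-- The function on the curve. -/
noncomputable def Variation.phi (V : Variation X) (z : ℍ) : ℂ := V.sec z ^ 2 * V.dτ z / X.dlam z

theorem Variation.phi_smul (V : Variation X) (g : SL(2, ℝ)) (hg : g ∈ X.P) (z : ℍ) :
    V.phi (g • z) = V.phi z := by
  have h1 := X.dlam_smul (X.P_le hg) z
  have h2 := V.dτ_smul ⟨g, hg⟩ z
  have h3 : V.sec (g • z) = (V.ρ ⟨g, hg⟩ 1 0 * V.τ z + V.ρ ⟨g, hg⟩ 1 1) * V.sec z :=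
    V.gg_smul ⟨g, hg⟩ z
  have hd : (V.ρ ⟨g, hg⟩ 1 0 : ℂ) * (V.τ z : ℂ) + V.ρ ⟨g, hg⟩ 1 1 ≠ 0 := by
    have := denom_ne_zero (Matrix.SpecialLinearGroup.mapGL ℝ (V.ρ ⟨g, hg⟩)) (V.τ z)
    simpa [denom] using this
  have hs := smul_deriv_ne g z
  have hl : X.dlam (g • z) ≠ 0 := X.lam_deriv (g • z)
  have hl' : X.dlam z ≠ 0 := X.lam_deriv z
  unfold Variation.phi
  rw [h3, div_eq_div_iff hl hl', ← h1]
  have h2' : V.dτ (g • z) * deriv (fun w : ℂ => ((g • ofComplex w : ℍ) : ℂ)) z *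
      ((V.ρ ⟨g, hg⟩ 1 0 : ℂ) * (V.τ z : ℂ) + V.ρ ⟨g, hg⟩ 1 1) ^ 2 = V.dτ z := by
    rw [h2]; field_simp
  rw [← h2']
  ring

theorem eventually_ofComplex (z : ℍ) : ∀ᶠ w in 𝓝 (z : ℂ), ((ofComplex w : ℍ) : ℂ) = w := by
  filter_upwards [eventually_im_pos z] with w hw
  rw [ofComplex_apply_of_im_pos hw]

/-- The local orders of the function on the curve. -/
theorem Variation.phi_order (V : Variation X) (hnc : ∃ z w i, V.v z i ≠ V.v w i) (z : ℍ) :
    ∃ m : ℤ, LocOrd (fun w : ℂ => V.phi (ofComplex w)) z m ∧ 0 ≤ m ∧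
      ((∀ i, (V.v z i).im = 0) → 2 ≤ m) := by
  obtain ⟨k, hk, hk'⟩ := V.gg_order hnc z
  have hτ : AnalyticAt ℂ (deriv fun w : ℂ => (V.τ (ofComplex w) : ℂ)) z := by
    refine AnalyticAt.deriv ?_
    refine DifferentiableOn.analyticAt (s := {w : ℂ | 0 < w.im}) ?_
      ((isOpen_lt continuous_const Complex.continuous_im).mem_nhds z.im_pos)
    intro w hw
    exact (differentiableAt_of_coe V.τ_hol hw).differentiableWithinAt
  obtain ⟨n, hn, -⟩ := LocOrd.of_analyticAt hτ (V.exists_deriv_ne hnc z).2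
  have hlam : AnalyticAt ℂ (deriv fun w : ℂ => X.lam (ofComplex w)) z := by
    refine AnalyticAt.deriv ?_
    refine DifferentiableOn.analyticAt (s := {w : ℂ | 0 < w.im}) ?_
      ((isOpen_lt continuous_const Complex.continuous_im).mem_nhds z.im_pos)
    intro w hw
    exact (differentiableAt_of_coe X.lam_hol hw).differentiableWithinAt
  have hl : LocOrd (deriv fun w : ℂ => X.lam (ofComplex w)) z 0 :=
    LocOrd.of_continuousAt hlam.eventually_continuousAt (X.lam_deriv z)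
  have h := ((hk.pow 2).mul hn).mul hl.inv
  refine ⟨_, h.congr ?_, ?_, ?_⟩
  · filter_upwards [(eventually_ofComplex z).filter_mono nhdsWithin_le_nhds] with w hw
    simp only [Variation.phi, Variation.sec, Variation.dτ, Curve.dlam, hw, div_eq_mul_inv]
  · push_cast; omega
  · intro hi
    have := hk'.2 hi
    push_cast; omega

/-- The function along an end. -/
theorem Variation.phi_end (V : Variation X) {s : ℂ → ℍ} {Y : ℝ} {ψ : ℂ → ℂ}
    (hs : ContinuousOn s {ζ | Y < ζ.im}) (h : ∀ ζ : ℂ, Y < ζ.im → X.lam (s ζ) = ψ ζ)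
    (hψ : ∀ ζ : ℂ, Y < ζ.im → DifferentiableAt ℂ ψ ζ)
    (hψ' : ∀ ζ : ℂ, Y < ζ.im → deriv ψ ζ ≠ 0) {ζ : ℂ} (hζ : Y < ζ.im) :
    V.phi (s ζ) = gg (V.τ (s ζ)) (V.v (s ζ) 0) (V.v (s ζ) 1) ^ 2 *
      deriv (fun ζ => (V.τ (s ζ) : ℂ)) ζ * (deriv ψ ζ)⁻¹ := by
  obtain ⟨h1, h2⟩ := X.lift_differentiable hs h hψ hζ
  have h3 : HasDerivAt (fun w : ℂ => (V.τ (ofComplex w) : ℂ)) (V.dτ (s ζ)) (s ζ : ℂ) :=
    (V.τ_hol (s ζ)).hasDerivAt
  have h4 := h3.comp ζ h1.hasDerivAt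
  have h5 : (fun w : ℂ => (V.τ (ofComplex w) : ℂ)) ∘ (fun z => (s z : ℂ)) =
      fun ζ => (V.τ (s ζ) : ℂ) := by
    funext z; simp
  rw [h5] at h4
  rw [h4.deriv, ← h2]
  have hs' : deriv (fun z => (s z : ℂ)) ζ ≠ 0 := by
    intro h0
    rw [h0, mul_zero] at h2
    exact hψ' ζ hζ h2.symm
  have hl : deriv (fun w : ℂ => X.lam (ofComplex w)) (s ζ) ≠ 0 := X.lam_deriv (s ζ)
  unfold Variation.phi Variation.sec Curve.dlam
  field_simp

theorem hasDerivAt_ee (z : ℂ) : HasDerivAt ee (2 * Real.pi * Complex.I * ee z) z := by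
  unfold ee
  have h1 : HasDerivAt (fun z : ℂ => 2 * (Real.pi : ℂ) * Complex.I * z)
      (2 * (Real.pi : ℂ) * Complex.I) z := by
    simpa using (hasDerivAt_id z).const_mul (2 * (Real.pi : ℂ) * Complex.I)
  refine h1.cexp.congr_deriv ?_
  ring

theorem two_pi_I_ne : 2 * (Real.pi : ℂ) * Complex.I ≠ 0 := Complex.two_pi_I_ne_zero

theorem ee_ne (z : ℂ) : ee z ≠ 0 := Complex.exp_ne_zero _

/-- Winding numbers at a finite puncture. -/
theorem Variation.phi_wind (V : Variation X) (hnc : ∃ z w i, V.v z i ≠ V.v w i) {s : ℂ → ℍ} {Y : ℝ}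
    {b : ℂ} (hb : b ∈ X.B) (hs : ContinuousOn s {ζ | Y < ζ.im})
    (h : ∀ ζ : ℂ, Y < ζ.im → X.lam (s ζ) = b + ee ζ) :
    ∃ (h : ℕ) (n : ℤ), 0 < h ∧ HasWind h (fun ζ => V.phi (s ζ)) n ∧ h * (-1) ≤ n := by
  have hE : X.IsEnd s Y := ⟨hs, Or.inl ⟨b, hb, h⟩⟩
  obtain ⟨k, hk, p, hp, hper⟩ := X.exists_period hE
  obtain ⟨a, b', c, d, r₀, r₁, D⟩ := V.cdata hnc hE hk hp hper
  obtain ⟨n, hn⟩ := D.wind_euler
  have h1 : HasWind k (fun z => (2 * (Real.pi : ℂ) * Complex.I * ee z)⁻¹) (-(0 + k * 1)) := by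
    refine HasWind.inv (HasWind.mul (HasWind.const k two_pi_I_ne) ?_)
    have := hasWind_ee k 1
    simpa using this
  refine ⟨k, _, hk, (hn.mul h1).congr Y ?_, ?_⟩
  · intro z hz
    have hψ : ∀ ζ : ℂ, HasDerivAt (fun ζ => b + ee ζ) (2 * Real.pi * Complex.I * ee ζ) ζ :=
      fun ζ => (hasDerivAt_ee ζ).const_add b
    rw [V.phi_end hs h (fun ζ _ => (hψ ζ).differentiableAt) (fun ζ _ => ?_) hz, (hψ z).deriv]
    rw [(hψ ζ).deriv]
    exact mul_ne_zero two_pi_I_ne (ee_ne ζ)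
  · have : (0 : ℤ) ≤ n := Int.natCast_nonneg n
    linarith

/-- Winding numbers at infinity. -/
theorem Variation.phi_wind_infty (V : Variation X) (hnc : ∃ z w i, V.v z i ≠ V.v w i)
    {s : ℂ → ℍ} {Y : ℝ} (hs : ContinuousOn s {ζ | Y < ζ.im})
    (h : ∀ ζ : ℂ, Y < ζ.im → X.lam (s ζ) = ee (-ζ)) :
    ∃ (h : ℕ) (n : ℤ), 0 < h ∧ HasWind h (fun ζ => V.phi (s ζ)) n ∧ h * 1 ≤ n := by
  have hE : X.IsEnd s Y := ⟨hs, Or.inr h⟩
  obtain ⟨k, hk, p, hp, hper⟩ := X.exists_period hE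
  obtain ⟨a, b', c, d, r₀, r₁, D⟩ := V.cdata hnc hE hk hp hper
  obtain ⟨n, hn⟩ := D.wind_euler
  have h1 : HasWind k (fun z => (-(2 * (Real.pi : ℂ) * Complex.I) * ee (-z))⁻¹)
      (-(0 + k * (-1))) := by
    refine HasWind.inv (HasWind.mul (HasWind.const k (neg_ne_zero.2 two_pi_I_ne)) ?_)
    have := hasWind_ee k (-1)
    simpa using this
  refine ⟨k, _, hk, (hn.mul h1).congr Y ?_, ?_⟩
  · intro z hz
    have hψ : ∀ ζ : ℂ, HasDerivAt (fun ζ => ee (-ζ)) (-(2 * Real.pi * Complex.I) * ee (-ζ)) ζ := by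
      intro ζ
      have := (hasDerivAt_ee (-ζ)).comp ζ (hasDerivAt_neg ζ)
      refine this.congr_deriv ?_
      ring
    rw [V.phi_end hs h (fun ζ _ => (hψ ζ).differentiableAt) (fun ζ _ => ?_) hz, (hψ z).deriv]
    rw [(hψ ζ).deriv]
    exact mul_ne_zero (neg_ne_zero.2 two_pi_I_ne) (ee_ne _)
  · have : (0 : ℤ) ≤ n := Int.natCast_nonneg n
    linarith

/-- The number of points where the variation splits over the reals is at most minus one half of the
Euler characteristic of the curve. -/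
theorem Variation.euler_bound (V : Variation X) (hnc : ∃ z w i, V.v z i ≠ V.v w i) :
    2 * ((fun z : ℍ => (Quotient.mk'' z : X.Pts)) '' {z | ∀ i, (V.v z i).im = 0}).encard ≤
      X.negEuler := by
  classical
  obtain ⟨E⟩ := X.nonempty_ends
  choose m hm hm0 hm2 using fun z => V.phi_order hnc z
  have hlam : ∀ g ∈ X.G, ∀ z : ℍ, X.lam (g • z) = X.lam z := fun g hg z =>
    ((X.lam_fib z (g • z)).2 ⟨g, hg, rfl⟩).symm
  obtain ⟨M, hM, hfin, hsum⟩ := X.count E V.phi m (fun g hg z => V.phi_smul g hg z) hm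
    (fun _ => -1) 1
    (fun b hb x hx => V.phi_wind hnc hb ((E.s_cont b hb).const_smul x) fun ζ hζ => by
      rw [hlam x (E.R_mem x hx), E.s_lam b hb ζ hζ])
    (fun x hx => V.phi_wind_infty hnc (E.s'_cont.const_smul x) fun ζ hζ => by
      rw [hlam x (E.R_mem x hx), E.s'_lam ζ hζ])
  have hM0 : ∀ q : X.Pts, 0 ≤ M q := by
    intro q
    induction q using Quotient.inductionOn' with
    | h z => rw [hM]; exact hm0 z
  set S : Set X.Pts := (fun z : ℍ => (Quotient.mk'' z : X.Pts)) '' {z | ∀ i, (V.v z i).im = 0}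
    with hS
  have hS2 : ∀ q ∈ S, 2 ≤ M q := by
    rintro q ⟨z, hz, rfl⟩
    simp only [hM]
    exact hm2 z hz
  have hSsub : S ⊆ Function.support M := by
    intro q hq
    have := hS2 q hq
    simp only [Function.mem_support]
    omega
  have hSfin : S.Finite := hfin.subset hSsub
  have h1 : (2 : ℤ) * S.ncard ≤ ∑ᶠ q, M q := by
    rw [finsum_eq_sum_of_support_toFinset_subset M hfin (s := hfin.toFinset) (by simp)]
    rw [Set.ncard_eq_toFinset_card S hSfin]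
    calc (2 : ℤ) * (hSfin.toFinset.card : ℤ) = ∑ q ∈ hSfin.toFinset, 2 := by
          rw [Finset.sum_const, nsmul_eq_mul]; ring
      _ ≤ ∑ q ∈ hSfin.toFinset, M q := Finset.sum_le_sum fun q hq => hS2 q (by simpa using hq)
      _ ≤ ∑ q ∈ hfin.toFinset, M q := by
          refine Finset.sum_le_sum_of_subset_of_nonneg ?_ fun q _ _ => hM0 q
          intro q hq
          simp only [Set.Finite.mem_toFinset] at hq ⊢
          exact hSsub hq
  have h2 : (2 : ℤ) * S.ncard ≤ X.negEuler := by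
    refine (h1.trans hsum).trans ?_
    unfold Curve.negEuler
    simp only [Finset.sum_const, nsmul_eq_mul]
    push_cast
    have h3 : (X.B.card : ℤ) - 1 ≤ ((X.B.card - 1 : ℕ) : ℤ) := by omega
    have h4 : (0 : ℤ) ≤ X.degree := Int.natCast_nonneg _
    nlinarith
  have h5 : 2 * S.ncard ≤ X.negEuler := by exact_mod_cast h2
  rw [← hSfin.cast_ncard_eq]
  exact_mod_cast h5

end Pool.Agent.LibUB33
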