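import Pool.Agent.LibUB33.Wind

/-!
# Local orders
-/

open Filter Topology

namespace Pool.Agent.LibUB33

/-- In a punctured neighbourhood of `z₀` the function `f` is `(z - z₀) ^ m` times a continuous
function that is not zero at `z₀`. -/
def LocOrd (f : ℂ → ℂ) (z₀ : ℂ) (m : ℤ) : Prop :=
  ∃ K : ℂ → ℂ, (∀ᶠ z in 𝓝 z₀, ContinuousAt K z) ∧ K z₀ ≠ 0 ∧
    ∀ᶠ z in 𝓝[≠] z₀, f z = (z - z₀) ^ m * K z

theorem LocOrd.mul {f g : ℂ → ℂ} {z₀ : ℂ} {m n : ℤ} (hf : LocOrd f z₀ m) (hg : LocOrd g z₀ n) :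
    LocOrd (fun z => f z * g z) z₀ (m + n) := by
  obtain ⟨K, hK, hK0, hKf⟩ := hf
  obtain ⟨K', hK', hK0', hKf'⟩ := hg
  refine ⟨fun z => K z * K' z, ?_, mul_ne_zero hK0 hK0', ?_⟩
  · filter_upwards [hK, hK'] with z h1 h2 using h1.mul h2
  · filter_upwards [hKf, hKf', self_mem_nhdsWithin] with z h1 h2 h3
    have h4 : z - z₀ ≠ 0 := sub_ne_zero.2 h3
    rw [h1, h2, zpow_add₀ h4]
    ring

theorem LocOrd.inv {f : ℂ → ℂ} {z₀ : ℂ} {m : ℤ} (hf : LocOrd f z₀ m) :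
    LocOrd (fun z => (f z)⁻¹) z₀ (-m) := by
  obtain ⟨K, hK, hK0, hKf⟩ := hf
  refine ⟨fun z => (K z)⁻¹, ?_, inv_ne_zero hK0, ?_⟩
  · filter_upwards [hK, (hK.self_of_nhds).eventually_ne hK0] with z h1 h2 using h1.inv₀ h2
  · filter_upwards [hKf] with z h1
    rw [h1, mul_inv, zpow_neg]

theorem LocOrd.pow {f : ℂ → ℂ} {z₀ : ℂ} {m : ℤ} (hf : LocOrd f z₀ m) (k : ℕ) :
    LocOrd (fun z => f z ^ k) z₀ (k * m) := by
  obtain ⟨K, hK, hK0, hKf⟩ := hf
  refine ⟨fun z => K z ^ k, ?_, pow_ne_zero k hK0, ?_⟩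
  · filter_upwards [hK] with z h1 using h1.pow k
  · filter_upwards [hKf] with z h1
    rw [h1, mul_pow, mul_comm (k : ℤ) m, zpow_mul, zpow_natCast]

theorem LocOrd.prod {ι : Type*} (s : Finset ι) {f : ι → ℂ → ℂ} {z₀ : ℂ} {m : ι → ℤ}
    (hf : ∀ i ∈ s, LocOrd (f i) z₀ (m i)) :
    LocOrd (fun z => ∏ i ∈ s, f i z) z₀ (∑ i ∈ s, m i) := by
  classical
  induction s using Finset.induction_on with
  | empty =>
    refine ⟨fun _ => 1, Eventually.of_forall fun _ => continuousAt_const, one_ne_zero, ?_⟩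
    refine Eventually.of_forall fun z => ?_
    simp
  | @insert a t ha ih =>
    have h1 := hf a (Finset.mem_insert_self _ _)
    have h2 := ih fun i hi => hf i (Finset.mem_insert_of_mem hi)
    have h3 := h1.mul h2
    rw [Finset.sum_insert ha]
    have h4 : (fun z => ∏ i ∈ insert a t, f i z) = fun z => f a z * ∏ i ∈ t, f i z := by
      funext z; rw [Finset.prod_insert ha]
    rw [h4]
    exact h3

theorem LocOrd.congr {f g : ℂ → ℂ} {z₀ : ℂ} {m : ℤ} (hf : LocOrd f z₀ m)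
    (hfg : ∀ᶠ z in 𝓝[≠] z₀, f z = g z) : LocOrd g z₀ m := by
  obtain ⟨K, hK, hK0, hKf⟩ := hf
  refine ⟨K, hK, hK0, ?_⟩
  filter_upwards [hKf, hfg] with z h1 h2
  rw [← h2, h1]

theorem LocOrd.unique {f : ℂ → ℂ} {z₀ : ℂ} {m n : ℤ} (hf : LocOrd f z₀ m) (hg : LocOrd f z₀ n) :
    m = n := by
  wlog hmn : m ≤ n generalizing m n
  · exact (this hg hf (by omega)).symm
  by_contra hne
  obtain ⟨K, hK, hK0, hKf⟩ := hf
  obtain ⟨K', hK', hK0', hKf'⟩ := hg
  have hpos : 0 < n - m := by omega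
  -- K = (z - z₀)^(n-m) K'
  have h1 : ∀ᶠ z in 𝓝[≠] z₀, K z = (z - z₀) ^ (n - m).toNat * K' z := by
    filter_upwards [hKf, hKf', self_mem_nhdsWithin] with z h1 h2 h3
    have h4 : z - z₀ ≠ 0 := sub_ne_zero.2 h3
    have h5 : (z - z₀) ^ m * K z = (z - z₀) ^ m * ((z - z₀) ^ (n - m).toNat * K' z) := by
      rw [← h1, h2, ← zpow_natCast, Int.toNat_of_nonneg hpos.le, ← mul_assoc, ← zpow_add₀ h4]
      congr 2
      ring
    exact mul_left_cancel₀ (zpow_ne_zero m h4) h5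
  have h2 : Tendsto K (𝓝[≠] z₀) (𝓝 (K z₀)) :=
    (hK.self_of_nhds).tendsto.mono_left nhdsWithin_le_nhds
  have h3 : Tendsto (fun z => (z - z₀) ^ (n - m).toNat * K' z) (𝓝[≠] z₀) (𝓝 0) := by
    have h4 : ContinuousAt (fun z => (z - z₀) ^ (n - m).toNat * K' z) z₀ :=
      ((continuousAt_id.sub continuousAt_const).pow _).mul hK'.self_of_nhds
    have h5 := h4.tendsto
    have h6 : (z₀ - z₀) ^ (n - m).toNat * K' z₀ = 0 := by
      rw [sub_self, zero_pow (by omega), zero_mul]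
    rw [h6] at h5
    exact h5.mono_left nhdsWithin_le_nhds
  have h4 := h2.congr' h1
  exact hK0 (tendsto_nhds_unique h4 h3)

/-- Composition with a local biholomorphism. -/
theorem LocOrd.comp {f φ : ℂ → ℂ} {w₀ : ℂ} {m : ℤ} (hf : LocOrd f (φ w₀) m)
    (hφ : ∀ᶠ w in 𝓝 w₀, DifferentiableAt ℂ φ w) (h0 : deriv φ w₀ ≠ 0) :
    LocOrd (fun w => f (φ w)) w₀ m := by
  obtain ⟨K, hK, hK0, hKf⟩ := hf
  have hφ0 : DifferentiableAt ℂ φ w₀ := hφ.self_of_nhds
  have hd0 : ContinuousAt (dslope φ w₀) w₀ := continuousAt_dslope_same.2 hφ0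
  have hd : ∀ᶠ w in 𝓝 w₀, ContinuousAt (dslope φ w₀) w := by
    filter_upwards [hφ] with w hw
    by_cases h : w = w₀
    · rw [h]; exact hd0
    · exact (continuousAt_dslope_of_ne h).2 hw.continuousAt
  have hne : ∀ᶠ w in 𝓝 w₀, dslope φ w₀ w ≠ 0 := by
    have h1 : dslope φ w₀ w₀ ≠ 0 := by rw [dslope_same]; exact h0
    exact hd0.eventually_ne h1
  refine ⟨fun w => dslope φ w₀ w ^ m * K (φ w), ?_, ?_, ?_⟩
  · have h2 : ∀ᶠ w in 𝓝 w₀, ContinuousAt K (φ w) := hφ0.continuousAt.eventually hK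
    filter_upwards [hd, hne, h2, hφ] with w h3 h4 h5 h6
    exact (h3.zpow₀ m (Or.inl h4)).mul (ContinuousAt.comp (g := K) h5 h6.continuousAt)
  · show dslope φ w₀ w₀ ^ m * K (φ w₀) ≠ 0
    rw [dslope_same]
    exact mul_ne_zero (zpow_ne_zero m h0) hK0
  · have h7 : Tendsto φ (𝓝[≠] w₀) (𝓝[≠] (φ w₀)) := by
      refine tendsto_nhdsWithin_of_tendsto_nhds_of_eventually_within _
        (hφ0.continuousAt.tendsto.mono_left nhdsWithin_le_nhds) ?_
      filter_upwards [hne.filter_mono nhdsWithin_le_nhds, self_mem_nhdsWithin] with w h8 h9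
      intro h10
      apply h8
      rw [dslope_of_ne _ h9, slope_def_field, h10, sub_self, zero_div]
    filter_upwards [h7.eventually hKf, self_mem_nhdsWithin] with w h8 h9
    rw [h8]
    have h10 : φ w - φ w₀ = (w - w₀) * dslope φ w₀ w := by
      rw [dslope_of_ne _ h9, slope_def_field, mul_div_cancel₀]
      exact sub_ne_zero.2 h9
    rw [h10, mul_zpow]
    ring

/-- Near `z₀` the function is continuous and not zero. -/
theorem LocOrd.eventually {f : ℂ → ℂ} {z₀ : ℂ} {m : ℤ} (hf : LocOrd f z₀ m) :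
    ∀ᶠ z in 𝓝[≠] z₀, ContinuousAt f z ∧ f z ≠ 0 := by
  obtain ⟨K, hK, hK0, hKf⟩ := hf
  have h1 : ∀ᶠ z in 𝓝 z₀, K z ≠ 0 := (hK.self_of_nhds).eventually_ne hK0
  have h2 := eventually_eventually_nhdsWithin.2 hKf
  filter_upwards [h2, hK.filter_mono nhdsWithin_le_nhds, h1.filter_mono nhdsWithin_le_nhds,
    self_mem_nhdsWithin] with z h3 h4 h5 h6
  have h7 : z - z₀ ≠ 0 := sub_ne_zero.2 h6
  have h8 : ∀ᶠ w in 𝓝 z, f w = (w - z₀) ^ m * K w := by
    have h9 : 𝓝[≠] z₀ = 𝓝[{z₀}ᶜ] z₀ := rfl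
    have h10 : (𝓝[{z₀}ᶜ] z) = 𝓝 z := IsOpen.nhdsWithin_eq isOpen_compl_singleton h6
    rw [← h10]
    exact h3
  have h11 : ContinuousAt (fun w => (w - z₀) ^ m * K w) z :=
    ((continuousAt_id.sub continuousAt_const).zpow₀ m (Or.inl h7)).mul h4
  refine ⟨h11.congr (h8.mono fun w hw => hw.symm), ?_⟩
  rw [h8.self_of_nhds]
  exact mul_ne_zero (zpow_ne_zero m h7) h5

/-- A function that is continuous near `z₀` and not zero at `z₀` has order zero. -/
theorem LocOrd.of_continuousAt {f : ℂ → ℂ} {z₀ : ℂ} (hf : ∀ᶠ z in 𝓝 z₀, ContinuousAt f z)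
    (h0 : f z₀ ≠ 0) : LocOrd f z₀ 0 :=
  ⟨f, hf, h0, Eventually.of_forall fun z => by simp⟩

/-- Analytic functions have an order. -/
theorem LocOrd.of_analyticAt {f : ℂ → ℂ} {z₀ : ℂ} (hf : AnalyticAt ℂ f z₀)
    (h0 : ¬ ∀ᶠ z in 𝓝 z₀, f z = 0) : ∃ n : ℕ, LocOrd f z₀ n ∧ (0 < n ↔ f z₀ = 0) := by
  obtain ⟨n, g, hg, hg0, hfg⟩ := hf.exists_eventuallyEq_pow_smul_nonzero_iff.2 h0
  refine ⟨n, ⟨g, hg.eventually_continuousAt, hg0, ?_⟩, ?_⟩
  · filter_upwards [hfg.filter_mono nhdsWithin_le_nhds] with z hz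
    rw [hz, zpow_natCast, smul_eq_mul]
  · have h1 := hfg.self_of_nhds
    rw [h1, smul_eq_mul, sub_self]
    constructor
    · intro hn
      rw [zero_pow hn.ne', zero_mul]
    · intro h2
      by_contra hn
      have hn0 : n = 0 := by omega
      rw [hn0, pow_zero, one_mul] at h2
      exact hg0 h2

private theorem ee_tendsto {h : ℕ} (hh : 0 < h) :
    Tendsto (fun z : ℂ => ee (z / h)) (comap Complex.im atTop) (𝓝 0) := by
  rw [tendsto_zero_iff_norm_tendsto_zero]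
  have h1 : ∀ z : ℂ, ‖ee (z / h)‖ = Real.exp (-(2 * Real.pi / h) * z.im) := by
    intro z
    unfold ee
    rw [Complex.norm_exp]
    congr 1
    have hh' : (h : ℝ) ≠ 0 := by positivity
    have h2 : (2 * (Real.pi : ℂ) * Complex.I * (z / h)) =
        ((2 * Real.pi / h : ℝ) : ℂ) * (Complex.I * z) := by
      push_cast; ring
    rw [h2, Complex.re_ofReal_mul]
    simp
  simp_rw [h1]
  have h2 : Tendsto (fun y : ℝ => Real.exp (-(2 * Real.pi / h) * y)) atTop (𝓝 0) := by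
    apply Real.tendsto_exp_atBot.comp
    have : (0 : ℝ) < 2 * Real.pi / h := by positivity
    exact tendsto_id.const_mul_atTop_of_neg (by linarith)
  exact h2.comp tendsto_comap

private theorem hasWind_aux {f : ℂ → ℂ} {z₀ : ℂ} {m : ℤ} (hf : LocOrd f z₀ m) {h : ℕ}
    (hh : 0 < h) : HasWind h (fun z => f (z₀ + ee (z / h))) m := by
  obtain ⟨K, hK, hK0, hKf⟩ := hf
  have ht : Tendsto (fun z : ℂ => z₀ + ee (z / h)) (comap Complex.im atTop) (𝓝 z₀) := by
    have := (ee_tendsto hh).const_add z₀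
    simpa using this
  have ht' : Tendsto (fun z : ℂ => z₀ + ee (z / h)) (comap Complex.im atTop) (𝓝[≠] z₀) := by
    refine tendsto_nhdsWithin_of_tendsto_nhds_of_eventually_within _ ht ?_
    refine Eventually.of_forall fun z => ?_
    simp only [Set.mem_compl_iff, Set.mem_singleton_iff, add_eq_left]
    exact Complex.exp_ne_zero _
  have h1 : ∀ᶠ z in comap Complex.im atTop, f (z₀ + ee (z / h)) =
      (z₀ + ee (z / h) - z₀) ^ m * K (z₀ + ee (z / h)) := ht'.eventually hKf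
  have h2 : ∀ᶠ z in comap Complex.im atTop, ContinuousAt K (z₀ + ee (z / h)) := ht.eventually hK
  have h3 : Tendsto (fun z : ℂ => K (z₀ + ee (z / h))) (comap Complex.im atTop) (𝓝 (K z₀)) :=
    (hK.self_of_nhds).tendsto.comp ht
  -- a half plane
  have hex : ∀ {p : ℂ → Prop}, (∀ᶠ z in comap Complex.im atTop, p z) →
      ∃ Y : ℝ, ∀ z : ℂ, Y < z.im → p z := by
    intro p hp
    rw [eventually_comap, eventually_atTop] at hp
    obtain ⟨Y, hY⟩ := hp
    exact ⟨Y, fun z hz => hY z.im hz.le z rfl⟩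
  obtain ⟨Y1, hY1⟩ := hex h1
  obtain ⟨Y2, hY2⟩ := hex h2
  have hperee : ∀ z : ℂ, ee ((z + h) / h) = ee (z / h) := by
    intro z
    unfold ee
    have hh' : (h : ℂ) ≠ 0 := by exact_mod_cast hh.ne'
    rw [show 2 * (Real.pi : ℂ) * Complex.I * ((z + h) / h) =
      2 * (Real.pi : ℂ) * Complex.I * (z / h) + 2 * Real.pi * Complex.I by field_simp,
      Complex.exp_add, Complex.exp_two_pi_mul_I, mul_one]
  have hcont : ∀ z : ℂ, ContinuousAt (fun z : ℂ => z₀ + ee (z / h)) z := by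
    intro z
    unfold ee
    fun_prop
  have hw1 : HasWind h (fun z => K (z₀ + ee (z / h))) 0 := by
    refine HasWind.of_tendsto (a := K z₀) hK0 (r := fun _ => 1) Y2 ?_ ?_ continuousOn_const
      (fun _ _ => rfl) (fun _ _ => one_pos) ?_
    · intro z hz
      exact (ContinuousAt.comp (f := fun z : ℂ => z₀ + ee (z / h)) (g := K) (x := z)
        (hY2 z hz) (hcont z)).continuousWithinAt
    · intro z _
      simp only [hperee]
    · simpa using h3
  have hw2 := (hasWind_ee_div hh m).mul hw1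
  rw [add_zero] at hw2
  refine hw2.congr Y1 fun z hz => ?_
  rw [hY1 z hz, add_sub_cancel_left]
  congr 1
  unfold ee
  rw [← Complex.exp_int_mul]
  congr 1
  ring

/-- The order is the winding number. -/
theorem LocOrd.hasWind {f : ℂ → ℂ} {z₀ : ℂ} {m : ℤ} (hf : LocOrd f z₀ m) :
    HasWind 1 (fun z => f (z₀ + ee z)) m := by
  have := hasWind_aux hf one_pos
  simpa using this

/-- The same with period `h`. -/
theorem LocOrd.hasWind_div {f : ℂ → ℂ} {m : ℤ} (hf : LocOrd f 0 m) {h : ℕ} (hh : 0 < h) :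
    HasWind h (fun z => f (ee (z / h))) m := by
  have := hasWind_aux hf hh
  simpa using this

end Pool.Agent.LibUB33
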