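import Pool.Agent.LibUB33.Defs

/-!
# The modular forms `E₄³ - w Δ`
-/

open Filter Topology UpperHalfPlane
open scoped MatrixGroups

namespace Pool.Agent.LibUB33

/-- The modular form `E₄³ - w Δ`. -/
noncomputable def jForm (w : ℂ) (t : ℂ) : ℂ :=
  ModularForm.E₄ (ofComplex t) ^ 3 - w * ModularForm.discriminant (ofComplex t)

theorem jForm_eq_zero_iff (w : ℂ) (z : ℍ) : jForm w z = 0 ↔ jInv z = w := by
  have h := ModularForm.discriminant_ne_zero z
  unfold jForm jInv
  rw [ofComplex_apply, div_eq_iff h, sub_eq_zero]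

private theorem isOpen_half : IsOpen {w : ℂ | 0 < w.im} :=
  isOpen_lt continuous_const Complex.continuous_im

private theorem diff_E4 {t : ℂ} (ht : 0 < t.im) :
    DifferentiableAt ℂ (fun t : ℂ => ModularForm.E₄ (ofComplex t)) t := by
  have h1 := UpperHalfPlane.mdifferentiable_iff.1 (ModularFormClass.holo ModularForm.E₄)
  exact (h1 t ht).differentiableAt (isOpen_half.mem_nhds ht)

private theorem diff_disc {t : ℂ} (ht : 0 < t.im) :
    DifferentiableAt ℂ (fun t : ℂ => ModularForm.discriminant (ofComplex t)) t := by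
  have h1 := UpperHalfPlane.mdifferentiable_iff.1 (CuspForm.discriminant).holo'
  exact (h1 t ht).differentiableAt (isOpen_half.mem_nhds ht)

theorem jForm_differentiableAt (w : ℂ) {t : ℂ} (ht : 0 < t.im) :
    DifferentiableAt ℂ (jForm w) t := by
  unfold jForm
  exact ((diff_E4 ht).pow 3).sub ((diff_disc ht).const_mul w)

theorem jForm_smul (w : ℂ) (a b c d : ℤ) (hdet : a * d - b * c = 1) {t : ℂ} (ht : 0 < t.im) :
    jForm w ((a * t + b) / (c * t + d)) = (c * t + d) ^ 12 * jForm w t := by
  set g : SL(2, ℤ) := ⟨!![a, b; c, d], by rw [Matrix.det_fin_two_of]; exact hdet⟩ with hg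
  set z : ℍ := ⟨t, ht⟩ with hz
  have h1 : ((g • z : ℍ) : ℂ) = (a * t + b) / (c * t + d) := by
    rw [coe_specialLinearGroup_apply]
    simp [hg, hz]
  have hmem : Matrix.SpecialLinearGroup.mapGL ℝ g ∈ 𝒮ℒ := ⟨g, rfl⟩
  have hden : denom (Matrix.SpecialLinearGroup.mapGL ℝ g) z = c * t + d := by
    unfold denom
    have e1 : (Matrix.SpecialLinearGroup.mapGL ℝ g : GL (Fin 2) ℝ) 1 0 = (c : ℝ) := by
      rw [Matrix.SpecialLinearGroup.mapGL_coe_matrix]
      rfl
    have e2 : (Matrix.SpecialLinearGroup.mapGL ℝ g : GL (Fin 2) ℝ) 1 1 = (d : ℝ) := by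
      rw [Matrix.SpecialLinearGroup.mapGL_coe_matrix]
      rfl
    rw [e1, e2]
    simp [hz]
  have h2 : ModularForm.E₄ (g • z) = (c * t + d) ^ 4 * ModularForm.E₄ z := by
    have := SlashInvariantForm.slash_action_eqn'' ModularForm.E₄ hmem z
    rw [hden] at this
    exact_mod_cast this
  have h3 : ModularForm.discriminant (g • z) = (c * t + d) ^ 12 * ModularForm.discriminant z := by
    have := SlashInvariantForm.slash_action_eqn'' CuspForm.discriminant hmem z
    rw [hden] at this
    exact_mod_cast this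
  rw [← h1]
  unfold jForm
  have h4 : ofComplex t = z := by rw [ofComplex_apply_of_im_pos ht]
  rw [h4, ofComplex_apply, h2, h3]
  ring

private theorem tendsto_E4 : Tendsto (fun z : ℍ => ModularForm.E₄ z) atImInfty (𝓝 1) := by
  have hper := SlashInvariantFormClass.periodic_comp_ofComplex ModularForm.E₄
    one_mem_strictPeriods_SL
  have hanal := ModularFormClass.analyticAt_cuspFunction_zero ModularForm.E₄ one_pos
    one_mem_strictPeriods_SL
  have h0 : cuspFunction 1 ModularForm.E₄ 0 = 1 := by
    have h1 := EisensteinSeries.E_qExpansion_coeff_zero (k := 4) (by norm_num) ⟨2, rfl⟩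
    rw [qExpansion_coeff] at h1
    simpa using h1
  have h2 := (hanal.continuousAt.tendsto.comp (qParam_tendsto_atImInfty one_pos))
  rw [h0] at h2
  refine h2.congr fun τ => ?_
  exact SlashInvariantFormClass.eq_cuspFunction ModularForm.E₄ τ one_mem_strictPeriods_SL
    one_ne_zero

theorem jForm_tendsto (w : ℂ) : Tendsto (jForm w) (comap Complex.im atTop) (𝓝 1) := by
  have h1 : Tendsto (fun z : ℍ => ModularForm.E₄ z ^ 3 - w * ModularForm.discriminant z)
      atImInfty (𝓝 (1 ^ 3 - w * 0)) := by
    have h2 : Tendsto (fun z : ℍ => ModularForm.discriminant z) atImInfty (𝓝 0) :=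
      ModularForm.discriminant_isZeroAtImInfty
    exact (tendsto_E4.pow 3).sub (h2.const_mul w)
  have h3 := h1.comp tendsto_comap_im_ofComplex
  have h4 : jForm w = (fun z : ℍ => ModularForm.E₄ z ^ 3 - w * ModularForm.discriminant z) ∘
      (fun t : ℂ => ofComplex t) := by
    funext t; rfl
  rw [h4]
  simpa using h3

theorem jInv_differentiableAt (z : ℍ) :
    DifferentiableAt ℂ (fun w : ℂ => jInv (ofComplex w)) z := by
  unfold jInv
  refine ((diff_E4 z.im_pos).pow 3).div (diff_disc z.im_pos) ?_
  exact ModularForm.discriminant_ne_zero _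

/-- The modular invariant is not constant on any open set. -/
theorem jInv_nonconst (z : ℍ) (w : ℂ) : ¬ ∀ᶠ t in 𝓝 (z : ℂ), jInv (ofComplex t) = w := by
  intro h
  have h1 : ∀ᶠ t in 𝓝 (z : ℂ), jForm w t = 0 := by
    filter_upwards [h, isOpen_half.mem_nhds z.im_pos] with t ht ht'
    have h2 := (jForm_eq_zero_iff w (ofComplex t)).2 ht
    rwa [ofComplex_apply_of_im_pos ht'] at h2
  have hconn : IsPreconnected {w : ℂ | 0 < w.im} := (convex_halfSpace_im_gt 0).isPreconnected
  have hana : AnalyticOnNhd ℂ (jForm w) {w : ℂ | 0 < w.im} := by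
    refine DifferentiableOn.analyticOnNhd ?_ isOpen_half
    intro t ht
    exact (jForm_differentiableAt w ht).differentiableWithinAt
  have h3 := hana.eqOn_zero_of_preconnected_of_eventuallyEq_zero hconn z.im_pos h1
  have h4 : Tendsto (jForm w) (comap Complex.im atTop) (𝓝 0) := by
    refine tendsto_const_nhds.congr' ?_
    filter_upwards [tendsto_comap.eventually (eventually_gt_atTop (0 : ℝ))] with t ht
    exact (h3 ht).symm
  have hne : (comap Complex.im atTop).NeBot := by
    rw [comap_neBot_iff]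
    intro s hs
    obtain ⟨y, hy⟩ := (hs : s ∈ atTop) |> Filter.nonempty_of_mem
    exact ⟨y * Complex.I, by simpa using hy⟩
  exact zero_ne_one (tendsto_nhds_unique h4 (jForm_tendsto w))

end Pool.Agent.LibUB33
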