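import Pool.Agent.LibUB33.Euler
import Pool.Agent.LibUB33.ModForm

/-!
# The bound by the degree of the modular invariant
-/

open Filter Topology UpperHalfPlane
open scoped MatrixGroups

namespace Pool.Agent.LibUB33

variable {X : Curve}

/-- The modular invariant of the family is differentiable. -/
theorem Variation.jInv_hasDerivAt (V : Variation X) (z : ℍ) :
    HasDerivAt (fun t : ℂ => jInv (V.τ (ofComplex t)))
      (deriv (fun w : ℂ => jInv (ofComplex w)) (V.τ z) * V.dτ z) z := by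
  have h1 : HasDerivAt (fun w : ℂ => jInv (ofComplex w))
      (deriv (fun w : ℂ => jInv (ofComplex w)) (V.τ z)) (V.τ (ofComplex (z : ℂ)) : ℂ) := by
    simpa using (jInv_differentiableAt (V.τ z)).hasDerivAt
  have h2 : HasDerivAt (fun w : ℂ => (V.τ (ofComplex w) : ℂ)) (V.dτ z) z :=
    (V.τ_hol z).hasDerivAt
  have h3 := h1.comp (z : ℂ) h2
  simpa [Function.comp_def] using h3

/-- A function with countably many zeros near each point of the upper half plane has countably many
zeros. -/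
theorem countable_of_isolated {p : ℍ → Prop}
    (hp : ∀ z : ℍ, ∀ᶠ w in 𝓝[≠] z, ¬ p w) : {z : ℍ | p z}.Countable := by
  rw [← Set.countable_coe_iff]
  have : DiscreteTopology {z : ℍ | p z} := by
    rw [discreteTopology_subtype_iff]
    intro x _
    rw [Filter.inf_principal_eq_bot]
    exact hp x
  exact TopologicalSpace.separableSpace_iff_countable.1 inferInstance

theorem nhdsWithin_ne_coe {p : ℂ → Prop} {z : ℍ} (h : ∀ᶠ w in 𝓝[≠] (z : ℂ), p w) :
    ∀ᶠ w : ℍ in 𝓝[≠] z, p (w : ℂ) := by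
  have h1 : Tendsto (fun w : ℍ => (w : ℂ)) (𝓝[≠] z) (𝓝[≠] (z : ℂ)) := by
    refine tendsto_nhdsWithin_of_tendsto_nhds_of_eventually_within _ ?_ ?_
    · exact (continuous_coe.tendsto z).mono_left nhdsWithin_le_nhds
    · filter_upwards [self_mem_nhdsWithin] with w hw
      intro h2
      exact hw (UpperHalfPlane.ext h2)
  exact h1.eventually h

/-- The derivative of the period does not vanish on an open set. -/
theorem Variation.dτ_not_eventually (V : Variation X) (z : ℍ) :
    ¬ ∀ᶠ t in 𝓝 (z : ℂ), deriv (fun w : ℂ => (V.τ (ofComplex w) : ℂ)) t = 0 := by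
  intro h0
  have hτ : AnalyticOnNhd ℂ (fun w : ℂ => (V.τ (ofComplex w) : ℂ)) {w : ℂ | 0 < w.im} := by
    refine DifferentiableOn.analyticOnNhd ?_ (isOpen_lt continuous_const Complex.continuous_im)
    intro w hw
    exact (differentiableAt_of_coe V.τ_hol hw).differentiableWithinAt
  have hU : IsPreconnected {w : ℂ | 0 < w.im} := (convex_halfSpace_im_gt 0).isPreconnected
  have h2 := hτ.deriv.eqOn_zero_of_preconnected_of_eventuallyEq_zero hU z.im_pos h0
  have h3 : ∀ t : ℍ, V.τ t = V.τ z := by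
    intro t
    have h4 := (convex_halfSpace_im_gt 0).is_const_of_fderivWithin_eq_zero (𝕜 := ℂ)
      (f := fun w : ℂ => (V.τ (ofComplex w) : ℂ)) (s := {w : ℂ | 0 < w.im})
      (hτ.differentiableOn) ?_ t.im_pos z.im_pos
    · simp only [ofComplex_apply] at h4
      exact UpperHalfPlane.ext h4
    · intro w hw
      rw [fderivWithin_of_isOpen (isOpen_lt continuous_const Complex.continuous_im) hw]
      ext
      simpa using h2 hw
  obtain ⟨a, b, hab⟩ := V.τ_nonconst
  exact hab ((h3 a).trans (h3 b).symm)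

/-- Critical values of the modular invariant of the family are countable. -/
theorem Variation.countable_critical (V : Variation X) :
    {w : ℂ | ∃ z : ℍ, jInv (V.τ z) = w ∧
      deriv (fun t : ℂ => jInv (V.τ (ofComplex t))) z = 0}.Countable := by
  have h1 : {z : ℍ | deriv (fun t : ℂ => jInv (V.τ (ofComplex t))) z = 0}.Countable := by
    refine countable_of_isolated fun z => ?_
    have hj : AnalyticOnNhd ℂ (fun w : ℂ => jInv (ofComplex w)) {w : ℂ | 0 < w.im} := by
      refine DifferentiableOn.analyticOnNhd ?_ (isOpen_lt continuous_const Complex.continuous_im)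
      intro w hw
      exact (differentiableAt_of_coe jInv_differentiableAt hw).differentiableWithinAt
    have hτ : AnalyticOnNhd ℂ (fun w : ℂ => (V.τ (ofComplex w) : ℂ)) {w : ℂ | 0 < w.im} := by
      refine DifferentiableOn.analyticOnNhd ?_ (isOpen_lt continuous_const Complex.continuous_im)
      intro w hw
      exact (differentiableAt_of_coe V.τ_hol hw).differentiableWithinAt
    have hdj := (hj.deriv (V.τ z) (V.τ z).im_pos)
    have hdτ := (hτ.deriv z z.im_pos)
    -- orders
    have hn1 : ¬ ∀ᶠ t in 𝓝 ((V.τ z : ℍ) : ℂ), deriv (fun w : ℂ => jInv (ofComplex w)) t = 0 := by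
      intro h0
      have hU : IsPreconnected {w : ℂ | 0 < w.im} := (convex_halfSpace_im_gt 0).isPreconnected
      have h2 := hj.deriv.eqOn_zero_of_preconnected_of_eventuallyEq_zero hU (V.τ z).im_pos h0
      have h3 : ∀ᶠ t in 𝓝 ((V.τ z : ℍ) : ℂ), jInv (ofComplex t) = jInv (V.τ z) := by
        filter_upwards [eventually_im_pos (V.τ z)] with t ht
        have h4 := (convex_halfSpace_im_gt 0).is_const_of_fderivWithin_eq_zero (𝕜 := ℂ)
          (f := fun w : ℂ => jInv (ofComplex w)) (s := {w : ℂ | 0 < w.im})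
          (hj.differentiableOn) ?_ ht (V.τ z).im_pos
        · simpa using h4
        · intro w hw
          rw [fderivWithin_of_isOpen (isOpen_lt continuous_const Complex.continuous_im) hw]
          ext
          simpa using h2 hw
      exact jInv_nonconst (V.τ z) _ h3
    have hn2 := V.dτ_not_eventually z
    have e1 : ∀ᶠ t in 𝓝[≠] ((V.τ z : ℍ) : ℂ), deriv (fun w : ℂ => jInv (ofComplex w)) t ≠ 0 :=
      (hdj.eventually_eq_zero_or_eventually_ne_zero).resolve_left hn1
    have e2 : ∀ᶠ t in 𝓝[≠] (z : ℂ), deriv (fun w : ℂ => (V.τ (ofComplex w) : ℂ)) t ≠ 0 :=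
      (hdτ.eventually_eq_zero_or_eventually_ne_zero).resolve_left hn2
    have hτn : ¬ ∀ᶠ t in 𝓝 (z : ℂ), (V.τ (ofComplex t) : ℂ) = V.τ z := by
      intro h0
      apply hn2
      have h5 := h0.eventually_nhds
      filter_upwards [h5] with t ht
      have : (fun w : ℂ => (V.τ (ofComplex w) : ℂ)) =ᶠ[𝓝 t] fun _ => (V.τ z : ℂ) := ht
      rw [this.deriv_eq]; simp
    have e3 : ∀ᶠ t in 𝓝[≠] (z : ℂ), (V.τ (ofComplex t) : ℂ) ≠ V.τ z := by
      have ha : AnalyticAt ℂ (fun t : ℂ => (V.τ (ofComplex t) : ℂ) - V.τ z) z :=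
        (hτ z z.im_pos).sub analyticAt_const
      have := ha.eventually_eq_zero_or_eventually_ne_zero.resolve_left (by
        intro h0
        apply hτn
        filter_upwards [h0] with t ht using sub_eq_zero.1 ht)
      filter_upwards [this] with t ht
      exact sub_ne_zero.1 ht
    have hcont : Tendsto (fun t : ℂ => (V.τ (ofComplex t) : ℂ)) (𝓝[≠] (z : ℂ))
        (𝓝[≠] ((V.τ z : ℍ) : ℂ)) := by
      refine tendsto_nhdsWithin_of_tendsto_nhds_of_eventually_within _ ?_ e3
      have := (hτ z z.im_pos).continuousAt.tendsto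
      simp only [ofComplex_apply] at this
      exact this.mono_left nhdsWithin_le_nhds
    have e4 := hcont.eventually e1
    have e5 := nhdsWithin_ne_coe e4
    have e6 := nhdsWithin_ne_coe e2
    filter_upwards [e5, e6] with w hw1 hw2
    rw [(V.jInv_hasDerivAt w).deriv]
    refine mul_ne_zero ?_ hw2
    simpa using hw1
  refine (h1.image fun z => jInv (V.τ z)).mono ?_
  rintro w ⟨z, hz1, hz2⟩
  exact ⟨z, hz2, hz1⟩

/-- The function on the curve. -/
noncomputable def Variation.psi (V : Variation X) (w : ℂ) (z : ℍ) : ℂ :=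
  V.sec z ^ 12 / jForm w (V.τ z)

theorem Variation.psi_smul (V : Variation X) (w : ℂ) (g : SL(2, ℝ)) (hg : g ∈ X.P) (z : ℍ) :
    V.psi w (g • z) = V.psi w z := by
  have h3 : V.sec (g • z) = (V.ρ ⟨g, hg⟩ 1 0 * V.τ z + V.ρ ⟨g, hg⟩ 1 1) * V.sec z :=
    V.gg_smul ⟨g, hg⟩ z
  have hd : (V.ρ ⟨g, hg⟩ 1 0 : ℂ) * (V.τ z : ℂ) + V.ρ ⟨g, hg⟩ 1 1 ≠ 0 := by
    have := denom_ne_zero (Matrix.SpecialLinearGroup.mapGL ℝ (V.ρ ⟨g, hg⟩)) (V.τ z)
    simpa [denom] using this
  have hdet : (V.ρ ⟨g, hg⟩ 0 0) * V.ρ ⟨g, hg⟩ 1 1 - V.ρ ⟨g, hg⟩ 0 1 * V.ρ ⟨g, hg⟩ 1 0 = 1 := by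
    have := (V.ρ ⟨g, hg⟩).2
    rwa [Matrix.det_fin_two] at this
  have h4 : ((V.τ (g • z) : ℍ) : ℂ) = ((V.ρ ⟨g, hg⟩ 0 0 : ℤ) * (V.τ z : ℂ) + (V.ρ ⟨g, hg⟩ 0 1 : ℤ)) /
      ((V.ρ ⟨g, hg⟩ 1 0 : ℤ) * (V.τ z : ℂ) + (V.ρ ⟨g, hg⟩ 1 1 : ℤ)) := by
    have := V.τ_equiv ⟨g, hg⟩ z
    simp only at this
    rw [this, coe_specialLinearGroup_apply]
    simp
  unfold Variation.psi
  rw [h3, h4, jForm_smul w _ _ _ _ hdet (V.τ z).im_pos, mul_pow,
    mul_div_mul_left _ _ (pow_ne_zero 12 hd)]

/-- The modular form as a multiple of `j - w`. -/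
theorem jForm_eq (w : ℂ) (t : ℂ) :
    jForm w t = ModularForm.discriminant (ofComplex t) * (jInv (ofComplex t) - w) := by
  unfold jForm jInv
  have := ModularForm.discriminant_ne_zero (ofComplex t)
  field_simp

/-- The local orders of the modular form of weight twelve. -/
theorem Variation.jForm_order (V : Variation X) (w : ℂ) (z : ℍ)
    (hw : jInv (V.τ z) = w → deriv (fun t : ℂ => jInv (V.τ (ofComplex t))) z ≠ 0)
    [Decidable (jInv (V.τ z) = w)] :
    LocOrd (fun t : ℂ => jForm w (V.τ (ofComplex t))) z (if jInv (V.τ z) = w then 1 else 0) := by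
  have hτc : ∀ᶠ t in 𝓝 (z : ℂ), ContinuousAt (fun t : ℂ => (V.τ (ofComplex t) : ℂ)) t := by
    filter_upwards [eventually_im_pos z] with t ht
    exact (differentiableAt_of_coe V.τ_hol ht).continuousAt
  have hfc : ∀ᶠ t in 𝓝 (z : ℂ), ContinuousAt (fun t : ℂ => jForm w (V.τ (ofComplex t))) t := by
    filter_upwards [hτc] with t ht
    exact ContinuousAt.comp (g := jForm w)
      (jForm_differentiableAt w (V.τ (ofComplex t)).im_pos).continuousAt ht
  split_ifs with h
  · have hd := hw h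
    have h1 : LocOrd (fun u : ℂ => u - w) ((fun t : ℂ => jInv (V.τ (ofComplex t))) (z : ℂ)) 1 := by
      refine ⟨fun _ => 1, Eventually.of_forall fun _ => continuousAt_const, one_ne_zero, ?_⟩
      refine Eventually.of_forall fun u => ?_
      simp [h]
    have h2 := h1.comp (φ := fun t : ℂ => jInv (V.τ (ofComplex t))) (w₀ := (z : ℂ)) (by
      filter_upwards [eventually_im_pos z] with t ht
      exact (V.jInv_hasDerivAt ⟨t, ht⟩).differentiableAt) hd
    have h3 : LocOrd (fun t : ℂ => ModularForm.discriminant (V.τ (ofComplex t))) z 0 := by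
      refine LocOrd.of_continuousAt ?_ (by
        simpa using ModularForm.discriminant_ne_zero (V.τ z))
      have hD : ∀ t : ℂ, 0 < t.im →
          DifferentiableAt ℂ (fun w : ℂ => ModularForm.discriminant (ofComplex w)) t := by
        intro t ht
        have h5 := jForm_differentiableAt 0 ht
        have h6 := jForm_differentiableAt 1 ht
        have h7 : (fun w : ℂ => ModularForm.discriminant (ofComplex w)) =
            fun t => jForm 0 t - jForm 1 t := by
          funext s; simp [jForm]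
        rw [h7]
        exact h5.sub h6
      filter_upwards [hτc] with t ht
      have := (hD _ (V.τ (ofComplex t)).im_pos).continuousAt
      have h8 := ContinuousAt.comp (f := fun t : ℂ => (V.τ (ofComplex t) : ℂ))
        (g := fun w : ℂ => ModularForm.discriminant (ofComplex w)) (x := t) this ht
      simpa [Function.comp_def] using h8
    have h4 := h3.mul h2
    rw [zero_add] at h4
    refine h4.congr (Eventually.of_forall fun t => ?_)
    rw [jForm_eq]
    simp
  · refine LocOrd.of_continuousAt hfc ?_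
    rw [ofComplex_apply, Ne, jForm_eq_zero_iff]
    exact h

/-- The local orders of the function on the curve. -/
theorem Variation.psi_order (V : Variation X) (w : ℂ) (z : ℍ)
    (hw : jInv (V.τ z) = w → deriv (fun t : ℂ => jInv (V.τ (ofComplex t))) z ≠ 0) {k : ℤ}
    (hk : LocOrd (fun t : ℂ => V.sec (ofComplex t)) z k) [Decidable (jInv (V.τ z) = w)] :
    LocOrd (fun t : ℂ => V.psi w (ofComplex t)) z (12 * k - if jInv (V.τ z) = w then 1 else 0) := by
  have h5 := (hk.pow 12).mul (V.jForm_order w z hw).inv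
  have h6 : ((12 : ℕ) : ℤ) * k + -(if jInv (V.τ z) = w then 1 else 0) =
      12 * k - if jInv (V.τ z) = w then 1 else 0 := by push_cast; ring
  rw [← h6]
  refine h5.congr (Eventually.of_forall fun t => ?_)
  simp [Variation.psi, div_eq_mul_inv]

/-- Winding numbers at a puncture. -/
theorem Variation.psi_wind (V : Variation X) (hnc : ∃ z w i, V.v z i ≠ V.v w i) {s : ℂ → ℍ} {Y : ℝ}
    (hE : X.IsEnd s Y) : ∃ t₀ : ℍ, ∀ w : ℂ, jInv t₀ ≠ w →
      ∃ (h : ℕ) (n : ℤ), 0 < h ∧ HasWind h (fun ζ => V.psi w (s ζ)) n ∧ h * 0 ≤ n := by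
  obtain ⟨k, hk, p, hp, hper⟩ := X.exists_period hE
  obtain ⟨a, b', c, d, r₀, r₁, D⟩ := V.cdata hnc hE hk hp hper
  obtain ⟨t₀, ht₀, H⟩ := D.wind_modular
  refine ⟨⟨t₀, ht₀⟩, fun w hw => ?_⟩
  obtain ⟨n, hn⟩ := H (jForm w) (fun t ht => (jForm_differentiableAt w ht).continuousAt)
    (fun a b c d hdet t ht => jForm_smul w a b c d hdet ht) (jForm_tendsto w) (by
      have := jForm_eq_zero_iff w ⟨t₀, ht₀⟩
      intro h0
      exact hw (this.1 h0))
  exact ⟨k, n, hk, hn, by simp⟩

/-- The modular invariant along the deck transformations of the curve. -/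
theorem Variation.jInv_smul (V : Variation X) (w : ℂ) (g : X.P) (z : ℍ) :
    jInv (V.τ ((g : SL(2, ℝ)) • z)) = w ↔ jInv (V.τ z) = w := by
  have hdet : (V.ρ g 0 0) * V.ρ g 1 1 - V.ρ g 0 1 * V.ρ g 1 0 = 1 := by
    have := (V.ρ g).2
    rwa [Matrix.det_fin_two] at this
  have h4 : ((V.τ ((g : SL(2, ℝ)) • z) : ℍ) : ℂ) =
      ((V.ρ g 0 0 : ℤ) * (V.τ z : ℂ) + (V.ρ g 0 1 : ℤ)) /
        ((V.ρ g 1 0 : ℤ) * (V.τ z : ℂ) + (V.ρ g 1 1 : ℤ)) := by
    rw [V.τ_equiv g z, coe_specialLinearGroup_apply]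
    simp
  have hd : (V.ρ g 1 0 : ℂ) * (V.τ z : ℂ) + V.ρ g 1 1 ≠ 0 := by
    have := denom_ne_zero (Matrix.SpecialLinearGroup.mapGL ℝ (V.ρ g)) (V.τ z)
    simpa [denom] using this
  rw [← jForm_eq_zero_iff, ← jForm_eq_zero_iff, h4, jForm_smul w _ _ _ _ hdet (V.τ z).im_pos,
    mul_eq_zero]
  exact ⟨fun h => h.resolve_left (pow_ne_zero 12 hd), Or.inr⟩

/-- The modular invariant on points. -/
theorem Variation.mem_fibre (V : Variation X) (w : ℂ) (z : ℍ) :
    (Quotient.mk'' z : X.Pts) ∈ V.fibre w ↔ jInv (V.τ z) = w := by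
  constructor
  · rintro ⟨z', hz', h⟩
    obtain ⟨g, hg⟩ := Quotient.exact' h
    have h1 : (g : SL(2, ℝ)) • z = z' := hg
    rw [← V.jInv_smul w g z, h1]
    exact hz'
  · intro h
    exact ⟨z, h, rfl⟩

/-- The number of points where the variation splits over the reals is at most one twelfth of the
degree of the modular invariant. -/
theorem Variation.modular_bound (V : Variation X) (hnc : ∃ z w i, V.v z i ≠ V.v w i) :
    ∃ C : Set ℂ, C.Countable ∧ ∀ w ∉ C, (V.fibre w).Finite ∧
      12 * ((fun z : ℍ => (Quotient.mk'' z : X.Pts)) '' {z | ∀ i, (V.v z i).im = 0}).encard ≤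
        (V.fibre w).encard := by
  classical
  obtain ⟨E⟩ := X.nonempty_ends
  choose k hk hk0 using fun z => V.gg_order hnc z
  have hlam : ∀ g ∈ X.G, ∀ z : ℍ, X.lam (g • z) = X.lam z := fun g hg z =>
    ((X.lam_fib z (g • z)).2 ⟨g, hg, rfl⟩).symm
  have hEb : ∀ b ∈ X.B, ∀ x ∈ E.R, X.IsEnd (fun ζ => x • E.s b ζ) E.Y := fun b hb x hx =>
    ⟨(E.s_cont b hb).const_smul x, Or.inl ⟨b, hb, fun ζ hζ => by
      rw [hlam x (E.R_mem x hx), E.s_lam b hb ζ hζ]⟩⟩
  have hEi : ∀ x ∈ E.R, X.IsEnd (fun ζ => x • E.s' ζ) E.Y := fun x hx =>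
    ⟨E.s'_cont.const_smul x, Or.inr fun ζ hζ => by
      rw [hlam x (E.R_mem x hx), E.s'_lam ζ hζ]⟩
  choose! t ht using fun b (hb : b ∈ X.B) x (hx : x ∈ E.R) => V.psi_wind hnc (hEb b hb x hx)
  choose! t' ht' using fun x (hx : x ∈ E.R) => V.psi_wind hnc (hEi x hx)
  set C : Set ℂ := {w : ℂ | ∃ z : ℍ, jInv (V.τ z) = w ∧
      deriv (fun t : ℂ => jInv (V.τ (ofComplex t))) z = 0} ∪
    (((X.B ×ˢ E.R).image fun q => jInv (t q.1 q.2) : Finset ℂ) : Set ℂ) ∪
    ((E.R.image fun x => jInv (t' x) : Finset ℂ) : Set ℂ) with hC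
  refine ⟨C, (V.countable_critical.union (Finset.countable_toSet _)).union
    (Finset.countable_toSet _), fun w hw => ?_⟩
  simp only [hC, Set.mem_union, not_or, Set.mem_ofPred_eq, not_exists, not_and, Finset.mem_coe,
    Finset.mem_image, Finset.mem_product, Prod.forall] at hw
  obtain ⟨⟨hw1, hw2⟩, hw3⟩ := hw
  obtain ⟨M, hM, hfin, hsum⟩ := X.count E (V.psi w)
    (fun z => 12 * (k z : ℤ) - if jInv (V.τ z) = w then 1 else 0)
    (fun g hg z => V.psi_smul w g hg z)
    (fun z => V.psi_order w z (fun h => hw1 z h) (hk z))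
    (fun _ => 0) 0
    (fun b hb x hx => ht b hb x hx w fun h => hw2 b x ⟨hb, hx⟩ h)
    (fun x hx => ht' x hx w fun h => hw3 x hx h)
  set S : Set X.Pts := (fun z : ℍ => (Quotient.mk'' z : X.Pts)) '' {z | ∀ i, (V.v z i).im = 0}
    with hS
  have hfib := V.mem_fibre w
  have hF : ∀ q ∈ V.fibre w, M q ≠ 0 := by
    rintro q ⟨z, hz, rfl⟩
    simp only [hM]
    rw [if_pos (show jInv (V.τ z) = w from hz)]
    omega
  have hS1 : ∀ q ∈ S, 12 ≤ M q + (if q ∈ V.fibre w then 1 else 0) := by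
    rintro q ⟨z, hz, rfl⟩
    have h1 : 0 < k z := (hk0 z).2 hz
    simp only [hM, hfib]
    split_ifs <;> omega
  have hA : ∀ q : X.Pts, 0 ≤ M q + (if q ∈ V.fibre w then 1 else 0) := by
    intro q
    induction q using Quotient.inductionOn' with
    | h z =>
      rw [hM]
      simp only [hfib]
      split_ifs <;> omega
  have hfinF : (V.fibre w).Finite := hfin.subset fun q hq => hF q hq
  have hSsub : S ⊆ Function.support M := by
    intro q hq
    have := hS1 q hq
    simp only [Function.mem_support]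
    split_ifs at this <;> omega
  have hSfin : S.Finite := hfin.subset hSsub
  refine ⟨hfinF, ?_⟩
  have h1 : (12 : ℤ) * S.ncard ≤ ∑ᶠ q, M q + (V.fibre w).ncard := by
    rw [finsum_eq_sum_of_support_toFinset_subset M hfin (s := hfin.toFinset) (by simp)]
    have h2 : ((V.fibre w).ncard : ℤ) =
        ∑ q ∈ hfin.toFinset, (if q ∈ V.fibre w then (1 : ℤ) else 0) := by
      rw [Finset.sum_ite, Finset.sum_const_zero, add_zero, Finset.sum_const, nsmul_eq_mul, mul_one]
      rw [Set.ncard_eq_toFinset_card _ hfinF]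
      congr 2
      ext q
      simp only [Set.Finite.mem_toFinset, Finset.mem_filter]
      exact ⟨fun h => ⟨hF q h, h⟩, fun h => h.2⟩
    rw [h2, ← Finset.sum_add_distrib, Set.ncard_eq_toFinset_card S hSfin]
    calc (12 : ℤ) * (hSfin.toFinset.card : ℤ) = ∑ q ∈ hSfin.toFinset, 12 := by
          rw [Finset.sum_const, nsmul_eq_mul]; ring
      _ ≤ ∑ q ∈ hSfin.toFinset, (M q + if q ∈ V.fibre w then (1 : ℤ) else 0) :=
          Finset.sum_le_sum fun q hq => hS1 q (by simpa using hq)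
      _ ≤ ∑ q ∈ hfin.toFinset, (M q + if q ∈ V.fibre w then (1 : ℤ) else 0) := by
          refine Finset.sum_le_sum_of_subset_of_nonneg ?_ fun q _ _ => hA q
          intro q hq
          simp only [Set.Finite.mem_toFinset] at hq ⊢
          exact hSsub hq
  have h2 : (12 : ℤ) * S.ncard ≤ (V.fibre w).ncard := by
    have h3 : ∑ᶠ q, M q ≤ 0 := by simpa using hsum
    linarith
  have h5 : 12 * S.ncard ≤ (V.fibre w).ncard := by exact_mod_cast h2
  rw [← hSfin.cast_ncard_eq, ← hfinF.cast_ncard_eq]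
  exact_mod_cast h5

end Pool.Agent.LibUB33
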