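import Pool.Agent.LibUB33.LocOrd
import Pool.Agent.LibRk3.PerGrowth

/-!
# Periodic holomorphic functions on a half plane
-/

open Filter Topology

namespace Pool.Agent.LibUB33

namespace PerA94

theorem norm_ee_div (h : ℕ) (z : ℂ) :
    ‖ee (z / h)‖ = Real.exp (-(2 * Real.pi / h) * z.im) := by
  rw [ee, Complex.norm_exp]
  congr 1
  have h1 : 2 * (Real.pi : ℂ) * Complex.I * (z / h) =
      ((2 * Real.pi / h : ℝ) : ℂ) * (Complex.I * z) := by
    push_cast
    ring
  rw [h1, Complex.re_ofReal_mul, Complex.I_mul_re]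
  ring

end PerA94

open PerA94

/-- Functions of `q` at `i∞`. -/
theorem tendsto_ee {h : ℕ} (hh : 0 < h) :
    Tendsto (fun z : ℂ => ee (z / h)) (comap Complex.im atTop) (𝓝[≠] 0) := by
  rw [tendsto_nhdsWithin_iff]
  constructor
  · rw [tendsto_zero_iff_norm_tendsto_zero]
    simp only [norm_ee_div]
    have hp : 0 < 2 * Real.pi / h := by positivity
    have h1 : Tendsto (fun y : ℝ => Real.exp (-(2 * Real.pi / h) * y)) atTop (𝓝 0) := by
      apply Real.tendsto_exp_atBot.comp
      exact tendsto_id.const_mul_atTop_of_neg (by linarith)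
    exact h1.comp tendsto_comap
  · exact Eventually.of_forall fun z => Complex.exp_ne_zero _

/-- A periodic holomorphic function of moderate growth is a holomorphic function of
`q = exp(2πiz/h)`, also at `q = 0`. -/
theorem exists_of_growth {h : ℕ} (hh : 0 < h) {Y : ℝ} {f : ℂ → ℂ}
    (hf : ∀ z : ℂ, Y < z.im → DifferentiableAt ℂ f z)
    (hper : ∀ z : ℂ, Y < z.im → f (z + h) = f z) (C : ℝ) (N : ℕ)
    (hg : ∀ z : ℂ, |z.re| ≤ h → Y < z.im → ‖f z‖ ≤ C * (1 + |z.im|) ^ N) :
    ∃ F : ℂ → ℂ, AnalyticAt ℂ F 0 ∧ ∃ Y' : ℝ, ∀ z : ℂ, Y' < z.im → f z = F (ee (z / h)) := by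
  have hh1 : (1 : ℝ) ≤ h := by exact_mod_cast hh
  have hh0 : (0 : ℝ) < h := by linarith
  have hhc : (h : ℂ) ≠ 0 := by
    rw [Nat.cast_ne_zero]
    omega
  set Y1 : ℝ := |Y| + 1 with hY1
  have hYY : Y < Y1 := by
    have := le_abs_self Y
    linarith
  have hY0 : 0 < Y1 := by positivity
  have him : ∀ z : ℂ, ((h : ℂ) * z + Complex.I * Y1).im = h * z.im + Y1 := by
    intro z
    simp
  have hre : ∀ z : ℂ, ((h : ℂ) * z + Complex.I * Y1).re = h * z.re := by
    intro z
    simp
  have hlt : ∀ z : ℂ, 0 < z.im → Y < ((h : ℂ) * z + Complex.I * Y1).im := by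
    intro z hz
    rw [him]
    nlinarith
  obtain ⟨F1, hF1, hF2⟩ := Pool.Agent.LibRk3.exists_of_periodic
    (f := fun z => f ((h : ℂ) * z + Complex.I * Y1))
    (by
      intro z hz
      have h1 := hf _ (hlt z hz)
      exact h1.comp z (by fun_prop))
    (by
      intro z hz
      have h1 := hper _ (hlt z hz)
      have h2 : (h : ℂ) * (z + 1) + Complex.I * Y1 = (h : ℂ) * z + Complex.I * Y1 + h := by ring
      simp only [h2]
      exact h1)
    (|C| * (1 + h + Y1) ^ N) N
    (by
      intro z hz hz1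
      have h1 := hg ((h : ℂ) * z + Complex.I * Y1) (by
        rw [hre, abs_mul, abs_of_pos hh0]
        nlinarith) (hlt z (by linarith))
      refine h1.trans ?_
      rw [him, mul_assoc, ← mul_pow]
      have h2 : 0 ≤ h * z.im + Y1 := by positivity
      rw [abs_of_nonneg h2]
      have h3 : (1 + (h * z.im + Y1)) ^ N ≤ ((1 + h + Y1) * z.im) ^ N := by
        apply pow_le_pow_left₀ (by linarith)
        nlinarith
      calc C * (1 + (h * z.im + Y1)) ^ N ≤ |C| * (1 + (h * z.im + Y1)) ^ N := by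
            gcongr
            exact le_abs_self C
        _ ≤ |C| * ((1 + h + Y1) * z.im) ^ N := by gcongr)
  refine ⟨fun q => F1 (q * Complex.exp (2 * Real.pi * Y1 / h)), ?_, Y1, ?_⟩
  · have h1 : AnalyticAt ℂ F1 ((fun q : ℂ => q * Complex.exp (2 * Real.pi * Y1 / h)) 0) := by
      simp only [zero_mul]
      exact hF1.analyticAt (Metric.ball_mem_nhds 0 one_pos)
    exact h1.comp (f := fun q : ℂ => q * Complex.exp (2 * Real.pi * Y1 / h)) (by fun_prop)
  · intro z hz
    have h1 : 0 < ((z - Complex.I * Y1) / h).im := by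
      have h2 : ((z - Complex.I * Y1) / h).im = (z.im - Y1) / h := by
        rw [← Complex.ofReal_natCast, Complex.div_ofReal_im]
        simp
      rw [h2]
      apply div_pos _ hh0
      linarith
    have h3 := hF2 _ h1
    have h4 : (h : ℂ) * ((z - Complex.I * Y1) / h) + Complex.I * Y1 = z := by
      field_simp
      ring
    simp only [h4] at h3
    rw [h3]
    congr 1
    rw [ee, ← Complex.exp_add]
    congr 1
    field_simp
    ring_nf
    rw [Complex.I_sq]
    ring

end Pool.Agent.LibUB33
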