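import Pool.Agent.LibUB33.PerA

/-!
# Periodic holomorphic functions on a half plane
-/

open Filter Topology

namespace Pool.Agent.LibUB33

namespace PerB94

theorem preconn (Y : ℝ) : IsPreconnected {z : ℂ | Y < z.im} :=
  (convex_halfSpace_im_gt Y).isPreconnected

theorem int_const {S : Set ℂ} (hS : IsPreconnected S) {ψ : ℂ → ℝ} (hψ : ContinuousOn ψ S)
    (h : ∀ z ∈ S, ∃ n : ℤ, ψ z = n) {z w : ℂ} (hz : z ∈ S) (hw : w ∈ S) : ψ z ≤ ψ w := by
  by_contra hcon
  push Not at hcon
  have hord := (hS.image ψ hψ).ordConnected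
  obtain ⟨a, ha⟩ := h w hw
  obtain ⟨b, hb⟩ := h z hz
  have hab : a < b := by
    rw [ha, hb] at hcon
    exact_mod_cast hcon
  have hab1 : (a : ℝ) + 1 ≤ b := by exact_mod_cast hab
  have hmem : (a : ℝ) + 1 / 2 ∈ ψ '' S := by
    refine hord.out ⟨w, hw, rfl⟩ ⟨z, hz, rfl⟩ ⟨?_, ?_⟩
    · rw [ha]
      linarith
    · rw [hb]
      linarith
  obtain ⟨u, hu, hu1⟩ := hmem
  obtain ⟨c, hc⟩ := h u hu
  rw [hc] at hu1
  have h2 : (2 : ℝ) * c = 2 * a + 1 := by linarith
  have h3 : (2 : ℤ) * c = 2 * a + 1 := by exact_mod_cast h2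
  omega

/-- A continuous function on a half plane with exponential one is constant. -/
theorem const_of_exp {Y : ℝ} {φ : ℂ → ℂ} (hφ : ContinuousOn φ {z | Y < z.im})
    (h : ∀ z : ℂ, Y < z.im → Complex.exp (φ z) = 1) :
    ∃ n : ℤ, ∀ z : ℂ, Y < z.im → φ z = n * (2 * Real.pi * Complex.I) := by
  have h1 : ∀ z : ℂ, Y < z.im → ∃ n : ℤ, φ z = n * (2 * Real.pi * Complex.I) :=
    fun z hz => Complex.exp_eq_one_iff.mp (h z hz)
  have himz : ∀ n : ℤ, ((n : ℂ) * (2 * Real.pi * Complex.I)).im / (2 * Real.pi) = n := by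
    intro n
    have h2 : ((n : ℂ) * (2 * Real.pi * Complex.I)).im = n * (2 * Real.pi) := by
      simp
    rw [h2]
    have hpi : (2 * Real.pi : ℝ) ≠ 0 := by positivity
    field_simp
  have hz0 : Y < (((Y + 1 : ℝ) : ℂ) * Complex.I).im := by simp
  obtain ⟨n, hn⟩ := h1 _ hz0
  have hψ : ContinuousOn (fun z => (φ z).im / (2 * Real.pi)) {z | Y < z.im} :=
    (Complex.continuous_im.comp_continuousOn hφ).div_const _
  have hint : ∀ z ∈ {z : ℂ | Y < z.im}, ∃ n : ℤ, (φ z).im / (2 * Real.pi) = n := by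
    intro z hz
    obtain ⟨m, hm⟩ := h1 z hz
    exact ⟨m, by rw [hm, himz]⟩
  refine ⟨n, fun z hz => ?_⟩
  have h3 := int_const (preconn Y) hψ hint hz hz0
  have h4 := int_const (preconn Y) hψ hint hz0 hz
  have h5 := le_antisymm h3 h4
  obtain ⟨m, hm⟩ := h1 z hz
  simp only [hm, hn, himz] at h5
  rw [hm, Int.cast_injective h5]

end PerB94

open PerB94

/-- The same with a one-sided bound for the imaginary part. -/
theorem exists_of_im_ge {h : ℕ} (hh : 0 < h) {Y : ℝ} {f : ℂ → ℂ}
    (hf : ∀ z : ℂ, Y < z.im → DifferentiableAt ℂ f z)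
    (hper : ∀ z : ℂ, Y < z.im → f (z + h) = f z) (C : ℝ)
    (hg : ∀ z : ℂ, Y < z.im → - (C * (1 + |z.im|)) ≤ (f z).im) :
    ∃ F : ℂ → ℂ, AnalyticAt ℂ F 0 ∧ ∃ Y' : ℝ, ∀ z : ℂ, Y' < z.im → f z = F (ee (z / h)) := by
  have hh0 : (0 : ℝ) < h := by exact_mod_cast hh
  have hhc : (h : ℂ) ≠ 0 := by
    rw [Nat.cast_ne_zero]
    omega
  have hpi := Real.pi_pos
  set s : ℝ := Real.pi / (h * (|C| + 1)) with hs
  have hs0 : 0 < s := by positivity
  have hsC : s * |C| ≤ Real.pi / h := by
    rw [hs, div_mul_eq_mul_div, div_le_div_iff₀ (by positivity) hh0]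
    nlinarith [abs_nonneg C]
  have hsc : (s : ℂ) * Complex.I ≠ 0 :=
    mul_ne_zero (by exact_mod_cast hs0.ne') Complex.I_ne_zero
  -- the auxiliary function
  have hnorm : ∀ z : ℂ, ‖Complex.exp (s * Complex.I * f z) * ee (z / h)‖ =
      Real.exp (-(s * (f z).im) - (2 * Real.pi / h) * z.im) := by
    intro z
    rw [norm_mul, PerA94.norm_ee_div, Complex.norm_exp, ← Real.exp_add]
    congr 1
    have h1 : ((s : ℂ) * Complex.I * f z).re = -(s * (f z).im) := by
      rw [mul_assoc, Complex.re_ofReal_mul, Complex.I_mul_re]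
      ring
    rw [h1]
    ring
  have hee : ∀ z : ℂ, ee ((z + h) / h) = ee (z / h) := by
    intro z
    have h1 : 2 * (Real.pi : ℂ) * Complex.I * ((z + h) / h) =
        2 * Real.pi * Complex.I * (z / h) + 2 * Real.pi * Complex.I := by
      field_simp
    rw [ee, h1, Complex.exp_add, Complex.exp_two_pi_mul_I, mul_one]
    rfl
  obtain ⟨F2, hF2, Y2, hF2eq⟩ := exists_of_growth hh (Y := max Y 0)
    (f := fun z => Complex.exp (s * Complex.I * f z) * ee (z / h))
    (by
      intro z hz
      have h1 := hf z (lt_of_le_of_lt (le_max_left _ _) hz)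
      have h2 : DifferentiableAt ℂ (fun z : ℂ => Complex.exp (s * Complex.I * f z)) z :=
        (h1.const_mul _).cexp
      have h3 : DifferentiableAt ℂ (fun z : ℂ => ee (z / h)) z := by
        unfold ee
        fun_prop
      exact h2.mul h3)
    (by
      intro z hz
      simp only [hper z (lt_of_le_of_lt (le_max_left _ _) hz), hee])
    (Real.exp (s * |C|)) 0
    (by
      intro z _ hz
      rw [pow_zero, mul_one, hnorm]
      apply Real.exp_le_exp.mpr
      have hz0 : 0 < z.im := lt_of_le_of_lt (le_max_right _ _) hz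
      have h1 := hg z (lt_of_le_of_lt (le_max_left _ _) hz)
      rw [abs_of_pos hz0] at h1
      have h2 : C * (1 + z.im) ≤ |C| * (1 + z.im) := by
        gcongr
        exact le_abs_self C
      have h3 : -(s * (f z).im) ≤ s * (|C| * (1 + z.im)) := by
        have : -(f z).im ≤ |C| * (1 + z.im) := by linarith
        nlinarith
      have h4 : s * |C| * z.im ≤ Real.pi / h * z.im := by gcongr
      have h5 : 2 * Real.pi / h * z.im = 2 * (Real.pi / h * z.im) := by ring
      have h6 : 0 ≤ Real.pi / h * z.im := by positivity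
      nlinarith)
  have hne : ¬ ∀ᶠ q in 𝓝 (0 : ℂ), F2 q = 0 := by
    intro hcon
    have h1 : ∀ᶠ z in comap Complex.im atTop, F2 (ee (z / h)) = 0 :=
      ((tendsto_ee hh).mono_right nhdsWithin_le_nhds).eventually hcon
    have h2 : ∀ᶠ z in comap Complex.im atTop, Y2 < z.im :=
      tendsto_comap.eventually (eventually_gt_atTop Y2)
    have hbot : (comap Complex.im atTop : Filter ℂ).NeBot :=
      comap_neBot_iff_frequently.mpr (Frequently.of_forall fun y => ⟨y * Complex.I, by simp⟩)
    obtain ⟨z, hz1, hz2⟩ := (h1.and h2).exists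
    rw [← hF2eq z hz2] at hz1
    exact mul_ne_zero (Complex.exp_ne_zero _) (Complex.exp_ne_zero _) hz1
  obtain ⟨k, K, hK, hK0, hKeq⟩ := hF2.exists_eventuallyEq_pow_smul_nonzero_iff.mpr hne
  -- the logarithm of `K`
  have hlog : ∀ᶠ q in 𝓝 (0 : ℂ), K q / K 0 ∈ Complex.slitPlane ∧ AnalyticAt ℂ K q := by
    have h1 : Tendsto (fun q => K q / K 0) (𝓝 0) (𝓝 1) := by
      have := hK.continuousAt.tendsto.div_const (K 0)
      rwa [div_self hK0] at this
    have h2 := h1.eventually (Complex.isOpen_slitPlane.mem_nhds Complex.one_mem_slitPlane)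
    exact h2.and hK.eventually_analyticAt
  have hev : ∀ᶠ z in comap Complex.im atTop,
      (K (ee (z / h)) / K 0 ∈ Complex.slitPlane ∧ AnalyticAt ℂ K (ee (z / h))) ∧
        F2 (ee (z / h)) = (ee (z / h) - 0) ^ k • K (ee (z / h)) :=
    ((tendsto_ee hh).mono_right nhdsWithin_le_nhds).eventually (hlog.and hKeq)
  obtain ⟨U, hU, hUsub⟩ := mem_comap.mp hev
  obtain ⟨Y3, hY3⟩ := mem_atTop_sets.mp hU
  set Y4 := max (max Y2 Y3) Y with hY4
  have h2 : ∀ z : ℂ, Y4 < z.im → Y2 < z.im := fun z hz =>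
    lt_of_le_of_lt ((le_max_left _ _).trans (le_max_left _ _)) hz
  have hY : ∀ z : ℂ, Y4 < z.im → Y < z.im := fun z hz => lt_of_le_of_lt (le_max_right _ _) hz
  have h3 : ∀ z : ℂ, Y4 < z.im →
      (K (ee (z / h)) / K 0 ∈ Complex.slitPlane ∧ AnalyticAt ℂ K (ee (z / h))) ∧
        F2 (ee (z / h)) = (ee (z / h) - 0) ^ k • K (ee (z / h)) := by
    intro z hz
    apply hUsub
    apply hY3
    exact ((le_max_right _ _).trans (le_max_left _ _)).trans hz.le
  have hcee : Continuous fun z : ℂ => ee (z / h) := by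
    unfold ee
    fun_prop
  obtain ⟨n, hn⟩ := const_of_exp (Y := Y4)
    (φ := fun z => s * Complex.I * f z + 2 * Real.pi * Complex.I * (z / h) -
      k * (2 * Real.pi * Complex.I * (z / h)) - Complex.log (K 0) -
      Complex.log (K (ee (z / h)) / K 0))
    (by
      intro z hz
      apply ContinuousAt.continuousWithinAt
      have c1 : ContinuousAt f z := (hf z (hY z hz)).continuousAt
      have c2 : ContinuousAt (fun z : ℂ => K (ee (z / h)) / K 0) z := by
        have := (h3 z hz).1.2.continuousAt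
        exact (ContinuousAt.comp (g := K) (f := fun z : ℂ => ee (z / h)) this
          hcee.continuousAt).div_const _
      have c3 : ContinuousAt (fun z : ℂ => Complex.log (K (ee (z / h)) / K 0)) z :=
        c2.clog (h3 z hz).1.1
      have c4 : ContinuousAt (fun z : ℂ => 2 * (Real.pi : ℂ) * Complex.I * (z / h)) z := by
        fun_prop
      exact ((((continuousAt_const.mul c1).add c4).sub (continuousAt_const.mul c4)).sub
        continuousAt_const).sub c3)
    (by
      intro z hz
      have hd : K (ee (z / h)) / K 0 ≠ 0 := Complex.slitPlane_ne_zero (h3 z hz).1.1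
      have h4 := hF2eq z (h2 z hz)
      rw [(h3 z hz).2, sub_zero, smul_eq_mul] at h4
      rw [Complex.exp_sub, Complex.exp_sub, Complex.exp_sub, Complex.exp_add,
        Complex.exp_log hd, Complex.exp_log hK0, Complex.exp_nat_mul]
      change Complex.exp (s * Complex.I * f z) * ee (z / h) / ee (z / h) ^ k / K 0 /
        (K (ee (z / h)) / K 0) = 1
      rw [h4]
      have h5 : ee (z / h) ^ k ≠ 0 := pow_ne_zero _ (Complex.exp_ne_zero _)
      have h6 : K (ee (z / h)) ≠ 0 := (div_ne_zero_iff.mp hd).1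
      field_simp)
  -- the exponent is one
  have hk1 : (k : ℂ) = 1 := by
    have hz : Y4 < (((Y4 + 1 : ℝ) : ℂ) * Complex.I).im := by simp
    set z := ((Y4 + 1 : ℝ) : ℂ) * Complex.I
    have hz' : Y4 < (z + h).im := by simpa using hz
    have e1 := hn z hz
    have e2 := hn (z + h) hz'
    simp only [hper z (hY z hz), hee] at e2
    have e3 : (z + h) / h = z / h + 1 := by
      field_simp
    rw [e3] at e2
    have e4 : 2 * (Real.pi : ℂ) * Complex.I * (1 - k) = 0 := by linear_combination e2 - e1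
    have e5 : 2 * (Real.pi : ℂ) * Complex.I ≠ 0 := Complex.two_pi_I_ne_zero
    have e6 := (mul_eq_zero.mp e4).resolve_left e5
    linear_combination -e6
  refine ⟨fun q => (n * (2 * Real.pi * Complex.I) + Complex.log (K 0) +
    Complex.log (K q / K 0)) / (s * Complex.I), ?_, Y4, ?_⟩
  · have h4 : AnalyticAt ℂ (fun q => Complex.log (K q / K 0)) 0 := by
      apply AnalyticAt.clog (hK.div analyticAt_const hK0)
      have h5 : K 0 / K 0 = 1 := div_self hK0
      change K 0 / K 0 ∈ Complex.slitPlane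
      rw [h5]
      exact Complex.one_mem_slitPlane
    exact (analyticAt_const.add h4).div analyticAt_const hsc
  · intro z hz
    have e1 := hn z hz
    rw [hk1] at e1
    simp only
    rw [eq_div_iff hsc]
    linear_combination e1

end Pool.Agent.LibUB33
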