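import Pool.Agent.LibUB33.PerB
import Pool.Agent.LibRk3.SchwarzB

/-!
# Periodic holomorphic functions on a half plane
-/

open Filter Topology

namespace Pool.Agent.LibUB33

namespace PerC94

/-- every small nonzero number is a value of `q` -/
theorem ee_surj {h : ℕ} (hh : 0 < h) (Y : ℝ) :
    ∀ᶠ q in 𝓝[≠] (0 : ℂ), ∃ z : ℂ, Y < z.im ∧ ee (z / h) = q := by
  have hh0 : (0 : ℝ) < h := by exact_mod_cast hh
  have hhc : (h : ℂ) ≠ 0 := by
    rw [Nat.cast_ne_zero]
    omega
  have hpc : (2 : ℂ) * Real.pi * Complex.I ≠ 0 := Complex.two_pi_I_ne_zero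
  have h1 : ∀ᶠ q in 𝓝[≠] (0 : ℂ), ‖q‖ < Real.exp (-(2 * Real.pi / h * Y)) := by
    have h2 : ∀ᶠ q in 𝓝 (0 : ℂ), ‖q‖ < Real.exp (-(2 * Real.pi / h * Y)) := by
      filter_upwards [Metric.ball_mem_nhds (0 : ℂ) (Real.exp_pos (-(2 * Real.pi / h * Y)))] with q hq
      simpa using hq
    exact h2.filter_mono nhdsWithin_le_nhds
  filter_upwards [h1, self_mem_nhdsWithin] with q hq hq0
  have hq0' : q ≠ 0 := hq0
  refine ⟨h * (Complex.log q / (2 * Real.pi * Complex.I)), ?_, ?_⟩
  · have h3 : (h : ℂ) * (Complex.log q / (2 * Real.pi * Complex.I)) =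
        ((h / (2 * Real.pi) : ℝ) : ℂ) * (-(Complex.I * Complex.log q)) := by
      push_cast
      field_simp
      rw [Complex.I_sq]
      ring
    rw [h3, Complex.im_ofReal_mul, Complex.neg_im, Complex.I_mul_im, Complex.log_re]
    have h4 : Real.log ‖q‖ < -(2 * Real.pi / h * Y) := by
      have h5 := Real.log_lt_log (norm_pos_iff.mpr hq0') hq
      rwa [Real.log_exp] at h5
    have hpi := Real.pi_pos
    have h6 : Y = h / (2 * Real.pi) * (2 * Real.pi / h * Y) := by
      field_simp
    rw [h6]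
    apply mul_lt_mul_of_pos_left _ (by positivity)
    linarith
  · rw [ee, mul_div_cancel_left₀ _ hhc, mul_div_cancel₀ _ hpc, Complex.exp_log hq0']

end PerC94

open PerC94

/-- The period of an elliptic curve at a puncture with unipotent monodromy. -/
theorem period_at_cusp {h : ℕ} (hh : 0 < h) {Y : ℝ} {T : ℂ → ℂ}
    (hT : ∀ z : ℂ, Y < z.im → DifferentiableAt ℂ T z) (hpos : ∀ z : ℂ, Y < z.im → 0 < (T z).im)
    (m : ℤ) (hper : ∀ z : ℂ, Y < z.im → T (z + h) = T z + m) :
    0 ≤ m ∧ ∃ F : ℂ → ℂ, AnalyticAt ℂ F 0 ∧ (m = 0 → 0 < (F 0).im) ∧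
      ∃ Y' : ℝ, ∀ z : ℂ, Y' < z.im → T z = m * (z / h) + F (ee (z / h)) := by
  have hh0 : (0 : ℝ) < h := by exact_mod_cast hh
  have hhc : (h : ℂ) ≠ 0 := by
    rw [Nat.cast_ne_zero]
    omega
  have himd : ∀ z : ℂ, ((m : ℂ) * (z / h)).im = m / h * z.im := by
    intro z
    have h1 : (m : ℂ) * (z / h) = (((m : ℝ) / h : ℝ) : ℂ) * z := by
      push_cast
      ring
    rw [h1, Complex.im_ofReal_mul]
  obtain ⟨F, hF, Y', hFeq⟩ := exists_of_im_ge hh (Y := Y) (f := fun z => T z - m * (z / h))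
    (by
      intro z hz
      exact (hT z hz).sub (by fun_prop))
    (by
      intro z hz
      simp only [hper z hz]
      field_simp
      ring)
    (|(m : ℝ)| / h)
    (by
      intro z hz
      have h1 := hpos z hz
      simp only [Complex.sub_im, himd]
      have h2 : (m : ℝ) / h * z.im ≤ |(m : ℝ)| / h * |z.im| := by
        calc (m : ℝ) / h * z.im ≤ |(m : ℝ) / h * z.im| := le_abs_self _
          _ = |(m : ℝ)| / h * |z.im| := by
            rw [abs_mul, abs_div, abs_of_pos hh0]
      have h3 : 0 ≤ |(m : ℝ)| / h := by positivity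
      nlinarith)
  have hTend : Tendsto (fun z : ℂ => F (ee (z / h))) (comap Complex.im atTop) (𝓝 (F 0)) :=
    hF.continuousAt.tendsto.comp ((tendsto_ee hh).mono_right nhdsWithin_le_nhds)
  have hTim : Tendsto (fun z : ℂ => (F (ee (z / h))).im) (comap Complex.im atTop)
      (𝓝 (F 0).im) := (Complex.continuous_im.tendsto _).comp hTend
  have hbot : (comap Complex.im atTop : Filter ℂ).NeBot :=
    comap_neBot_iff_frequently.mpr (Frequently.of_forall fun y => ⟨y * Complex.I, by simp⟩)
  have hev : ∀ R : ℝ, ∀ᶠ z in comap Complex.im atTop, R < z.im :=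
    fun R => tendsto_comap.eventually (eventually_gt_atTop R)
  have hm : 0 ≤ m := by
    by_contra hcon
    push Not at hcon
    have hm1 : (m : ℝ) ≤ -1 := by exact_mod_cast (show m ≤ -1 by omega)
    -- the imaginary part is unbounded
    have h1 : ∀ᶠ z in comap Complex.im atTop, (F (ee (z / h))).im < (F 0).im + 1 :=
      hTim.eventually (eventually_lt_nhds (by linarith))
    obtain ⟨z, hz1, hz2⟩ := (h1.and (hev (max (max Y Y') (max 0 (h * ((F 0).im + 1)))))).exists
    have hzY : Y < z.im := lt_of_le_of_lt ((le_max_left _ _).trans (le_max_left _ _)) hz2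
    have hzY' : Y' < z.im := lt_of_le_of_lt ((le_max_right _ _).trans (le_max_left _ _)) hz2
    have hz0 : 0 < z.im := lt_of_le_of_lt ((le_max_left _ _).trans (le_max_right _ _)) hz2
    have hzh : h * ((F 0).im + 1) < z.im :=
      lt_of_le_of_lt ((le_max_right _ _).trans (le_max_right _ _)) hz2
    rw [← hFeq z hzY', Complex.sub_im, himd] at hz1
    have h2 := hpos z hzY
    have h3 : (F 0).im + 1 < z.im / h := by
      rw [lt_div_iff₀ hh0]
      linarith
    have h4 : (m : ℝ) / h * z.im ≤ -(z.im / h) := by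
      have h5 : 0 ≤ z.im / h := by positivity
      have h6 : (m : ℝ) / h * z.im = m * (z.im / h) := by ring
      rw [h6]
      nlinarith
    linarith
  refine ⟨hm, F, hF, ?_, Y', ?_⟩
  · intro hm0
    have hq : ∀ᶠ q in 𝓝[≠] (0 : ℂ), 0 < (F q).im := by
      filter_upwards [ee_surj hh (max Y Y')] with q hq
      obtain ⟨z, hz, rfl⟩ := hq
      have h1 := hFeq z (lt_of_le_of_lt (le_max_right _ _) hz)
      rw [← h1, Complex.sub_im, himd, hm0]
      have := hpos z (lt_of_le_of_lt (le_max_left _ _) hz)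
      simpa using this
    have hge : 0 ≤ (F 0).im := by
      refine ge_of_tendsto hTim ?_
      exact ((tendsto_ee hh).eventually hq).mono fun z hz => hz.le
    rcases hge.lt_or_eq with h1 | h1
    · exact h1
    · exfalso
      rcases hF.eventually_constant_or_nhds_le_map_nhds with h2 | h2
      · have h3 : ∀ᶠ q in 𝓝[≠] (0 : ℂ), F q = F 0 := h2.filter_mono nhdsWithin_le_nhds
        obtain ⟨q, hq1, hq2⟩ := (h3.and hq).exists
        rw [hq1] at hq2
        linarith
      · have h3 : {q : ℂ | q ≠ 0 → 0 < (F q).im} ∈ 𝓝 (0 : ℂ) := by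
          have := eventually_nhdsWithin_iff.mp hq
          filter_upwards [this] with q hq hq0
          exact hq hq0
        have h4 : F '' {q : ℂ | q ≠ 0 → 0 < (F q).im} ∈ 𝓝 (F 0) := h2 (image_mem_map h3)
        have h5 : Tendsto (fun t : ℝ => F 0 - t * Complex.I) (𝓝 0) (𝓝 (F 0)) := by
          have : Continuous fun t : ℝ => F 0 - t * Complex.I := by fun_prop
          have h6 := this.tendsto 0
          simpa using h6
        have h6 : ∀ᶠ t : ℝ in 𝓝[>] 0,
            F 0 - t * Complex.I ∈ F '' {q : ℂ | q ≠ 0 → 0 < (F q).im} :=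
          (h5.eventually h4).filter_mono nhdsWithin_le_nhds
        obtain ⟨t, ht, ht0⟩ := (h6.and self_mem_nhdsWithin).exists
        have ht0' : 0 < t := ht0
        obtain ⟨q, hq1, hq2⟩ := ht
        have h7 : (F q).im = -t := by
          rw [hq2]
          simp [← h1]
        by_cases hq0 : q = 0
        · rw [hq0, ← h1] at h7
          linarith
        · have := hq1 hq0
          linarith
  · intro z hz
    have h1 := hFeq z hz
    rw [← h1]
    ring

/-- The monodromy at a puncture is not hyperbolic. -/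
theorem trace_sq_le {h : ℕ} (hh : 0 < h) {Y : ℝ} {T : ℂ → ℂ}
    (hT : ∀ z : ℂ, Y < z.im → DifferentiableAt ℂ T z) (hpos : ∀ z : ℂ, Y < z.im → 0 < (T z).im)
    (a b c d : ℤ) (hdet : a * d - b * c = 1)
    (hper : ∀ z : ℂ, Y < z.im → T (z + h) * (c * T z + d) = a * T z + b) :
    (a + d) ^ 2 ≤ 4 := by
  have hh0 : (0 : ℝ) < h := by exact_mod_cast hh
  have him : ∀ z : ℂ, ((h : ℂ) * z + Complex.I * Y).im = h * z.im + Y := by
    intro z
    simp
  have hlt : ∀ z : ℂ, 0 < z.im → Y < ((h : ℂ) * z + Complex.I * Y).im := by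
    intro z hz
    rw [him]
    nlinarith
  refine Pool.Agent.LibRk3.trace_sq_le (T := fun z => T ((h : ℂ) * z + Complex.I * Y)) ?_ ?_
    a b c d hdet ?_
  · intro z hz
    exact (hT _ (hlt z hz)).comp z (by fun_prop)
  · intro z hz
    exact hpos _ (hlt z hz)
  · intro z hz
    have h1 : (h : ℂ) * (z + 1) + Complex.I * Y = (h : ℂ) * z + Complex.I * Y + h := by ring
    simp only [h1]
    exact hper _ (hlt z hz)

end Pool.Agent.LibUB33
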