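import Pool.Agent.LibUB33.Wind

/-!
# Continuous functions on a punctured plane
-/

open Filter Topology

namespace Pool.Agent.LibUB33

private theorem pl_ee_cont : Continuous ee := by
  unfold ee
  fun_prop

private theorem pl_ee_add (a b : ℂ) : ee (a + b) = ee a * ee b := by
  simp [ee, mul_add, Complex.exp_add]

private theorem pl_ee_one : ee 1 = 1 := by
  rw [ee, mul_one]; exact Complex.exp_two_pi_mul_I

private theorem pl_ee_ne (a : ℂ) : ee a ≠ 0 := Complex.exp_ne_zero _

private theorem pl_norm_ee (z : ℂ) : ‖ee z‖ = Real.exp (-(2 * Real.pi * z.im)) := by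
  rw [ee, Complex.norm_exp]
  congr 1
  simp

private theorem pl_ee_log {w : ℂ} (hw : w ≠ 0) :
    ee (Complex.log w / (2 * Real.pi * Complex.I)) = w := by
  rw [ee, mul_div_cancel₀ _ Complex.two_pi_I_ne_zero, Complex.exp_log hw]

private theorem pl_ee_eq {a b : ℂ} (h : ee a = ee b) : ∃ k : ℤ, a = b + k := by
  obtain ⟨k, hk⟩ := Complex.exp_eq_exp_iff_exists_int.1 h
  refine ⟨k, ?_⟩
  have := Complex.two_pi_I_ne_zero
  apply mul_left_cancel₀ this
  rw [hk]; ring

private theorem pl_base_log (H : ℂ → ℂ) (hc : Continuous H) (h0 : ∀ w, H w ≠ 0) :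
    ∃ l : ℂ → ℂ, Continuous l ∧ ∀ w, H w = Complex.exp (l w) := by
  obtain ⟨F, hF, -⟩ := Complex.isCoveringMapOn_exp.existsUnique_continuousMap_lifts (A := ℂ)
    ⟨H, hc⟩ (a₀ := 0) (e₀ := Complex.log (H 0)) (by simpa using Complex.exp_log (h0 0))
    (by simpa using h0)
  exact ⟨F, F.continuous, fun w => (congrFun hF.2 w).symm⟩

private theorem pl_base (H : ℂ → ℂ) (hc : Continuous H) (h0 : ∀ w, H w ≠ 0) (N : ℤ)
    (hN : HasWind 1 (fun z => H (ee (-z))) N) : N = 0 := by
  obtain ⟨l, hl, he⟩ := pl_base_log H hc h0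
  have : HasWind 1 (fun z => H (ee (-z))) 0 := by
    refine ⟨0, fun z => l (ee (-z)), ?_, fun z _ => he _, fun z _ => ?_⟩
    · exact (hl.comp (pl_ee_cont.comp continuous_neg)).continuousOn
    · have : ee (-(z + (1 : ℕ))) = ee (-z) := by
        have h1 : -z = -(z + (1 : ℕ)) + 1 := by push_cast; ring
        rw [h1, pl_ee_add, pl_ee_one, mul_one]
      simp only [this]
      simp
  exact hN.unique this

private theorem pl_open (Y : ℝ) : IsOpen {z : ℂ | Y < z.im} :=
  isOpen_lt continuous_const Complex.continuous_im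

/-- logarithm on a punctured disc -/
private theorem pl_punctured_log {f : ℂ → ℂ} {b : ℂ} (h : HasWind 1 (fun z => f (b + ee z)) 0) :
    ∃ r > 0, ∃ l : ℂ → ℂ, (∀ w, w ≠ b → ‖w - b‖ < r → ContinuousAt l w) ∧
      ∀ w, w ≠ b → ‖w - b‖ < r → f w = Complex.exp (l w) := by
  obtain ⟨Y, L, hL, hf, hp⟩ := h
  have hp1 : ∀ z : ℂ, Y < z.im → L (z + 1) = L z := fun z hz => by
    have := hp z hz
    simpa using this
  have hpk : ∀ (k : ℤ) (z : ℂ), Y < z.im → L (z + k) = L z := by
    intro k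
    induction k using Int.induction_on with
    | zero => intro z _; simp
    | succ i ih =>
      intro z hz
      have h1 := hp1 (z + (i : ℤ)) (by simpa using hz)
      rw [ih z hz] at h1
      rw [← h1]; congr 1; push_cast; ring
    | pred i ih =>
      intro z hz
      have h1 := hp1 (z + ((-(i : ℤ) - 1 : ℤ) : ℂ)) (by simpa using hz)
      rw [← h1, ← ih z hz]; congr 1; push_cast; ring
  have him : ∀ {ζ w : ℂ}, ee ζ = w - b → ‖w - b‖ < Real.exp (-(2 * Real.pi * Y)) → Y < ζ.im := by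
    intro ζ w h1 h2
    rw [← h1, pl_norm_ee, Real.exp_lt_exp] at h2
    have := Real.pi_pos
    nlinarith
  have hl : ∀ {ζ w : ℂ}, w ≠ b → ee ζ = w - b → ‖w - b‖ < Real.exp (-(2 * Real.pi * Y)) →
      L (Complex.log (w - b) / (2 * Real.pi * Complex.I)) = L ζ := by
    intro ζ w hw h1 h2
    have h3 := pl_ee_log (sub_ne_zero.2 hw)
    obtain ⟨k, hk⟩ := pl_ee_eq (h3.trans h1.symm)
    rw [hk, hpk k ζ (him h1 h2)]
  refine ⟨Real.exp (-(2 * Real.pi * Y)), Real.exp_pos _,
    fun w => L (Complex.log (w - b) / (2 * Real.pi * Complex.I)), ?_, ?_⟩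
  · intro w hw hr
    set ζ := Complex.log (w - b) / (2 * Real.pi * Complex.I) with hζ
    have hwb : w - b ≠ 0 := sub_ne_zero.2 hw
    have h3 : ee ζ = w - b := pl_ee_log hwb
    have hLc : ContinuousAt L ζ := (hL ζ (him h3 hr)).continuousAt ((pl_open Y).mem_nhds (him h3 hr))
    set β : ℂ → ℂ := fun v => ζ + Complex.log ((v - b) / (w - b)) / (2 * Real.pi * Complex.I)
      with hβ
    have hβw : β w = ζ := by simp [hβ, div_self hwb]
    have hβc : ContinuousAt β w := by
      rw [hβ]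
      refine continuousAt_const.add (ContinuousAt.div_const ?_ _)
      refine ContinuousAt.clog ?_ ?_
      · fun_prop
      · simp [div_self hwb, Complex.one_mem_slitPlane]
    have hcomp : ContinuousAt (fun v => L (β v)) w := by
      have : ContinuousAt L (β w) := by rw [hβw]; exact hLc
      exact this.comp hβc
    refine hcomp.congr ?_
    have hev1 : ∀ᶠ v in 𝓝 w, v ≠ b := isOpen_ne.mem_nhds hw
    have hev2 : ∀ᶠ v in 𝓝 w, ‖v - b‖ < Real.exp (-(2 * Real.pi * Y)) :=
      (isOpen_lt (by fun_prop) continuous_const).mem_nhds hr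
    filter_upwards [hev1, hev2] with v hv1 hv2
    refine (hl hv1 ?_ hv2).symm
    rw [hβ]
    simp only
    rw [pl_ee_add, h3, pl_ee_log (div_ne_zero (sub_ne_zero.2 hv1) hwb)]
    field_simp
  · intro w hw hr
    have h3 := pl_ee_log (sub_ne_zero.2 hw)
    have := hf _ (him h3 hr)
    simp only at this
    rw [h3] at this
    simpa using this

private theorem pl_notmem_open (B : Finset ℂ) : IsOpen {w : ℂ | w ∉ B} :=
  B.finite_toSet.isClosed.isOpen_compl

private theorem pl_remove (B : Finset ℂ) (b : ℂ) (hb : b ∉ B) (H : ℂ → ℂ)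
    (hc : ContinuousOn H {w | w ∉ insert b B}) (h0 : ∀ w, w ∉ insert b B → H w ≠ 0)
    (h : HasWind 1 (fun z => H (b + ee z)) 0) :
    ∃ H₂ : ℂ → ℂ, ContinuousOn H₂ {w | w ∉ B} ∧ (∀ w, w ∉ B → H₂ w ≠ 0) ∧
      ∃ r > 0, (∀ w, r ≤ ‖w - b‖ → H₂ w = H w) ∧ ∀ b' ∈ B, 2 * r ≤ ‖b' - b‖ := by
  obtain ⟨r₀, hr₀, l, hlc, hl⟩ := pl_punctured_log h
  obtain ⟨r, hr, hrr, hrB⟩ : ∃ r > 0, r ≤ r₀ ∧ ∀ b' ∈ B, 2 * r ≤ ‖b' - b‖ := by
    have hev : ∀ᶠ ρ : ℝ in 𝓝[>] 0, (0 < ρ ∧ ρ ≤ r₀) ∧ ∀ b' ∈ B, 2 * ρ ≤ ‖b' - b‖ := by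
      have h1 : ∀ᶠ ρ : ℝ in 𝓝[>] 0, 0 < ρ := eventually_mem_nhdsWithin
      have h2 : ∀ᶠ ρ : ℝ in 𝓝[>] 0, ρ ≤ r₀ :=
        eventually_nhdsWithin_of_eventually_nhds (eventually_le_nhds hr₀)
      have h3 : ∀ᶠ ρ : ℝ in 𝓝[>] 0, ∀ b' ∈ B, 2 * ρ ≤ ‖b' - b‖ := by
        rw [Filter.eventually_all_finset]
        intro b' hb'
        have hpos : 0 < ‖b' - b‖ := norm_pos_iff.2 (sub_ne_zero.2 (fun hh => hb (hh ▸ hb')))
        have : ∀ᶠ ρ : ℝ in 𝓝 0, ρ < ‖b' - b‖ / 2 := eventually_lt_nhds (by positivity)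
        refine eventually_nhdsWithin_of_eventually_nhds (this.mono fun ρ hρ => by linarith)
      exact (h1.and h2).and h3
    obtain ⟨ρ, h1, h2⟩ := hev.exists
    exact ⟨ρ, h1.1, h1.2, h2⟩
  set χ : ℂ → ℝ := fun w => max 0 (min 1 (3 * (‖w - b‖ / r) - 1)) with hχ
  have hχc : Continuous χ := by rw [hχ]; fun_prop
  have hχ0 : ∀ w, ‖w - b‖ ≤ r / 3 → χ w = 0 := by
    intro w hw
    rw [hχ]
    simp only
    have : ‖w - b‖ / r ≤ 1 / 3 := by rw [div_le_iff₀ hr]; linarith
    rw [max_eq_left]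
    exact (min_le_right _ _).trans (by linarith)
  have hχ1 : ∀ w, 2 * r / 3 ≤ ‖w - b‖ → χ w = 1 := by
    intro w hw
    rw [hχ]
    simp only
    have : 2 / 3 ≤ ‖w - b‖ / r := by rw [le_div_iff₀ hr]; linarith
    rw [min_eq_left (by linarith), max_eq_right zero_le_one]
  set H₂ : ℂ → ℂ := fun w => if ‖w - b‖ < r then Complex.exp (χ w * l w) else H w with hH₂
  have hfar : ∀ w, 2 * r / 3 ≤ ‖w - b‖ → H₂ w = H w := by
    intro w hw
    rw [hH₂]
    simp only
    split_ifs with hlt
    · rw [hχ1 w hw]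
      have hwb : w ≠ b := by
        rintro rfl
        rw [sub_self, norm_zero] at hw
        linarith
      rw [hl w hwb (hlt.trans_le hrr)]
      simp
    · rfl
  refine ⟨H₂, ?_, ?_, r, hr, fun w hw => hfar w (by linarith), hrB⟩
  · intro w hw
    refine ContinuousAt.continuousWithinAt ?_
    rcases lt_or_ge (2 * r / 3) ‖w - b‖ with hfw | hnw
    · have hwb : w ≠ b := by
        rintro rfl
        rw [sub_self, norm_zero] at hfw
        linarith
      have hmem : w ∉ insert b B := by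
        rw [Finset.mem_insert, not_or]; exact ⟨hwb, hw⟩
      have hHc : ContinuousAt H w := (hc w hmem).continuousAt ((pl_notmem_open _).mem_nhds hmem)
      refine hHc.congr ?_
      have : ∀ᶠ v in 𝓝 w, 2 * r / 3 < ‖v - b‖ :=
        (isOpen_lt continuous_const (by fun_prop)).mem_nhds hfw
      filter_upwards [this] with v hv
      exact (hfar v hv.le).symm
    · have hlt : ‖w - b‖ < r := by linarith
      have hev : ∀ᶠ v in 𝓝 w, ‖v - b‖ < r :=
        (isOpen_lt (by fun_prop) continuous_const).mem_nhds hlt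
      by_cases hwb : w = b
      · subst hwb
        have : ∀ᶠ v in 𝓝 w, ‖v - w‖ < r / 3 :=
          (isOpen_lt (by fun_prop) continuous_const).mem_nhds (by simp; positivity)
        refine (continuousAt_const (y := (1 : ℂ))).congr ?_
        filter_upwards [this] with v hv
        rw [hH₂]
        simp only
        rw [if_pos (by linarith), hχ0 v hv.le]
        simp
      · have : ContinuousAt (fun v => Complex.exp (χ v * l v)) w := by
          refine ContinuousAt.cexp (ContinuousAt.mul ?_ (hlc w hwb (hlt.trans_le hrr)))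
          exact (Complex.continuous_ofReal.comp hχc).continuousAt
        refine this.congr ?_
        filter_upwards [hev] with v hv
        rw [hH₂]
        simp only
        rw [if_pos hv]
  · intro w hw
    rw [hH₂]
    simp only
    split_ifs with hlt
    · exact Complex.exp_ne_zero _
    · refine h0 w ?_
      rw [Finset.mem_insert, not_or]
      refine ⟨?_, hw⟩
      rintro rfl
      rw [sub_self, norm_zero] at hlt
      exact hlt hr

private theorem pl_tendsto_ee : Tendsto ee (comap Complex.im atTop) (𝓝 0) := by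
  rw [tendsto_zero_iff_norm_tendsto_zero]
  have h1 : Tendsto (fun y : ℝ => Real.exp (-(2 * Real.pi * y))) atTop (𝓝 0) := by
    refine Real.tendsto_exp_neg_atTop_nhds_zero.comp ?_
    exact tendsto_id.const_mul_atTop (by positivity)
  refine (h1.comp tendsto_comap).congr fun z => ?_
  rw [pl_norm_ee]; rfl

private theorem pl_wind_const_add {a : ℂ} (ha : a ≠ 0) (c : ℂ) :
    HasWind 1 (fun z => a + c * ee z) 0 := by
  refine HasWind.of_tendsto ha (r := fun _ => 1) 0 ?_ ?_ continuousOn_const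
    (fun _ _ => rfl) (fun _ _ => one_pos) ?_
  · exact (continuous_const.add (continuous_const.mul pl_ee_cont)).continuousOn
  · intro z _
    rw [Nat.cast_one, pl_ee_add, pl_ee_one, mul_one]
  · have := (pl_tendsto_ee.const_mul c).const_add a
    simpa using this

/-- The winding numbers of a continuous function without zeros on a punctured plane add up to
zero. -/
theorem plane_count (B : Finset ℂ) (H : ℂ → ℂ) (hc : ContinuousOn H {w | w ∉ B})
    (h0 : ∀ w, w ∉ B → H w ≠ 0) (n : ℂ → ℤ) (N : ℤ)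
    (hn : ∀ b ∈ B, HasWind 1 (fun z => H (b + ee z)) (n b))
    (hN : HasWind 1 (fun z => H (ee (-z))) N) :
    ∑ b ∈ B, n b + N = 0 := by
  induction B using Finset.induction_on generalizing H N with
  | empty =>
    have hc' : Continuous H := by
      rw [← continuousOn_univ]
      refine hc.mono fun w _ => by simp
    rw [Finset.sum_empty, zero_add]
    exact pl_base H hc' (fun w => h0 w (by simp)) N hN
  | insert b B hb ih =>
    set H₁ : ℂ → ℂ := fun w => H w * (w - b) ^ (-(n b)) with hH₁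
    have hne : ∀ w, w ∉ insert b B → w - b ≠ 0 := by
      intro w hw
      rw [Finset.mem_insert, not_or] at hw
      exact sub_ne_zero.2 hw.1
    have hc₁ : ContinuousOn H₁ {w | w ∉ insert b B} := by
      refine hc.mul ?_
      refine ContinuousOn.zpow₀ (by fun_prop) _ fun w hw => Or.inl (hne w hw)
    have h0₁ : ∀ w, w ∉ insert b B → H₁ w ≠ 0 := fun w hw =>
      mul_ne_zero (h0 w hw) (zpow_ne_zero _ (hne w hw))
    have hw₁ : HasWind 1 (fun z => H₁ (b + ee z)) 0 := by
      have h1 := (hn b (Finset.mem_insert_self _ _)).mul ((hasWind_ee 1 1).zpow (-(n b)))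
      have h2 : n b + -(n b) * ((1 : ℕ) * 1) = 0 := by push_cast; ring
      rw [h2] at h1
      refine h1.congr 0 fun z _ => ?_
      simp [hH₁]
    obtain ⟨H₂, hc₂, h0₂, r, hr, hfar, hrB⟩ := pl_remove B b hb H₁ hc₁ h0₁ hw₁
    have hev0 : ∀ ρ > 0, ∃ Y : ℝ, ∀ z : ℂ, Y < z.im → ‖ee z‖ < ρ := by
      intro ρ hρ
      refine ⟨-(Real.log ρ) / (2 * Real.pi), fun z hz => ?_⟩
      rw [pl_norm_ee, ← Real.lt_log_iff_exp_lt hρ]
      rw [div_lt_iff₀ (by positivity)] at hz
      linarith
    have key := ih H₂ hc₂ h0₂ (N + (-(n b)) * (-1 + 0)) ?_ ?_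
    · rw [Finset.sum_insert hb]
      rw [← key]; ring
    · intro b' hb'
      have hbb : b' - b ≠ 0 := sub_ne_zero.2 (fun hh => hb (hh ▸ hb'))
      obtain ⟨Y, hY⟩ := hev0 r hr
      have h1 := (hn b' (Finset.mem_insert_of_mem hb')).mul
        ((pl_wind_const_add hbb 1).zpow (-(n b)))
      rw [mul_zero, add_zero] at h1
      refine h1.congr Y fun z hz => ?_
      have h2 : r ≤ ‖b' + ee z - b‖ := by
        have h3 := hrB b' hb'
        have h4 := hY z hz
        have h5 : ‖b' - b‖ ≤ ‖b' + ee z - b‖ + ‖ee z‖ := by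
          have : b' - b = (b' + ee z - b) - ee z := by ring
          calc ‖b' - b‖ = ‖(b' + ee z - b) - ee z‖ := by rw [← this]
            _ ≤ _ := norm_sub_le _ _
        linarith
      rw [hfar _ h2, hH₁]
      simp only [one_mul]
      congr 2
      ring
    · obtain ⟨Y, hY⟩ := hev0 (1 / (r + ‖b‖)) (by positivity)
      have h1 := hN.mul ((((hasWind_ee 1 (-1)).mul
        (pl_wind_const_add (one_ne_zero (α := ℂ)) (-b)))).zpow (-(n b)))
      have h2 : N + -(n b) * ((1 : ℕ) * (-1) + 0) = N + -(n b) * (-1 + 0) := by push_cast; ring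
      rw [h2] at h1
      refine h1.congr Y fun z hz => ?_
      have hinv : ee (-z) * ee z = 1 := by
        rw [← pl_ee_add, neg_add_cancel, ee, mul_zero, Complex.exp_zero]
      have h3 : r ≤ ‖ee (-z) - b‖ := by
        have h4 := hY z hz
        have h5 : ‖ee (-z)‖ * ‖ee z‖ = 1 := by rw [← norm_mul, hinv, norm_one]
        have h6 : 0 < ‖ee (-z)‖ := norm_pos_iff.2 (pl_ee_ne _)
        have h7 : 0 < r + ‖b‖ := by positivity
        rw [lt_div_iff₀ h7] at h4
        have h8 : r + ‖b‖ ≤ ‖ee (-z)‖ := by nlinarith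
        have h9 : ‖ee (-z)‖ ≤ ‖ee (-z) - b‖ + ‖b‖ := by
          calc ‖ee (-z)‖ = ‖(ee (-z) - b) + b‖ := by rw [sub_add_cancel]
            _ ≤ _ := norm_add_le _ _
        linarith
      rw [hfar _ h3, hH₁]
      simp only
      congr 2
      have h10 : ee (((-1 : ℤ) : ℂ) * z) = ee (-z) := by congr 1; push_cast; ring
      rw [h10]
      linear_combination (-b) * hinv

end Pool.Agent.LibUB33
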