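import Pool.Agent.LibUB33.Plane
import Pool.Agent.LibUB33.LocOrd

/-!
# Orders and winding numbers of a function on a punctured plane
-/

open Filter Topology

namespace Pool.Agent.LibUB33

private theorem two_pi_I_ne : (2 * Real.pi * Complex.I : ℂ) ≠ 0 := by
  simp [Real.pi_ne_zero]

private theorem exists_ee {w : ℂ} (hw : w ≠ 0) :
    ∃ ζ : ℂ, ee ζ = w ∧ ζ.im = - Real.log ‖w‖ / (2 * Real.pi) := by
  refine ⟨Complex.log w / (2 * Real.pi * Complex.I), ?_, ?_⟩
  · rw [ee, mul_div_cancel₀ _ two_pi_I_ne, Complex.exp_log hw]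
  · have h1 : Complex.log w / (2 * Real.pi * Complex.I) =
        -Complex.I * (((1 / (2 * Real.pi) : ℝ) : ℂ) * Complex.log w) := by
      have hpi : (Real.pi : ℂ) ≠ 0 := by exact_mod_cast Real.pi_ne_zero
      push_cast
      field_simp
      rw [Complex.I_sq]
      ring
    rw [h1]
    simp only [Complex.mul_im, Complex.neg_re, Complex.I_re, Complex.neg_im, Complex.I_im,
      Complex.re_ofReal_mul, Complex.im_ofReal_mul, Complex.log_re]
    ring

/-- Local branches. -/
private theorem cont_of_exp {b ε : ℂ} (hε : ε ≠ 0) {H L : ℂ → ℂ} {Y : ℝ}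
    (hL : ContinuousOn L {z | Y < z.im})
    (hH : ∀ z : ℂ, Y < z.im → H (b + ee (ε * z)) = Complex.exp (L z)) {ζ₀ : ℂ}
    (hζ : Y < ζ₀.im) :
    ContinuousAt H (b + ee (ε * ζ₀)) ∧ H (b + ee (ε * ζ₀)) ≠ 0 := by
  constructor
  swap
  · rw [hH ζ₀ hζ]
    exact Complex.exp_ne_zero _
  set w := b + ee (ε * ζ₀) with hw
  have hne : ee (ε * ζ₀) ≠ 0 := Complex.exp_ne_zero _
  set g : ℂ → ℂ := fun w' => ζ₀ + Complex.log ((w' - b) / ee (ε * ζ₀)) /
    (2 * Real.pi * Complex.I * ε) with hg
  have hwb : (w - b) / ee (ε * ζ₀) = 1 := by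
    rw [hw, add_sub_cancel_left, div_self hne]
  have hgw : g w = ζ₀ := by
    simp only [hg]
    rw [hwb]
    simp
  have hgc : ContinuousAt g w := by
    simp only [hg]
    apply ContinuousAt.add continuousAt_const
    apply ContinuousAt.div_const
    apply ContinuousAt.clog
    · fun_prop
    · rw [hwb]
      exact Complex.one_mem_slitPlane
  have hopen : IsOpen {z : ℂ | Y < z.im} := isOpen_lt continuous_const Complex.continuous_im
  have hLc : ContinuousAt L (g w) := by
    rw [hgw]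
    exact hL.continuousAt (hopen.mem_nhds hζ)
  have hcomp : ContinuousAt (fun w' => Complex.exp (L (g w'))) w :=
    (hLc.comp hgc).cexp
  have hev1 : ∀ᶠ w' in 𝓝 w, Y < (g w').im := by
    have h2 : {z : ℂ | Y < z.im} ∈ 𝓝 (g w) := by
      rw [hgw]
      exact hopen.mem_nhds hζ
    exact hgc.eventually h2
  have hev2 : ∀ᶠ w' in 𝓝 w, w' - b ≠ 0 := by
    have hc : ContinuousAt (fun w' : ℂ => w' - b) w := by fun_prop
    apply hc.eventually_ne
    rw [hw, add_sub_cancel_left]
    exact hne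
  refine hcomp.congr ?_
  filter_upwards [hev1, hev2] with w' h1 h2
  rw [← hH _ h1]
  congr 1
  have h3 : ee (ε * g w') = w' - b := by
    have h4 : ε * g w' = ε * ζ₀ +
        Complex.log ((w' - b) / ee (ε * ζ₀)) / (2 * Real.pi * Complex.I) := by
      simp only [hg]
      have := two_pi_I_ne
      field_simp
    have h5 : ee (ε * g w') = ee (ε * ζ₀) * ((w' - b) / ee (ε * ζ₀)) := by
      rw [h4]
      conv_lhs => rw [ee, mul_add, Complex.exp_add, mul_div_cancel₀ _ two_pi_I_ne,
        Complex.exp_log (div_ne_zero h2 hne)]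
      rfl
    rw [h5, mul_div_cancel₀ _ hne]
  rw [h3]
  ring

/-- Near a puncture with a winding number the function is continuous and not zero. -/
theorem HasWind.eventually {b : ℂ} {H : ℂ → ℂ} {n : ℤ} (h : HasWind 1 (fun z => H (b + ee z)) n) :
    ∀ᶠ w in 𝓝[≠] b, ContinuousAt H w ∧ H w ≠ 0 := by
  obtain ⟨Y, L, hL, hH, -⟩ := h
  have h1 : ∀ᶠ w in 𝓝 b, ‖w - b‖ < Real.exp (-(2 * Real.pi * Y)) := by
    have hc : ContinuousAt (fun w : ℂ => ‖w - b‖) b := by fun_prop
    have := hc.eventually_lt (continuousAt_const (y := Real.exp (-(2 * Real.pi * Y))))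
      (by simpa using Real.exp_pos _)
    exact this
  filter_upwards [h1.filter_mono nhdsWithin_le_nhds, self_mem_nhdsWithin] with w hw hwb
  have hne : w - b ≠ 0 := sub_ne_zero.2 hwb
  obtain ⟨ζ, h2, h3⟩ := exists_ee hne
  have hY : Y < ζ.im := by
    rw [h3, lt_div_iff₀ (by positivity)]
    have := (Real.log_lt_log (norm_pos_iff.2 hne) hw)
    rw [Real.log_exp] at this
    linarith
  have h4 := cont_of_exp (b := b) (ε := 1) one_ne_zero (H := H) hL
    (fun z hz => by rw [one_mul]; exact hH z hz) hY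
  rw [one_mul, h2, add_sub_cancel] at h4
  exact h4

/-- The same near infinity. -/
theorem HasWind.eventually_infty {H : ℂ → ℂ} {n : ℤ} (h : HasWind 1 (fun z => H (ee (-z))) n) :
    ∀ᶠ w in cocompact ℂ, ContinuousAt H w ∧ H w ≠ 0 := by
  obtain ⟨Y, L, hL, hH, -⟩ := h
  have h1 : ∀ᶠ w : ℂ in cocompact ℂ, Real.exp (2 * Real.pi * Y) < ‖w‖ :=
    (tendsto_norm_cocompact_atTop).eventually_gt_atTop _
  filter_upwards [h1] with w hw
  have hne : w ≠ 0 := by
    rw [← norm_pos_iff]
    exact (Real.exp_pos _).trans hw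
  obtain ⟨ζ, h2, h3⟩ := exists_ee hne
  have hY : Y < (-ζ).im := by
    rw [Complex.neg_im, h3, neg_div, neg_neg, lt_div_iff₀ (by positivity)]
    have := (Real.log_lt_log (Real.exp_pos _) hw)
    rw [Real.log_exp] at this
    linarith
  have h4 := cont_of_exp (b := 0) (ε := -1) (by norm_num) (H := H) hL
    (fun z hz => by rw [zero_add, neg_one_mul]; exact hH z hz) hY
  rw [neg_one_mul, neg_neg, h2, zero_add] at h4
  exact h4

/-- A property that holds in a punctured neighbourhood of every point and near infinity fails at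
finitely many points only. -/
theorem finite_bad (p : ℂ → Prop) (hloc : ∀ w, ∀ᶠ z in 𝓝[≠] w, p z)
    (hinf : ∀ᶠ w in cocompact ℂ, p w) : {w | ¬ p w}.Finite := by
  obtain ⟨K, hK, hKp⟩ := mem_cocompact.1 hinf
  have h1 : ∀ w ∈ K, {z : ℂ | z ≠ w → p z} ∈ 𝓝 w := by
    intro w _
    exact eventually_nhdsWithin_iff.1 (hloc w)
  obtain ⟨t, -, htK⟩ := hK.elim_nhds_subcover (fun w => {z : ℂ | z ≠ w → p z}) h1
  refine t.finite_toSet.subset ?_
  intro w hw
  have hw' : ¬ p w := hw
  have hwK : w ∈ K := by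
    by_contra h
    exact hw' (hKp h)
  have h2 := htK hwK
  simp only [Set.mem_iUnion] at h2
  obtain ⟨x, hx, h3⟩ := h2
  have h4 : w ≠ x → p w := h3
  by_cases h5 : w = x
  · rw [h5]
    exact hx
  · exact absurd (h4 h5) hw'

/-- The sum of all orders and winding numbers is zero. -/
theorem plane_orders (B : Finset ℂ) (H : ℂ → ℂ) (m : ℂ → ℤ) (hB : ∀ b ∈ B, m b = 0)
    (hloc : ∀ w, w ∉ B → LocOrd H w (m w)) (n : ℂ → ℤ) (N : ℤ)
    (hn : ∀ b ∈ B, HasWind 1 (fun z => H (b + ee z)) (n b))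
    (hN : HasWind 1 (fun z => H (ee (-z))) N) :
    (Function.support m).Finite ∧ ∑ᶠ w, m w + ∑ b ∈ B, n b + N = 0 := by
  classical
  have hev : ∀ w, ∀ᶠ z in 𝓝[≠] w, ContinuousAt H z ∧ H z ≠ 0 := by
    intro w
    by_cases hw : w ∈ B
    · exact (hn w hw).eventually
    · exact (hloc w hw).eventually
  have hfin := finite_bad (fun w => ContinuousAt H w ∧ H w ≠ 0) hev hN.eventually_infty
  have hgood : ∀ w, w ∉ B → (ContinuousAt H w ∧ H w ≠ 0) → m w = 0 := by
    intro w hw hg
    apply (hloc w hw).unique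
    apply LocOrd.of_continuousAt _ hg.2
    have h1 := eventually_nhdsWithin_iff.1 (hev w)
    filter_upwards [h1] with z hz
    by_cases hzw : z = w
    · rw [hzw]
      exact hg.1
    · exact (hz hzw).1
  have hsub : Function.support m ⊆ (hfin.toFinset \ B : Finset ℂ) := by
    intro w hw
    have hw' : m w ≠ 0 := hw
    have hwB : w ∉ B := fun h => hw' (hB w h)
    simp only [Finset.coe_sdiff, Set.Finite.coe_toFinset, Set.mem_diff, Finset.mem_coe]
    refine ⟨?_, hwB⟩
    show ¬ (ContinuousAt H w ∧ H w ≠ 0)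
    intro h
    exact hw' (hgood w hwB h)
  refine ⟨(Finset.finite_toSet _).subset hsub, ?_⟩
  rw [finsum_eq_sum_of_support_subset m hsub]
  have hcount := plane_count (B ∪ (hfin.toFinset \ B)) H ?_ ?_ (fun w => if w ∈ B then n w else m w)
    N ?_ hN
  · rw [Finset.sum_union Finset.disjoint_sdiff] at hcount
    have h1 : ∑ b ∈ B, (if b ∈ B then n b else m b) = ∑ b ∈ B, n b :=
      Finset.sum_congr rfl fun b hb => by simp [hb]
    have h2 : ∑ b ∈ hfin.toFinset \ B, (if b ∈ B then n b else m b) =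
        ∑ b ∈ hfin.toFinset \ B, m b :=
      Finset.sum_congr rfl fun b hb => by simp [(Finset.mem_sdiff.1 hb).2]
    rw [h1, h2] at hcount
    linarith
  · intro w hw
    have hw' : w ∉ B ∪ (hfin.toFinset \ B) := hw
    have h1 : ContinuousAt H w ∧ H w ≠ 0 := by
      by_contra h
      apply hw'
      by_cases hwB : w ∈ B
      · exact Finset.mem_union_left _ hwB
      · exact Finset.mem_union_right _ (Finset.mem_sdiff.2 ⟨(Set.Finite.mem_toFinset hfin).2 h, hwB⟩)
    exact h1.1.continuousWithinAt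
  · intro w hw'
    have h1 : ContinuousAt H w ∧ H w ≠ 0 := by
      by_contra h
      apply hw'
      by_cases hwB : w ∈ B
      · exact Finset.mem_union_left _ hwB
      · exact Finset.mem_union_right _ (Finset.mem_sdiff.2 ⟨(Set.Finite.mem_toFinset hfin).2 h, hwB⟩)
    exact h1.2
  · intro b hb
    by_cases hbB : b ∈ B
    · simp only [hbB, if_true]
      exact hn b hbB
    · simp only [hbB, if_false]
      exact (hloc b hbB).hasWind

end Pool.Agent.LibUB33
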