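import Pool.Agent.LibUB33.Ends

/-!
# Representatives of cosets and the norm
-/

open Filter Topology UpperHalfPlane
open scoped MatrixGroups

namespace Pool.Agent.LibUB33

variable (X : Curve)

/-- Representatives of the cosets of `P` in `G`. -/
theorem Curve.exists_reps : ∃ R : Finset SL(2, ℝ), (∀ x ∈ R, x ∈ X.G) ∧ R.card = X.degree ∧
    ∀ g ∈ X.G, ∃! x : SL(2, ℝ), x ∈ R ∧ ∃ p ∈ X.P, g = p * x := by
  classical
  have hidx : Nat.card (X.G ⧸ X.P.subgroupOf X.G) ≠ 0 := X.index_ne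
  have hfin : Finite (X.G ⧸ X.P.subgroupOf X.G) := Nat.finite_of_card_ne_zero hidx
  have := Fintype.ofFinite (X.G ⧸ X.P.subgroupOf X.G)
  set f : (X.G ⧸ X.P.subgroupOf X.G) → SL(2, ℝ) := fun y => ((y.out : X.G) : SL(2, ℝ))⁻¹ with hf
  have hinj : Function.Injective f := by
    intro y y' h
    have h1 : ((y.out : X.G) : SL(2, ℝ)) = ((y'.out : X.G) : SL(2, ℝ)) := inv_injective h
    have h2 : y.out = y'.out := Subtype.ext h1
    rw [← QuotientGroup.out_eq' y, ← QuotientGroup.out_eq' y', h2]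
  refine ⟨Finset.univ.image f, ?_, ?_, ?_⟩
  · intro x hx
    obtain ⟨y, -, rfl⟩ := Finset.mem_image.1 hx
    exact X.G.inv_mem (y.out).2
  · rw [Finset.card_image_of_injective _ hinj, Finset.card_univ, ← Nat.card_eq_fintype_card]
    rfl
  · intro g hg
    set g' : X.G := ⟨g, hg⟩ with hg'
    set y₀ : X.G ⧸ X.P.subgroupOf X.G := QuotientGroup.mk g'⁻¹ with hy₀
    refine ⟨f y₀, ⟨Finset.mem_image_of_mem _ (Finset.mem_univ _), ?_⟩, ?_⟩
    · have h1 : (QuotientGroup.mk g'⁻¹ : X.G ⧸ X.P.subgroupOf X.G) = QuotientGroup.mk y₀.out :=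
        (QuotientGroup.out_eq' y₀).symm
      rw [QuotientGroup.eq, inv_inv, Subgroup.mem_subgroupOf] at h1
      refine ⟨g * (y₀.out : SL(2, ℝ)), h1, ?_⟩
      simp [hf]
    · rintro x ⟨hx, p, hp, hgp⟩
      obtain ⟨y, -, rfl⟩ := Finset.mem_image.1 hx
      congr 1
      have h1 : (QuotientGroup.mk g'⁻¹ : X.G ⧸ X.P.subgroupOf X.G) = QuotientGroup.mk y.out := by
        rw [QuotientGroup.eq, inv_inv, Subgroup.mem_subgroupOf]
        change g * ((y.out : X.G) : SL(2, ℝ)) ∈ X.P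
        rw [hgp]
        simpa [hf] using hp
      rw [hy₀, h1, QuotientGroup.out_eq']

private theorem ee_add_one (z : ℂ) : ee (z + 1) = ee z := by
  unfold ee
  rw [mul_add, mul_one, Complex.exp_add, Complex.exp_two_pi_mul_I, mul_one]

private theorem ee_sub_one (z : ℂ) : ee (-(z + 1)) = ee (-z) := by
  have h := ee_add_one (-(z + 1))
  rw [← h]
  congr 1; ring

/-- A lift of a punctured neighbourhood of a puncture becomes periodic on the curve. -/
theorem Curve.exists_period {s : ℂ → ℍ} {Y : ℝ} (h : X.IsEnd s Y) :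
    ∃ h : ℕ, 0 < h ∧ ∃ p ∈ X.P, ∀ ζ : ℂ, Y < ζ.im → s (ζ + h) = p • s ζ := by
  obtain ⟨hs, hlam⟩ := h
  have him : ∀ (ζ : ℂ), Y < ζ.im → Y < (ζ + 1).im := fun ζ hζ => by simpa using hζ
  have hs' : ContinuousOn (fun ζ => s (ζ + 1)) {ζ | Y < ζ.im} :=
    hs.comp (by fun_prop) fun ζ hζ => him ζ hζ
  have hl : ∀ ζ : ℂ, Y < ζ.im → X.lam (s ζ) = X.lam (s (ζ + 1)) := by
    intro ζ hζ
    rcases hlam with ⟨b, -, hb⟩ | hb
    · rw [hb ζ hζ, hb _ (him ζ hζ), ee_add_one]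
    · rw [hb ζ hζ, hb _ (him ζ hζ), ee_sub_one]
  obtain ⟨g, hg, hgs⟩ := X.eq_smul_of_lam_eq hs hs' hl
  have hpow : ∀ n : ℕ, ∀ ζ : ℂ, Y < ζ.im → s (ζ + n) = g ^ n • s ζ := by
    intro n
    induction n with
    | zero => intro ζ _; simp
    | succ n ih =>
      intro ζ hζ
      have h1 : ζ + ((n + 1 : ℕ) : ℂ) = (ζ + n) + 1 := by push_cast; ring
      have h2 : Y < (ζ + n).im := by simpa using hζ
      rw [h1, hgs _ h2, ih ζ hζ, pow_succ', mul_smul]
  obtain ⟨n, hn, -, hnP⟩ := Subgroup.exists_pow_mem_of_relIndex_ne_zero X.index_ne hg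
  exact ⟨n, hn, g ^ n, hnP.1, hpow n⟩

end Pool.Agent.LibUB33
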