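import Pool.Agent.LibUB33.Defs

/-!
# Winding numbers at `i∞`
-/

open Filter Topology

namespace Pool.Agent.LibUB33

/-- The function `f`, defined for large imaginary part, has a continuous logarithm there, which
increases by `2πi n` when `z` is replaced by `z + h`. -/
def HasWind (h : ℕ) (f : ℂ → ℂ) (n : ℤ) : Prop :=
  ∃ (Y : ℝ) (L : ℂ → ℂ), ContinuousOn L {z | Y < z.im} ∧
    (∀ z : ℂ, Y < z.im → f z = Complex.exp (L z)) ∧
    ∀ z : ℂ, Y < z.im → L (z + h) = L z + 2 * Real.pi * Complex.I * n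

private theorem wind_im_add (z : ℂ) (h : ℕ) : (z + h).im = z.im := by simp

private theorem wind_im_add' (z : ℂ) (k h : ℕ) : (z + (k : ℂ) * h).im = z.im := by simp

private theorem wind_const {S : Set ℂ} (hS : IsPreconnected S) {g : ℂ → ℝ} (hg : ContinuousOn g S)
    (hint : ∀ z ∈ S, ∃ n : ℤ, g z = n) {x y : ℂ} (hx : x ∈ S) (hy : y ∈ S) : g x = g y := by
  have key : ∀ x ∈ S, ∀ y ∈ S, ¬ g x < g y := by
    intro x hx y hy hlt
    obtain ⟨m, hm⟩ := hint x hx
    obtain ⟨n, hn⟩ := hint y hy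
    have hmn : (m : ℝ) + 1 ≤ n := by
      rw [hm, hn] at hlt
      have : m < n := by exact_mod_cast hlt
      exact_mod_cast this
    have hoc := (hS.image g hg).ordConnected.out ⟨x, hx, rfl⟩ ⟨y, hy, rfl⟩
    have hmem : g x + 1 / 2 ∈ Set.Icc (g x) (g y) := by
      rw [hm, hn]
      constructor <;> linarith
    obtain ⟨z, hz, hzg⟩ := hoc hmem
    obtain ⟨p, hp⟩ := hint z hz
    rw [hp, hm] at hzg
    have h2 : (2 * p : ℝ) = 2 * m + 1 := by linarith
    have h3 : 2 * p = 2 * m + 1 := by exact_mod_cast h2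
    omega
  exact le_antisymm (not_lt.mp (key y hy x hx)) (not_lt.mp (key x hx y hy))

private theorem wind_halfPlane (Y : ℝ) : IsPreconnected {z : ℂ | Y < z.im} :=
  (convex_halfSpace_im_gt Y).isPreconnected

/-- A continuous function with values in `2πi ℤ` on a half plane is constant. -/
private theorem wind_const' {Y : ℝ} {d : ℂ → ℂ} (hd : ContinuousOn d {z | Y < z.im})
    (h : ∀ z : ℂ, Y < z.im → Complex.exp (d z) = 1) :
    ∃ n : ℤ, ∀ z : ℂ, Y < z.im → d z = 2 * Real.pi * Complex.I * n := by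
  have hpi : (Real.pi : ℝ) ≠ 0 := Real.pi_ne_zero
  have hint : ∀ z : ℂ, Y < z.im → ∃ n : ℤ, d z = n * (2 * Real.pi * Complex.I) := by
    intro z hz
    exact Complex.exp_eq_one_iff.mp (h z hz)
  have him : ∀ z : ℂ, ∀ n : ℤ, d z = n * (2 * Real.pi * Complex.I) →
      (d z).im / (2 * Real.pi) = n := by
    intro z n hn
    rw [hn]
    have : ((n : ℂ) * (2 * Real.pi * Complex.I)).im = n * (2 * Real.pi) := by simp
    rw [this]
    field_simp
  have hg : ContinuousOn (fun z => (d z).im / (2 * Real.pi)) {z | Y < z.im} :=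
    (Complex.continuous_im.comp_continuousOn hd).div_const _
  have hgi : ∀ z ∈ {z : ℂ | Y < z.im}, ∃ n : ℤ, (d z).im / (2 * Real.pi) = n := by
    intro z hz
    obtain ⟨n, hn⟩ := hint z hz
    exact ⟨n, him z n hn⟩
  have hz0 : Y < (((Y + 1 : ℝ) : ℂ) * Complex.I).im := by simp
  obtain ⟨n, hn⟩ := hint _ hz0
  refine ⟨n, fun z hz => ?_⟩
  obtain ⟨m, hm⟩ := hint z hz
  have h1 := wind_const (wind_halfPlane Y) hg hgi hz hz0
  rw [him z m hm, him _ n hn] at h1
  have h2 : m = n := by exact_mod_cast h1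
  rw [hm, h2]
  ring

theorem HasWind.mul {h : ℕ} {f g : ℂ → ℂ} {m n : ℤ} (hf : HasWind h f m) (hg : HasWind h g n) :
    HasWind h (fun z => f z * g z) (m + n) := by
  obtain ⟨Y₁, L₁, hc₁, he₁, hp₁⟩ := hf
  obtain ⟨Y₂, L₂, hc₂, he₂, hp₂⟩ := hg
  refine ⟨max Y₁ Y₂, fun z => L₁ z + L₂ z, ?_, fun z hz => ?_, fun z hz => ?_⟩
  · exact (hc₁.mono fun z (hz : max Y₁ Y₂ < z.im) => show Y₁ < z.im from
      (le_max_left _ _).trans_lt hz).add
      (hc₂.mono fun z (hz : max Y₁ Y₂ < z.im) => show Y₂ < z.im from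
      (le_max_right _ _).trans_lt hz)
  · rw [Complex.exp_add, ← he₁ z ((le_max_left _ _).trans_lt hz),
      ← he₂ z ((le_max_right _ _).trans_lt hz)]
  · simp only
    rw [hp₁ z ((le_max_left _ _).trans_lt hz), hp₂ z ((le_max_right _ _).trans_lt hz)]
    push_cast
    ring

theorem HasWind.inv {h : ℕ} {f : ℂ → ℂ} {m : ℤ} (hf : HasWind h f m) :
    HasWind h (fun z => (f z)⁻¹) (-m) := by
  obtain ⟨Y, L, hc, he, hp⟩ := hf
  refine ⟨Y, fun z => -L z, hc.neg, fun z hz => ?_, fun z hz => ?_⟩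
  · beta_reduce
    rw [Complex.exp_neg, he z hz]
  · simp only
    rw [hp z hz]
    push_cast
    ring

theorem HasWind.zpow {h : ℕ} {f : ℂ → ℂ} {m : ℤ} (hf : HasWind h f m) (k : ℤ) :
    HasWind h (fun z => f z ^ k) (k * m) := by
  obtain ⟨Y, L, hc, he, hp⟩ := hf
  refine ⟨Y, fun z => k * L z, continuousOn_const.mul hc, fun z hz => ?_, fun z hz => ?_⟩
  · beta_reduce
    rw [Complex.exp_int_mul, he z hz]
  · simp only
    rw [hp z hz]
    push_cast
    ring

theorem HasWind.congr {h : ℕ} {f g : ℂ → ℂ} {n : ℤ} (hf : HasWind h f n) (Y : ℝ)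
    (hfg : ∀ z : ℂ, Y < z.im → f z = g z) : HasWind h g n := by
  obtain ⟨Y₁, L, hc, he, hp⟩ := hf
  refine ⟨max Y₁ Y, L, hc.mono fun z (hz : max Y₁ Y < z.im) => show Y₁ < z.im from
    (le_max_left _ _).trans_lt hz, fun z hz => ?_,
    fun z hz => hp z ((le_max_left _ _).trans_lt hz)⟩
  rw [← hfg z ((le_max_right _ _).trans_lt hz), he z ((le_max_left _ _).trans_lt hz)]

theorem HasWind.pow {h : ℕ} {f : ℂ → ℂ} {m : ℤ} (hf : HasWind h f m) (k : ℕ) :
    HasWind h (fun z => f z ^ k) (k * m) := by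
  have h1 := hf.zpow (k : ℤ)
  exact h1.congr 0 fun z _ => zpow_natCast _ _

theorem HasWind.const (h : ℕ) {a : ℂ} (ha : a ≠ 0) : HasWind h (fun _ => a) 0 :=
  ⟨0, fun _ => Complex.log a, continuousOn_const, fun _ _ => (Complex.exp_log ha).symm,
    fun z _ => by simp⟩

theorem HasWind.prod {h : ℕ} {ι : Type*} (s : Finset ι) {f : ι → ℂ → ℂ} {m : ι → ℤ}
    (hf : ∀ i ∈ s, HasWind h (f i) (m i)) :
    HasWind h (fun z => ∏ i ∈ s, f i z) (∑ i ∈ s, m i) := by
  classical
  induction s using Finset.induction_on with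
  | empty =>
    simp only [Finset.prod_empty, Finset.sum_empty]
    exact HasWind.const h one_ne_zero
  | insert i s hi ih =>
    simp only [Finset.prod_insert hi, Finset.sum_insert hi]
    exact (hf i (Finset.mem_insert_self i s)).mul
      (ih fun j hj => hf j (Finset.mem_insert_of_mem hj))

/-- The exponential `exp(2πi k z)`. -/
theorem hasWind_ee (h : ℕ) (k : ℤ) : HasWind h (fun z => ee (k * z)) (h * k) := by
  refine ⟨0, fun z => 2 * Real.pi * Complex.I * (k * z), by fun_prop, fun z _ => rfl,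
    fun z _ => ?_⟩
  push_cast
  ring

/-- The exponential `exp(2πi k z / h)`. -/
theorem hasWind_ee_div {h : ℕ} (hh : 0 < h) (k : ℤ) : HasWind h (fun z => ee (k * (z / h))) k := by
  have hh' : (h : ℂ) ≠ 0 := by exact_mod_cast hh.ne'
  refine ⟨0, fun z => 2 * Real.pi * Complex.I * (k * (z / h)), by fun_prop, fun z _ => rfl,
    fun z _ => ?_⟩
  simp only
  field_simp

/-- The winding number is unique. -/
theorem HasWind.unique {h : ℕ} {f : ℂ → ℂ} {m n : ℤ} (hf : HasWind h f m) (hg : HasWind h f n) :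
    m = n := by
  obtain ⟨Y₁, L₁, hc₁, he₁, hp₁⟩ := hf
  obtain ⟨Y₂, L₂, hc₂, he₂, hp₂⟩ := hg
  set Y := max Y₁ Y₂ with hY
  have h1 : ∀ z : ℂ, Y < z.im → Y₁ < z.im := fun z hz => (le_max_left _ _).trans_lt hz
  have h2 : ∀ z : ℂ, Y < z.im → Y₂ < z.im := fun z hz => (le_max_right _ _).trans_lt hz
  have hd : ContinuousOn (fun z => L₁ z - L₂ z) {z | Y < z.im} :=
    (hc₁.mono h1).sub (hc₂.mono h2)
  obtain ⟨k, hk⟩ := wind_const' hd fun z hz => by
    rw [Complex.exp_sub, ← he₁ z (h1 z hz), ← he₂ z (h2 z hz)]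
    apply div_self
    rw [he₁ z (h1 z hz)]
    exact Complex.exp_ne_zero _
  set z₀ : ℂ := ((Y + 1 : ℝ) : ℂ) * Complex.I with hz₀
  have hz0 : Y < z₀.im := by simp [hz₀]
  have e1 := hk z₀ hz0
  have e2 := hk (z₀ + h) (by rw [wind_im_add]; exact hz0)
  rw [hp₁ z₀ (h1 _ hz0), hp₂ z₀ (h2 _ hz0)] at e2
  have hpi : (2 * Real.pi * Complex.I : ℂ) ≠ 0 := Complex.two_pi_I_ne_zero
  have e3 : (2 * Real.pi * Complex.I : ℂ) * m = 2 * Real.pi * Complex.I * n := by
    linear_combination e2 - e1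
  have e4 := mul_left_cancel₀ hpi e3
  exact_mod_cast e4

/-- Multiples of the period. -/
theorem HasWind.mul_period {h : ℕ} {f : ℂ → ℂ} {m : ℤ} (hf : HasWind h f m) (k : ℕ) :
    HasWind (k * h) f (k * m) := by
  obtain ⟨Y, L, hc, he, hp⟩ := hf
  refine ⟨Y, L, hc, he, fun z hz => ?_⟩
  have key : ∀ j : ℕ, L (z + (j : ℂ) * h) = L z + 2 * Real.pi * Complex.I * (j * m) := by
    intro j
    induction j with
    | zero => simp
    | succ j ih =>
      have h1 : z + ((j + 1 : ℕ) : ℂ) * h = (z + (j : ℂ) * h) + h := by push_cast; ring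
      rw [h1, hp _ (by rw [wind_im_add']; exact hz), ih]
      push_cast
      ring
  have := key k
  push_cast
  exact this

/-- Division of the period. -/
theorem HasWind.of_period {h k : ℕ} (hk : 0 < k) {f : ℂ → ℂ} {m : ℤ} (hf : HasWind (k * h) f m)
    (Y : ℝ) (hper : ∀ z : ℂ, Y < z.im → f (z + h) = f z) : ∃ n : ℤ, HasWind h f n ∧ k * n = m := by
  have hf' := hf
  have _ := hk
  obtain ⟨Y₁, L, hc, he, hp⟩ := hf
  set Y' := max Y₁ Y with hY'
  have h1 : ∀ z : ℂ, Y' < z.im → Y₁ < z.im := fun z hz => (le_max_left _ _).trans_lt hz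
  have h2 : ∀ z : ℂ, Y' < z.im → Y < z.im := fun z hz => (le_max_right _ _).trans_lt hz
  have hd : ContinuousOn (fun z => L (z + h) - L z) {z | Y' < z.im} := by
    refine ContinuousOn.sub ?_ (hc.mono h1)
    refine hc.comp (by fun_prop) fun z hz => ?_
    show Y₁ < (z + h).im
    rw [wind_im_add]
    exact h1 z hz
  obtain ⟨n, hn⟩ := wind_const' hd fun z hz => by
    rw [Complex.exp_sub, ← he z (h1 z hz), ← he (z + h) (by rw [wind_im_add]; exact h1 z hz),
      hper z (h2 z hz)]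
    apply div_self
    rw [he z (h1 z hz)]
    exact Complex.exp_ne_zero _
  have hw : HasWind h f n := by
    refine ⟨Y', L, hc.mono h1, fun z hz => he z (h1 z hz), fun z hz => ?_⟩
    have := hn z hz
    linear_combination this
  exact ⟨n, hw, (hw.mul_period k).unique hf'⟩

/-- A function asymptotic to a constant times a positive function has winding number zero. -/
theorem HasWind.of_tendsto {h : ℕ} {f : ℂ → ℂ} {a : ℂ} (ha : a ≠ 0) {r : ℂ → ℝ} (Y : ℝ)
    (hf : ContinuousOn f {z | Y < z.im}) (hfp : ∀ z : ℂ, Y < z.im → f (z + h) = f z)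
    (hr : ContinuousOn r {z | Y < z.im}) (hrp : ∀ z : ℂ, Y < z.im → r (z + h) = r z)
    (hpos : ∀ z : ℂ, Y < z.im → 0 < r z)
    (ht : Tendsto (fun z => f z / r z) (comap Complex.im atTop) (𝓝 a)) : HasWind h f 0 := by
  have ht' : Tendsto (fun z => f z / r z / a) (comap Complex.im atTop) (𝓝 1) := by
    have := ht.div_const a
    rwa [div_self ha] at this
  have hev := ht' (Metric.ball_mem_nhds (1 : ℂ) one_pos)
  rw [mem_map] at hev
  obtain ⟨Y₁, -, hY₁⟩ := (atTop_basis_Ioi.comap Complex.im).mem_iff.mp hev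
  set Y' := max Y Y₁ with hY'
  have h1 : ∀ z : ℂ, Y' < z.im → Y < z.im := fun z hz => (le_max_left _ _).trans_lt hz
  have h2 : ∀ z : ℂ, Y' < z.im → Y₁ < z.im := fun z hz => (le_max_right _ _).trans_lt hz
  have hslit : ∀ z : ℂ, Y' < z.im → f z / r z / a ∈ Complex.slitPlane := by
    intro z hz
    have := hY₁ (show z ∈ Complex.im ⁻¹' Set.Ioi Y₁ from h2 z hz)
    rw [Set.mem_preimage] at this
    exact Complex.ball_one_subset_slitPlane this
  have hrne : ∀ z : ℂ, Y' < z.im → (r z : ℂ) ≠ 0 := fun z hz => by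
    exact_mod_cast (hpos z (h1 z hz)).ne'
  refine ⟨Y', fun z => Complex.log (f z / r z / a) + Complex.log a + (Real.log (r z) : ℂ), ?_,
    fun z hz => ?_, fun z hz => ?_⟩
  · refine ContinuousOn.add (ContinuousOn.add (ContinuousOn.clog ?_ hslit) continuousOn_const) ?_
    · refine ContinuousOn.div_const ?_ a
      exact (hf.mono h1).div (Complex.continuous_ofReal.comp_continuousOn (hr.mono h1))
        (fun z hz => hrne z hz)
    · refine Complex.continuous_ofReal.comp_continuousOn ?_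
      exact (hr.mono h1).log fun z hz => (hpos z (h1 z hz)).ne'
  · have hne : f z / r z / a ≠ 0 := Complex.slitPlane_ne_zero (hslit z hz)
    rw [Complex.exp_add, Complex.exp_add, Complex.exp_log hne, Complex.exp_log ha,
      ← Complex.ofReal_exp, Real.exp_log (hpos z (h1 z hz))]
    have := hrne z hz
    field_simp
  · simp only
    rw [hfp z (h1 z hz), hrp z (h1 z hz)]
    simp

end Pool.Agent.LibUB33
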